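import Pool.Agent.Lib.MP_663568_q.R06

/-!
# Normalization and finite sums
-/

set_option autoImplicit false
set_option linter.unusedSectionVars false
open Finset

namespace Pool.Agent.Lib.MP_663568_nt.Q

open Katai Tw Fib Nul T3 E H6

lemma famR_bdd {G : Type} [Group G] {β₁ : Type} [Fintype β₁] (p : G → β₁ → ℝ) (C : ℕ)
    (R d δ : ℝ) (T : Set (ℕ → ℂ)) (F : G → ℂ) (B B' : ℝ) (hB : ∀ x, ‖F x‖ ≤ B)
    (hT : ∀ t ∈ T, ∀ l, ‖t l‖ ≤ B') (a : ℕ → ℂ) (ha : ∀ n, ‖a n‖ ≤ 1)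
    (H n : ℕ) : BddAbove (Set.range fun i =>
      ‖∑ h ∈ Icc 1 H, famR p C R d δ T F i (n + h) * a (n + h)‖) := by
  have hB0 : 0 ≤ B := (norm_nonneg _).trans (hB 1)
  refine ⟨H * (B * B'), ?_⟩
  rintro _ ⟨i, rfl⟩
  have hB'0 : 0 ≤ B' := (norm_nonneg _).trans (hT _ i.2.2.2 0)
  calc _ ≤ ∑ h ∈ Icc 1 H, ‖famR p C R d δ T F i (n + h) * a (n + h)‖ := norm_sum_le _ _
    _ ≤ ∑ _h ∈ Icc 1 H, B * B' := by
        refine sum_le_sum fun h _ => ?_
        rw [norm_mul, famR, norm_mul]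
        calc _ ≤ B * B' * 1 := mul_le_mul (mul_le_mul (hB _) (hT _ i.2.2.2 _) (norm_nonneg _) hB0)
              (ha _) (norm_nonneg _) (mul_nonneg hB0 hB'0)
          _ = B * B' := mul_one _
    _ = H * (B * B') := by simp

lemma le_GGR {G : Type} [Group G] {β₁ : Type} [Fintype β₁] {p : G → β₁ → ℝ} {C : ℕ}
    {R d δ : ℝ} {T : Set (ℕ → ℂ)} {F : G → ℂ} (hF : ∃ B : ℝ, ∀ x, ‖F x‖ ≤ B) (hT : BddF T)
    {a : ℕ → ℂ} (ha : ∀ n, ‖a n‖ ≤ 1) (H n : ℕ) (i : IdR p C R d δ T) :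
    ‖∑ h ∈ Icc 1 H, famR p C R d δ T F i (n + h) * a (n + h)‖ ≤
      GG (famR p C R d δ T F) a H n := by
  obtain ⟨B, hB⟩ := hF
  obtain ⟨B', _, hB'⟩ := hT
  exact le_ciSup (f := fun i => ‖∑ h ∈ Icc 1 H, famR p C R d δ T F i (n + h) * a (n + h)‖)
    (famR_bdd p C R d δ T F B B' hB hB' a ha H n) i

lemma MEpsR.const_mul {G : Type} [Group G] {β₁ : Type} [Fintype β₁] {T : Set (ℕ → ℂ)}
    {p : G → β₁ → ℝ} {F : G → ℂ} {ε : ℝ} (h : MEpsR T p F ε) (c : ℂ) :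
    MEpsR T p (fun x => c * F x) (‖c‖ * ε) := by
  obtain ⟨C₀, hC₀, h⟩ := h
  refine ⟨C₀, hC₀, fun C hC a ha hmul R d δ hR hδ hδd hd1 H N hH hHN => ?_⟩
  have h1 := h C hC a ha hmul R d δ hR hδ hδd hd1 H N hH hHN
  have h2 : ∀ n, GG (famR p C R d δ T fun x => c * F x) a H n =
      ‖c‖ * GG (famR p C R d δ T F) a H n := by
    intro n
    unfold GG
    rw [Real.mul_iSup_of_nonneg (norm_nonneg c)]
    congr 1
    funext i
    rw [← norm_mul, mul_sum]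
    congr 1
    refine sum_congr rfl fun h _ => ?_
    simp only [famR]
    ring
  simp only [h2]
  have h3 : ∑ n ∈ Icc 1 N, (1 / (n : ℝ)) * (‖c‖ * GG (famR p C R d δ T F) a H n) =
      ‖c‖ * ∑ n ∈ Icc 1 N, (1 / (n : ℝ)) * GG (famR p C R d δ T F) a H n := by
    rw [mul_sum]
    exact sum_congr rfl fun n _ => by ring
  rw [h3]
  calc _ ≤ ‖c‖ * (ε * H * Real.log N) := mul_le_mul_of_nonneg_left h1 (norm_nonneg c)
    _ = _ := by ring

/-- multiples of a tame family -/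
lemma tame_smul {d : ℕ} {T : Set (ℕ → ℂ)} (h : Tame d T) (b : ℂ) :
    Tame d {s | ∃ t ∈ T, s = fun l => b * t l} := by
  have hb : Tame 0 {s : ℕ → ℂ | s = fun _ => b} := by
    refine ⟨⟨‖b‖ + 1, by positivity, ?_⟩, ?_⟩
    · rintro s rfl l
      simp
    · rintro s rfl l
      rfl
  refine ((hb.mono (Nat.zero_le d)).mul h).subset ?_
  rintro s ⟨t, ht, rfl⟩
  exact ⟨_, rfl, t, ht, rfl⟩

section

variable {G : Type} [Group G] [TopologicalSpace G] [IsTopologicalGroup G] {A : ℕ → Subgroup G}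
  {Γ : Subgroup G}
  {β : ℕ → Type} [∀ s, Fintype (β s)] [∀ s, DecidableEq (β s)]
  {π : (s : ℕ) → G → β s → ℝ} {e : (s : ℕ) → β s → ℝ → G}

private theorem char_R_one (hN : NS A Γ π e) (k : ℕ) (T : Set (ℕ → ℂ)) (hT : Tame (k + 1) T)
    (hT1 : ∀ t ∈ T, ∀ l, ‖t l‖ ≤ 1) (F : G → ℂ)
    (hF : LevN A Γ e (k + 2) F) (hG : GoodN e (k + 2) F) (ε : ℝ) (hε : 0 < ε) :
    MEpsR T (π 1) F ε := by
  have hCo : Cocompact' Γ := by
    obtain ⟨C, hC1, _, hC3⟩ := hN.coc 0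
    exact ⟨C, hC1, fun x => hC3 x (by rw [hN.A0]; trivial)⟩
  obtain ⟨B, hB0, hB⟩ := reg_bdd hCo hF.1
  set F' : G → ℂ := fun x => (B : ℂ)⁻¹ * F x with hF'
  have hF'L : LevN A Γ e (k + 2) F' := by
    refine ⟨reg_const_mul hF.1 _, fun z hz x => ?_, fun j => ?_⟩
    · simp only [hF']; rw [hF.2.1 z hz x]
    · obtain ⟨m, hm⟩ := hF.2.2 j
      exact ⟨m, hm.mul_const _⟩
  have hF'1 : ∀ x, ‖F' x‖ ≤ 1 := by
    intro x
    simp only [hF']
    rw [norm_mul, norm_inv, Complex.norm_real, Real.norm_eq_abs, abs_of_pos hB0,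
      inv_mul_le_iff₀ hB0, mul_one]
    exact hB x
  have hF'G : GoodN e (k + 2) F' := by
    obtain ⟨j, m, hm, h⟩ := hG
    exact ⟨j, m, hm, h.mul_const _⟩
  have h1 := (char_normR hN k T hT hT1 F' hF'L hF'G hF'1 (ε / B) (by positivity)).const_mul
    (B : ℂ)
  have e1 : (fun x => (B : ℂ) * F' x) = F := by
    funext x
    simp only [hF']
    have : (B : ℂ) ≠ 0 := by exact_mod_cast hB0.ne'
    field_simp
  rw [e1, Complex.norm_real, Real.norm_eq_abs, abs_of_pos hB0] at h1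
  have e2 : B * (ε / B) = ε := by field_simp
  rwa [e2] at h1

/-- The uniform estimate for functions of level at least two, with twists. -/
theorem char_R (hN : NS A Γ π e) (k : ℕ) (T : Set (ℕ → ℂ)) (hT : Tame (k + 1) T) (F : G → ℂ)
    (hF : LevN A Γ e (k + 2) F) (hG : GoodN e (k + 2) F) (ε : ℝ) (hε : 0 < ε) :
    MEpsR T (π 1) F ε := by
  obtain ⟨B, hB, hTB⟩ := hT.bdd
  have hBne : (B : ℂ) ≠ 0 := by exact_mod_cast hB.ne'
  set T' : Set (ℕ → ℂ) := {s | ∃ t ∈ T, s = fun l => (B : ℂ)⁻¹ * t l} with hT'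
  have hT'1 : ∀ s ∈ T', ∀ l, ‖s l‖ ≤ 1 := by
    rintro s ⟨t, ht, rfl⟩ l
    rw [norm_mul, norm_inv, Complex.norm_real, Real.norm_eq_abs, abs_of_pos hB,
      inv_mul_le_iff₀ hB, mul_one]
    exact hTB t ht l
  have h1 := char_R_one hN k T' (tame_smul hT _) hT'1 F hF hG (ε / B) (by positivity)
  have h2 := h1.const_mul (B : ℂ)
  rw [Complex.norm_real, Real.norm_eq_abs, abs_of_pos hB] at h2
  have e2 : B * (ε / B) = ε := by field_simp
  rw [e2] at h2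
  have hCo : Cocompact' Γ := by
    obtain ⟨C, hC1, _, hC3⟩ := hN.coc 0
    exact ⟨C, hC1, fun x => hC3 x (by rw [hN.A0]; trivial)⟩
  obtain ⟨B₁, hB₁0, hB₁⟩ := reg_bdd hCo hF.1
  obtain ⟨C₀, hC₀, h2⟩ := h2
  refine ⟨C₀, hC₀, fun C hC a ha hmul R d δ hR hδ hδd hd1 H N hH hHN =>
    le_trans (sum_le_sum fun n _ => ?_) (h2 C hC a ha hmul R d δ hR hδ hδd hd1 H N hH hHN)⟩
  refine mul_le_mul_of_nonneg_left ?_ (by positivity)
  refine Real.iSup_le ?_ (GG_nonneg _ _ _ _)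
  rintro ⟨g, x, ⟨t, ht⟩⟩
  refine le_trans (le_of_eq ?_) (le_GGR (T := T') (F := fun x => (B : ℂ) * F x) ⟨B * B₁, fun x => by
    rw [norm_mul, Complex.norm_real, Real.norm_eq_abs, abs_of_pos hB]
    exact mul_le_mul_of_nonneg_left (hB₁ x) hB.le⟩ ⟨1, one_pos, hT'1⟩ ha H n
    (g, x, ⟨fun l => (B : ℂ)⁻¹ * t l, t, ht, rfl⟩))
  congr 1
  refine sum_congr rfl fun h _ => ?_
  simp only [famR]
  field_simp

end

section

variable {G : Type} [Group G] {β₁ : Type} [Fintype β₁]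

lemma mepsR_zero (T : Set (ℕ → ℂ)) (p : G → β₁ → ℝ) (F : G → ℂ)
    (hF : ∀ x, F x = 0) (ε : ℝ) (hε : 0 < ε) : MEpsR T p F ε := by
  refine ⟨1, le_rfl, fun C hC a ha hmul R d δ hR hδ hδd hd1 H N hH hHN => ?_⟩
  have hGG : ∀ n, GG (famR p C R d δ T F) a H n = 0 := by
    intro n
    refine le_antisymm (Real.iSup_le (fun i => ?_) le_rfl) (GG_nonneg _ _ _ _)
    have : ∑ h ∈ Icc 1 H, famR p C R d δ T F i (n + h) * a (n + h) = 0 :=
      sum_eq_zero fun h _ => by simp only [famR]; rw [hF, zero_mul, zero_mul]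
    rw [this, norm_zero]
  simp only [hGG, mul_zero, sum_const_zero]
  have h5 : 0 ≤ (H : ℝ) * Real.log N := mul_nonneg (by positivity) (Real.log_natCast_nonneg N)
  calc (0 : ℝ) ≤ ε * (H * Real.log N) := mul_nonneg hε.le h5
    _ = _ := by ring

/-- from a pointwise bound for the suprema -/
private theorem log_assemblyR (ι : Type) [Fintype ι] (g : ι → ℕ → ℝ) (G₀ : ℕ → ℝ) (ε : ℝ)
    (hε : 0 < ε) (M H : ℕ) (hM3 : 3 ≤ M)
    (hH : ∀ i, ∑ n ∈ Icc 1 M, (1 / (n : ℝ)) * g i n ≤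
      ε / (2 * (Fintype.card ι + 1)) * H * Real.log M)
    (hpt : ∀ n, G₀ n ≤ ∑ i, g i n + ε / 4 * H) :
    ∑ n ∈ Icc 1 M, (1 / (n : ℝ)) * G₀ n ≤ ε * H * Real.log M := by
  have hlogM : 1 ≤ Real.log M := by
    rw [Real.le_log_iff_exp_le (by positivity)]
    have h1 : Real.exp 1 < 2.7182818286 := Real.exp_one_lt_d9
    have h2 : (3 : ℝ) ≤ M := by exact_mod_cast hM3
    linarith
  have hH0 : (0 : ℝ) ≤ H := by positivity
  calc _ ≤ ∑ n ∈ Icc 1 M, (1 / (n : ℝ)) * (∑ i, g i n + ε / 4 * H) := by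
        refine sum_le_sum fun n _ => ?_
        exact mul_le_mul_of_nonneg_left (hpt n) (by positivity)
    _ = ∑ i, ∑ n ∈ Icc 1 M, (1 / (n : ℝ)) * g i n
        + (∑ n ∈ Icc 1 M, (1 / (n : ℝ))) * (ε / 4 * H) := by
        simp only [mul_add, sum_add_distrib]
        congr 1
        · simp only [mul_sum]
          rw [sum_comm]
        · rw [sum_mul]
    _ ≤ ∑ _i : ι, (ε / (2 * (Fintype.card ι + 1)) * H * Real.log M)
        + (1 + Real.log M) * (ε / 4 * H) := by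
        apply add_le_add
        · exact sum_le_sum fun i _ => hH i
        · exact mul_le_mul_of_nonneg_right (sum_inv_le_log M) (by positivity)
    _ = (Fintype.card ι : ℝ) / (Fintype.card ι + 1) * (ε / 2 * H * Real.log M)
        + (1 + Real.log M) * (ε / 4 * H) := by
        rw [sum_const, card_univ, nsmul_eq_mul]
        field_simp
    _ ≤ 1 * (ε / 2 * H * Real.log M) + (Real.log M + Real.log M) * (ε / 4 * H) := by
        apply add_le_add
        · apply mul_le_mul_of_nonneg_right _ (by positivity)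
          rw [div_le_one (by positivity)]; linarith
        · apply mul_le_mul_of_nonneg_right _ (by positivity)
          linarith
    _ = ε * H * Real.log M := by ring

private lemma three_le {C H N : ℕ} {Y : ℝ} (hC : 3 ≤ C) (hY : 1 ≤ Y) (hH : C * Y ^ C ≤ H)
    (hHN : H ≤ N) : 3 ≤ N := by
  have hC3 : (3 : ℝ) ≤ C := by exact_mod_cast hC
  have hH3 : (3 : ℝ) ≤ H := by
    refine le_trans ?_ hH
    calc (3 : ℝ) = 3 * 1 := by ring
      _ ≤ C * Y ^ C := mul_le_mul hC3 (one_le_pow₀ hY) zero_le_one (Nat.cast_nonneg _)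
  have : 3 ≤ H := by exact_mod_cast hH3
  omega

/-- finite sums and approximation, in the function -/
theorem mepsR_approx (T : Set (ℕ → ℂ)) (hT : BddF T) (B₁ : ℝ) (hB₁ : 0 < B₁)
    (hTB : ∀ t ∈ T, ∀ l, ‖t l‖ ≤ B₁) (p : G → β₁ → ℝ) (F : G → ℂ)
    (ε : ℝ) (hε : 0 < ε)
    (ι : Type) [Fintype ι] (Fs : ι → G → ℂ) (hB : ∀ i, ∃ B : ℝ, ∀ x, ‖Fs i x‖ ≤ B)
    (hFs : ∀ i, MEpsR T p (Fs i) (ε / (2 * (Fintype.card ι + 1))))
    (hap : ∀ x, ‖F x - ∑ i, Fs i x‖ ≤ ε / (4 * B₁)) : MEpsR T p F ε := by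
  choose C₀ hC₀ hmain using hFs
  refine ⟨∑ i, C₀ i + 3, by omega, fun C hC a ha hmul R d δ hR hδ hδd hd1 H N hH hHN => ?_⟩
  have hCle : ∀ i, C₀ i ≤ C := fun i =>
    (single_le_sum (f := fun i => C₀ i) (fun _ _ => Nat.zero_le _) (mem_univ i)).trans (by omega)
  have hY1 : 1 ≤ R / δ := by
    rw [le_div_iff₀ hδ]
    linarith
  refine log_assemblyR ι (fun i n => GG (famR p C R d δ T (Fs i)) a H n)
    (fun n => GG (famR p C R d δ T F) a H n) ε hε N H (three_le (by omega) hY1 hH hHN)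
    (fun i => hmain i C (hCle i) a ha hmul R d δ hR hδ hδd hd1 H N hH hHN) ?_
  intro n
  refine Real.iSup_le ?_ (add_nonneg (sum_nonneg fun _ _ => GG_nonneg _ _ _ _) (by positivity))
  intro v
  have e1 : ∑ h ∈ Icc 1 H, famR p C R d δ T F v (n + h) * a (n + h) =
      ∑ i, ∑ h ∈ Icc 1 H, famR p C R d δ T (Fs i) v (n + h) * a (n + h) +
      ∑ h ∈ Icc 1 H, ((F ((v.1 : G) ^ (n + h) * v.2.1) -
        ∑ i, Fs i ((v.1 : G) ^ (n + h) * v.2.1)) * v.2.2.1 (n + h)) * a (n + h) := by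
    rw [sum_comm, ← sum_add_distrib]
    refine sum_congr rfl fun h _ => ?_
    simp only [famR]
    rw [← sum_mul, ← sum_mul]
    ring
  rw [e1]
  refine (norm_add_le _ _).trans (add_le_add ?_ ?_)
  · refine (norm_sum_le _ _).trans (sum_le_sum fun i _ => ?_)
    exact le_GGR (hB i) hT ha H n v
  · calc _ ≤ ∑ h ∈ Icc 1 H, ‖((F ((v.1 : G) ^ (n + h) * v.2.1) -
        ∑ i, Fs i ((v.1 : G) ^ (n + h) * v.2.1)) * v.2.2.1 (n + h)) * a (n + h)‖ :=
          norm_sum_le _ _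
      _ ≤ ∑ _h ∈ Icc 1 H, ε / 4 := by
          refine sum_le_sum fun h _ => ?_
          rw [norm_mul, norm_mul]
          calc _ ≤ ε / (4 * B₁) * B₁ * 1 := mul_le_mul (mul_le_mul (hap _) (hTB _ v.2.2.2 _)
                (norm_nonneg _) (by positivity)) (ha _) (norm_nonneg _) (by positivity)
            _ = ε / 4 := by field_simp
      _ = ε / 4 * H := by simp [mul_comm]

/-- Families of sequences which are, up to `ε`, sums of elements of a tame family. -/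
def QTm (d : ℕ) (T : Set (ℕ → ℂ)) : Prop :=
  ∀ ε : ℝ, 0 < ε → ∃ S : Set (ℕ → ℂ), Tame d S ∧ ∃ (I : Type) (_ : Fintype I), ∀ t ∈ T,
    ∃ c : I → ℕ → ℂ, (∀ i, c i ∈ S ∨ c i = 0) ∧ ∀ l, ‖t l - ∑ i, c i l‖ ≤ ε

/-- finite sums and approximation, in the twist -/
theorem mepsR_qtm (k : ℕ) (p : G → β₁ → ℝ) (F : G → ℂ) (B : ℝ) (hB : ∀ x, ‖F x‖ ≤ B)
    (hB0 : 0 < B) (h : ∀ S, Tame k S → ∀ ε : ℝ, 0 < ε → MEpsR S p F ε)
    (T : Set (ℕ → ℂ)) (hT : QTm k T) (ε : ℝ) (hε : 0 < ε) : MEpsR T p F ε := by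
  obtain ⟨S, hS, I, hI, hTS⟩ := hT (ε / (4 * B)) (by positivity)
  obtain ⟨C₀, hC₀, hmain⟩ := h S hS (ε / (2 * (Fintype.card I + 1))) (by positivity)
  refine ⟨C₀ + 3, by omega, fun C hC a ha hmul R d δ hR hδ hδd hd1 H N hH hHN => ?_⟩
  have hY1 : 1 ≤ R / δ := by
    rw [le_div_iff₀ hδ]
    linarith
  refine log_assemblyR I (fun _ n => GG (famR p C R d δ S F) a H n)
    (fun n => GG (famR p C R d δ T F) a H n) ε hε N H (three_le (by omega) hY1 hH hHN)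
    (fun i => hmain C (by omega) a ha hmul R d δ hR hδ hδd hd1 H N hH hHN) ?_
  intro n
  refine Real.iSup_le ?_ (add_nonneg (sum_nonneg fun _ _ => GG_nonneg _ _ _ _) (by positivity))
  rintro ⟨g, x, ⟨t, ht⟩⟩
  obtain ⟨c, hc, hcl⟩ := hTS t ht
  have e1 : ∑ h ∈ Icc 1 H, famR p C R d δ T F (g, x, ⟨t, ht⟩) (n + h) * a (n + h) =
      ∑ i, ∑ h ∈ Icc 1 H, (F ((g : G) ^ (n + h) * x) * c i (n + h)) * a (n + h) +
      ∑ h ∈ Icc 1 H, (F ((g : G) ^ (n + h) * x) * (t (n + h) - ∑ i, c i (n + h))) *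
        a (n + h) := by
    rw [sum_comm, ← sum_add_distrib]
    refine sum_congr rfl fun h _ => ?_
    simp only [famR]
    rw [← sum_mul, ← mul_sum]
    ring
  rw [e1]
  refine (norm_add_le _ _).trans (add_le_add ?_ ?_)
  · refine (norm_sum_le _ _).trans (sum_le_sum fun i _ => ?_)
    rcases hc i with h1 | h1
    · exact le_GGR ⟨B, hB⟩ hS.bdd ha H n (g, x, ⟨c i, h1⟩)
    · rw [h1]
      simp only [Pi.zero_apply, mul_zero, zero_mul, sum_const_zero, norm_zero]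
      exact GG_nonneg _ _ _ _
  · calc _ ≤ ∑ h ∈ Icc 1 H, ‖(F ((g : G) ^ (n + h) * x) * (t (n + h) - ∑ i, c i (n + h))) *
        a (n + h)‖ := norm_sum_le _ _
      _ ≤ ∑ _h ∈ Icc 1 H, ε / 4 := by
          refine sum_le_sum fun h _ => ?_
          rw [norm_mul, norm_mul]
          calc _ ≤ B * (ε / (4 * B)) * 1 := mul_le_mul (mul_le_mul (hB _) (hcl _)
                (norm_nonneg _) hB0.le) (ha _) (norm_nonneg _) (by positivity)
            _ = ε / 4 := by field_simp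
      _ = ε / 4 * H := by simp [mul_comm]

end

end Pool.Agent.Lib.MP_663568_nt.Q
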