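import Pool.Agent.Lib.MP_663568_t3.TVdc

/-!
# The inequality of van der Corput along multiples of a shift
-/

set_option autoImplicit false
open Finset

namespace Pool.Agent.Lib.MP_663568_nt.Q

open T3

theorem vdcA (u : ℕ → ℂ) (hu : ∀ n, ‖u n‖ ≤ 1) (ε : ℝ) (hε : 0 < ε) (hε1 : ε ≤ 1) (d R L : ℕ)
    (S : Finset ℕ) (hR : 32 ≤ ε ^ 2 * R) (hL : 128 * ((d : ℝ) * R) ≤ ε ^ 2 * L)
    (hL0 : (0 : ℝ) < L)
    (hS : 64 * (S.card : ℝ) ≤ ε ^ 2 * R)
    (h : ∀ r ∈ Icc 1 R, r ∉ S →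
      ‖∑ l ∈ Icc 1 L, u (l + d * r) * (starRingEnd ℂ) (u l)‖ ≤ ε ^ 2 / 64 * L) :
    ‖∑ l ∈ Icc 1 L, u l‖ ≤ ε * L := by
  have hR0 : (0 : ℝ) < R := by
    by_contra hcon
    have : (R : ℝ) = 0 := le_antisymm (not_lt.mp hcon) (Nat.cast_nonneg R)
    rw [this] at hR
    linarith
  -- the correlations
  set γ : ℕ → ℝ := fun r => ‖∑ l ∈ Icc 1 L, u (l + d * r) * (starRingEnd ℂ) (u l)‖ with hγ
  have hγ0 : ∀ r, 0 ≤ γ r := fun r => norm_nonneg _
  have hγL : ∀ r, γ r ≤ L := by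
    intro r
    refine (norm_sum_le _ _).trans ?_
    have : ∀ l ∈ Icc 1 L, ‖u (l + d * r) * (starRingEnd ℂ) (u l)‖ ≤ 1 := by
      intro l _
      rw [norm_mul, RCLike.norm_conj]
      exact mul_le_one₀ (hu _) (norm_nonneg _) (hu _)
    refine (Finset.sum_le_sum this).trans ?_
    simp
  have hd0 : (0 : ℝ) ≤ d := Nat.cast_nonneg _
  have hcorr1 : ∀ a r : ℕ, ‖∑ l ∈ Icc 1 L, u (l + d * (a + r)) *
      (starRingEnd ℂ) (u (l + d * a))‖ ≤ γ r + 2 * (d * a) := by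
    intro a r
    have h1 := vdc_shift (fun l => u (l + d * r) * (starRingEnd ℂ) (u l)) (fun n => by
      rw [norm_mul, RCLike.norm_conj]
      exact mul_le_one₀ (hu _) (norm_nonneg _) (hu _)) L (d * a)
    have h2 : ∑ l ∈ Icc 1 L, u (l + d * (a + r)) * (starRingEnd ℂ) (u (l + d * a)) =
        (∑ l ∈ Icc 1 L, u (l + d * a + d * r) * (starRingEnd ℂ) (u (l + d * a)) -
          ∑ l ∈ Icc 1 L, u (l + d * r) * (starRingEnd ℂ) (u l)) +
          ∑ l ∈ Icc 1 L, u (l + d * r) * (starRingEnd ℂ) (u l) := by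
      rw [sub_add_cancel]
      refine Finset.sum_congr rfl fun l _ => ?_
      rw [mul_add, add_assoc]
    rw [h2]
    refine (norm_add_le _ _).trans ?_
    push_cast at h1
    linarith
  have hcorr : ∀ a b : ℕ, a < R → b < R →
      ‖∑ l ∈ Icc 1 L, u (l + d * a) * (starRingEnd ℂ) (u (l + d * b))‖ ≤
        γ ((a - b) + (b - a)) + 2 * (d * R) := by
    intro a b ha hb
    have haR : (d : ℝ) * a ≤ d * R := mul_le_mul_of_nonneg_left (by exact_mod_cast ha.le) hd0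
    have hbR : (d : ℝ) * b ≤ d * R := mul_le_mul_of_nonneg_left (by exact_mod_cast hb.le) hd0
    rcases le_total b a with hab | hab
    · have h1 := hcorr1 b (a - b)
      have h2 : b + (a - b) = a := by omega
      have h3 : (a - b) + (b - a) = a - b := by omega
      rw [h2] at h1
      rw [h3]
      linarith
    · have h1 := hcorr1 a (b - a)
      have h2 : a + (b - a) = b := by omega
      have h3 : (a - b) + (b - a) = b - a := by omega
      rw [h2] at h1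
      rw [h3]
      have h4 : ‖∑ l ∈ Icc 1 L, u (l + d * a) * (starRingEnd ℂ) (u (l + d * b))‖ =
          ‖∑ l ∈ Icc 1 L, u (l + d * b) * (starRingEnd ℂ) (u (l + d * a))‖ := by
        rw [← RCLike.norm_conj, map_sum]
        congr 1
        refine Finset.sum_congr rfl fun l _ => ?_
        rw [map_mul, RCLike.conj_conj, mul_comm]
      rw [h4]
      linarith
  -- sum of the correlations
  have hsum : ∑ j ∈ range R, γ (j + 1) ≤ R * (ε ^ 2 / 64 * L) + S.card * L := by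
    have h1 : ∑ j ∈ range R, γ (j + 1) ≤
        ∑ j ∈ range R, (ε ^ 2 / 64 * L + if j + 1 ∈ S then (L : ℝ) else 0) := by
      refine Finset.sum_le_sum fun j hj => ?_
      have hj' := Finset.mem_range.mp hj
      by_cases hjS : j + 1 ∈ S
      · rw [if_pos hjS]
        have := hγL (j + 1)
        have : 0 ≤ ε ^ 2 / 64 * L := by positivity
        linarith [hγL (j + 1)]
      · rw [if_neg hjS, add_zero]
        exact h (j + 1) (Finset.mem_Icc.mpr ⟨by omega, by omega⟩) hjS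
    refine h1.trans ?_
    rw [Finset.sum_add_distrib, Finset.sum_const, Finset.card_range, nsmul_eq_mul,
      ← Finset.sum_filter, Finset.sum_const, nsmul_eq_mul]
    have h2 : ((range R).filter fun j => j + 1 ∈ S).card ≤ S.card := by
      refine Finset.card_le_card_of_injOn (fun j => j + 1) ?_ ?_
      · intro j hj
        have := (Finset.mem_filter.mp (Finset.mem_coe.mp hj)).2
        exact this
      · intro x _ y _ hxy
        simpa using hxy
    have h3 : (((range R).filter fun j => j + 1 ∈ S).card : ℝ) ≤ S.card := by exact_mod_cast h2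
    have := mul_le_mul_of_nonneg_right h3 hL0.le
    linarith
  set V : ℕ → ℂ := fun l => ∑ a ∈ range R, u (l + d * a) with hV
  -- second moment
  have hV2 : ∑ l ∈ Icc 1 L, ‖V l‖ ^ 2 ≤
      R * (L + 2 * (R * (ε ^ 2 / 64 * L) + S.card * L) + R * (2 * (d * R))) := by
    have h1 : ∀ l, ((‖V l‖ ^ 2 : ℝ) : ℂ) =
        ∑ a ∈ range R, ∑ b ∈ range R, u (l + d * a) * (starRingEnd ℂ) (u (l + d * b)) := by
      intro l
      rw [Complex.ofReal_pow, ← Complex.mul_conj', hV]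
      simp only
      rw [map_sum, Finset.sum_mul_sum]
    have h2 : ((∑ l ∈ Icc 1 L, ‖V l‖ ^ 2 : ℝ) : ℂ) =
        ∑ a ∈ range R, ∑ b ∈ range R, ∑ l ∈ Icc 1 L,
          u (l + d * a) * (starRingEnd ℂ) (u (l + d * b)) := by
      rw [Complex.ofReal_sum, Finset.sum_congr rfl fun l _ => h1 l, Finset.sum_comm]
      refine Finset.sum_congr rfl fun a _ => ?_
      rw [Finset.sum_comm]
    have h3 : ∑ l ∈ Icc 1 L, ‖V l‖ ^ 2 = ‖((∑ l ∈ Icc 1 L, ‖V l‖ ^ 2 : ℝ) : ℂ)‖ := by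
      rw [Complex.norm_real, Real.norm_of_nonneg (Finset.sum_nonneg fun _ _ => by positivity)]
    rw [h3, h2]
    refine (norm_sum_le _ _).trans ?_
    have h4 : ∀ a ∈ range R, ‖∑ b ∈ range R, ∑ l ∈ Icc 1 L,
        u (l + d * a) * (starRingEnd ℂ) (u (l + d * b))‖ ≤
        L + 2 * (R * (ε ^ 2 / 64 * L) + S.card * L) + R * (2 * (d * R)) := by
      intro a ha
      have ha' := Finset.mem_range.mp ha
      refine (norm_sum_le _ _).trans ?_
      have h5 : ∑ b ∈ range R, ‖∑ l ∈ Icc 1 L,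
          u (l + d * a) * (starRingEnd ℂ) (u (l + d * b))‖ ≤
          ∑ b ∈ range R, (γ ((a - b) + (b - a)) + 2 * (d * R)) :=
        Finset.sum_le_sum fun b hb => hcorr a b ha' (Finset.mem_range.mp hb)
      rw [Finset.sum_add_distrib, Finset.sum_const, Finset.card_range, nsmul_eq_mul] at h5
      have h6 := vdc_dist γ hγ0 R a ha'
      have h7 := hγL 0
      linarith
    refine (Finset.sum_le_sum h4).trans ?_
    rw [Finset.sum_const, Finset.card_range, nsmul_eq_mul]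
  -- Cauchy
  have hcau : ‖∑ l ∈ Icc 1 L, V l‖ ^ 2 ≤ L * ∑ l ∈ Icc 1 L, ‖V l‖ ^ 2 := by
    have h1 : ‖∑ l ∈ Icc 1 L, V l‖ ^ 2 ≤ (∑ l ∈ Icc 1 L, ‖V l‖) ^ 2 :=
      pow_le_pow_left₀ (norm_nonneg _) (norm_sum_le _ _) 2
    have h2 := sq_sum_le_card_mul_sum_sq (s := Icc 1 L) (f := fun l => ‖V l‖)
    simp only [Nat.card_Icc, add_tsub_cancel_right] at h2
    exact h1.trans h2
  have hVT : ‖(R : ℂ) * ∑ l ∈ Icc 1 L, u l‖ ≤ ‖∑ l ∈ Icc 1 L, V l‖ + R * (2 * (d * R)) := by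
    have h1 : ∑ l ∈ Icc 1 L, V l = ∑ a ∈ range R, ∑ l ∈ Icc 1 L, u (l + d * a) := by
      rw [hV, Finset.sum_comm]
    have h2 : (R : ℂ) * ∑ l ∈ Icc 1 L, u l = ∑ l ∈ Icc 1 L, V l -
        ∑ a ∈ range R, (∑ l ∈ Icc 1 L, u (l + d * a) - ∑ l ∈ Icc 1 L, u l) := by
      rw [Finset.sum_sub_distrib, ← h1, Finset.sum_const, Finset.card_range, nsmul_eq_mul]
      ring
    rw [h2]
    refine (norm_sub_le _ _).trans ?_
    have h3 : ‖∑ a ∈ range R, (∑ l ∈ Icc 1 L, u (l + d * a) - ∑ l ∈ Icc 1 L, u l)‖ ≤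
        ∑ a ∈ range R, (2 * ((d : ℝ) * R)) := by
      refine (norm_sum_le _ _).trans (Finset.sum_le_sum fun a ha => ?_)
      have ha' : (d : ℝ) * a ≤ d * R :=
        mul_le_mul_of_nonneg_left (by exact_mod_cast (Finset.mem_range.mp ha).le) hd0
      refine (vdc_shift u hu L (d * a)).trans ?_
      push_cast
      linarith
    rw [Finset.sum_const, Finset.card_range, nsmul_eq_mul] at h3
    linarith
  -- conclusion
  have hbound : ‖∑ l ∈ Icc 1 L, V l‖ ≤ ε / 2 * (R * L) := by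
    refine abs_le_of_sq_le_sq' ?_ (by positivity) |>.2
    refine hcau.trans ?_
    have h1 : (L : ℝ) * ∑ l ∈ Icc 1 L, ‖V l‖ ^ 2 ≤
        L * (R * (L + 2 * (R * (ε ^ 2 / 64 * L) + S.card * L) + R * (2 * (d * R)))) :=
      mul_le_mul_of_nonneg_left hV2 hL0.le
    refine h1.trans ?_
    have e1 : (L : ℝ) * (R * L) ≤ ε ^ 2 / 32 * (R * L) ^ 2 := by
      have : (0 : ℝ) ≤ R * L ^ 2 := by positivity
      nlinarith [mul_le_mul_of_nonneg_left hR this]
    have e2 : (L : ℝ) * (R * (2 * (S.card * L))) ≤ ε ^ 2 / 32 * (R * L) ^ 2 := by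
      have : (0 : ℝ) ≤ R * L ^ 2 := by positivity
      nlinarith [mul_le_mul_of_nonneg_left hS this]
    have e3 : (L : ℝ) * (R * (R * (2 * (d * R)))) ≤ ε ^ 2 / 64 * (R * L) ^ 2 := by
      have : (0 : ℝ) ≤ R ^ 2 * L := by positivity
      nlinarith [mul_le_mul_of_nonneg_left hL this]
    have e4 : (L : ℝ) * (R * (2 * (R * (ε ^ 2 / 64 * L)))) = ε ^ 2 / 32 * (R * L) ^ 2 := by ring
    have e5 : (L : ℝ) * (R * (L + 2 * (R * (ε ^ 2 / 64 * L) + S.card * L) + R * (2 * (d * R)))) =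
        L * (R * L) + L * (R * (2 * (R * (ε ^ 2 / 64 * L)))) + L * (R * (2 * (S.card * L))) +
          L * (R * (R * (2 * (d * R)))) := by ring
    rw [e5]
    have e6 : (ε / 2 * (R * L)) ^ 2 = ε ^ 2 / 4 * (R * L) ^ 2 := by ring
    rw [e6]
    have e7 : 0 ≤ ε ^ 2 * ((R : ℝ) * L) ^ 2 := by positivity
    linarith
  rw [norm_mul, Complex.norm_natCast] at hVT
  have f1 : (R : ℝ) * (2 * (d * R)) ≤ R * (ε / 64 * L) := by
    refine mul_le_mul_of_nonneg_left ?_ hR0.le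
    have : ε ^ 2 ≤ ε := by nlinarith
    have h2 : ε ^ 2 * L ≤ ε * L := mul_le_mul_of_nonneg_right this hL0.le
    linarith
  have f2 : (R : ℝ) * ‖∑ l ∈ Icc 1 L, u l‖ ≤ R * (ε * L) := by
    have : 0 ≤ (R : ℝ) * (ε * L) := by positivity
    nlinarith
  exact le_of_mul_le_mul_left f2 hR0

end Pool.Agent.Lib.MP_663568_nt.Q
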