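import Pool.Agent.Lib.MP_663568_q.S02
import Pool.Agent.Lib.MP_663568_e.E19

/-!
# The estimate for functions of mean zero
-/

set_option autoImplicit false
set_option linter.unusedSectionVars false
open Finset MeasureTheory

namespace Pool.Agent.Lib.MP_663568_nt.Q

open Katai Tw Fib Nul T3 E H6

variable {G : Type} [Group G] [TopologicalSpace G] [IsTopologicalGroup G] {A : ℕ → Subgroup G}
  {Γ : Subgroup G}
  {β : ℕ → Type} [∀ s, Fintype (β s)] [∀ s, DecidableEq (β s)]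
  {π : (s : ℕ) → G → β s → ℝ} {e : (s : ℕ) → β s → ℝ → G}

omit [TopologicalSpace G] [IsTopologicalGroup G] [∀ s, DecidableEq (β s)] in
lemma SpOK.mono {F : G → ℂ} {S S' : Finset (β 1 → ℤ)} {v v' : ℝ} {C₀ C₀' : ℕ} {ε : ℝ}
    (h : SpOK π F S v C₀ ε) (hS : S ⊆ S') (hv : v' ≤ v) (hC : C₀ ≤ C₀') :
    SpOK π F S' v' C₀' ε := by
  intro C hCC a ha hmul R d δ hR hδ hδd hd1 H N hH hHN 𝒢 h𝒢 hyp
  refine h C (hC.trans hCC) a ha hmul R d δ hR hδ hδd hd1 H N hH hHN 𝒢 h𝒢 fun k hk => ?_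
  rcases hyp k (hS hk) with h1 | h1
  · exact Or.inl fun j => (h1 j).trans (ENNReal.ofReal_le_ofReal hv)
  · right
    refine le_trans h1 ?_
    exact mul_le_mul_of_nonneg_right (mul_le_mul_of_nonneg_right hv (Nat.cast_nonneg _))
      (Real.log_natCast_nonneg N)

lemma gs_orb_le {F : G → ℂ} {B : ℝ} (hB : ∀ x, ‖F x‖ ≤ B) (a : ℕ → ℂ)
    (ha : ∀ n, ‖a n‖ ≤ 1) (S : Set (G × G)) (H n : ℕ) (i : G × G) (hi : i ∈ S) :
    ‖∑ h ∈ Icc 1 H, orbF F i (n + h) * a (n + h)‖ ≤ GS (orbF F) a S H n := by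
  have hB0 : 0 ≤ B := (norm_nonneg _).trans (hB 1)
  refine le_ciSup (f := fun i : {i // i ∈ S} => ‖∑ h ∈ Icc 1 H, orbF F i.1 (n + h) * a (n + h)‖)
    ⟨H * B, ?_⟩ ⟨i, hi⟩
  rintro _ ⟨i, rfl⟩
  calc _ ≤ ∑ h ∈ Icc 1 H, ‖orbF F i.1 (n + h) * a (n + h)‖ := norm_sum_le _ _
    _ ≤ ∑ _h ∈ Icc 1 H, B := by
        refine sum_le_sum fun h _ => ?_
        rw [norm_mul, orbF]
        calc _ ≤ B * 1 := mul_le_mul (hB _) (ha _) (norm_nonneg _) hB0
          _ = B := mul_one _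
    _ = H * B := by simp

/-- sums and approximation -/
theorem spOK_approx (F : G → ℂ) (ε : ℝ) (hε : 0 < ε) (ι : Type) [Fintype ι] (Fs : ι → G → ℂ)
    (hB : ∀ i, ∃ B : ℝ, ∀ x, ‖Fs i x‖ ≤ B) (S : Finset (β 1 → ℤ)) (v : ℝ) (C₀ : ℕ)
    (hC₀ : 3 ≤ C₀)
    (hFs : ∀ i, SpOK π (Fs i) S v C₀ (ε / (2 * (Fintype.card ι + 1))))
    (hap : ∀ x, ‖F x - ∑ i, Fs i x‖ ≤ ε / 4) : SpOK π F S v C₀ ε := by
  intro C hC a ha hmul R d δ hR hδ hδd hd1 H N hH hHN 𝒢 h𝒢 hyp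
  have hY1 : 1 ≤ R / δ := by
    rw [le_div_iff₀ hδ]
    linarith
  have hC3 : (3 : ℝ) ≤ C := by exact_mod_cast (by omega : 3 ≤ C)
  have hH3 : (3 : ℝ) ≤ H := by
    refine le_trans ?_ hH
    calc (3 : ℝ) = 3 * 1 := by ring
      _ ≤ C * (R / δ) ^ C := mul_le_mul hC3 (one_le_pow₀ hY1) zero_le_one (Nat.cast_nonneg _)
  have hN3 : (3 : ℝ) ≤ N := hH3.trans (by exact_mod_cast hHN)
  have hlog : 1 ≤ Real.log N := by
    rw [Real.le_log_iff_exp_le (by linarith)]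
    have := Real.exp_one_lt_d9
    linarith
  choose B hB using hB
  have hpt : ∀ n, GS (orbF F) a {i | i.1 ∈ 𝒢 (Nat.log 4 n)} H n ≤
      ∑ i, GS (orbF (Fs i)) a {i | i.1 ∈ 𝒢 (Nat.log 4 n)} H n + ε / 4 * H := by
    intro n
    have h0 : 0 ≤ ∑ i, GS (orbF (Fs i)) a {i | i.1 ∈ 𝒢 (Nat.log 4 n)} H n + ε / 4 * H :=
      add_nonneg (sum_nonneg fun i _ => GG_nonneg _ _ _ _) (by positivity)
    refine Real.iSup_le ?_ h0
    rintro ⟨⟨g, x⟩, hg⟩
    have e1 : ∑ h ∈ Icc 1 H, orbF F (g, x) (n + h) * a (n + h) =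
        ∑ i, ∑ h ∈ Icc 1 H, orbF (Fs i) (g, x) (n + h) * a (n + h) +
        ∑ h ∈ Icc 1 H, (F (g ^ (n + h) * x) - ∑ i, Fs i (g ^ (n + h) * x)) * a (n + h) := by
      rw [sum_comm, ← sum_add_distrib]
      refine sum_congr rfl fun h _ => ?_
      simp only [orbF]
      rw [← sum_mul]
      ring
    rw [e1]
    refine (norm_add_le _ _).trans (add_le_add ?_ ?_)
    · refine (norm_sum_le _ _).trans (sum_le_sum fun i _ => ?_)
      exact gs_orb_le (hB i) a ha _ H n (g, x) hg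
    · calc _ ≤ ∑ h ∈ Icc 1 H, ‖(F (g ^ (n + h) * x) - ∑ i, Fs i (g ^ (n + h) * x)) *
            a (n + h)‖ := norm_sum_le _ _
        _ ≤ ∑ _h ∈ Icc 1 H, ε / 4 := by
            refine sum_le_sum fun h _ => ?_
            rw [norm_mul]
            calc _ ≤ ε / 4 * 1 := mul_le_mul (hap _) (ha _) (norm_nonneg _) (by positivity)
              _ = ε / 4 := mul_one _
        _ = ε / 4 * H := by simp; ring
  have h1 : AvF F a 𝒢 H N ≤ ∑ i, AvF (Fs i) a 𝒢 H N +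
        ε / 4 * H * ∑ n ∈ Icc 1 N, (1 / (n : ℝ)) := by
    unfold AvF
    rw [sum_comm, mul_sum, ← sum_add_distrib]
    refine sum_le_sum fun n _ => ?_
    calc _ ≤ (1 / (n : ℝ)) * (∑ i, GS (orbF (Fs i)) a {i | i.1 ∈ 𝒢 (Nat.log 4 n)} H n +
          ε / 4 * H) := mul_le_mul_of_nonneg_left (hpt n) (by positivity)
      _ = _ := by rw [mul_add, mul_sum]; ring
  have h2 : ∑ i, AvF (Fs i) a 𝒢 H N ≤
      ∑ _i : ι, ε / (2 * (Fintype.card ι + 1)) * H * Real.log N :=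
    sum_le_sum fun i _ => hFs i C hC a ha hmul R d δ hR hδ hδd hd1 H N hH hHN 𝒢 h𝒢 hyp
  have h3 : ∑ _i : ι, ε / (2 * (Fintype.card ι + 1)) * H * Real.log N ≤
      ε / 2 * H * Real.log N := by
    rw [sum_const, card_univ, nsmul_eq_mul]
    have h4 : (Fintype.card ι : ℝ) * (ε / (2 * (Fintype.card ι + 1)) * H * Real.log N) =
        (Fintype.card ι / (Fintype.card ι + 1)) * (ε / 2 * H * Real.log N) := by
      field_simp
    rw [h4]
    refine mul_le_of_le_one_left (by positivity) ?_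
    rw [div_le_one (by positivity)]
    linarith
  have h4 : ε / 4 * H * ∑ n ∈ Icc 1 N, (1 / (n : ℝ)) ≤ ε / 4 * H * (2 * Real.log N) := by
    refine mul_le_mul_of_nonneg_left ((sum_inv_le_log N).trans (by linarith)) (by positivity)
  calc _ ≤ _ := h1
    _ ≤ ε / 2 * H * Real.log N + ε / 4 * H * (2 * Real.log N) :=
        add_le_add (h2.trans h3) h4
    _ = _ := by ring

/-- **The estimate for functions of mean zero.** -/
theorem spec_R (hN : NS A Γ π e) (t : ℕ) (ht : A (t + 1) = ⊥)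
    [MeasurableSpace (G ⧸ Γ)] [BorelSpace (G ⧸ Γ)] (m : Measure (G ⧸ Γ)) [IsProbabilityMeasure m]
    (hm : ∀ g : G, m.map (fun x => g • x) = m)
    (f : G ⧸ Γ → ℂ) (hf : Continuous f) (hf0 : ∫ x, f x ∂m = 0) (ε : ℝ) (hε : 0 < ε) :
    ∃ S : Finset (β 1 → ℤ), (∀ k ∈ S, k ≠ 0 ∧ InSp hN m f k) ∧
      ∃ (v : ℝ) (C₀ : ℕ), 0 < v ∧ 1 ≤ C₀ ∧ SpOK π (fun x : G => f (x : G ⧸ Γ)) S v C₀ ε := by
  classical
  have hCo := coc_prime hN
  set F0 : G → ℂ := fun x : G => f (x : G ⧸ Γ) with hF0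
  have hF0r : Reg Γ F0 := ⟨hf.comp QuotientGroup.continuous_mk, fun x γ hγ => by
    simp only [hF0]
    rw [QuotientGroup.mk_mul_of_mem x hγ]⟩
  obtain ⟨ι, hι, lev, F, c, hF1, hF2⟩ := level_decomp_Q A hN.anti hN.comm hN.A1 Γ hCo (esL e)
    (esL_onep hN) (esL_gen hN) (SpQ hN m f)
    (fun φ hφ hQ s hs e' he' n => spq_pop m hN hm f φ hφ hQ e' (esL_onep hN s hs e' he').1 n)
    (fun φ hφ hQ c => spq_mul m hN f φ hφ hQ c)
    (fun ι t F h => spq_sum m hN f ι t F h)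
    t F0 hF0r
    (by
      rw [ht]
      intro z hz x
      rw [Subgroup.mem_bot.mp hz, one_mul]) (spq_self m hN f) (ε / 8) (by positivity)
  have hc : ‖c‖ ≤ ε / 8 := by
    have hd : ∀ i, ∃ F' : G ⧸ Γ → ℂ, Continuous F' ∧ ∀ x : G, F' (x : G ⧸ Γ) = F i x := fun i =>
      exists_descend (hF1 i).2.1.1
    choose F' hF'c hF' using hd
    have hz : ∀ i, ∫ x, F' i x ∂m = 0 := by
      intro i
      obtain ⟨z, hz, k, hk, hzk⟩ := (hF1 i).2.2.1
      refine mean_zero Γ m hm (F' i) (hF'c i) z k hk ?_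
      intro r x
      obtain ⟨y, rfl⟩ := QuotientGroup.mk_surjective x
      have : z r • (y : G ⧸ Γ) = ((z r * y : G) : G ⧸ Γ) := rfl
      rw [this, hF', hF', hzk]
    have hcpt : CompactSpace (G ⧸ Γ) := by
      obtain ⟨C, hC1, hC2⟩ := hCo
      refine ⟨?_⟩
      have : (Set.univ : Set (G ⧸ Γ)) = (fun g : G => (g : G ⧸ Γ)) '' C := by
        ext x
        simp only [Set.mem_univ, true_iff]
        obtain ⟨g, rfl⟩ := QuotientGroup.mk_surjective x
        obtain ⟨c, hc, γ, hγ, e⟩ := hC2 g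
        exact ⟨c, hc, (coe_eq_of_mul Γ _ _ _ hγ e).symm⟩
      rw [this]
      exact hC1.image QuotientGroup.continuous_mk
    have hint : ∀ {φ : G ⧸ Γ → ℂ}, Continuous φ → Integrable φ m := fun {φ} hφ => by
      obtain ⟨B, hB⟩ : ∃ B : ℝ, ∀ x, ‖φ x‖ ≤ B := by
        have h1 : IsCompact (Set.range fun x => ‖φ x‖) := isCompact_range (by fun_prop)
        obtain ⟨B, hB⟩ := h1.bddAbove
        exact ⟨B, fun x => hB ⟨x, rfl⟩⟩
      exact Integrable.of_bound hφ.aestronglyMeasurable B (Filter.Eventually.of_forall hB)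
    have e1 : ∫ x, (f x - ∑ i, F' i x - c) ∂m = -c := by
      have i1 : Integrable (fun x => ∑ i, F' i x) m :=
        integrable_finsetSum _ fun i _ => hint (hF'c i)
      have i2 : Integrable (fun x => f x - ∑ i, F' i x) m := (hint hf).sub i1
      rw [integral_sub i2 (integrable_const _), integral_sub (hint hf) i1,
        hf0, integral_finsetSum _ (fun i _ => hint (hF'c i))]
      simp [hz]
    have e2 : ‖∫ x, (f x - ∑ i, F' i x - c) ∂m‖ ≤ ε / 8 := by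
      have := norm_integral_le_of_norm_le_const (μ := m) (f := fun x => f x - ∑ i, F' i x - c)
        (C := ε / 8) (Filter.Eventually.of_forall fun x => by
          obtain ⟨y, rfl⟩ := QuotientGroup.mk_surjective x
          have := hF2 y
          simpa only [hF'] using this)
      simpa using this
    rw [e1, norm_neg] at e2
    exact e2
  -- the pieces
  have hpiece : ∀ i, ∃ (S : Finset (β 1 → ℤ)) (v : ℝ) (C₀ : ℕ),
      (∀ k ∈ S, k ≠ 0 ∧ InSp hN m f k) ∧ 0 < v ∧ 1 ≤ C₀ ∧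
        SpOK π (F i) S v C₀ (ε / (2 * (Fintype.card ι + 1))) := by
    intro i
    have hL := (lev_iff (lev i) (F i)).1 (hF1 i).2.1
    have hGd := (good_iff (lev i) (F i)).1 (hF1 i).2.2.1
    by_cases h2 : 2 ≤ lev i
    · obtain ⟨k, hk⟩ : ∃ k, lev i = k + 2 := ⟨lev i - 2, by omega⟩
      rw [hk] at hL hGd
      obtain ⟨C₀, hC₀, h⟩ := spOK_two hN k (F i) hL hGd (ε / (2 * (Fintype.card ι + 1)))
        (by positivity)
      exact ⟨∅, 1, C₀, by simp, one_pos, hC₀, h⟩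
    · have h1 : lev i = 1 := by
        have := (hF1 i).1
        omega
      rw [h1] at hL hGd
      by_cases h0 : ∃ x, F i x ≠ 0
      · obtain ⟨k, hk0, hk⟩ := exists_freq hL hGd
        obtain ⟨v, C₀, hv, hC₀, h⟩ := spOK_one hN (F i) hL k hk0 hk
          (ε / (2 * (Fintype.card ι + 1))) (by positivity)
        refine ⟨{k}, v, C₀, ?_, hv, hC₀, h⟩
        intro k' hk'
        rw [mem_singleton] at hk'
        subst hk'
        exact ⟨hk0, spq_one m hN f (F i) hL k' hk h0 (hF1 i).2.2.2⟩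
      · push Not at h0
        exact ⟨∅, 1, 1, by simp, one_pos, le_rfl, spOK_zero (F i) h0 _ (by positivity)⟩
  choose S vf Cf hS hvf hCf hmain using hpiece
  have hv0 : 0 ≤ ∑ i, 1 / vf i := sum_nonneg fun i _ => (one_div_pos.2 (hvf i)).le
  refine ⟨univ.biUnion S, ?_, 1 / (1 + ∑ i, 1 / vf i), ∑ i, Cf i + 3, by positivity, by omega, ?_⟩
  · intro k hk
    obtain ⟨i, _, hi⟩ := mem_biUnion.1 hk
    exact hS i k hi
  refine spOK_approx F0 ε hε ι F (fun i => ?_) _ _ _ (by omega) (fun i => ?_) (fun x => ?_)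
  · obtain ⟨B, _, hB⟩ := reg_bdd hCo (hF1 i).2.1.1
    exact ⟨B, hB⟩
  · refine (hmain i).mono (fun k hk => mem_biUnion.2 ⟨i, mem_univ i, hk⟩) ?_
      ((single_le_sum (f := fun i => Cf i) (fun _ _ => Nat.zero_le _) (mem_univ i)).trans
        (Nat.le_add_right _ _))
    have h1 : 1 / vf i ≤ ∑ i, 1 / vf i :=
      single_le_sum (f := fun i => 1 / vf i) (fun i _ => (one_div_pos.2 (hvf i)).le)
        (mem_univ i)
    rw [one_div_le (by positivity) (hvf i)]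
    linarith
  · calc _ = ‖(F0 x - ∑ i, F i x - c) + c‖ := by congr 1; ring
      _ ≤ ε / 8 + ε / 8 := (norm_add_le _ _).trans (add_le_add (hF2 x) hc)
      _ = ε / 4 := by ring

end Pool.Agent.Lib.MP_663568_nt.Q
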