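import Pool.Agent.Lib.MP_663568_q.Q01

/-!
# A quantitative theorem of Kronecker, and loops
-/

set_option autoImplicit false
open Finset

namespace Pool.Agent.Lib.MP_663568_nt.Q

open Katai Nul H6

variable {σ : Type} [Fintype σ] [DecidableEq σ]

lemma prod_geom_eq (N : σ → ℕ) (u : σ → ℝ) :
    ‖∑ j ∈ Jb N, ee (∑ s, (j s : ℝ) * u s)‖ ^ 2 =
      ∏ s, ‖∑ j ∈ range (N s), ee ((j : ℝ) * u s)‖ ^ 2 := by
  have h1 : ∏ s, ∑ j ∈ range (N s), ee ((j : ℝ) * u s) =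
      ∑ j ∈ Jb N, ee (∑ s, (j s : ℝ) * u s) := by
    rw [prod_univ_sum]
    exact sum_congr rfl fun j _ => (ee_sum _ _).symm
  rw [← h1, norm_prod, ← prod_pow]

lemma geom_far (K : ℕ) (y η : ℝ) (hη : 0 < η) (h : η ≤ nd y) :
    ‖∑ j ∈ range K, ee ((j : ℝ) * y)‖ ^ 2 ≤ 1 / (4 * η ^ 2) := by
  have h1 := norm_geom_le K y
  have h2 : ‖∑ j ∈ range K, ee ((j : ℝ) * y)‖ * (4 * η) ≤ 2 :=
    (mul_le_mul_of_nonneg_left (by linarith) (norm_nonneg _)).trans h1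
  have h3 : ‖∑ j ∈ range K, ee ((j : ℝ) * y)‖ ≤ 1 / (2 * η) := by
    rw [le_div_iff₀ (by positivity)]; linarith
  refine (pow_le_pow_left₀ (norm_nonneg _) h3 2).trans (le_of_eq ?_)
  field_simp
  norm_num

/-- if all differences are far from the target in some coordinate -/
lemma Sk_far (R : ℕ) (θ : σ → ℝ) (K : ℕ) (t : σ → ℝ) (η : ℝ) (hη : 0 < η)
    (h : ∀ r ∈ Icc 1 R, ∀ r' ∈ Icc 1 R, ∃ s, η ≤ nd (((r : ℝ) - r') * θ s - t s)) :
    Sk R θ (fun _ => K) t ≤ 1 / (4 * η ^ 2) * ∑ s, Sk R θ (Function.update (fun _ => K) s 1) t := by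
  have h1 : ∀ r ∈ Icc 1 R, ∀ r' ∈ Icc 1 R,
      ‖∑ j ∈ Jb (fun _ : σ => K), ee (∑ s, (j s : ℝ) * (((r : ℝ) - r') * θ s - t s))‖ ^ 2 ≤
      1 / (4 * η ^ 2) * ∑ s', ‖∑ j ∈ Jb (Function.update (fun _ : σ => K) s' 1),
        ee (∑ s, (j s : ℝ) * (((r : ℝ) - r') * θ s - t s))‖ ^ 2 := by
    intro r hr r' hr'
    obtain ⟨s₀, hs₀⟩ := h r hr r' hr'
    simp only [prod_geom_eq]
    have h2 : ∏ s, ‖∑ j ∈ range K, ee ((j : ℝ) * (((r : ℝ) - r') * θ s - t s))‖ ^ 2 ≤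
        1 / (4 * η ^ 2) * ∏ s, ‖∑ j ∈ range (Function.update (fun _ : σ => K) s₀ 1 s),
          ee ((j : ℝ) * (((r : ℝ) - r') * θ s - t s))‖ ^ 2 := by
      rw [← mul_prod_erase univ _ (mem_univ s₀), ← mul_prod_erase univ (fun s =>
        ‖∑ j ∈ range (Function.update (fun _ : σ => K) s₀ 1 s),
          ee ((j : ℝ) * (((r : ℝ) - r') * θ s - t s))‖ ^ 2) (mem_univ s₀)]
      have h3 : ‖∑ j ∈ range (Function.update (fun _ : σ => K) s₀ 1 s₀),
          ee ((j : ℝ) * (((r : ℝ) - r') * θ s₀ - t s₀))‖ ^ 2 = 1 := by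
        rw [Function.update_self]
        simp [ee_zero']
      rw [h3, one_mul]
      have h4 : ∏ s ∈ univ.erase s₀, ‖∑ j ∈ range K,
            ee ((j : ℝ) * (((r : ℝ) - r') * θ s - t s))‖ ^ 2 =
          ∏ s ∈ univ.erase s₀, ‖∑ j ∈ range (Function.update (fun _ : σ => K) s₀ 1 s),
            ee ((j : ℝ) * (((r : ℝ) - r') * θ s - t s))‖ ^ 2 :=
        prod_congr rfl fun s hs => by rw [Function.update_of_ne (mem_erase.1 hs).1]
      rw [h4]
      exact mul_le_mul_of_nonneg_right (geom_far K _ η hη hs₀) (prod_nonneg fun _ _ => by positivity)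
    refine h2.trans (mul_le_mul_of_nonneg_left ?_ (by positivity))
    exact single_le_sum (f := fun s' => ∏ s,
      ‖∑ j ∈ range (Function.update (fun _ : σ => K) s' 1 s),
          ee ((j : ℝ) * (((r : ℝ) - r') * θ s - t s))‖ ^ 2)
      (fun _ _ => prod_nonneg fun _ _ => by positivity) (mem_univ s₀)
  calc Sk R θ (fun _ => K) t ≤ ∑ r ∈ Icc 1 R, ∑ r' ∈ Icc 1 R,
        1 / (4 * η ^ 2) * ∑ s', ‖∑ j ∈ Jb (Function.update (fun _ : σ => K) s' 1),
        ee (∑ s, (j s : ℝ) * (((r : ℝ) - r') * θ s - t s))‖ ^ 2 :=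
        sum_le_sum fun r hr => sum_le_sum fun r' hr' => h1 r hr r' hr'
    _ = _ := by
        simp only [← mul_sum]
        congr 1
        have : ∀ r : ℕ, ∑ r' ∈ Icc 1 R, ∑ s' : σ,
            ‖∑ j ∈ Jb (Function.update (fun _ : σ => K) s' 1),
              ee (∑ s, (j s : ℝ) * (((r : ℝ) - r') * θ s - t s))‖ ^ 2 =
            ∑ s' : σ, ∑ r' ∈ Icc 1 R,
            ‖∑ j ∈ Jb (Function.update (fun _ : σ => K) s' 1),
              ee (∑ s, (j s : ℝ) * (((r : ℝ) - r') * θ s - t s))‖ ^ 2 := fun r => sum_comm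
        simp only [this]
        rw [sum_comm]
        rfl

/-- **A quantitative theorem of Kronecker.**  The point `t` is approximated by multiples of `θ`
if it is nearly orthogonal to all near relations of bounded height. -/
theorem kr (η : ℝ) (hη : 0 < η) :
    ∃ K : ℕ, 1 ≤ K ∧ ∀ τ : ℝ, 0 < τ → τ ≤ 1 → ∀ θ t : σ → ℝ,
      (∀ κ : σ → ℤ, (∀ s, |κ s| ≤ (K : ℤ)) →
        τ ≤ nd (∑ s, (κ s : ℝ) * θ s) ∨ |∑ s, (κ s : ℝ) * t s| ≤ 1 / K) →
      ∃ r : ℤ, |(r : ℝ)| ≤ K / τ ∧ ∀ s, nd (r * θ s - t s) ≤ η := by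
  set n : ℕ := Fintype.card σ with hn
  set Q : ℝ := 1 + n / (4 * η ^ 2) with hQ
  have hQ1 : 1 ≤ Q := le_add_of_nonneg_right (by positivity)
  set K₁ : ℕ := ⌈n / η ^ 2⌉₊ + 1 with hK₁
  have hK₁1 : 1 ≤ K₁ := by omega
  have hK₁r : (1 : ℝ) ≤ K₁ := by exact_mod_cast hK₁1
  have hK₁2 : (n : ℝ) / η ^ 2 ≤ K₁ := by
    have h1 := Nat.le_ceil ((n : ℝ) / η ^ 2)
    have h2 : ((⌈(n : ℝ) / η ^ 2⌉₊ : ℕ) : ℝ) ≤ K₁ := by exact_mod_cast (by omega)
    linarith
  set V : ℝ := ((K₁ : ℝ) ^ n) ^ 2 with hV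
  have hV1 : 1 ≤ V := one_le_pow₀ (one_le_pow₀ hK₁r)
  have hVK : (K₁ : ℝ) ^ n ≤ V := by
    rw [hV]; exact le_self_pow₀ (one_le_pow₀ hK₁r) two_ne_zero
  have hpi := Real.pi_pos
  set c : ℝ := 1 / (8 * Real.pi * V * Q) with hc
  have hc0 : 0 < c := by positivity
  set K : ℕ := K₁ + ⌈1 / c⌉₊ + ⌈2 * V * Q⌉₊ + 1 with hK
  have hKc : 1 / (K : ℝ) ≤ c := by
    rw [one_div_le (by exact_mod_cast (by omega : 0 < K)) hc0]
    have h1 := Nat.le_ceil (1 / c)
    have h2 : ((⌈1 / c⌉₊ : ℕ) : ℝ) ≤ K := by exact_mod_cast (by omega)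
    linarith
  have hKV : 2 * V * Q + 1 ≤ K := by
    have h1 := Nat.le_ceil (2 * V * Q)
    have h2 : ((⌈2 * V * Q⌉₊ + 1 : ℕ) : ℝ) ≤ K := by exact_mod_cast (by omega)
    push_cast at h2
    linarith
  refine ⟨K, by omega, fun τ hτ hτ1 θ t hrel => ?_⟩
  by_contra hcon
  push Not at hcon
  set R : ℕ := ⌈2 * V * Q / τ⌉₊ with hR
  have hR1 : 2 * V * Q / τ ≤ R := Nat.le_ceil _
  have hR2 : (R : ℝ) ≤ 2 * V * Q / τ + 1 := (Nat.ceil_lt_add_one (by positivity)).le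
  have hR3 : (R : ℝ) ≤ K / τ := by
    refine hR2.trans ?_
    rw [div_add_one hτ.ne', div_le_div_iff_of_pos_right hτ]
    linarith
  have hR0 : (0 : ℝ) < R := lt_of_lt_of_le (by positivity) hR1
  have hfar : ∀ r ∈ Icc 1 R, ∀ r' ∈ Icc 1 R, ∃ s, η ≤ nd (((r : ℝ) - r') * θ s - t s) := by
    intro r hr r' hr'
    rw [mem_Icc] at hr hr'
    obtain ⟨s, hs⟩ := hcon ((r : ℤ) - r') (by
      refine le_trans ?_ hR3
      have : |(((r : ℤ) - (r' : ℤ) : ℤ) : ℝ)| ≤ (R : ℝ) := by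
        have h1 : |(r : ℤ) - (r' : ℤ)| ≤ (R : ℤ) := by
          rw [abs_le]; constructor <;> omega
        exact_mod_cast h1
      exact this)
    refine ⟨s, ?_⟩
    push_cast at hs
    exact hs.le
  set E : ℝ := V * (2 * Real.pi * c * (R : ℝ) ^ 2 + 1 / (2 * τ ^ 2)) with hE
  have hdiff : ∀ N : σ → ℕ, (∀ s, N s ≤ K₁) → |Sk R θ N t - Sk R θ N 0| ≤ E := by
    intro N hN
    refine Sk_diff R θ N t K₁ hN τ c hτ hc0.le fun κ hκ => ?_
    rcases hrel κ (fun s => (hκ s).trans (by exact_mod_cast (by omega : K₁ ≤ K))) with h | h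
    · exact Or.inl h
    · exact Or.inr (h.trans hKc)
  set A : ℝ := Sk R θ (fun _ => K₁) 0 with hA
  have hAR : (R : ℝ) ^ 2 ≤ A := by
    refine le_trans ?_ (Sk_diag R θ _)
    refine le_mul_of_one_le_left (by positivity) ?_
    rw [Jb, Fintype.card_piFinset]
    have : 1 ≤ ∏ s : σ, (range K₁).card := Finset.one_le_prod' fun s _ => by
      rw [card_range]; exact hK₁1
    exact_mod_cast this
  have h1 := hdiff (fun _ => K₁) fun _ => le_rfl
  have h2 := Sk_far R θ K₁ t η hη hfar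
  have h3 : ∀ s, Sk R θ (Function.update (fun _ => K₁) s 1) t ≤ A / K₁ + E := by
    intro s
    have h4 := hdiff (Function.update (fun _ => K₁) s 1) (by
      intro s'
      by_cases hs : s' = s
      · subst hs; rw [Function.update_self]; exact hK₁1
      · rw [Function.update_of_ne hs])
    have h5 := Sk_update R θ (fun _ => K₁) s (fun _ => hK₁1)
    have h6 : Sk R θ (Function.update (fun _ => K₁) s 1) 0 ≤ A / K₁ := by
      rw [le_div_iff₀ (by linarith)]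
      linarith
    have h7 := (abs_le.1 h4).2
    linarith
  have h4 : ∑ s : σ, Sk R θ (Function.update (fun _ => K₁) s 1) t ≤ n * (A / K₁ + E) := by
    refine (sum_le_sum fun s _ => h3 s).trans (le_of_eq ?_)
    rw [sum_const, card_univ, nsmul_eq_mul]
  have h5 : A - E ≤ 1 / (4 * η ^ 2) * (n * (A / K₁ + E)) := by
    have h6 := (abs_le.1 h1).1
    have h7 := h2.trans (mul_le_mul_of_nonneg_left h4 (by positivity))
    linarith
  have h6 : 1 / (4 * η ^ 2) * (n * (A / K₁)) ≤ A / 4 := by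
    have h7 : 1 / (4 * η ^ 2) * (n * (A / K₁)) = (A / 4) * ((n / η ^ 2) / K₁) := by
      field_simp
    rw [h7]
    refine mul_le_of_le_one_right ?_ ?_
    · have : 0 ≤ A := le_trans (by positivity) hAR
      positivity
    · rw [div_le_one (by linarith)]; exact hK₁2
  have h7 : 3 / 4 * A ≤ E * Q := by
    have h8 : 1 / (4 * η ^ 2) * (n * (A / K₁ + E)) = 1 / (4 * η ^ 2) * (n * (A / K₁)) +
        E * (n / (4 * η ^ 2)) := by ring
    rw [h8] at h5
    rw [hQ]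
    linarith
  have h8 : E * Q ≤ (R : ℝ) ^ 2 / 2 := by
    have h9 : E * Q = 1 / 4 * (R : ℝ) ^ 2 + V * Q / (2 * τ ^ 2) := by
      rw [hE, hc]
      field_simp
      ring
    have h10 : V * Q / (2 * τ ^ 2) ≤ 1 / 4 * (R : ℝ) ^ 2 := by
      have h11 : (2 * V * Q / τ) ^ 2 ≤ (R : ℝ) ^ 2 := pow_le_pow_left₀ (by positivity) hR1 2
      have h12 : V * Q / (2 * τ ^ 2) ≤ 1 / 4 * (2 * V * Q / τ) ^ 2 := by
        have h13 : 1 ≤ V * Q := one_le_mul_of_one_le_of_one_le hV1 hQ1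
        have h14 : 1 / 4 * (2 * V * Q / τ) ^ 2 = (V * Q / τ ^ 2) * (V * Q) := by
          field_simp
          ring
        have h15 : V * Q / (2 * τ ^ 2) = (V * Q / τ ^ 2) * (1 / 2) := by
          field_simp
        rw [h14, h15]
        exact mul_le_mul_of_nonneg_left (by linarith) (by positivity)
      linarith
    linarith
  have h16 : 0 < (R : ℝ) ^ 2 := by positivity
  linarith

end Pool.Agent.Lib.MP_663568_nt.Q
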