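import Pool.Agent.Lib.MP_663568_q.R08
import Pool.Agent.Lib.MP_663568_t3.TRaw

/-!
# From the raw data to the filtration
-/

set_option autoImplicit false
open Finset MeasureTheory

namespace Pool.Agent.Lib.MP_663568_nt.Q

open Katai Tw Fib Nul T3 E

/-- the filtration by the lower central series -/
theorem nsRaw {G : Type} [Group G] [TopologicalSpace G] [IsTopologicalGroup G]
    (Γ : Subgroup G) (t : ℕ)
    (hnil : (⊤ : Subgroup G).lowerCentralSeries t = ⊥)
    (d : ℕ → ℕ) (π : (s : ℕ) → G → Fin (d s) → ℝ) (e : (s : ℕ) → Fin (d s) → ℝ → G)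
    (hπmul : ∀ s, ∀ x ∈ (⊤ : Subgroup G).lowerCentralSeries s,
      ∀ y ∈ (⊤ : Subgroup G).lowerCentralSeries s, π s (x * y) = π s x + π s y)
    (hπcont : ∀ s, ContinuousOn (π s) ((⊤ : Subgroup G).lowerCentralSeries s))
    (hπint : ∀ s, ∀ γ ∈ Γ, γ ∈ (⊤ : Subgroup G).lowerCentralSeries s →
      ∀ j, ∃ z : ℤ, π s γ j = z)
    (hπker : ∀ s, ∀ x ∈ (⊤ : Subgroup G).lowerCentralSeries s,
      π s x = 0 ↔ x ∈ (⊤ : Subgroup G).lowerCentralSeries (s + 1))
    (hecont : ∀ s j, Continuous (e s j)) (headd : ∀ s j a b, e s j (a + b) = e s j a * e s j b)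
    (heΓ : ∀ s j, e s j 1 ∈ Γ) (hemem : ∀ s j r, e s j r ∈ (⊤ : Subgroup G).lowerCentralSeries s)
    (heπ : ∀ s j r, π s (e s j r) = Pi.single j r) :
    NS (lcs G) Γ (β := fun s => Fin (d (s - 1))) (fun s => π (s - 1)) (fun s => e (s - 1)) := by
  set π' : (s : ℕ) → G → Fin (d (s - 1)) → ℝ := fun s => π (s - 1) with hπ'
  set e' : (s : ℕ) → Fin (d (s - 1)) → ℝ → G := fun s => e (s - 1) with he'
  have hsucc : ∀ s, 1 ≤ s → lcs G (s + 1) = (⊤ : Subgroup G).lowerCentralSeries (s - 1 + 1) := by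
    intro s hs
    unfold lcs; congr 1; omega
  have hker : ∀ s, 1 ≤ s → ∀ x ∈ lcs G s, π' s x = 0 ↔ x ∈ lcs G (s + 1) := by
    intro s hs x hx
    rw [hsucc s hs]
    exact hπker (s - 1) x hx
  have hgen : ∀ s, 1 ≤ s → lcs G s ≤
      Subgroup.closure {x | ∃ j r, x = e' s j r} ⊔ lcs G (s + 1) := fun s hs =>
    gen_raw (π' s) (e' s) (hπmul (s - 1)) (hker s hs) (hemem (s - 1)) (heπ (s - 1))
  have ht : lcs G (t + 1) = ⊥ := hnil
  have hcoc : Coc (lcs G) Γ := by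
    refine coc_of_gen (lcs G) lcs_anti lcs_comm' lcs_one t ht Γ (esL e') ?_ ?_
    · intro s hs x hx
      rw [mem_esL] at hx
      obtain ⟨j, rfl⟩ := hx
      exact ⟨⟨hecont _ _, headd _ _⟩, heΓ _ _, hemem _ _⟩
    · intro s hs
      refine (hgen s hs).trans (sup_le_sup_right (Subgroup.closure_mono ?_) _)
      rintro x ⟨j, r, rfl⟩
      exact ⟨e' s j, (mem_esL e' s _).2 ⟨j, rfl⟩, r, rfl⟩
  exact
    { anti := lcs_anti
      comm := lcs_comm'
      A0 := lcs_zero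
      A1 := lcs_one
      low := lcs_low
      coc := hcoc
      pi_mul := fun s hs x hx y hy => hπmul (s - 1) x hx y hy
      pi_cont := fun s hs => hπcont (s - 1)
      pi_int := fun s hs γ hγ hγs => hπint (s - 1) γ hγ hγs
      pi_ker := hker
      e_onep := fun s hs j => ⟨⟨hecont _ _, headd _ _⟩, heΓ _ _, hemem _ _⟩
      e_pi := fun s hs j r => heπ _ _ _ }

end Pool.Agent.Lib.MP_663568_nt.Q
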