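import Mathlib
import Pool.Agent.Lib.MP_663568_h6.FejerM
import Pool.Agent.Lib.MP_663568_nt.Poly

/-!
# Signed distances to the nearest integer, and a quantitative theorem of Kronecker
-/

set_option autoImplicit false
open Finset

namespace Pool.Agent.Lib.MP_663568_nt.Q

open Katai Nul H6

/-- signed distance to the nearest integer -/
noncomputable def sg (x : ℝ) : ℝ := x - round x

lemma abs_sg (x : ℝ) : |sg x| = nd x := rfl

lemma sg_eq {x y : ℝ} (z : ℤ) (h : x = z + y) (hy : |y| < 1 / 2) : sg x = y := by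
  have h1 : round x = z := by
    rw [h, round_intCast_add]
    have h2 : round y = 0 := by
      rw [round_eq_zero_iff]
      rw [abs_lt] at hy
      constructor <;> linarith [hy.1, hy.2]
    rw [h2, add_zero]
  rw [sg, h1, h]; ring

lemma round_add_sg (x : ℝ) : x = (round x : ℝ) + sg x := by rw [sg]; ring

lemma sg_int_mul (n : ℤ) (x : ℝ) (h : |(n : ℝ)| * nd x < 1 / 2) : sg (n * x) = n * sg x := by
  refine sg_eq (n * round x) ?_ ?_
  · push_cast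
    conv_lhs => rw [round_add_sg x]
    ring
  · rw [abs_mul, abs_sg]; exact h

lemma round_int_mul (n : ℤ) (x : ℝ) (h : |(n : ℝ)| * nd x < 1 / 2) :
    round (n * x) = n * round x := by
  have h1 := sg_int_mul n x h
  have h2 : ((round (n * x) : ℤ) : ℝ) = ((n * round x : ℤ) : ℝ) := by
    have h3 := round_add_sg (n * x)
    have h4 := round_add_sg x
    push_cast
    rw [h1] at h3
    have h5 : (n : ℝ) * x = n * (round x : ℝ) + n * sg x := by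
      conv_lhs => rw [h4]
      ring
    linarith
  exact_mod_cast h2

lemma sg_add (x y : ℝ) (h : nd x + nd y < 1 / 2) : sg (x + y) = sg x + sg y := by
  refine sg_eq (round x + round y) ?_ ?_
  · push_cast
    conv_lhs => rw [round_add_sg x, round_add_sg y]
    ring
  · exact (abs_add_le _ _).trans_lt (by rw [abs_sg, abs_sg]; exact h)

lemma sg_neg (x : ℝ) (h : nd x < 1 / 2) : sg (-x) = -sg x := by
  refine sg_eq (-round x) ?_ ?_
  · push_cast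
    conv_lhs => rw [round_add_sg x]
    ring
  · rw [abs_neg, abs_sg]; exact h

lemma nd_sum_le {ι : Type} (S : Finset ι) (f : ι → ℝ) : nd (∑ i ∈ S, f i) ≤ ∑ i ∈ S, nd (f i) := by
  classical
  induction S using Finset.induction_on with
  | empty =>
    have h := nd_int 0
    simp only [Int.cast_zero] at h
    simp [h]
  | insert a S ha ih =>
    rw [sum_insert ha, sum_insert ha]
    exact (nd_add_le _ _).trans (add_le_add le_rfl ih)

lemma sg_sum {ι : Type} (S : Finset ι) (f : ι → ℝ) (h : ∑ i ∈ S, nd (f i) < 1 / 2) :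
    sg (∑ i ∈ S, f i) = ∑ i ∈ S, sg (f i) := by
  refine sg_eq (∑ i ∈ S, round (f i)) ?_ ?_
  · push_cast
    rw [← sum_add_distrib]
    exact sum_congr rfl fun i _ => round_add_sg _
  · refine lt_of_le_of_lt (abs_sum_le_sum_abs _ _) ?_
    simpa only [abs_sg] using h

/-! ### Kronecker -/

section kron

variable {σ : Type} [Fintype σ] [DecidableEq σ]

/-- the square of an exponential sum -/
noncomputable def Gk (R : ℕ) (x : ℝ) : ℝ := ‖∑ r ∈ Icc 1 R, ee (x * r)‖ ^ 2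

lemma Gk_nonneg (R : ℕ) (x : ℝ) : 0 ≤ Gk R x := by unfold Gk; positivity

lemma Gk_le (R : ℕ) (x : ℝ) : Gk R x ≤ (R : ℝ) ^ 2 := by
  unfold Gk
  refine pow_le_pow_left₀ (norm_nonneg _) ?_ 2
  refine (norm_sum_le _ _).trans ?_
  simp [norm_ee]

lemma Gk_zero (R : ℕ) : Gk R 0 = (R : ℝ) ^ 2 := by
  unfold Gk
  simp [ee_zero']

lemma Gk_far (R : ℕ) (x τ : ℝ) (hτ : 0 < τ) (h : τ ≤ nd x) : Gk R x ≤ 1 / (4 * τ ^ 2) := by
  have h1 := geom_bound x 0 R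
  simp only [add_zero] at h1
  have h2 := nd_le_norm_one_sub_ee x
  have h3 : 4 * τ * ‖∑ l ∈ Icc 1 R, ee (x * l)‖ ≤ 2 :=
    (mul_le_mul_of_nonneg_right (by linarith) (norm_nonneg _)).trans h1
  have h4 : ‖∑ l ∈ Icc 1 R, ee (x * l)‖ ≤ 1 / (2 * τ) := by
    rw [le_div_iff₀ (by positivity)]; linarith
  unfold Gk
  refine (pow_le_pow_left₀ (norm_nonneg _) h4 2).trans (le_of_eq ?_)
  field_simp
  norm_num

/-- the box of exponents -/
def Jb (N : σ → ℕ) : Finset (σ → ℕ) := Fintype.piFinset fun s => range (N s)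

/-- the average of the product of Fejer kernels, not normalized -/
noncomputable def Sk (R : ℕ) (θ : σ → ℝ) (N : σ → ℕ) (t : σ → ℝ) : ℝ :=
  ∑ r ∈ Icc 1 R, ∑ r' ∈ Icc 1 R,
    ‖∑ j ∈ Jb N, ee (∑ s, (j s : ℝ) * (((r : ℝ) - r') * θ s - t s))‖ ^ 2

lemma Sk_expand (R : ℕ) (θ : σ → ℝ) (N : σ → ℕ) (t : σ → ℝ) :
    ((Sk R θ N t : ℝ) : ℂ) = ∑ j ∈ Jb N, ∑ l ∈ Jb N,
      ee (-∑ s, (((j s : ℤ) - (l s : ℤ) : ℤ) : ℝ) * t s) *
        ((Gk R (∑ s, (((j s : ℤ) - (l s : ℤ) : ℤ) : ℝ) * θ s) : ℝ) : ℂ) := by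
  have e1 : ((Sk R θ N t : ℝ) : ℂ) = ∑ r ∈ Icc 1 R, ∑ r' ∈ Icc 1 R, ∑ j ∈ Jb N, ∑ l ∈ Jb N,
      ee (∑ s, (((j s : ℤ) - (l s : ℤ) : ℤ) : ℝ) * (((r : ℝ) - r') * θ s - t s)) := by
    unfold Sk
    rw [Complex.ofReal_sum]
    refine sum_congr rfl fun r _ => ?_
    rw [Complex.ofReal_sum]
    exact sum_congr rfl fun r' _ => sq_expandM _ _
  rw [e1]
  have e2 : ∀ j l : σ → ℕ, ∀ r r' : ℕ,
      ee (∑ s, (((j s : ℤ) - (l s : ℤ) : ℤ) : ℝ) * (((r : ℝ) - r') * θ s - t s)) =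
      ee (-∑ s, (((j s : ℤ) - (l s : ℤ) : ℤ) : ℝ) * t s) *
        (ee ((∑ s, (((j s : ℤ) - (l s : ℤ) : ℤ) : ℝ) * θ s) * r) *
          (starRingEnd ℂ) (ee ((∑ s, (((j s : ℤ) - (l s : ℤ) : ℤ) : ℝ) * θ s) * r'))) := by
    intro j l r r'
    rw [Katai.conj_ee, ← ee_add, ← ee_add]
    congr 1
    rw [sum_mul, sum_mul, ← sum_neg_distrib, ← sum_neg_distrib, ← sum_add_distrib,
      ← sum_add_distrib]
    exact sum_congr rfl fun s _ => by ring
  simp only [e2]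
  have e3 : ∀ r : ℕ, ∑ r' ∈ Icc 1 R, ∑ j ∈ Jb N, ∑ l ∈ Jb N,
      ee (-∑ s, (((j s : ℤ) - (l s : ℤ) : ℤ) : ℝ) * t s) *
        (ee ((∑ s, (((j s : ℤ) - (l s : ℤ) : ℤ) : ℝ) * θ s) * r) *
          (starRingEnd ℂ) (ee ((∑ s, (((j s : ℤ) - (l s : ℤ) : ℤ) : ℝ) * θ s) * r'))) =
      ∑ j ∈ Jb N, ∑ l ∈ Jb N, ∑ r' ∈ Icc 1 R,
      ee (-∑ s, (((j s : ℤ) - (l s : ℤ) : ℤ) : ℝ) * t s) *
        (ee ((∑ s, (((j s : ℤ) - (l s : ℤ) : ℤ) : ℝ) * θ s) * r) *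
          (starRingEnd ℂ) (ee ((∑ s, (((j s : ℤ) - (l s : ℤ) : ℤ) : ℝ) * θ s) * r'))) := by
    intro r
    rw [sum_comm]
    exact sum_congr rfl fun j _ => sum_comm
  simp only [e3]
  rw [sum_comm]
  refine sum_congr rfl fun j _ => ?_
  rw [sum_comm]
  refine sum_congr rfl fun l _ => ?_
  simp only [← mul_sum]
  congr 1
  rw [Gk, Complex.ofReal_pow, ← Complex.mul_conj', map_sum, sum_mul]

lemma Sk_nonneg (R : ℕ) (θ : σ → ℝ) (N : σ → ℕ) (t : σ → ℝ) : 0 ≤ Sk R θ N t := by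
  unfold Sk; positivity

lemma Sk_zero (R : ℕ) (θ : σ → ℝ) (N : σ → ℕ) : Sk R θ N 0 = ∑ j ∈ Jb N, ∑ l ∈ Jb N,
    Gk R (∑ s, (((j s : ℤ) - (l s : ℤ) : ℤ) : ℝ) * θ s) := by
  have h := Sk_expand R θ N 0
  have h2 : ((Sk R θ N 0 : ℝ) : ℂ) = ((∑ j ∈ Jb N, ∑ l ∈ Jb N,
    Gk R (∑ s, (((j s : ℤ) - (l s : ℤ) : ℤ) : ℝ) * θ s) : ℝ) : ℂ) := by
    rw [h]
    push_cast
    refine sum_congr rfl fun j _ => sum_congr rfl fun l _ => ?_
    simp [ee_zero']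
  exact_mod_cast h2

lemma Jb_card (N : σ → ℕ) (K : ℕ) (hN : ∀ s, N s ≤ K) :
    ((Jb N).card : ℝ) ≤ (K : ℝ) ^ Fintype.card σ := by
  rw [Jb, Fintype.card_piFinset]
  have h1 : ∏ s, (range (N s)).card ≤ ∏ _s : σ, K := prod_le_prod' fun s _ => by
    rw [card_range]; exact hN s
  rw [prod_const, card_univ] at h1
  exact_mod_cast h1

/-- changing the target by a vector which is nearly orthogonal to the near relations -/
lemma Sk_diff (R : ℕ) (θ : σ → ℝ) (N : σ → ℕ) (t : σ → ℝ) (K : ℕ)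
    (hN : ∀ s, N s ≤ K) (τ c : ℝ) (hτ : 0 < τ) (hc : 0 ≤ c)
    (h : ∀ κ : σ → ℤ, (∀ s, |κ s| ≤ (K : ℤ)) →
      τ ≤ nd (∑ s, (κ s : ℝ) * θ s) ∨ |∑ s, (κ s : ℝ) * t s| ≤ c) :
    |Sk R θ N t - Sk R θ N 0| ≤ ((K : ℝ) ^ Fintype.card σ) ^ 2 *
      (2 * Real.pi * c * (R : ℝ) ^ 2 + 1 / (2 * τ ^ 2)) := by
  have h0 : (0 : ℝ) ≤ 2 * Real.pi * c * (R : ℝ) ^ 2 + 1 / (2 * τ ^ 2) := by
    have := Real.pi_pos
    positivity
  have h1 : ((Sk R θ N t - Sk R θ N 0 : ℝ) : ℂ) = ∑ j ∈ Jb N, ∑ l ∈ Jb N,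
      (ee (-∑ s, (((j s : ℤ) - (l s : ℤ) : ℤ) : ℝ) * t s) - 1) *
        ((Gk R (∑ s, (((j s : ℤ) - (l s : ℤ) : ℤ) : ℝ) * θ s) : ℝ) : ℂ) := by
    push_cast
    rw [Sk_expand, Sk_zero]
    push_cast
    rw [← sum_sub_distrib]
    refine sum_congr rfl fun j _ => ?_
    rw [← sum_sub_distrib]
    exact sum_congr rfl fun l _ => by ring
  have h2 : |Sk R θ N t - Sk R θ N 0| = ‖((Sk R θ N t - Sk R θ N 0 : ℝ) : ℂ)‖ := by
    rw [Complex.norm_real, Real.norm_eq_abs]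
  rw [h2, h1]
  have h3 : ∀ j ∈ Jb N, ∀ l ∈ Jb N, ‖(ee (-∑ s, (((j s : ℤ) - (l s : ℤ) : ℤ) : ℝ) * t s) - 1) *
        ((Gk R (∑ s, (((j s : ℤ) - (l s : ℤ) : ℤ) : ℝ) * θ s) : ℝ) : ℂ)‖ ≤
        2 * Real.pi * c * (R : ℝ) ^ 2 + 1 / (2 * τ ^ 2) := by
    intro j hj l hl
    rw [Jb, Fintype.mem_piFinset] at hj hl
    rw [norm_mul, Complex.norm_real, Real.norm_eq_abs, abs_of_nonneg (Gk_nonneg _ _)]
    have hb : ∀ s, |(j s : ℤ) - (l s : ℤ)| ≤ (K : ℤ) := by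
      intro s
      have a1 := mem_range.1 (hj s)
      have a2 := mem_range.1 (hl s)
      have a3 := hN s
      rw [abs_le]
      constructor <;> omega
    rcases h (fun s => (j s : ℤ) - (l s : ℤ)) hb with h4 | h4
    · have h5 := Gk_far R _ τ hτ h4
      have h6 : ‖ee (-∑ s, (((j s : ℤ) - (l s : ℤ) : ℤ) : ℝ) * t s) - 1‖ ≤ 2 := by
        refine (norm_sub_le _ _).trans ?_
        rw [norm_ee, norm_one]; norm_num
      have hp := Real.pi_pos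
      calc _ ≤ 2 * (1 / (4 * τ ^ 2)) := mul_le_mul h6 h5 (Gk_nonneg _ _) (by norm_num)
        _ = 1 / (2 * τ ^ 2) := by field_simp; norm_num
        _ ≤ _ := le_add_of_nonneg_left (by positivity)
    · have h5 := norm_ee_sub_one_le (-∑ s, (((j s : ℤ) - (l s : ℤ) : ℤ) : ℝ) * t s)
      rw [abs_neg] at h5
      have hp := Real.pi_pos
      have h6 : ‖ee (-∑ s, (((j s : ℤ) - (l s : ℤ) : ℤ) : ℝ) * t s) - 1‖ ≤ 2 * Real.pi * c :=
        h5.trans (mul_le_mul_of_nonneg_left h4 (by positivity))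
      calc _ ≤ 2 * Real.pi * c * (R : ℝ) ^ 2 :=
            mul_le_mul h6 (Gk_le _ _) (Gk_nonneg _ _) (by positivity)
        _ ≤ _ := le_add_of_nonneg_right (by positivity)
  have h4 : ‖∑ j ∈ Jb N, ∑ l ∈ Jb N, (ee (-∑ s, (((j s : ℤ) - (l s : ℤ) : ℤ) : ℝ) * t s) - 1) *
        ((Gk R (∑ s, (((j s : ℤ) - (l s : ℤ) : ℤ) : ℝ) * θ s) : ℝ) : ℂ)‖ ≤
        ∑ _j ∈ Jb N, ∑ _l ∈ Jb N, (2 * Real.pi * c * (R : ℝ) ^ 2 + 1 / (2 * τ ^ 2)) :=
    (norm_sum_le _ _).trans (sum_le_sum fun j hj => (norm_sum_le _ _).trans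
      (sum_le_sum fun l hl => h3 j hj l hl))
  refine h4.trans ?_
  rw [sum_const, sum_const, nsmul_eq_mul, nsmul_eq_mul, ← mul_assoc]
  have h5 := Jb_card N K hN
  have h6 : ((Jb N).card : ℝ) * ((Jb N).card : ℝ) ≤ ((K : ℝ) ^ Fintype.card σ) ^ 2 := by
    rw [pow_two ((K : ℝ) ^ Fintype.card σ)]
    exact mul_le_mul h5 h5 (Nat.cast_nonneg _) (by positivity)
  exact mul_le_mul_of_nonneg_right h6 h0

/-- lower bound by the diagonal -/
lemma Sk_diag (R : ℕ) (θ : σ → ℝ) (N : σ → ℕ) :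
    ((Jb N).card : ℝ) * (R : ℝ) ^ 2 ≤ Sk R θ N 0 := by
  rw [Sk_zero]
  have h1 : ∀ j ∈ Jb N, (R : ℝ) ^ 2 ≤ ∑ l ∈ Jb N,
      Gk R (∑ s, (((j s : ℤ) - (l s : ℤ) : ℤ) : ℝ) * θ s) := by
    intro j hj
    have h2 := single_le_sum (f := fun l : σ → ℕ =>
      Gk R (∑ s, (((j s : ℤ) - (l s : ℤ) : ℤ) : ℝ) * θ s)) (fun l _ => Gk_nonneg _ _) hj
    refine le_trans (le_of_eq ?_) h2
    simp only [sub_self, Int.cast_zero, zero_mul, sum_const_zero]
    exact (Gk_zero R).symm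
  have h2 := sum_le_sum h1
  rw [sum_const, nsmul_eq_mul] at h2
  exact h2

/-- removing one coordinate -/
lemma Sk_update (R : ℕ) (θ : σ → ℝ) (N : σ → ℕ) (s₀ : σ) (hN : ∀ s, 1 ≤ N s) :
    (N s₀ : ℝ) * Sk R θ (Function.update N s₀ 1) 0 ≤ Sk R θ N 0 := by
  rw [Sk_zero, Sk_zero]
  set J' := Jb (Function.update N s₀ 1) with hJ'
  set P : Finset (ℕ × (σ → ℕ) × (σ → ℕ)) := range (N s₀) ×ˢ J' ×ˢ J' with hP
  set φ : ℕ × (σ → ℕ) × (σ → ℕ) → (σ → ℕ) × (σ → ℕ) := fun x =>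
    (Function.update x.2.1 s₀ x.1, Function.update x.2.2 s₀ x.1) with hφ
  have hmem : ∀ j ∈ J', j s₀ = 0 ∧ ∀ s, s ≠ s₀ → j s < N s := by
    intro j hj
    rw [hJ', Jb, Fintype.mem_piFinset] at hj
    constructor
    · have := hj s₀
      rw [Function.update_self, mem_range] at this
      omega
    · intro s hs
      have := hj s
      rwa [Function.update_of_ne hs, mem_range] at this
  have hup : ∀ j ∈ J', ∀ a < N s₀, Function.update j s₀ a ∈ Jb N := by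
    intro j hj a ha
    rw [Jb, Fintype.mem_piFinset]
    intro s
    by_cases hs : s = s₀
    · subst hs; rw [Function.update_self, mem_range]; exact ha
    · rw [Function.update_of_ne hs, mem_range]; exact (hmem j hj).2 s hs
  have hback : ∀ j ∈ J', ∀ a, Function.update (Function.update j s₀ a) s₀ 0 = j := by
    intro j hj a
    funext s
    by_cases hs : s = s₀
    · subst hs; rw [Function.update_self, (hmem j hj).1]
    · rw [Function.update_of_ne hs, Function.update_of_ne hs]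
  have hinj : Set.InjOn φ (P : Set (ℕ × (σ → ℕ) × (σ → ℕ))) := by
    rintro ⟨a, j, l⟩ h1 ⟨a', j', l'⟩ h2 h
    rw [mem_coe, hP, mem_product, mem_product, mem_range] at h1 h2
    simp only [hφ, Prod.mk.injEq] at h
    have ha : a = a' := by
      have := congrFun h.1 s₀
      simpa using this
    subst ha
    have hj : j = j' := by rw [← hback j h1.2.1 a, h.1, hback j' h2.2.1 a]
    have hl : l = l' := by rw [← hback l h1.2.2 a, h.2, hback l' h2.2.2 a]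
    rw [hj, hl]
  have himg : P.image φ ⊆ Jb N ×ˢ Jb N := by
    intro x hx
    rw [mem_image] at hx
    obtain ⟨⟨a, j, l⟩, h1, rfl⟩ := hx
    rw [hP, mem_product, mem_product, mem_range] at h1
    rw [mem_product]
    exact ⟨hup j h1.2.1 a h1.1, hup l h1.2.2 a h1.1⟩
  have h1 : ∑ x ∈ P.image φ, Gk R (∑ s, (((x.1 s : ℤ) - (x.2 s : ℤ) : ℤ) : ℝ) * θ s) ≤
      ∑ x ∈ Jb N ×ˢ Jb N, Gk R (∑ s, (((x.1 s : ℤ) - (x.2 s : ℤ) : ℤ) : ℝ) * θ s) :=
    sum_le_sum_of_subset_of_nonneg himg fun _ _ _ => Gk_nonneg _ _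
  rw [sum_image hinj, sum_product (Jb N) (Jb N)] at h1
  refine le_trans (le_of_eq ?_) h1
  rw [hP, sum_product]
  have h2 : ∀ a ∈ range (N s₀), ∑ y ∈ J' ×ˢ J',
      Gk R (∑ s, ((((φ (a, y)).1 s : ℤ) - ((φ (a, y)).2 s : ℤ) : ℤ) : ℝ) * θ s) =
      ∑ j ∈ J', ∑ l ∈ J', Gk R (∑ s, (((j s : ℤ) - (l s : ℤ) : ℤ) : ℝ) * θ s) := by
    intro a _
    rw [sum_product]
    refine sum_congr rfl fun j hj => sum_congr rfl fun l hl => ?_
    congr 1
    refine sum_congr rfl fun s _ => ?_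
    simp only [hφ]
    by_cases hs : s = s₀
    · subst hs
      rw [Function.update_self, Function.update_self, (hmem j hj).1, (hmem l hl).1]
      simp
    · rw [Function.update_of_ne hs, Function.update_of_ne hs]
  rw [sum_congr rfl h2, sum_const, card_range, nsmul_eq_mul]

end kron

end Pool.Agent.Lib.MP_663568_nt.Q
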