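import Pool.Agent.Lib.MP_663568_q.Q02

/-!
# Loops and paths of return times
-/

set_option autoImplicit false
open Finset

namespace Pool.Agent.Lib.MP_663568_nt.Q

open Katai Nul H6

variable {σ : Type} [Fintype σ] [DecidableEq σ]

/-- the near relations of bounded height annihilate `y` up to `1 / K` -/
def Perp (K : ℕ) (τ : ℝ) (θ y : σ → ℝ) : Prop :=
  ∀ κ : σ → ℤ, (∀ s, |κ s| ≤ (K : ℤ)) →
    τ ≤ nd (∑ s, (κ s : ℝ) * θ s) ∨ |∑ s, (κ s : ℝ) * y s| ≤ 1 / K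

omit [DecidableEq σ] in
lemma Perp.mono {K K' : ℕ} {τ : ℝ} {θ y : σ → ℝ} (h : Perp K τ θ y) (hK : K' ≤ K) (hK' : 1 ≤ K') :
    Perp K' τ θ y := by
  intro κ hκ
  rcases h κ (fun s => (hκ s).trans (by exact_mod_cast hK)) with h1 | h1
  · exact Or.inl h1
  · refine Or.inr (h1.trans ?_)
    exact one_div_le_one_div_of_le (by exact_mod_cast hK') (by exact_mod_cast hK)

lemma sg_zero : sg 0 = 0 := by simp [sg]

lemma nd_zero : nd 0 = 0 := by simp [nd]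

lemma sg_int (z : ℤ) : sg (z : ℝ) = 0 := by simp [sg]

/-- **Near integrality along a path.** -/
theorem dich (ρ V : ℝ) (hρ : 0 < ρ) (hV : 0 ≤ V) :
    ∃ K : ℕ, 1 ≤ K ∧ V ≤ K ∧ ∀ τ : ℝ, 0 < τ → τ ≤ 1 → ∀ θ y : σ → ℝ, (∀ s, |y s| ≤ V) →
      Perp K τ θ y → ∀ D : ℤ, |(D : ℝ)| ≤ K → (∀ s, ∃ a : ℤ, D * θ s - y s = a) →
      ∀ (lam : σ → ℝ) (ε₂ : ℝ), (∀ s : ℤ, |(s : ℝ)| ≤ 2 * K / τ → (∀ j, nd (s * θ j) ≤ ρ) →
        nd (∑ j, lam j * sg (s * θ j)) ≤ ε₂) →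
      nd (∑ j, lam j * y j) ≤ K * ε₂ := by
  set ρ₀ : ℝ := min ρ (1 / 2) with hρ₀
  have hρ₀0 : 0 < ρ₀ := lt_min hρ (by norm_num)
  have hρ₀1 : ρ₀ ≤ ρ := min_le_left _ _
  have hρ₀2 : ρ₀ ≤ 1 / 2 := min_le_right _ _
  obtain ⟨K₀, hK₀1, hK₀⟩ := kr (σ := σ) (ρ₀ / 4) (by positivity)
  set J : ℕ := ⌈4 * V / ρ₀⌉₊ + 1 with hJ
  have hJ0 : (0 : ℝ) < J := by exact_mod_cast (by omega : 0 < J)
  have hJV : V / J ≤ ρ₀ / 4 := by
    have h1 := Nat.le_ceil (4 * V / ρ₀)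
    have h2 : ((⌈4 * V / ρ₀⌉₊ : ℕ) : ℝ) ≤ J := by exact_mod_cast (by omega)
    rw [div_le_iff₀ hJ0]
    have h3 := h1.trans h2
    rw [div_le_iff₀ hρ₀0] at h3
    linarith
  have hVJ : V ≤ ((K₀ + J : ℕ) : ℝ) := by
    rw [div_le_iff₀ hJ0] at hJV
    have h1 : (0 : ℝ) ≤ K₀ := Nat.cast_nonneg _
    have h2 : ρ₀ / 4 * J ≤ 1 * J := mul_le_mul_of_nonneg_right (by linarith) hJ0.le
    push_cast
    linarith
  refine ⟨K₀ + J, by omega, hVJ, fun τ hτ hτ1 θ y hy hperp D hD hDa lam ε₂ hε => ?_⟩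
  have hKr : ((K₀ + J : ℕ) : ℝ) = K₀ + J := by push_cast; ring
  have hK₀τ : (K₀ : ℝ) / τ ≤ ((K₀ + J : ℕ) : ℝ) / τ := by
    rw [div_le_div_iff_of_pos_right hτ, hKr]; linarith
  -- the points of the path
  have hr : ∀ i : ℕ, ∃ r : ℤ, i ≤ J → (|(r : ℝ)| ≤ ((K₀ + J : ℕ) : ℝ) / τ ∧
      ∀ s, nd (r * θ s - (i / J : ℝ) * y s) ≤ ρ₀ / 4 ∧
        (i = 0 ∨ i = J → sg (r * θ s - (i / J : ℝ) * y s) = 0)) := by
    intro i
    by_cases h0 : i = 0
    · refine ⟨0, fun _ => ⟨by simp only [Int.cast_zero, abs_zero]; positivity, fun s => ?_⟩⟩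
      subst h0
      simp only [Int.cast_zero, zero_mul, Nat.cast_zero, zero_div, sub_self, nd_zero, sg_zero]
      exact ⟨by positivity, fun _ => trivial⟩
    by_cases h1 : i = J
    · refine ⟨D, fun _ => ⟨?_, fun s => ?_⟩⟩
      · refine hD.trans ?_
        rw [le_div_iff₀ hτ]
        exact mul_le_of_le_one_right (by positivity) hτ1
      · rw [h1, div_self hJ0.ne', one_mul]
        obtain ⟨a, ha⟩ := hDa s
        rw [ha]
        exact ⟨by rw [nd_int]; positivity, fun _ => sg_int a⟩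
    by_cases h2 : i < J
    · have h3 : (i : ℝ) / J ≤ 1 := by
        rw [div_le_one hJ0]; exact_mod_cast h2.le
      have h4 : (0 : ℝ) ≤ (i : ℝ) / J := by positivity
      obtain ⟨r, hr1, hr2⟩ := hK₀ τ hτ hτ1 θ (fun s => (i / J : ℝ) * y s) (by
        intro κ hκ
        rcases (hperp.mono (Nat.le_add_right K₀ J) hK₀1) κ hκ with h | h
        · exact Or.inl h
        · right
          have e1 : ∑ s, (κ s : ℝ) * ((i / J : ℝ) * y s) = (i / J : ℝ) * ∑ s, (κ s : ℝ) * y s := by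
            rw [mul_sum]; exact sum_congr rfl fun s _ => by ring
          rw [e1, abs_mul, abs_of_nonneg h4]
          exact (mul_le_of_le_one_left (abs_nonneg _) h3).trans h)
      exact ⟨r, fun _ => ⟨hr1.trans hK₀τ, fun s => ⟨hr2 s, fun h => absurd h (by omega)⟩⟩⟩
    · exact ⟨0, fun h => absurd h (by omega)⟩
  choose r hr using hr
  set ε : ℕ → σ → ℝ := fun i s => sg (r i * θ s - (i / J : ℝ) * y s) with hεd
  have hεb : ∀ i, i ≤ J → ∀ s, |ε i s| ≤ ρ₀ / 4 := by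
    intro i hi s
    rw [hεd]
    simp only
    rw [abs_sg]
    exact ((hr i hi).2 s).1
  have hε0 : ∀ s, ε 0 s = 0 := fun s => ((hr 0 (Nat.zero_le _)).2 s).2 (Or.inl rfl)
  have hεJ : ∀ s, ε J s = 0 := fun s => ((hr J le_rfl).2 s).2 (Or.inr rfl)
  -- the increments
  have hinc : ∀ i < J, ∀ s, sg (((r (i + 1) - r i : ℤ) : ℝ) * θ s) =
      ε (i + 1) s - ε i s + y s / J := by
    intro i hi s
    have h1 := round_add_sg (r (i + 1) * θ s - (((i + 1 : ℕ) : ℝ) / J) * y s)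
    have h2 := round_add_sg (r i * θ s - ((i : ℝ) / J) * y s)
    refine sg_eq (round (r (i + 1) * θ s - (((i + 1 : ℕ) : ℝ) / J) * y s) -
      round (r i * θ s - ((i : ℝ) / J) * y s)) ?_ ?_
    · simp only [hεd]
      push_cast at h1 h2 ⊢
      have e1 : ((i : ℝ) + 1) / J * y s = (i : ℝ) / J * y s + y s / J := by field_simp
      rw [e1] at h1 ⊢
      linarith
    · have h3 := hεb (i + 1) hi s
      have h4 := hεb i hi.le s
      have h5 : |y s / J| ≤ ρ₀ / 4 := by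
        rw [abs_div, abs_of_pos hJ0]
        exact (div_le_div_of_nonneg_right (hy s) hJ0.le).trans hJV
      calc |ε (i + 1) s - ε i s + y s / J| ≤ |ε (i + 1) s - ε i s| + |y s / J| := abs_add_le _ _
        _ ≤ (|ε (i + 1) s| + |ε i s|) + |y s / J| := add_le_add (abs_sub _ _) le_rfl
        _ < 1 / 2 := by linarith
  have hsum : ∀ s, ∑ i ∈ range J, sg (((r (i + 1) - r i : ℤ) : ℝ) * θ s) = y s := by
    intro s
    rw [sum_congr rfl fun i hi => hinc i (mem_range.1 hi) s, sum_add_distrib,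
      sum_range_sub (fun i => ε i s), hε0, hεJ, sum_const, card_range, nsmul_eq_mul]
    field_simp
    ring
  have hndi : ∀ i < J, nd (∑ j, lam j * sg (((r (i + 1) - r i : ℤ) : ℝ) * θ j)) ≤ ε₂ := by
    intro i hi
    refine hε _ ?_ fun j => ?_
    · push_cast
      calc |(r (i + 1) : ℝ) - r i| ≤ |(r (i + 1) : ℝ)| + |(r i : ℝ)| := abs_sub _ _
        _ ≤ ((K₀ + J : ℕ) : ℝ) / τ + ((K₀ + J : ℕ) : ℝ) / τ :=
            add_le_add (hr (i + 1) hi).1 (hr i hi.le).1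
        _ = _ := by push_cast; ring
    · rw [← abs_sg, hinc i hi j]
      have h3 := hεb (i + 1) hi j
      have h4 := hεb i hi.le j
      have h5 : |y j / J| ≤ ρ₀ / 4 := by
        rw [abs_div, abs_of_pos hJ0]
        exact (div_le_div_of_nonneg_right (hy j) hJ0.le).trans hJV
      calc |ε (i + 1) j - ε i j + y j / J| ≤ |ε (i + 1) j - ε i j| + |y j / J| := abs_add_le _ _
        _ ≤ (|ε (i + 1) j| + |ε i j|) + |y j / J| := add_le_add (abs_sub _ _) le_rfl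
        _ ≤ ρ := by linarith
  have hε₂ : 0 ≤ ε₂ := (nd_nonneg _).trans (hndi 0 (by omega))
  have hfin : ∑ j, lam j * y j =
      ∑ i ∈ range J, ∑ j, lam j * sg (((r (i + 1) - r i : ℤ) : ℝ) * θ j) := by
    rw [sum_comm]
    exact sum_congr rfl fun j _ => by rw [← mul_sum, hsum j]
  rw [hfin]
  refine (nd_sum_le _ _).trans ((sum_le_sum fun i hi => hndi i (mem_range.1 hi)).trans ?_)
  rw [sum_const, card_range, nsmul_eq_mul, hKr]
  have : (0 : ℝ) ≤ K₀ := Nat.cast_nonneg _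
  nlinarith

end Pool.Agent.Lib.MP_663568_nt.Q
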