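import Pool.Agent.Lib.MP_663568_q.Q01

/-!
# A common return time
-/

set_option autoImplicit false
open Finset

namespace Pool.Agent.Lib.MP_663568_nt.Q

open Katai Nul H6

/-- If there are individual return times for the members of a finite family, there is a common
one. -/
theorem comb {σ W : Type} [Fintype σ] [Fintype W] [DecidableEq W] (K : ℕ) (hK : 1 ≤ K) (ρ : ℝ)
    (hρ : 0 < ρ) :
    ∃ M : ℕ, 1 ≤ M ∧ ∃ ρ' : ℝ, 0 < ρ' ∧ ρ' ≤ ρ ∧
      ∀ (θ : σ → ℝ) (lam : W → σ → ℝ) (ε R : ℝ), 0 < ε → 0 ≤ R →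
      (∀ w, ∃ s : ℤ, |(s : ℝ)| ≤ R ∧ (∀ j, nd (s * θ j) ≤ ρ') ∧
        ∀ m : ℕ, 1 ≤ m → m ≤ M → ε ≤ nd (m * ∑ j, lam w j * sg (s * θ j))) →
      ∃ s : ℤ, |(s : ℝ)| ≤ M * R ∧ (∀ j, nd (s * θ j) ≤ ρ) ∧
        ∀ w, ∀ m : ℕ, 1 ≤ m → m ≤ K → ε / 2 ≤ nd (m * ∑ j, lam w j * sg (s * θ j)) := by
  set c : ℕ := Fintype.card W with hc
  set N : ℕ := c * K + 1 with hN
  set M : ℕ := (c + 1) * K * N with hM
  have hM1 : 1 ≤ M := Nat.mul_pos (Nat.mul_pos (by omega) hK) (by omega)
  have hKN : K * N ≤ M := by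
    rw [hM]; nlinarith [Nat.zero_le (c * (K * N))]
  set ρ₀ : ℝ := min ρ (1 / 4) with hρ₀
  have hρ₀0 : 0 < ρ₀ := lt_min hρ (by norm_num)
  have hMr : (1 : ℝ) ≤ M := by exact_mod_cast hM1
  have hcN : (c : ℝ) * N ≤ M := by
    have : c * N ≤ M := by
      rw [hM]
      have h1 : c * N ≤ (c + 1) * N := Nat.mul_le_mul_right N (by omega)
      have h2 : (c + 1) * N ≤ (c + 1) * K * N :=
        Nat.mul_le_mul_right N (Nat.le_mul_of_pos_right _ hK)
      exact h1.trans h2
    exact_mod_cast this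
  refine ⟨M, hM1, ρ₀ / M, by positivity, ?_, fun θ lam ε R hε hR0 h => ?_⟩
  · exact (div_le_self hρ₀0.le hMr).trans (min_le_left _ _)
  choose s hs1 hs2 hs3 using h
  have hρM : ∀ j, ∀ w, (N : ℝ) * nd (s w * θ j) ≤ ρ₀ * N / M := by
    intro j w
    calc (N : ℝ) * nd (s w * θ j) ≤ N * (ρ₀ / M) :=
          mul_le_mul_of_nonneg_left (hs2 w j) (Nat.cast_nonneg _)
      _ = _ := by ring
  have htot : (c : ℝ) * (ρ₀ * N / M) ≤ ρ₀ := by
    rw [mul_div_assoc', div_le_iff₀ (by linarith)]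
    calc (c : ℝ) * (ρ₀ * N) = ρ₀ * (c * N) := by ring
      _ ≤ ρ₀ * M := mul_le_mul_of_nonneg_left hcN hρ₀0.le
  -- combinations
  have hndn : ∀ n : W → ℕ, (∀ w, n w ≤ N) → ∀ j, ∑ w, nd (((n w : ℤ) : ℝ) * (s w * θ j)) ≤ ρ₀ := by
    intro n hn j
    calc ∑ w, nd (((n w : ℤ) : ℝ) * (s w * θ j)) ≤ ∑ _w : W, ρ₀ * N / M := by
          refine sum_le_sum fun w _ => ?_
          refine (nd_int_mul_le _ _).trans ?_
          refine le_trans ?_ (hρM j w)
          refine mul_le_mul_of_nonneg_right ?_ (nd_nonneg _)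
          rw [Int.cast_natCast, abs_of_nonneg (Nat.cast_nonneg _)]
          exact_mod_cast hn w
      _ = c * (ρ₀ * N / M) := by rw [sum_const, card_univ, nsmul_eq_mul]
      _ ≤ ρ₀ := htot
  have hcast : ∀ n : W → ℕ, ∀ j, ((∑ w, (n w : ℤ) * s w : ℤ) : ℝ) * θ j =
      ∑ w, ((n w : ℤ) : ℝ) * (s w * θ j) := by
    intro n j
    push_cast
    rw [sum_mul]
    exact sum_congr rfl fun w _ => by ring
  have hsg : ∀ n : W → ℕ, (∀ w, n w ≤ N) → ∀ j, sg (((∑ w, (n w : ℤ) * s w : ℤ) : ℝ) * θ j) =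
      ∑ w, (n w : ℝ) * sg (s w * θ j) := by
    intro n hn j
    have hρ4 : ρ₀ ≤ 1 / 4 := min_le_right _ _
    rw [hcast, sg_sum _ _ ((hndn n hn j).trans_lt (by linarith))]
    refine sum_congr rfl fun w _ => ?_
    rw [sg_int_mul, Int.cast_natCast]
    have h1 := hρM j w
    have h2 : |(((n w : ℤ)) : ℝ)| * nd (s w * θ j) ≤ ρ₀ * N / M := by
      refine le_trans (mul_le_mul_of_nonneg_right ?_ (nd_nonneg _)) h1
      rw [Int.cast_natCast, abs_of_nonneg (Nat.cast_nonneg _)]
      exact_mod_cast hn w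
    have h3 : ρ₀ * N / M ≤ ρ₀ := by
      rw [div_le_iff₀ (by linarith)]
      refine mul_le_mul_of_nonneg_left ?_ hρ₀0.le
      have : N ≤ M := (Nat.le_mul_of_pos_left N hK).trans hKN
      exact_mod_cast this
    linarith
  set φ : W → W → ℝ := fun w w' => ∑ j, lam w j * sg (s w' * θ j) with hφ
  have hlin : ∀ n : W → ℕ, (∀ w, n w ≤ N) → ∀ w,
      ∑ j, lam w j * sg (((∑ w, (n w : ℤ) * s w : ℤ) : ℝ) * θ j) = ∑ w', (n w' : ℝ) * φ w w' := by
    intro n hn w
    simp only [hsg n hn, hφ, mul_sum]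
    rw [sum_comm]
    exact sum_congr rfl fun w' _ => sum_congr rfl fun j _ => by ring
  classical
  set S : Finset (W → ℕ) := Fintype.piFinset fun _ : W => Icc 1 N with hS
  have hScard : S.card = N ^ c := by
    rw [hS, Fintype.card_piFinset, prod_const, card_univ, Nat.card_Icc, Nat.add_sub_cancel]
  have hSmem : ∀ n ∈ S, ∀ w, 1 ≤ n w ∧ n w ≤ N := by
    intro n hn w
    rw [hS, Fintype.mem_piFinset] at hn
    exact mem_Icc.1 (hn w)
  set B : W × ℕ → Finset (W → ℕ) := fun x =>
    S.filter fun n => nd (x.2 * ∑ w', (n w' : ℝ) * φ x.1 w') < ε / 2 with hB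
  have hBcard : ∀ x ∈ (univ : Finset W) ×ˢ Icc 1 K, (B x).card * N ≤ N ^ c := by
    rintro ⟨w, m⟩ hx
    rw [mem_product, mem_Icc] at hx
    obtain ⟨-, hm1, hmK⟩ := hx
    set S' : Finset (W → ℕ) := Fintype.piFinset (Function.update (fun _ : W => Icc 1 N) w {1})
      with hS'
    have hS'card : S'.card * N = N ^ c := by
      rw [hS', Fintype.card_piFinset]
      have h1 : ∏ w', (Function.update (fun _ : W => Icc 1 N) w {1} w').card =
          ∏ w' ∈ univ.erase w, N := by
        rw [← mul_prod_erase univ _ (mem_univ w), Function.update_self, card_singleton, one_mul]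
        refine prod_congr rfl fun w' hw' => ?_
        rw [Function.update_of_ne (mem_erase.1 hw').1, Nat.card_Icc, Nat.add_sub_cancel]
      rw [h1, prod_const, card_erase_of_mem (mem_univ w), card_univ, ← pow_succ, ← hc]
      congr 1
      have : 0 < c := Fintype.card_pos_iff.2 ⟨w⟩
      omega
    rw [← hS'card]
    refine Nat.mul_le_mul_right N ?_
    refine card_le_card_of_injOn (fun n => Function.update n w 1) ?_ ?_
    · intro n hn
      have hn' := (mem_filter.1 (mem_coe.1 hn)).1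
      rw [mem_coe, hS', Fintype.mem_piFinset]
      intro w'
      change Function.update n w 1 w' ∈ Function.update (fun _ : W => Icc 1 N) w {1} w'
      by_cases hw' : w' = w
      · subst hw'
        rw [Function.update_self, Function.update_self]; exact mem_singleton_self 1
      · rw [Function.update_of_ne hw', Function.update_of_ne hw', mem_Icc]
        exact hSmem n hn' w'
    · intro n hn n' hn' heq
      obtain ⟨hnS, hn2⟩ := mem_filter.1 (mem_coe.1 hn)
      obtain ⟨hnS', hn2'⟩ := mem_filter.1 (mem_coe.1 hn')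
      have hoff : ∀ w', w' ≠ w → n w' = n' w' := by
        intro w' hw'
        have := congrFun heq w'
        simpa only [Function.update_of_ne hw'] using this
      have hw : n w = n' w := by
        by_contra hne
        have key : ∀ a b : W → ℕ, a ∈ S → b ∈ S → (∀ w', w' ≠ w → a w' = b w') → b w < a w →
            nd (m * ∑ w', (a w' : ℝ) * φ w w') < ε / 2 →
            nd (m * ∑ w', (b w' : ℝ) * φ w w') < ε / 2 → False := by
          intro a b ha hb hab hlt h1 h2
          have e1 : ((m * (a w - b w) : ℕ) : ℝ) * φ w w =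
              m * ∑ w', (a w' : ℝ) * φ w w' - m * ∑ w', (b w' : ℝ) * φ w w' := by
            rw [← mul_sub, ← sum_sub_distrib]
            have e2 : ∑ w', ((a w' : ℝ) * φ w w' - (b w' : ℝ) * φ w w') =
                (a w : ℝ) * φ w w - (b w : ℝ) * φ w w := by
              refine sum_eq_single_of_mem w (mem_univ w) fun w' _ hw' => ?_
              rw [hab w' hw', sub_self]
            rw [e2]
            push_cast [Nat.cast_sub hlt.le]
            ring
          have h3 := hs3 w (m * (a w - b w)) (Nat.mul_pos hm1 (by omega)) (by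
            refine le_trans (Nat.mul_le_mul hmK ?_) hKN
            have := (hSmem a ha w).2
            omega)
          have h4 : nd (((m * (a w - b w) : ℕ) : ℝ) * φ w w) < ε := by
            rw [e1]
            have := nd_sub_le (m * ∑ w', (a w' : ℝ) * φ w w') (m * ∑ w', (b w' : ℝ) * φ w w')
            linarith
          simp only [hφ] at h4
          linarith
        rcases lt_or_gt_of_ne hne with h | h
        · exact key n' n hnS' hnS (fun w' hw' => (hoff w' hw').symm) h hn2' hn2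
        · exact key n n' hnS hnS' hoff h hn2 hn2'
      funext w'
      by_cases hw' : w' = w
      · rw [hw']; exact hw
      · exact hoff w' hw'
  have hex : ∃ n ∈ S, ∀ x ∈ (univ : Finset W) ×ˢ Icc 1 K, n ∉ B x := by
    by_contra hcon
    push Not at hcon
    have h1 : S ⊆ ((univ : Finset W) ×ˢ Icc 1 K).biUnion B := by
      intro n hn
      obtain ⟨x, hx, hxn⟩ := hcon n hn
      exact mem_biUnion.2 ⟨x, hx, hxn⟩
    have h2 := (card_le_card h1).trans card_biUnion_le
    have h3 : S.card * N ≤ (c * K) * N ^ c := by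
      calc S.card * N ≤ (∑ x ∈ (univ : Finset W) ×ˢ Icc 1 K, (B x).card) * N :=
            Nat.mul_le_mul_right N h2
        _ = ∑ x ∈ (univ : Finset W) ×ˢ Icc 1 K, (B x).card * N := sum_mul _ _ _
        _ ≤ ∑ _x ∈ (univ : Finset W) ×ˢ Icc 1 K, N ^ c := sum_le_sum hBcard
        _ = _ := by
          rw [sum_const, card_product, card_univ, Nat.card_Icc, Nat.add_sub_cancel, smul_eq_mul]
    rw [hScard, mul_comm] at h3
    have h4 : 0 < N ^ c := Nat.pow_pos (by omega)
    have h5 := Nat.le_of_mul_le_mul_right h3 h4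
    omega
  obtain ⟨n, hnS, hn⟩ := hex
  have hnN : ∀ w, n w ≤ N := fun w => (hSmem n hnS w).2
  refine ⟨∑ w, (n w : ℤ) * s w, ?_, fun j => ?_, fun w m hm1 hmK => ?_⟩
  · push_cast
    calc |∑ w, (n w : ℝ) * (s w : ℝ)| ≤ ∑ w, |(n w : ℝ) * (s w : ℝ)| := abs_sum_le_sum_abs _ _
      _ ≤ ∑ _w : W, N * R := by
          refine sum_le_sum fun w _ => ?_
          rw [abs_mul, abs_of_nonneg (Nat.cast_nonneg _)]
          exact mul_le_mul (by exact_mod_cast hnN w) (hs1 w) (abs_nonneg _) (Nat.cast_nonneg _)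
      _ = c * N * R := by rw [sum_const, card_univ, nsmul_eq_mul]; ring
      _ ≤ M * R := mul_le_mul_of_nonneg_right hcN hR0
  · rw [hcast]
    exact (nd_sum_le _ _).trans ((hndn n hnN j).trans (min_le_left _ _))
  · have h1 := hn (w, m) (mem_product.2 ⟨mem_univ w, mem_Icc.2 ⟨hm1, hmK⟩⟩)
    rw [hB, mem_filter] at h1
    push Not at h1
    have h2 := h1 hnS
    rw [hlin n hnN w]
    exact h2

end Pool.Agent.Lib.MP_663568_nt.Q
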