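import Pool.Agent.Lib.MP_663568_q.Q01

/-!
# An approximate rational basis of finitely many real numbers
-/

set_option autoImplicit false
open Finset

namespace Pool.Agent.Lib.MP_663568_nt.Q

open Katai Nul

/-- no near relation with coefficients at most `K` -/
def NRq {β : Type} [Fintype β] (K : ℕ) (τ : ℝ) (θ : β → ℝ) : Prop :=
  ∀ k : β → ℤ, k ≠ 0 → (∀ j, |k j| ≤ (K : ℤ)) → τ ≤ nd (∑ j, (k j : ℝ) * θ j)

lemma NRq.mono {β : Type} [Fintype β] {K K' : ℕ} {τ τ' : ℝ} {θ : β → ℝ} (h : NRq K τ θ)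
    (hK : K' ≤ K) (hτ : τ' ≤ τ) : NRq K' τ' θ := fun k hk hkK =>
  hτ.trans (h k hk fun j => (hkK j).trans (by exact_mod_cast hK))

section

variable {α α' : Type} [Fintype α] [Fintype α']

/-- The numbers `θ' j`, `j ∉ J`, are nearly rational combinations of `1`, the `θ i` and the `θ' i`,
`i ∈ J`, with denominator `D` and coefficients at most `K`. -/
def Basq (K : ℕ) (τ : ℝ) (θ : α → ℝ) (θ' : α' → ℝ) (J : Finset α') (D : ℕ) (a : α' → α → ℤ)
    (a' : α' → α' → ℤ) (w : α' → ℤ) : Prop :=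
  1 ≤ D ∧ D ≤ K ∧ (∀ j i, |a j i| ≤ (K : ℤ)) ∧ (∀ j i, |a' j i| ≤ (K : ℤ)) ∧
    (∀ j i, i ∉ J → a' j i = 0) ∧
    ∀ j, j ∉ J → |(D : ℝ) * θ' j -
      (∑ i, (a j i : ℝ) * θ i + ∑ i, (a' j i : ℝ) * θ' i + w j)| ≤ K * τ

/-- no near relation between the `θ i` and the `θ' j`, `j ∈ J` -/
def NRJq (K : ℕ) (τ : ℝ) (θ : α → ℝ) (θ' : α' → ℝ) (J : Finset α') : Prop :=
  NRq K τ (Sum.elim θ fun j : {j // j ∈ J} => θ' j)

end

private lemma basq_step {α α' : Type} [Fintype α] [Fintype α'] [DecidableEq α'] (K L : ℕ)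
    (τ : ℝ) (hτ : 0 < τ)
    (θ : α → ℝ) (θ' : α' → ℝ) (J : Finset α') (D : ℕ) (a : α' → α → ℤ) (a' : α' → α' → ℤ)
    (w : α' → ℤ) (h : Basq K τ θ θ' J D a a' w) (hNR : NRq L (L * τ) θ)
    (hn : ¬ NRJq L (L * τ) θ θ' J) :
    ∃ j₀ ∈ J, ∃ (D₁ : ℕ) (a₁ : α' → α → ℤ) (a₁' : α' → α' → ℤ) (w₁ : α' → ℤ),
      Basq (2 * K * L) τ θ θ' (J.erase j₀) D₁ a₁ a₁' w₁ := by
  classical
  obtain ⟨hD1, hDK, ha, ha', haJ, hrel⟩ := h
  unfold NRJq NRq at hn
  push Not at hn
  obtain ⟨q, hq0, hqL, hz⟩ := hn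
  set q₁ : α → ℤ := fun i => q (Sum.inl i) with hq₁
  set q₂ : α' → ℤ := fun j => if h : j ∈ J then q (Sum.inr ⟨j, h⟩) else 0 with hq₂
  have hq₁L : ∀ i, |q₁ i| ≤ (L : ℤ) := fun i => hqL _
  have hq₂L : ∀ i, |q₂ i| ≤ (L : ℤ) := by
    intro i
    rw [hq₂]
    simp only
    by_cases h : i ∈ J
    · rw [dif_pos h]; exact hqL _
    · rw [dif_neg h, abs_zero]; positivity
  have hq₂J : ∀ i, i ∉ J → q₂ i = 0 := fun i hi => dif_neg hi
  have hval : ∑ j, (q j : ℝ) * (Sum.elim θ fun j : {j // j ∈ J} => θ' j) j =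
      ∑ i, (q₁ i : ℝ) * θ i + ∑ j, (q₂ j : ℝ) * θ' j := by
    rw [Fintype.sum_sum_type]
    congr 1
    simp only [Sum.elim_inr]
    rw [← sum_subset (subset_univ J) (fun j _ hj => by rw [hq₂J j hj]; simp)]
    rw [← sum_coe_sort J]
    refine sum_congr rfl fun j _ => ?_
    rw [hq₂]
    simp only
    rw [dif_pos j.2]
  rw [hval] at hz
  obtain ⟨z, hzz⟩ := nd_exists (∑ i, (q₁ i : ℝ) * θ i + ∑ j, (q₂ j : ℝ) * θ' j)
  have hz' := hz
  rw [hzz] at hz
  obtain ⟨j₀, hj₀J, hj₀⟩ : ∃ j₀ ∈ J, q₂ j₀ ≠ 0 := by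
    by_contra hcon
    push Not at hcon
    have h2 : ∀ j, q₂ j = 0 := fun j => by
      by_cases hj : j ∈ J
      · exact hcon j hj
      · exact hq₂J j hj
    have h3 : q₁ = 0 := by
      by_contra h4
      have h5 := hNR q₁ h4 hq₁L
      have h6 : ∑ j, (q₂ j : ℝ) * θ' j = 0 := sum_eq_zero fun j _ => by rw [h2 j]; simp
      rw [h6, add_zero] at hz'
      linarith
    apply hq0
    funext j
    rcases j with j | j
    · exact congrFun h3 j
    · have := h2 j.1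
      rw [hq₂] at this
      simp only [dif_pos j.2] at this
      exact this
  obtain ⟨s, hs1, hsc⟩ : ∃ s : ℤ, |s| = 1 ∧ s * q₂ j₀ = ((q₂ j₀).natAbs : ℤ) := by
    rcases lt_or_gt_of_ne hj₀ with h | h
    · exact ⟨-1, by simp, by omega⟩
    · exact ⟨1, by simp, by omega⟩
  have hs1r : |(s : ℝ)| = 1 := by exact_mod_cast hs1
  set c : ℕ := (q₂ j₀).natAbs with hc
  have hc1 : 1 ≤ c := Nat.one_le_iff_ne_zero.2 (by rw [hc]; exact Int.natAbs_ne_zero.2 hj₀)
  have hcL : c ≤ L := by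
    have := hq₂L j₀
    rw [Int.abs_eq_natAbs] at this
    exact_mod_cast this
  have hcLz : (c : ℤ) ≤ L := by exact_mod_cast hcL
  have hDz : (D : ℤ) ≤ K := by exact_mod_cast hDK
  have hK0 : (0 : ℤ) ≤ K := Int.natCast_nonneg _
  have hL0 : (0 : ℤ) ≤ L := Int.natCast_nonneg _
  have hKL : (0 : ℤ) ≤ K * L := mul_nonneg hK0 hL0
  have hcLr : (c : ℝ) ≤ L := by exact_mod_cast hcL
  have hDr : (D : ℝ) ≤ K := by exact_mod_cast hDK
  have hK0r : (0 : ℝ) ≤ K := Nat.cast_nonneg _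
  have hL0r : (0 : ℝ) ≤ L := Nat.cast_nonneg _
  have hbA : ∀ x y u : ℤ, |x| ≤ K → |y| ≤ K → |u| ≤ L → |(c : ℤ) * x - s * y * u| ≤ 2 * K * L := by
    intro x y u hx hy hu
    calc |(c : ℤ) * x - s * y * u| ≤ |(c : ℤ) * x| + |s * y * u| := abs_sub _ _
      _ = c * |x| + |y| * |u| := by
          rw [abs_mul, abs_mul, abs_mul, hs1, one_mul, abs_of_nonneg (Int.natCast_nonneg c)]
      _ ≤ L * K + K * L := add_le_add (mul_le_mul hcLz hx (abs_nonneg _) hL0)
          (mul_le_mul hy hu (abs_nonneg _) hK0)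
      _ = 2 * K * L := by ring
  have hbB : ∀ u : ℤ, |u| ≤ L → |-((D : ℤ) * s * u)| ≤ 2 * K * L := by
    intro u hu
    rw [abs_neg, abs_mul, abs_mul, hs1, mul_one, abs_of_nonneg (Int.natCast_nonneg D)]
    calc (D : ℤ) * |u| ≤ K * L := mul_le_mul hDz hu (abs_nonneg _) hK0
      _ ≤ 2 * K * L := by nlinarith
  refine ⟨j₀, hj₀J, D * c, fun j i => if j = j₀ then -((D : ℤ) * s * q₁ i) else
      c * a j i - s * a' j j₀ * q₁ i,
    fun j i => if j = j₀ then (if i = j₀ then 0 else -((D : ℤ) * s * q₂ i)) else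
      c * a' j i - s * a' j j₀ * q₂ i,
    fun j => if j = j₀ then (D : ℤ) * s * z else c * w j + s * a' j j₀ * z, ?_, ?_, ?_, ?_, ?_, ?_⟩
  · exact Nat.mul_pos hD1 hc1
  · calc D * c ≤ K * L := Nat.mul_le_mul hDK hcL
      _ ≤ 2 * K * L := by nlinarith [Nat.zero_le (K * L)]
  · intro j i
    push_cast
    by_cases hj : j = j₀
    · simp only [hj, if_true]
      exact hbB _ (hq₁L i)
    · simp only [if_neg hj]
      exact hbA _ _ _ (ha j i) (ha' j j₀) (hq₁L i)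
  · intro j i
    push_cast
    by_cases hj : j = j₀
    · simp only [hj, if_true]
      by_cases hi : i = j₀
      · simp only [hi, if_true, abs_zero]
        nlinarith
      · simp only [if_neg hi]
        exact hbB _ (hq₂L i)
    · simp only [if_neg hj]
      exact hbA _ _ _ (ha' j i) (ha' j j₀) (hq₂L i)
  · intro j i hi
    by_cases hj : j = j₀
    · simp only [hj, if_true]
      by_cases hi' : i = j₀
      · simp only [hi', if_true]
      · simp only [if_neg hi']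
        have : i ∉ J := fun h => hi (mem_erase.2 ⟨hi', h⟩)
        rw [hq₂J i this]
        ring
    · simp only [if_neg hj]
      by_cases hi' : i = j₀
      · rw [hi', ← hsc]
        ring
      · have : i ∉ J := fun h => hi (mem_erase.2 ⟨hi', h⟩)
        rw [hq₂J i this, haJ j i this]
        ring
  · intro j hj
    have hsr : (s : ℝ) * (q₂ j₀ : ℝ) = (c : ℝ) := by exact_mod_cast hsc
    by_cases hj' : j = j₀
    · subst hj'
      simp only [if_true]
      have h1 : ∑ i, (q₂ i : ℝ) * θ' i = (q₂ j : ℝ) * θ' j +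
          ∑ i, ((if i = j then 0 else q₂ i : ℤ) : ℝ) * θ' i := by
        rw [← add_sum_erase univ (fun i => (q₂ i : ℝ) * θ' i) (mem_univ j)]
        rw [← add_sum_erase univ (fun i => ((if i = j then 0 else q₂ i : ℤ) : ℝ) * θ' i)
          (mem_univ j)]
        simp only [if_true, Int.cast_zero, zero_mul, zero_add]
        congr 1
        refine sum_congr rfl fun i hi => ?_
        rw [if_neg (mem_erase.1 hi).1]
      have h2 : ∑ i, ((if i = j then 0 else -((D : ℤ) * s * q₂ i) : ℤ) : ℝ) * θ' i =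
          -((D : ℝ) * s) * ∑ i, ((if i = j then 0 else q₂ i : ℤ) : ℝ) * θ' i := by
        rw [mul_sum]
        refine sum_congr rfl fun i _ => ?_
        split_ifs
        · simp
        · push_cast; ring
      have h3 : ∑ i, ((-((D : ℤ) * s * q₁ i) : ℤ) : ℝ) * θ i =
          -((D : ℝ) * s) * ∑ i, (q₁ i : ℝ) * θ i := by
        rw [mul_sum]
        refine sum_congr rfl fun i _ => ?_
        push_cast; ring
      rw [h2, h3]
      rw [h1] at hz
      generalize (∑ i, ((if i = j then 0 else q₂ i : ℤ) : ℝ) * θ' i) = S2 at hz ⊢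
      generalize (∑ i, (q₁ i : ℝ) * θ i) = S1 at hz ⊢
      have h4 : ((D * c : ℕ) : ℝ) * θ' j - (-((D : ℝ) * s) * S1 + -((D : ℝ) * s) * S2 +
          (((D : ℤ) * s * z : ℤ) : ℝ)) = ((D : ℝ) * s) * (S1 + ((q₂ j : ℝ) * θ' j + S2) - z) := by
        push_cast
        rw [← hsr]
        ring
      rw [h4, abs_mul, abs_mul, hs1r, mul_one, abs_of_nonneg (Nat.cast_nonneg D)]
      push_cast
      calc (D : ℝ) * |S1 + ((q₂ j : ℝ) * θ' j + S2) - z| ≤ K * (L * τ) :=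
            mul_le_mul hDr hz.le (abs_nonneg _) hK0r
        _ ≤ 2 * K * L * τ := by nlinarith [mul_nonneg (mul_nonneg hK0r hL0r) hτ.le]
    · simp only [if_neg hj']
      have hjJ : j ∉ J := fun h => hj (mem_erase.2 ⟨hj', h⟩)
      have h1 := hrel j hjJ
      have h2 : ∑ i, (((c : ℤ) * a j i - s * a' j j₀ * q₁ i : ℤ) : ℝ) * θ i =
          c * ∑ i, (a j i : ℝ) * θ i - s * a' j j₀ * ∑ i, (q₁ i : ℝ) * θ i := by
        rw [mul_sum, mul_sum, ← sum_sub_distrib]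
        refine sum_congr rfl fun i _ => ?_
        push_cast; ring
      have h3 : ∑ i, (((c : ℤ) * a' j i - s * a' j j₀ * q₂ i : ℤ) : ℝ) * θ' i =
          c * ∑ i, (a' j i : ℝ) * θ' i - s * a' j j₀ * ∑ i, (q₂ i : ℝ) * θ' i := by
        rw [mul_sum, mul_sum, ← sum_sub_distrib]
        refine sum_congr rfl fun i _ => ?_
        push_cast; ring
      rw [h2, h3]
      generalize (∑ i, (a j i : ℝ) * θ i) = A1 at h1 ⊢
      generalize (∑ i, (a' j i : ℝ) * θ' i) = A2 at h1 ⊢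
      generalize (∑ i, (q₁ i : ℝ) * θ i) = S1 at hz ⊢
      generalize (∑ i, (q₂ i : ℝ) * θ' i) = S2 at hz ⊢
      have h4 : ((D * c : ℕ) : ℝ) * θ' j - ((c : ℝ) * A1 - s * a' j j₀ * S1 +
          ((c : ℝ) * A2 - s * a' j j₀ * S2) + (((c : ℤ) * w j + s * a' j j₀ * z : ℤ) : ℝ)) =
          (c : ℝ) * ((D : ℝ) * θ' j - (A1 + A2 + w j)) + (s : ℝ) * a' j j₀ * (S1 + S2 - z) := by
        push_cast
        ring
      rw [h4]
      have ha'r : |(a' j j₀ : ℝ)| ≤ K := by exact_mod_cast ha' j j₀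
      refine (abs_add_le _ _).trans ?_
      rw [abs_mul, abs_mul, abs_mul, hs1r, one_mul, abs_of_nonneg (Nat.cast_nonneg c)]
      push_cast
      calc (c : ℝ) * |(D : ℝ) * θ' j - (A1 + A2 + w j)| + |(a' j j₀ : ℝ)| * |S1 + S2 - z| ≤
            L * (K * τ) + K * (L * τ) := add_le_add (mul_le_mul hcLr h1 (abs_nonneg _) hL0r)
              (mul_le_mul ha'r hz.le (abs_nonneg _) hK0r)
        _ = _ := by ring

private def kseq (f : ℕ → ℕ) : ℕ → ℕ
  | 0 => 1
  | n + 1 => 2 * kseq f n * f (kseq f n)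

theorem exists_basq {α α' : Type} [Fintype α] [Fintype α'] [DecidableEq α'] (f : ℕ → ℕ) :
    ∃ Kmax : ℕ, ∀ τ : ℝ, 0 < τ → ∀ (θ : α → ℝ) (θ' : α' → ℝ), NRq Kmax (Kmax * τ) θ →
      ∃ K₀ : ℕ, K₀ ≤ Kmax ∧ ∃ (J : Finset α') (D : ℕ) (a : α' → α → ℤ) (a' : α' → α' → ℤ)
        (w : α' → ℤ), Basq K₀ τ θ θ' J D a a' w ∧ NRJq (f K₀) (f K₀ * τ) θ θ' J := by
  classical
  set N : ℕ := Fintype.card α' with hN
  refine ⟨∑ i ∈ range (N + 1), (kseq f i + f (kseq f i)), fun τ hτ θ θ' hθ => ?_⟩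
  have hle : ∀ i, i ≤ N → kseq f i + f (kseq f i) ≤
      ∑ i ∈ range (N + 1), (kseq f i + f (kseq f i)) := fun i hi =>
    single_le_sum (f := fun i => kseq f i + f (kseq f i)) (fun _ _ => Nat.zero_le _)
      (mem_range.2 (Nat.lt_succ_of_le hi))
  have hNRi : ∀ i, i ≤ N → NRq (f (kseq f i)) (f (kseq f i) * τ) θ := by
    intro i hi
    have h1 : f (kseq f i) ≤ ∑ i ∈ range (N + 1), (kseq f i + f (kseq f i)) :=
      (Nat.le_add_left _ _).trans (hle i hi)
    refine hθ.mono h1 ?_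
    refine mul_le_mul_of_nonneg_right ?_ hτ.le
    exact_mod_cast h1
  have main : ∀ (n : ℕ) (J : Finset α'), J.card = n → ∀ i, i + n ≤ N →
      ∀ (D : ℕ) (a : α' → α → ℤ) (a' : α' → α' → ℤ) (w : α' → ℤ),
      Basq (kseq f i) τ θ θ' J D a a' w →
      ∃ K₀ : ℕ, K₀ ≤ ∑ i ∈ range (N + 1), (kseq f i + f (kseq f i)) ∧
        ∃ (J : Finset α') (D : ℕ) (a : α' → α → ℤ) (a' : α' → α' → ℤ)
        (w : α' → ℤ), Basq K₀ τ θ θ' J D a a' w ∧ NRJq (f K₀) (f K₀ * τ) θ θ' J := by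
    intro n
    induction n with
    | zero =>
      intro J hJ i hi D a a' w hB
      refine ⟨kseq f i, (Nat.le_add_right _ _).trans (hle i (by omega)), J, D, a, a', w, hB, ?_⟩
      rw [card_eq_zero] at hJ
      subst hJ
      intro q hq hqL
      have h1 := hNRi i (by omega) (fun j => q (Sum.inl j)) (by
        intro h0
        apply hq
        funext j
        rcases j with j | j
        · exact congrFun h0 j
        · exact absurd j.2 (notMem_empty _)) (fun j => hqL _)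
      refine h1.trans (le_of_eq ?_)
      rw [Fintype.sum_sum_type]
      simp
    | succ n ih =>
      intro J hJ i hi D a a' w hB
      by_cases hNRJ : NRJq (f (kseq f i)) (f (kseq f i) * τ) θ θ' J
      · exact ⟨kseq f i, (Nat.le_add_right _ _).trans (hle i (by omega)), J, D, a, a', w, hB,
          hNRJ⟩
      · obtain ⟨j₀, hj₀, D₁, a₁, a₁', w₁, hB₁⟩ := basq_step (kseq f i) (f (kseq f i)) τ hτ θ θ' J
          D a a' w hB (hNRi i (by omega)) hNRJ
        refine ih (J.erase j₀) ?_ (i + 1) (by omega) D₁ a₁ a₁' w₁ hB₁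
        rw [card_erase_of_mem hj₀, hJ]
        rfl
  refine main N univ (by rw [card_univ]) 0 (by omega) 1 (fun _ _ => 0) (fun _ _ => 0)
    (fun _ => 0) ?_
  refine ⟨le_rfl, le_rfl, fun _ _ => ?_, fun _ _ => ?_, fun _ _ _ => rfl, fun j hj =>
    absurd (mem_univ j) hj⟩
  · rw [abs_zero]; exact Int.natCast_nonneg _
  · rw [abs_zero]; exact Int.natCast_nonneg _

end Pool.Agent.Lib.MP_663568_nt.Q
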