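import Pool.Agent.Lib.MP_663568_q.Q03
import Pool.Agent.Lib.MP_663568_q.Q04
import Pool.Agent.Lib.MP_663568_q.Q05

/-!
# Bilinear forms, individual return times, and the annihilator of the near relations
-/

set_option autoImplicit false
open Finset

namespace Pool.Agent.Lib.MP_663568_nt.Q

open Katai Nul H6

section bl

variable {β : Type} [Fintype β]

/-- the bilinear form -/
def bl (M : β → β → ℤ) (x y : β → ℝ) : ℝ := ∑ j, ∑ i, (M j i : ℝ) * x j * y i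

lemma bl_lam (M : β → β → ℤ) (x y : β → ℝ) :
    ∑ j, (∑ i, (M j i : ℝ) * y i) * x j = bl M x y := by
  unfold bl
  refine sum_congr rfl fun j _ => ?_
  rw [sum_mul]
  exact sum_congr rfl fun i _ => by ring

lemma bl_add_left (M : β → β → ℤ) (x x' y : β → ℝ) : bl M (x + x') y = bl M x y + bl M x' y := by
  unfold bl
  rw [← sum_add_distrib]
  refine sum_congr rfl fun j _ => ?_
  rw [← sum_add_distrib]
  exact sum_congr rfl fun i _ => by rw [Pi.add_apply]; ring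

lemma bl_add_right (M : β → β → ℤ) (x y y' : β → ℝ) : bl M x (y + y') = bl M x y + bl M x y' := by
  unfold bl
  rw [← sum_add_distrib]
  refine sum_congr rfl fun j _ => ?_
  rw [← sum_add_distrib]
  exact sum_congr rfl fun i _ => by rw [Pi.add_apply]; ring

lemma bl_smul_left (M : β → β → ℤ) (c : ℝ) (x y : β → ℝ) :
    bl M (fun j => c * x j) y = c * bl M x y := by
  unfold bl
  rw [mul_sum]
  refine sum_congr rfl fun j _ => ?_
  rw [mul_sum]
  exact sum_congr rfl fun i _ => by ring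

lemma bl_smul_right (M : β → β → ℤ) (c : ℝ) (x y : β → ℝ) :
    bl M x (fun j => c * y j) = c * bl M x y := by
  unfold bl
  rw [mul_sum]
  refine sum_congr rfl fun j _ => ?_
  rw [mul_sum]
  exact sum_congr rfl fun i _ => by ring

/-- alternating -/
def Alt (M : β → β → ℤ) : Prop := ∀ x : β → ℝ, bl M x x = 0

lemma Alt.anti {M : β → β → ℤ} (h : Alt M) (x y : β → ℝ) : bl M x y = - bl M y x := by
  have h1 := h (x + y)
  rw [bl_add_left, bl_add_right, bl_add_right, h x, h y] at h1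
  linarith

lemma bl_int (M : β → β → ℤ) (x y : β → ℤ) :
    ∃ z : ℤ, bl M (fun j => (x j : ℝ)) (fun j => (y j : ℝ)) = z := by
  refine ⟨∑ j, ∑ i, M j i * x j * y i, ?_⟩
  unfold bl
  push_cast
  rfl

lemma bl_abs (M : β → β → ℤ) (x y : β → ℝ) (B X Y : ℝ) (hM : ∀ j i, |(M j i : ℝ)| ≤ B)
    (hx : ∀ j, |x j| ≤ X) (hy : ∀ j, |y j| ≤ Y) (hB : 0 ≤ B) (hX : 0 ≤ X) :
    |bl M x y| ≤ (Fintype.card β : ℝ) ^ 2 * (B * X * Y) := by
  unfold bl
  calc |∑ j, ∑ i, (M j i : ℝ) * x j * y i| ≤ ∑ j, ∑ i, |(M j i : ℝ) * x j * y i| :=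
        (abs_sum_le_sum_abs _ _).trans (sum_le_sum fun j _ => abs_sum_le_sum_abs _ _)
    _ ≤ ∑ _j : β, ∑ _i : β, B * X * Y := by
        refine sum_le_sum fun j _ => sum_le_sum fun i _ => ?_
        rw [abs_mul, abs_mul]
        exact mul_le_mul (mul_le_mul (hM j i) (hx j) (abs_nonneg _) hB) (hy i) (abs_nonneg _)
          (mul_nonneg hB hX)
    _ = _ := by
        rw [sum_const, sum_const, card_univ, nsmul_eq_mul, nsmul_eq_mul]; ring

end bl

lemma nd_fact (K₁ m : ℕ) (hm : 1 ≤ m) (hmK : m ≤ K₁) (x e : ℝ) (h : nd (m * x) < e) :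
    nd ((K₁.factorial : ℝ) * x) ≤ K₁.factorial * e := by
  obtain ⟨c, hc⟩ := Nat.dvd_factorial hm hmK
  have h1 : (K₁.factorial : ℝ) * x = (c : ℝ) * (m * x) := by rw [hc]; push_cast; ring
  rw [h1]
  refine (nd_nat_mul_le c _).trans ?_
  have h2 : c ≤ K₁.factorial := by rw [hc]; exact Nat.le_mul_of_pos_left c hm
  exact mul_le_mul (by exact_mod_cast h2) h.le (nd_nonneg _) (Nat.cast_nonneg _)

/-- **Near integrality at the end points of all paths, if there is no good return time.** -/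
theorem no_good {σ : Type} [Fintype σ] [DecidableEq σ] (ρ V : ℝ) (hρ : 0 < ρ) (hV : 0 ≤ V)
    (K₁ : ℕ) : ∃ K : ℕ, 1 ≤ K ∧ V ≤ K ∧ ∀ τ : ℝ, 0 < τ → τ ≤ 1 → ∀ θ y : σ → ℝ, (∀ s, |y s| ≤ V) →
      Perp K τ θ y → ∀ D : ℤ, |(D : ℝ)| ≤ K → (∀ s, ∃ a : ℤ, D * θ s - y s = a) →
      ∀ (lam : σ → ℝ) (e : ℝ),
      (¬ ∃ s : ℤ, |(s : ℝ)| ≤ 2 * K / τ ∧ (∀ j, nd (s * θ j) ≤ ρ) ∧
        ∀ m : ℕ, 1 ≤ m → m ≤ K₁ → e ≤ nd (m * ∑ j, lam j * sg (s * θ j))) →
      nd (K₁.factorial * ∑ j, lam j * y j) ≤ K * (K₁.factorial * e) := by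
  obtain ⟨K, hK, hVK, h⟩ := dich (σ := σ) ρ V hρ hV
  refine ⟨K, hK, hVK, fun τ hτ hτ1 θ y hy hperp D hD ha lam e hno => ?_⟩
  have h1 := h τ hτ hτ1 θ y hy hperp D hD ha (fun j => K₁.factorial * lam j) (K₁.factorial * e)
    (by
      intro s hs hsρ
      push Not at hno
      obtain ⟨m, hm1, hmK, hm⟩ := hno s hs hsρ
      have h2 := nd_fact K₁ m hm1 hmK _ e hm
      refine le_trans (le_of_eq ?_) h2
      rw [mul_sum]
      congr 1
      exact sum_congr rfl fun j _ => by ring)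
  refine le_trans (le_of_eq ?_) h1
  rw [mul_sum]
  congr 1
  exact sum_congr rfl fun j _ => by ring

/-- **Individual return times if there are no near relations.** -/
theorem ind_free {σ : Type} [Fintype σ] [DecidableEq σ] (ρ : ℝ) (hρ : 0 < ρ) (K₁ B : ℕ) :
    ∃ C : ℕ, 1 ≤ C ∧ ∀ τ : ℝ, 0 < τ → τ ≤ 1 → ∀ θ : σ → ℝ, NRq C τ θ →
      ∀ M : σ → σ → ℤ, (∀ j i, |M j i| ≤ (B : ℤ)) → M ≠ 0 →
      ∃ s : ℤ, |(s : ℝ)| ≤ C / τ ∧ (∀ j, nd (s * θ j) ≤ ρ) ∧
        ∀ m : ℕ, 1 ≤ m → m ≤ K₁ →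
          τ / C ≤ nd (m * ∑ j, (∑ i, (M j i : ℝ) * θ i) * sg (s * θ j)) := by
  obtain ⟨K, hK, -, h⟩ := no_good (σ := σ) ρ 1 hρ zero_le_one K₁
  set C : ℕ := 2 * K * K₁.factorial * (B + 1) with hC
  have hf1 : 1 ≤ K₁.factorial := Nat.factorial_pos _
  have hKC : 2 * K ≤ C := by
    rw [hC]
    calc 2 * K = 2 * K * 1 * 1 := by ring
      _ ≤ 2 * K * K₁.factorial * (B + 1) :=
        Nat.mul_le_mul (Nat.mul_le_mul_left _ hf1) (by omega)
  have hBC : K₁.factorial * B ≤ C := by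
    rw [hC]
    calc K₁.factorial * B ≤ 2 * K * (K₁.factorial * B) := Nat.le_mul_of_pos_left _ (by omega)
      _ ≤ 2 * K * (K₁.factorial * (B + 1)) := by gcongr; omega
      _ = _ := by ring
  have hC0 : (0 : ℝ) < C := by exact_mod_cast (by omega : 0 < C)
  refine ⟨C, by omega, fun τ hτ hτ1 θ hNR M hM hM0 => ?_⟩
  by_contra hcon
  obtain ⟨j, hj⟩ : ∃ j, M j ≠ 0 := by
    by_contra hall
    push Not at hall
    exact hM0 (funext hall)
  have h1 := h τ hτ hτ1 θ (Pi.single j 1) (by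
    intro s
    by_cases hs : s = j
    · subst hs; simp
    · rw [Pi.single_eq_of_ne hs]; simp) (by
    intro κ hκ
    by_cases h0 : κ = 0
    · right
      subst h0
      simp
    · left
      exact hNR κ h0 fun s => (hκ s).trans (by exact_mod_cast (by omega : K ≤ C))) 0
    (by simp) (by
      intro s
      by_cases hs : s = j
      · subst hs; exact ⟨-1, by simp⟩
      · exact ⟨0, by rw [Pi.single_eq_of_ne hs]; simp⟩)
    (fun j => ∑ i, (M j i : ℝ) * θ i) (τ / C) (by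
      rintro ⟨s, h1, h2, h3⟩
      refine hcon ⟨s, h1.trans ?_, h2, h3⟩
      rw [div_le_div_iff_of_pos_right hτ]
      exact_mod_cast hKC)
  have h2 : ∑ j', (∑ i, (M j' i : ℝ) * θ i) * (Pi.single j (1 : ℝ) : σ → ℝ) j' =
      ∑ i, (M j i : ℝ) * θ i := by
    rw [sum_eq_single_of_mem j (mem_univ j) fun j' _ hj' => by rw [Pi.single_eq_of_ne hj', mul_zero]]
    simp
  rw [h2] at h1
  have h3 := hNR (fun i => K₁.factorial * M j i) (by
    intro h0
    apply hj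
    funext i
    have := congrFun h0 i
    simp only [Pi.zero_apply] at this ⊢
    rcases mul_eq_zero.1 this with h4 | h4
    · exact absurd h4 (by exact_mod_cast (Nat.factorial_ne_zero _))
    · exact h4) (by
    intro i
    rw [abs_mul, abs_of_nonneg (Int.natCast_nonneg _)]
    calc (K₁.factorial : ℤ) * |M j i| ≤ K₁.factorial * B :=
          mul_le_mul_of_nonneg_left (hM j i) (Int.natCast_nonneg _)
      _ ≤ C := by exact_mod_cast hBC)
  have h4 : ∑ i, (((K₁.factorial : ℤ) * M j i : ℤ) : ℝ) * θ i =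
      K₁.factorial * ∑ i, (M j i : ℝ) * θ i := by
    rw [mul_sum]
    refine sum_congr rfl fun i _ => ?_
    push_cast; ring
  rw [h4] at h3
  have h5 : (K : ℝ) * (K₁.factorial * (τ / C)) < τ := by
    have h6 : (K : ℝ) * K₁.factorial < C := by
      have : K * K₁.factorial < C := by
        rw [hC]
        have h7 : 0 < K * K₁.factorial := Nat.mul_pos (by omega) (by omega)
        calc K * K₁.factorial < 2 * (K * K₁.factorial) := by omega
          _ = 2 * K * K₁.factorial * 1 := by ring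
          _ ≤ _ := Nat.mul_le_mul_left _ (by omega)
      exact_mod_cast this
    calc (K : ℝ) * (K₁.factorial * (τ / C)) = (K * K₁.factorial) / C * τ := by ring
      _ < 1 * τ := by
          refine mul_lt_mul_of_pos_right ?_ hτ
          rw [div_lt_one hC0]; exact h6
      _ = τ := one_mul _
  linarith

section ann

variable {α α' : Type} [Fintype α] [Fintype α'] [DecidableEq α']

lemma ann_id (J : Finset α') (D : ℕ) (a : α' → α → ℤ) (a' : α' → α' → ℤ)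
    (ha' : ∀ j i, i ∉ J → a' j i = 0) (μ : α → ℤ) (μ' : α' → ℤ) (y : α → ℝ) (y' : α' → ℝ) :
    ∑ i, (((D : ℤ) * μ i + ∑ j ∈ univ \ J, μ' j * a j i : ℤ) : ℝ) * y i +
      ∑ i ∈ J, (((D : ℤ) * μ' i + ∑ j ∈ univ \ J, μ' j * a' j i : ℤ) : ℝ) * y' i =
    D * (∑ i, (μ i : ℝ) * y i + ∑ i, (μ' i : ℝ) * y' i) -
      ∑ j ∈ univ \ J, (μ' j : ℝ) * ((D : ℝ) * y' j -
        (∑ i, (a j i : ℝ) * y i + ∑ i, (a' j i : ℝ) * y' i)) := by
  have h1 : ∑ i, (((D : ℤ) * μ i + ∑ j ∈ univ \ J, μ' j * a j i : ℤ) : ℝ) * y i =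
      D * ∑ i, (μ i : ℝ) * y i + ∑ j ∈ univ \ J, (μ' j : ℝ) * ∑ i, (a j i : ℝ) * y i := by
    push_cast
    simp only [add_mul, sum_add_distrib, sum_mul, mul_sum]
    congr 1
    · exact sum_congr rfl fun i _ => by ring
    · rw [sum_comm]
      exact sum_congr rfl fun j _ => sum_congr rfl fun i _ => by ring
  have h2 : ∑ i ∈ J, (((D : ℤ) * μ' i + ∑ j ∈ univ \ J, μ' j * a' j i : ℤ) : ℝ) * y' i =
      D * ∑ i ∈ J, (μ' i : ℝ) * y' i +
        ∑ j ∈ univ \ J, (μ' j : ℝ) * ∑ i, (a' j i : ℝ) * y' i := by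
    push_cast
    simp only [add_mul, sum_add_distrib, sum_mul, mul_sum]
    congr 1
    · exact sum_congr rfl fun i _ => by ring
    · rw [sum_comm]
      refine sum_congr rfl fun j _ => ?_
      rw [← sum_subset (subset_univ J) fun i _ hi => by rw [ha' j i hi]; simp]
      exact sum_congr rfl fun i _ => by ring
  have h3 : ∑ i, (μ' i : ℝ) * y' i = ∑ i ∈ univ \ J, (μ' i : ℝ) * y' i +
      ∑ i ∈ J, (μ' i : ℝ) * y' i := (sum_sdiff (subset_univ J)).symm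
  rw [h1, h2, h3]
  have h4 : ∑ j ∈ univ \ J, (μ' j : ℝ) * ((D : ℝ) * y' j -
        (∑ i, (a j i : ℝ) * y i + ∑ i, (a' j i : ℝ) * y' i)) =
      D * ∑ i ∈ univ \ J, (μ' i : ℝ) * y' i -
        ∑ j ∈ univ \ J, (μ' j : ℝ) * ∑ i, (a j i : ℝ) * y i -
        ∑ j ∈ univ \ J, (μ' j : ℝ) * ∑ i, (a' j i : ℝ) * y' i := by
    rw [mul_sum, ← sum_sub_distrib, ← sum_sub_distrib]
    exact sum_congr rfl fun j _ => by ring
  rw [h4]
  ring

/-- Near relations nearly annihilate the vectors which nearly satisfy the equations of the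
basis. -/
theorem ann (K₀ Kp F : ℕ) (τ : ℝ) (hτ : 0 < τ) (θ : α → ℝ) (θ' : α' → ℝ) (J : Finset α') (D : ℕ)
    (a : α' → α → ℤ) (a' : α' → α' → ℤ) (w : α' → ℤ) (hB : Basq K₀ τ θ θ' J D a a' w)
    (hF : K₀ * (1 + Fintype.card α' * Kp) + K₀ * (Kp + Fintype.card α' * Kp) < F)
    (hJ : NRJq F (F * τ) θ θ' J) (μ : α → ℤ) (μ' : α' → ℤ) (hμ : ∀ i, |μ i| ≤ (Kp : ℤ))
    (hμ' : ∀ i, |μ' i| ≤ (Kp : ℤ)) (hnd : nd (∑ i, (μ i : ℝ) * θ i + ∑ i, (μ' i : ℝ) * θ' i) < τ)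
    (y : α → ℝ) (y' : α' → ℝ) (r : ℝ) (hr0 : 0 ≤ r)
    (hr : ∀ j, j ∉ J → |(D : ℝ) * y' j - (∑ i, (a j i : ℝ) * y i + ∑ i, (a' j i : ℝ) * y' i)| ≤ r) :
    |∑ i, (μ i : ℝ) * y i + ∑ i, (μ' i : ℝ) * y' i| ≤ Fintype.card α' * (Kp * r) := by
  obtain ⟨hD1, hDK, ha, ha', haJ, hrel⟩ := hB
  set n : ℕ := Fintype.card α' with hn
  set ν : α → ℤ := fun i => (D : ℤ) * μ i + ∑ j ∈ univ \ J, μ' j * a j i with hν
  set ν' : α' → ℤ := fun i => (D : ℤ) * μ' i + ∑ j ∈ univ \ J, μ' j * a' j i with hν'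
  have hid : ∀ (y : α → ℝ) (y' : α' → ℝ), ∑ i, (ν i : ℝ) * y i + ∑ i ∈ J, (ν' i : ℝ) * y' i =
      D * (∑ i, (μ i : ℝ) * y i + ∑ i, (μ' i : ℝ) * y' i) -
      ∑ j ∈ univ \ J, (μ' j : ℝ) * ((D : ℝ) * y' j -
        (∑ i, (a j i : ℝ) * y i + ∑ i, (a' j i : ℝ) * y' i)) := fun y y' =>
    ann_id J D a a' haJ μ μ' y y'
  have hDr1 : (1 : ℝ) ≤ D := by exact_mod_cast hD1
  have hDr : (D : ℝ) ≤ K₀ := by exact_mod_cast hDK
  have hcard : ((univ \ J).card : ℝ) ≤ n := by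
    have : (univ \ J).card ≤ n := by rw [hn, ← card_univ]; exact card_le_card sdiff_subset
    exact_mod_cast this
  have hcardz : ((univ \ J).card : ℤ) ≤ n := by
    have : (univ \ J).card ≤ n := by rw [hn, ← card_univ]; exact card_le_card sdiff_subset
    exact_mod_cast this
  have hμr : ∀ i, |(μ' i : ℝ)| ≤ Kp := fun i => by exact_mod_cast hμ' i
  have hsb : ∀ c : α' → ℤ, (∀ j, |c j| ≤ (K₀ : ℤ)) → |∑ j ∈ univ \ J, μ' j * c j| ≤ n * (Kp * K₀) := by
    intro c hc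
    calc |∑ j ∈ univ \ J, μ' j * c j| ≤ ∑ j ∈ univ \ J, |μ' j * c j| := abs_sum_le_sum_abs _ _
      _ ≤ ∑ _j ∈ univ \ J, (Kp * K₀ : ℤ) := by
          refine sum_le_sum fun j _ => ?_
          rw [abs_mul]
          exact mul_le_mul (hμ' j) (hc j) (abs_nonneg _) (Int.natCast_nonneg _)
      _ = ((univ \ J).card : ℤ) * (Kp * K₀) := by rw [sum_const, nsmul_eq_mul]
      _ ≤ _ := mul_le_mul_of_nonneg_right hcardz (by positivity)
  have hνb : ∀ i, |ν i| ≤ (F : ℤ) := by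
    intro i
    have h1 := hsb (fun j => a j i) fun j => ha j i
    have h2 : |(D : ℤ) * μ i| ≤ K₀ * Kp := by
      rw [abs_mul, abs_of_nonneg (Int.natCast_nonneg _)]
      exact mul_le_mul (by exact_mod_cast hDK) (hμ i) (abs_nonneg _) (Int.natCast_nonneg _)
    have h3 : (K₀ : ℤ) * Kp + n * (Kp * K₀) ≤ F := by
      have : K₀ * Kp + n * (Kp * K₀) ≤ F := by
        refine le_trans ?_ hF.le
        nlinarith [Nat.zero_le (K₀ * (1 + n * Kp))]
      exact_mod_cast this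
    exact (abs_add_le _ _).trans ((add_le_add h2 h1).trans h3)
  have hνb' : ∀ i, |ν' i| ≤ (F : ℤ) := by
    intro i
    have h1 := hsb (fun j => a' j i) fun j => ha' j i
    have h2 : |(D : ℤ) * μ' i| ≤ K₀ * Kp := by
      rw [abs_mul, abs_of_nonneg (Int.natCast_nonneg _)]
      exact mul_le_mul (by exact_mod_cast hDK) (hμ' i) (abs_nonneg _) (Int.natCast_nonneg _)
    have h3 : (K₀ : ℤ) * Kp + n * (Kp * K₀) ≤ F := by
      have : K₀ * Kp + n * (Kp * K₀) ≤ F := by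
        refine le_trans ?_ hF.le
        nlinarith [Nat.zero_le (K₀ * (1 + n * Kp))]
      exact_mod_cast this
    exact (abs_add_le _ _).trans ((add_le_add h2 h1).trans h3)
  -- the combination vanishes
  have hq0 : (Sum.elim ν fun j : {j // j ∈ J} => ν' j : α ⊕ {j // j ∈ J} → ℤ) = 0 := by
    by_contra hne
    have h1 := hJ _ hne (by
      rintro (i | i)
      · exact hνb i
      · exact hνb' i.1)
    have h2 : ∑ j, ((Sum.elim ν (fun j : {j // j ∈ J} => ν' j) j : ℤ) : ℝ) *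
        (Sum.elim θ fun j : {j // j ∈ J} => θ' j) j =
        ∑ i, (ν i : ℝ) * θ i + ∑ i ∈ J, (ν' i : ℝ) * θ' i := by
      rw [Fintype.sum_sum_type]
      congr 1
      simp only [Sum.elim_inr]
      rw [← sum_coe_sort J]
    rw [h2, hid θ θ'] at h1
    have h3 : nd (∑ j ∈ univ \ J, (μ' j : ℝ) * ((D : ℝ) * θ' j -
        (∑ i, (a j i : ℝ) * θ i + ∑ i, (a' j i : ℝ) * θ' i))) ≤ n * (Kp * (K₀ * τ)) := by
      refine (nd_sum_le _ _).trans ?_
      calc _ ≤ ∑ _j ∈ univ \ J, (Kp : ℝ) * (K₀ * τ) := by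
            refine sum_le_sum fun j hj => ?_
            refine (nd_int_mul_le _ _).trans ?_
            refine mul_le_mul (hμr j) ?_ (nd_nonneg _) (Nat.cast_nonneg _)
            refine (nd_le _ (w j)).trans ?_
            refine le_trans (le_of_eq ?_) (hrel j (mem_sdiff.1 hj).2)
            congr 1; ring
        _ = ((univ \ J).card : ℝ) * ((Kp : ℝ) * (K₀ * τ)) := by rw [sum_const, nsmul_eq_mul]
        _ ≤ _ := mul_le_mul_of_nonneg_right hcard (by positivity)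
    have h4 : nd ((D : ℝ) * (∑ i, (μ i : ℝ) * θ i + ∑ i, (μ' i : ℝ) * θ' i)) ≤ K₀ * τ := by
      refine (nd_nat_mul_le D _).trans ?_
      exact mul_le_mul hDr hnd.le (nd_nonneg _) (Nat.cast_nonneg _)
    have h5 : ((K₀ * (1 + n * Kp) : ℕ) : ℝ) < F := by
      have : K₀ * (1 + n * Kp) < F := lt_of_le_of_lt (Nat.le_add_right _ _) hF
      exact_mod_cast this
    have h6 : (K₀ : ℝ) * τ + n * (Kp * (K₀ * τ)) < F * τ := by
      have h7 : (K₀ : ℝ) * τ + n * (Kp * (K₀ * τ)) = ((K₀ * (1 + n * Kp) : ℕ) : ℝ) * τ := by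
        push_cast; ring
      rw [h7]
      exact mul_lt_mul_of_pos_right h5 hτ
    have h7 := nd_sub_le ((D : ℝ) * (∑ i, (μ i : ℝ) * θ i + ∑ i, (μ' i : ℝ) * θ' i))
      (∑ j ∈ univ \ J, (μ' j : ℝ) * ((D : ℝ) * θ' j -
        (∑ i, (a j i : ℝ) * θ i + ∑ i, (a' j i : ℝ) * θ' i)))
    linarith
  have hν0 : ∀ i, ν i = 0 := fun i => congrFun hq0 (Sum.inl i)
  have hν'0 : ∀ i ∈ J, ν' i = 0 := fun i hi => congrFun hq0 (Sum.inr ⟨i, hi⟩)
  have h1 := hid y y'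
  have h2 : ∑ i, (ν i : ℝ) * y i + ∑ i ∈ J, (ν' i : ℝ) * y' i = 0 := by
    rw [sum_eq_zero fun i _ => by rw [hν0 i]; simp, sum_eq_zero fun i hi => by
      rw [hν'0 i hi]; simp, add_zero]
  rw [h2] at h1
  have h3 : (D : ℝ) * (∑ i, (μ i : ℝ) * y i + ∑ i, (μ' i : ℝ) * y' i) =
      ∑ j ∈ univ \ J, (μ' j : ℝ) * ((D : ℝ) * y' j -
        (∑ i, (a j i : ℝ) * y i + ∑ i, (a' j i : ℝ) * y' i)) := by linarith
  have h4 : |(D : ℝ) * (∑ i, (μ i : ℝ) * y i + ∑ i, (μ' i : ℝ) * y' i)| ≤ n * (Kp * r) := by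
    rw [h3]
    calc _ ≤ ∑ j ∈ univ \ J, |(μ' j : ℝ) * ((D : ℝ) * y' j -
            (∑ i, (a j i : ℝ) * y i + ∑ i, (a' j i : ℝ) * y' i))| := abs_sum_le_sum_abs _ _
      _ ≤ ∑ _j ∈ univ \ J, (Kp : ℝ) * r := by
          refine sum_le_sum fun j hj => ?_
          rw [abs_mul]
          exact mul_le_mul (hμr j) (hr j (mem_sdiff.1 hj).2) (abs_nonneg _) (Nat.cast_nonneg _)
      _ = ((univ \ J).card : ℝ) * ((Kp : ℝ) * r) := by rw [sum_const, nsmul_eq_mul]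
      _ ≤ _ := mul_le_mul_of_nonneg_right hcard (by positivity)
  rw [abs_mul, abs_of_nonneg (by linarith : (0 : ℝ) ≤ D)] at h4
  refine le_trans ?_ h4
  exact le_mul_of_one_le_left (abs_nonneg _) hDr1

end ann

end Pool.Agent.Lib.MP_663568_nt.Q
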