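import Pool.Agent.Lib.MP_663568_q.Q06

/-!
# The pair condition: the algebra
-/

set_option autoImplicit false
open Finset

namespace Pool.Agent.Lib.MP_663568_nt.Q

open Katai Nul H6

variable {β : Type} [Fintype β] [DecidableEq β]

/-- the first part of the near relation attached to `j` -/
def muL (F D : ℕ) (M : β → β → ℤ) (j : β) : β → ℤ := fun i => F * (D * M j i)

/-- the second part of the near relation attached to `j` -/
def muR (F : ℕ) (J : Finset β) (a : β → β → ℤ) (M' : β → β → ℤ) (j : β) : β → ℤ :=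
  fun l => F * ∑ i ∈ univ \ J, a i j * M' i l

lemma mu_val (F D : ℕ) (J : Finset β) (a M M' : β → β → ℤ) (j : β) (x x' : β → ℝ) :
    ∑ i, (muL F D M j i : ℝ) * x i + ∑ i, (muR F J a M' j i : ℝ) * x' i =
      F * (D * ∑ i, (M j i : ℝ) * x i +
        ∑ i ∈ univ \ J, (a i j : ℝ) * ∑ l, (M' i l : ℝ) * x' l) := by
  unfold muL muR
  push_cast
  have h1 : ∑ i, (F : ℝ) * (D * (M j i : ℝ)) * x i = F * (D * ∑ i, (M j i : ℝ) * x i) := by
    rw [mul_sum, mul_sum]
    exact sum_congr rfl fun i _ => by ring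
  have h2 : ∑ l, (F : ℝ) * (∑ i ∈ univ \ J, (a i j : ℝ) * (M' i l : ℝ)) * x' l =
      F * ∑ i ∈ univ \ J, (a i j : ℝ) * ∑ l, (M' i l : ℝ) * x' l := by
    simp only [mul_sum, sum_mul]
    rw [sum_comm]
    exact sum_congr rfl fun i _ => sum_congr rfl fun l _ => by ring
  rw [h1, h2]
  ring

/-- the second part of the combination -/
def vv (J : Finset β) (a : β → β → ℤ) (s : β → ℤ) (i : β) : ℤ :=
  if i ∈ J then 0 else ∑ j, a i j * s j

lemma mu_sum (F D : ℕ) (J : Finset β) (a M M' : β → β → ℤ) (s : β → ℤ) (x x' : β → ℝ) :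
    ∑ j, (s j : ℝ) * (∑ i, (muL F D M j i : ℝ) * x i + ∑ i, (muR F J a M' j i : ℝ) * x' i) =
      F * (D * bl M (fun j => (s j : ℝ)) x + bl M' (fun i => (vv J a s i : ℝ)) x') := by
  simp only [mu_val]
  have h1 : ∑ j, (s j : ℝ) * ∑ i, (M j i : ℝ) * x i = bl M (fun j => (s j : ℝ)) x := by
    unfold bl
    refine sum_congr rfl fun j _ => ?_
    rw [mul_sum]
    exact sum_congr rfl fun i _ => by ring
  have h2 : ∑ j, (s j : ℝ) * ∑ i ∈ univ \ J, (a i j : ℝ) * ∑ l, (M' i l : ℝ) * x' l =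
      bl M' (fun i => (vv J a s i : ℝ)) x' := by
    unfold bl
    simp only [mul_sum]
    rw [sum_comm]
    rw [← sum_subset (s₁ := univ \ J) (s₂ := univ) (subset_univ _) (by
      intro i _ hi
      have hiJ : i ∈ J := by
        by_contra h
        exact hi (mem_sdiff.2 ⟨mem_univ _, h⟩)
      refine sum_eq_zero fun l _ => ?_
      simp [vv, hiJ])]
    refine sum_congr rfl fun i hi => ?_
    have hiJ : i ∉ J := (mem_sdiff.1 hi).2
    rw [sum_comm]
    refine sum_congr rfl fun l _ => ?_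
    simp only [vv, if_neg hiJ]
    push_cast
    rw [mul_sum, sum_mul]
    exact sum_congr rfl fun j _ => by ring
  rw [← h1, ← h2, mul_sum, ← sum_add_distrib, mul_sum]
  exact sum_congr rfl fun j _ => by ring

/-- the annihilating integer vector -/
def zz (D : ℕ) (J : Finset β) (a : β → β → ℤ) (s s' : β → ℤ) (i : β) : ℤ :=
  D * s' i - vv J a s i

lemma pc_alg (F D : ℕ) (J : Finset β) (a M M' : β → β → ℤ) (hM : Alt M) (hM' : Alt M')
    (θ θ' y y' : β → ℝ) (s s' : β → ℤ) (hy : ∀ j, (D : ℝ) * θ j = y j + s j)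
    (hy' : ∀ j, (D : ℝ) * θ' j = y' j + s' j) (e₂ A : ℝ) (hA0 : 0 ≤ A)
    (hA : ∀ j, |(s j : ℝ)| ≤ A)
    (h : ∀ j, |∑ i, (muL F D M j i : ℝ) * y i + ∑ i, (muR F J a M' j i : ℝ) * y' i| ≤ e₂) :
    nd (∑ l, ((F * (D * ∑ i, M' i l * zz D J a s s' i) : ℤ) : ℝ) * θ' l) ≤
      D ^ 2 * nd (F * (bl M y θ + bl M' y' θ')) + Fintype.card β * (A * e₂) := by
  set sr : β → ℝ := fun j => (s j : ℝ) with hsr
  set sr' : β → ℝ := fun j => (s' j : ℝ) with hsr'
  set v : β → ℝ := fun i => (vv J a s i : ℝ) with hv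
  set z : β → ℝ := fun i => (zz D J a s s' i : ℝ) with hz
  have e1 : (D : ℝ) * bl M y θ = -bl M sr y := by
    rw [← bl_smul_right, show (fun j => (D : ℝ) * θ j) = y + sr from funext hy, bl_add_right,
      hM y, zero_add, hM.anti]
  have e2 : (D : ℝ) * bl M' y' θ' = -bl M' sr' y' := by
    rw [← bl_smul_right, show (fun j => (D : ℝ) * θ' j) = y' + sr' from funext hy', bl_add_right,
      hM' y', zero_add, hM'.anti]
  have e3 := mu_sum F D J a M M' s y y'
  have e4 : bl M' z y' = D * bl M' sr' y' - bl M' v y' := by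
    have h1 : z = (fun j => (D : ℝ) * sr' j) + (fun j => (-1 : ℝ) * v j) := by
      funext i
      simp only [hz, hsr', hv, zz, Pi.add_apply]
      push_cast
      ring
    rw [h1, bl_add_left, bl_smul_left, bl_smul_left]
    ring
  have e5 : (D : ℝ) * bl M' z θ' = bl M' z y' + bl M' z sr' := by
    rw [← bl_smul_right, show (fun j => (D : ℝ) * θ' j) = y' + sr' from funext hy', bl_add_right]
  obtain ⟨N, hN⟩ := bl_int M' (zz D J a s s') s'
  have e6 : ∑ l, ((F * (D * ∑ i, M' i l * zz D J a s s' i) : ℤ) : ℝ) * θ' l =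
      F * (D * bl M' z θ') := by
    unfold bl
    push_cast
    simp only [mul_sum, sum_mul]
    rw [sum_comm]
    exact sum_congr rfl fun i _ => sum_congr rfl fun l _ => by ring
  rw [e6]
  set G : ℝ := ∑ j, (s j : ℝ) * (∑ i, (muL F D M j i : ℝ) * y i +
    ∑ i, (muR F J a M' j i : ℝ) * y' i) with hG
  have hGb : |G| ≤ Fintype.card β * (A * e₂) := by
    rw [hG]
    calc _ ≤ ∑ j, |(s j : ℝ) * (∑ i, (muL F D M j i : ℝ) * y i +
          ∑ i, (muR F J a M' j i : ℝ) * y' i)| := abs_sum_le_sum_abs _ _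
      _ ≤ ∑ _j : β, A * e₂ := by
          refine sum_le_sum fun j _ => ?_
          rw [abs_mul]
          exact mul_le_mul (hA j) (h j) (abs_nonneg _) hA0
      _ = _ := by rw [sum_const, card_univ, nsmul_eq_mul]
  have e7 : (F : ℝ) * (D * bl M' z θ') = ((F * N : ℤ) : ℝ) +
      (-(((D ^ 2 : ℕ) : ℝ) * (F * (bl M y θ + bl M' y' θ'))) - G) := by
    rw [e5, e4]
    have hN' : bl M' z sr' = N := hN
    rw [hN']
    push_cast
    have h8 : (D : ℝ) ^ 2 * (F * (bl M y θ + bl M' y' θ')) =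
        F * (D * (D * bl M y θ) + D * (D * bl M' y' θ')) := by ring
    rw [h8, e1, e2, e3]
    ring
  rw [e7]
  refine (nd_add_le _ _).trans ?_
  rw [nd_int, zero_add]
  refine (nd_sub_le _ _).trans (add_le_add ?_ ((nd_le_abs _).trans hGb))
  rw [nd_neg]
  refine (nd_nat_mul_le _ _).trans ?_
  push_cast
  exact le_rfl

end Pool.Agent.Lib.MP_663568_nt.Q
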