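import Pool.Agent.Lib.MP_663568_q.Q07

/-!
# The pair condition
-/

set_option autoImplicit false
open Finset

namespace Pool.Agent.Lib.MP_663568_nt.Q

open Katai Nul H6

variable {β : Type} [Fintype β] [DecidableEq β]

lemma abs_round_le (x : ℝ) : |(round x : ℝ)| ≤ |x| + 1 := by
  have h1 := abs_sub_round x
  have h2 : |(round x : ℝ)| ≤ |x| + |x - round x| := by
    have := abs_sub x (x - round x)
    rwa [sub_sub_cancel] at this
  linarith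

lemma abs_sg_le (x : ℝ) : |sg x| ≤ 1 / 2 := by
  have := abs_sub_round x
  unfold sg
  exact this

omit [DecidableEq β] in
lemma csum_le {n : ℝ} (hn : (Fintype.card β : ℝ) ≤ n) (c x : β → ℝ) (A X : ℝ)
    (hA : 0 ≤ A) (hX : 0 ≤ X) (hc : ∀ j, |c j| ≤ A) (hx : ∀ j, |x j| ≤ X) :
    |∑ j, c j * x j| ≤ n * (A * X) := by
  calc |∑ j, c j * x j| ≤ ∑ j, |c j * x j| := abs_sum_le_sum_abs _ _
    _ ≤ ∑ _j : β, A * X := by
        refine sum_le_sum fun j _ => ?_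
        rw [abs_mul]
        exact mul_le_mul (hc j) (hx j) (abs_nonneg _) hA
    _ = (Fintype.card β : ℝ) * (A * X) := by rw [sum_const, card_univ, nsmul_eq_mul]
    _ ≤ _ := mul_le_mul_of_nonneg_right hn (mul_nonneg hA hX)

/-- the value of the functional at the end point of a path -/
lemma path_val (K₀ KP K₁ : ℕ) (V ρ : ℝ)
    (hKP : ∀ τ : ℝ, 0 < τ → τ ≤ 1 → ∀ θ y : β ⊕ β → ℝ, (∀ s, |y s| ≤ V) →
      Perp KP τ θ y → ∀ D : ℤ, |(D : ℝ)| ≤ KP → (∀ s, ∃ a : ℤ, D * θ s - y s = a) →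
      ∀ (lam : β ⊕ β → ℝ) (e : ℝ),
      (¬ ∃ s : ℤ, |(s : ℝ)| ≤ 2 * KP / τ ∧ (∀ j, nd (s * θ j) ≤ ρ) ∧
        ∀ m : ℕ, 1 ≤ m → m ≤ K₁ → e ≤ nd (m * ∑ j, lam j * sg (s * θ j))) →
      nd (K₁.factorial * ∑ j, lam j * y j) ≤ KP * (K₁.factorial * e))
    (τ : ℝ) (hτ : 0 < τ) (hτ1 : τ ≤ 1) (θ θ' : β → ℝ) (J : Finset β) (D : ℕ)
    (a a' : β → β → ℤ) (w : β → ℤ) (hB : Basq K₀ τ θ θ' J D a a' w) (G : ℕ)
    (hF : K₀ * (1 + Fintype.card β * KP) + K₀ * (KP + Fintype.card β * KP) < G)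
    (hJ : NRJq G (G * τ) θ θ' J) (M M' : β → β → ℤ) (e : ℝ)
    (hno : ¬ ∃ s : ℤ, |(s : ℝ)| ≤ 2 * KP / τ ∧ (∀ j, nd (s * θ j) ≤ ρ) ∧
      (∀ j, nd (s * θ' j) ≤ ρ) ∧ ∀ m : ℕ, 1 ≤ m → m ≤ K₁ →
        e ≤ nd (m * (bl M (fun j => sg (s * θ j)) θ + bl M' (fun j => sg (s * θ' j)) θ')))
    (y y' : β → ℝ) (hy : ∀ j, |y j| ≤ V) (hy' : ∀ j, |y' j| ≤ V) (r : ℝ) (hr0 : 0 ≤ r)
    (hr : ∀ j, j ∉ J → |(D : ℝ) * y' j - (∑ i, (a j i : ℝ) * y i + ∑ i, (a' j i : ℝ) * y' i)| ≤ r)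
    (hrK : (Fintype.card β : ℝ) * (KP * r) ≤ 1 / KP)
    (D' : ℤ) (hD' : |(D' : ℝ)| ≤ KP) (hi : ∀ j, ∃ z : ℤ, D' * θ j - y j = z)
    (hi' : ∀ j, ∃ z : ℤ, D' * θ' j - y' j = z) :
    nd (K₁.factorial * (bl M y θ + bl M' y' θ')) ≤ KP * (K₁.factorial * e) := by
  set lam : β ⊕ β → ℝ := Sum.elim (fun j => ∑ i, (M j i : ℝ) * θ i)
    (fun j => ∑ i, (M' j i : ℝ) * θ' i) with hlam
  have hval : ∀ x x' : β → ℝ, ∑ j, lam j * Sum.elim x x' j = bl M x θ + bl M' x' θ' := by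
    intro x x'
    rw [Fintype.sum_sum_type]
    simp only [hlam, Sum.elim_inl, Sum.elim_inr]
    rw [bl_lam, bl_lam]
  have h := hKP τ hτ hτ1 (Sum.elim θ θ') (Sum.elim y y') (by
    rintro (j | j)
    · exact hy j
    · exact hy' j) (by
    intro κ hκ
    rcases le_or_gt τ (nd (∑ s, (κ s : ℝ) * (Sum.elim θ θ' : β ⊕ β → ℝ) s)) with h1 | h1
    · exact Or.inl h1
    · right
      rw [Fintype.sum_sum_type] at h1 ⊢
      simp only [Sum.elim_inl, Sum.elim_inr] at h1 ⊢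
      refine (ann K₀ KP G τ hτ θ θ' J D a a' w hB hF hJ (fun i => κ (Sum.inl i))
        (fun i => κ (Sum.inr i)) (fun i => hκ _) (fun i => hκ _) h1 y y' r hr0 hr).trans hrK) D'
    hD' (by
    rintro (j | j)
    · exact hi j
    · exact hi' j) lam e (by
    rintro ⟨s, h1, h2, h3⟩
    refine hno ⟨s, h1, fun j => h2 (Sum.inl j), fun j => h2 (Sum.inr j), fun m hm hmK => ?_⟩
    refine (h3 m hm hmK).trans (le_of_eq ?_)
    congr 2
    rw [← hval]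
    refine sum_congr rfl fun j _ => ?_
    rcases j with j | j <;> rfl)
  rwa [hval] at h

/-- the loops give near relations -/
lemma loop_rel (K₀ KP K₁ : ℕ) (V ρ : ℝ) (hV : (K₀ : ℝ) ≤ V)
    (hKP : ∀ τ : ℝ, 0 < τ → τ ≤ 1 → ∀ θ y : β ⊕ β → ℝ, (∀ s, |y s| ≤ V) →
      Perp KP τ θ y → ∀ D : ℤ, |(D : ℝ)| ≤ KP → (∀ s, ∃ a : ℤ, D * θ s - y s = a) →
      ∀ (lam : β ⊕ β → ℝ) (e : ℝ),
      (¬ ∃ s : ℤ, |(s : ℝ)| ≤ 2 * KP / τ ∧ (∀ j, nd (s * θ j) ≤ ρ) ∧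
        ∀ m : ℕ, 1 ≤ m → m ≤ K₁ → e ≤ nd (m * ∑ j, lam j * sg (s * θ j))) →
      nd (K₁.factorial * ∑ j, lam j * y j) ≤ KP * (K₁.factorial * e))
    (τ : ℝ) (hτ : 0 < τ) (hτ1 : τ ≤ 1) (θ θ' : β → ℝ) (J : Finset β) (D : ℕ)
    (a a' : β → β → ℤ) (w : β → ℤ) (hB : Basq K₀ τ θ θ' J D a a' w) (G : ℕ)
    (hF : K₀ * (1 + Fintype.card β * KP) + K₀ * (KP + Fintype.card β * KP) < G)
    (hJ : NRJq G (G * τ) θ θ' J) (M M' : β → β → ℤ) (e : ℝ)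
    (hno : ¬ ∃ s : ℤ, |(s : ℝ)| ≤ 2 * KP / τ ∧ (∀ j, nd (s * θ j) ≤ ρ) ∧
      (∀ j, nd (s * θ' j) ≤ ρ) ∧ ∀ m : ℕ, 1 ≤ m → m ≤ K₁ →
        e ≤ nd (m * (bl M (fun j => sg (s * θ j)) θ + bl M' (fun j => sg (s * θ' j)) θ')))
    (j : β) :
    nd (∑ i, (muL K₁.factorial D M j i : ℝ) * θ i +
      ∑ i, (muR K₁.factorial J a M' j i : ℝ) * θ' i) ≤ KP * (K₁.factorial * e) := by
  have hBB := hB
  obtain ⟨hD1, hDK, ha, ha', haJ, hrel⟩ := hBB
  set s : β → ℤ := Pi.single j 1 with hs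
  have hsb : ∀ i, |(s i : ℝ)| ≤ 1 := by
    intro i
    by_cases h : i = j
    · subst h; simp [hs]
    · simp [hs, Pi.single_eq_of_ne h]
  have hvv : ∀ i, vv J a s i = if i ∈ J then 0 else a i j := by
    intro i
    unfold vv
    by_cases h : i ∈ J
    · rw [if_pos h, if_pos h]
    · rw [if_neg h, if_neg h, sum_eq_single_of_mem j (mem_univ j) fun k _ hk => by
        rw [hs, Pi.single_eq_of_ne hk, mul_zero]]
      simp [hs]
  have hDr : (D : ℝ) ≤ K₀ := by exact_mod_cast hDK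
  have hsum : ∀ c : β → ℝ, ∑ i, c i * (s i : ℝ) = c j := by
    intro c
    rw [sum_eq_single_of_mem j (mem_univ j) fun k _ hk => by
      rw [hs, Pi.single_eq_of_ne hk, Int.cast_zero, mul_zero]]
    simp [hs]
  have h1 := path_val K₀ KP K₁ V ρ hKP τ hτ hτ1 θ θ' J D a a' w hB G hF hJ M M' e hno
    (fun i => (D : ℝ) * (s i : ℝ)) (fun i => (vv J a s i : ℝ)) (by
      intro i
      rw [abs_mul, abs_of_nonneg (Nat.cast_nonneg D)]
      exact (mul_le_of_le_one_right (Nat.cast_nonneg D) (hsb i)).trans (hDr.trans hV)) (by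
      intro i
      rw [hvv]
      by_cases h : i ∈ J
      · rw [if_pos h]
        simp only [Int.cast_zero, abs_zero]
        exact (Nat.cast_nonneg K₀).trans hV
      · rw [if_neg h]
        refine le_trans ?_ hV
        exact_mod_cast ha i j) 0 le_rfl (by
      intro i hi
      have e1 : ∑ k, (a i k : ℝ) * ((D : ℝ) * (s k : ℝ)) = D * a i j := by
        rw [← hsum (fun k => (D : ℝ) * a i k)]
        exact sum_congr rfl fun k _ => by ring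
      have e2 : ∑ k, (a' i k : ℝ) * (vv J a s k : ℝ) = 0 := by
        refine sum_eq_zero fun k _ => ?_
        by_cases h : k ∈ J
        · rw [hvv, if_pos h]; simp
        · rw [haJ i k h]; simp
      rw [e1, e2, hvv, if_neg hi]
      simp) (by simp) 0 (by simp) (by
      intro i
      exact ⟨-((D : ℤ) * s i), by push_cast; ring⟩) (by
      intro i
      exact ⟨-(vv J a s i), by push_cast; ring⟩)
  have h2 := mu_sum K₁.factorial D J a M M' s θ θ'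
  have h3 : ∑ j', (s j' : ℝ) * (∑ i, (muL K₁.factorial D M j' i : ℝ) * θ i +
      ∑ i, (muR K₁.factorial J a M' j' i : ℝ) * θ' i) =
      ∑ i, (muL K₁.factorial D M j i : ℝ) * θ i +
      ∑ i, (muR K₁.factorial J a M' j i : ℝ) * θ' i := by
    rw [← hsum (fun j' => ∑ i, (muL K₁.factorial D M j' i : ℝ) * θ i +
      ∑ i, (muR K₁.factorial J a M' j' i : ℝ) * θ' i)]
    exact sum_congr rfl fun k _ => mul_comm _ _
  rw [← h3, h2]
  rw [bl_smul_left] at h1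
  exact h1

end Pool.Agent.Lib.MP_663568_nt.Q
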