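import Pool.Agent.Lib.MP_663568_q.Q08

/-!
# The pair condition: numbers
-/

set_option autoImplicit false
open Finset

namespace Pool.Agent.Lib.MP_663568_nt.Q

open Katai Nul H6

private lemma num_V {n K q : ℝ} (hq : 2 ≤ q) (hK0 : 0 ≤ K) (hn : n ≤ q)
    (hK : K ≤ q) : (2 * n + 1) * K + 2 ≤ q ^ 4 := by
  have h1 : (2 * n + 1) * K ≤ (2 * q + 1) * q := by gcongr
  nlinarith [sq_nonneg q, mul_nonneg (sq_nonneg q) (sq_nonneg (q - 2)),
    mul_nonneg (mul_nonneg (by linarith : (0 : ℝ) ≤ q) (by linarith : (0 : ℝ) ≤ q))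
      (mul_nonneg (by linarith : (0 : ℝ) ≤ q - 2) (by linarith : (0 : ℝ) ≤ q + 2)),
    mul_nonneg (by linarith : (0 : ℝ) ≤ q - 2) (by linarith : (0 : ℝ) ≤ q)]

private lemma num_K {n B K k F q : ℝ} (hq : 2 ≤ q) (hn0 : 0 ≤ n) (hB0 : 0 ≤ B) (hK0 : 0 ≤ K)
    (hn : 1 + n ≤ q) (hB : B ≤ q) (hK : K ≤ q) (hk : k ≤ q) (hF : F ≤ q) :
    k + F * K * B * (1 + n) ≤ q ^ 5 := by
  have h1 : F * K * B * (1 + n) ≤ q * q * q * q := by gcongr
  have h2 : q ^ 5 - q * q * q * q - q = q * (q ^ 3 * (q - 1) - 1) := by ring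
  have h3 : (1 : ℝ) ≤ q ^ 3 := one_le_pow₀ (by linarith)
  have h4 : 0 ≤ q ^ 3 * (q - 1) - 1 := by nlinarith
  nlinarith [mul_nonneg (by linarith : (0 : ℝ) ≤ q) h4]

private lemma num_r {n KP K q P τ : ℝ} (hq : 2 ≤ q) (hP : 1 ≤ P) (hKP : 1 ≤ KP)
    (hK0 : 0 ≤ K) (hn : n ≤ q) (hKPq : KP ≤ q) (hK : K ≤ q) (hτ : τ = 1 / (q ^ 14 * P ^ 2)) :
    n * (KP * (K ^ 2 * τ)) ≤ 1 / KP := by
  have hq0 : 0 < q := by linarith
  rw [le_div_iff₀ (by linarith), hτ]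
  have h1 : n * (KP * (K ^ 2 * (1 / (q ^ 14 * P ^ 2)))) * KP =
      (n * KP * K ^ 2 * KP) / (q ^ 14 * P ^ 2) := by ring
  rw [h1, div_le_one (by positivity)]
  calc n * KP * K ^ 2 * KP ≤ q * q * q ^ 2 * q := by gcongr
    _ = q ^ 5 * 1 := by ring
    _ ≤ q ^ 14 * P ^ 2 := by
        refine mul_le_mul (pow_le_pow_right₀ (by linarith) (by norm_num)) (one_le_pow₀ hP)
          zero_le_one (by positivity)

private lemma num_e {KP F q P : ℝ} (hq : 2 ≤ q) (hP : 1 ≤ P) (hF0 : 0 ≤ F)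
    (hKPq : KP ≤ q) (hF : F ≤ q) :
    KP * (F * (1 / (q ^ 18 * P ^ 2))) ≤ 1 / (q ^ 16 * P ^ 2) := by
  have hq0 : 0 < q := by linarith
  have h1 : KP * (F * (1 / (q ^ 18 * P ^ 2))) = (KP * F) / (q ^ 18 * P ^ 2) := by ring
  rw [h1, div_le_div_iff₀ (by positivity) (by positivity)]
  calc KP * F * (q ^ 16 * P ^ 2) ≤ q * q * (q ^ 16 * P ^ 2) := by gcongr
    _ = 1 * (q ^ 18 * P ^ 2) := by ring

private lemma num_e' {q P : ℝ} (hq : 2 ≤ q) (hP : 1 ≤ P) :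
    1 / (q ^ 16 * P ^ 2) < 1 / (q ^ 14 * P ^ 2) := by
  have hq0 : 0 < q := by linarith
  refine one_div_lt_one_div_of_lt (by positivity) ?_
  refine mul_lt_mul_of_pos_right ?_ (by positivity)
  exact pow_lt_pow_right₀ (by linarith) (by norm_num)

private lemma num_f {n K KK q P P₀ D E : ℝ} (hq : 2 ≤ q) (hP₀ : 1 ≤ P₀) (hP : P₀ ≤ P)
    (hn0 : 0 ≤ n) (hK0 : 0 ≤ K) (hKK0 : 0 ≤ KK) (hn : n ≤ q) (hK : K ≤ q) (hKK : KK ≤ q ^ 5)
    (hD0 : 0 ≤ D) (hD : D ≤ q) (hE : E ≤ 1 / (q ^ 16 * P ^ 2)) :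
    D ^ 2 * E + n * (K * (P₀ + 1) * (n * (KK * (K ^ 2 * (1 / (q ^ 14 * P ^ 2)))))) < 1 / P := by
  have hq0 : 0 < q := by linarith
  have hP1 : 1 ≤ P := hP₀.trans hP
  have hP0 : 0 < P := by linarith
  have h1 : D ^ 2 * E ≤ 1 / 4 * (1 / P) := by
    have h2 : D ^ 2 * E ≤ q ^ 2 * (1 / (q ^ 16 * P ^ 2)) := by
      calc D ^ 2 * E ≤ D ^ 2 * (1 / (q ^ 16 * P ^ 2)) := mul_le_mul_of_nonneg_left hE (by positivity)
        _ ≤ _ := mul_le_mul_of_nonneg_right (pow_le_pow_left₀ hD0 hD 2) (by positivity)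
    refine h2.trans ?_
    have h3 : q ^ 2 * (1 / (q ^ 16 * P ^ 2)) = 1 / (q ^ 14 * P ^ 2) := by field_simp
    have h4 : 1 / 4 * (1 / P) = 1 / (4 * P) := by field_simp
    rw [h3, h4]
    refine one_div_le_one_div_of_le (by positivity) ?_
    have h5 : (4 : ℝ) ≤ q ^ 14 := by
      calc (4 : ℝ) ≤ 2 ^ 14 := by norm_num
        _ ≤ q ^ 14 := by gcongr
    have h6 : P ≤ P ^ 2 := by nlinarith
    exact mul_le_mul h5 h6 hP0.le (by positivity)
  have h2 : n * (K * (P₀ + 1) * (n * (KK * (K ^ 2 * (1 / (q ^ 14 * P ^ 2)))))) ≤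
      1 / 4 * (1 / P) := by
    have h3 : P₀ + 1 ≤ q * P := by nlinarith
    calc n * (K * (P₀ + 1) * (n * (KK * (K ^ 2 * (1 / (q ^ 14 * P ^ 2)))))) ≤
          q * (q * (q * P) * (q * (q ^ 5 * (q ^ 2 * (1 / (q ^ 14 * P ^ 2)))))) := by
            gcongr
      _ = 1 / (q ^ 3 * P) := by field_simp
      _ ≤ 1 / (4 * P) := by
          refine one_div_le_one_div_of_le (by positivity) ?_
          refine mul_le_mul_of_nonneg_right ?_ hP0.le
          calc (4 : ℝ) ≤ 2 ^ 3 := by norm_num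
            _ ≤ q ^ 3 := by gcongr
      _ = _ := by field_simp
  have h3 : 0 < 1 / P := by positivity
  linarith

private lemma num_s {KP q P τ : ℝ} (hq : 2 ≤ q) (hP : 1 ≤ P) (hKP0 : 0 ≤ KP) (hKP : KP ≤ q)
    (hτ : τ = 1 / (q ^ 14 * P ^ 2)) : 2 * KP / τ ≤ q ^ 20 * P ^ 2 := by
  have hq0 : 0 < q := by linarith
  rw [hτ, div_div_eq_mul_div, div_one]
  calc 2 * KP * (q ^ 14 * P ^ 2) ≤ q * q * (q ^ 14 * P ^ 2) := by gcongr
    _ = q ^ 16 * P ^ 2 := by ring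
    _ ≤ q ^ 20 * P ^ 2 := by
        refine mul_le_mul_of_nonneg_right (pow_le_pow_right₀ (by linarith) (by norm_num))
          (by positivity)

private lemma num_z {n K V q P₀ : ℝ} (hq : 2 ≤ q) (hP₀ : 1 ≤ P₀) (hK0 : 0 ≤ K)
    (hV0 : 0 ≤ V) (hn : n ≤ q) (hK : K ≤ q) (hV : V ≤ q ^ 4) :
    K * (K * P₀ + V) + n * (K * (K * (P₀ + 1))) ≤ q ^ 7 * P₀ := by
  have hq0 : 0 < q := by linarith
  have hP0 : 0 < P₀ := by linarith
  have h1 : K * (K * P₀ + V) + n * (K * (K * (P₀ + 1))) ≤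
      q * (q * P₀ + q ^ 4 * P₀) + q * (q * (q * (P₀ + P₀))) := by
    have h2 : V ≤ q ^ 4 * P₀ := hV.trans (le_mul_of_one_le_right (by positivity) hP₀)
    gcongr
  refine h1.trans ?_
  have h3 : q * (q * P₀ + q ^ 4 * P₀) + q * (q * (q * (P₀ + P₀))) =
      (q ^ 2 + q ^ 5 + 2 * q ^ 3) * P₀ := by ring
  rw [h3]
  refine mul_le_mul_of_nonneg_right ?_ hP0.le
  have h4 : q ^ 2 ≤ q ^ 5 := pow_le_pow_right₀ (by linarith) (by norm_num)
  have h5 : q ^ 3 ≤ q ^ 5 := pow_le_pow_right₀ (by linarith) (by norm_num)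
  have h6 : (4 : ℝ) ≤ q ^ 2 := by nlinarith
  calc q ^ 2 + q ^ 5 + 2 * q ^ 3 ≤ 4 * q ^ 5 := by linarith
    _ ≤ q ^ 2 * q ^ 5 := mul_le_mul_of_nonneg_right h6 (by positivity)
    _ = q ^ 7 := by ring

private lemma num_k {n F D B z q P₀ : ℝ} (hq : 2 ≤ q) (hP₀ : 1 ≤ P₀) (hn0 : 0 ≤ n)
    (hD0 : 0 ≤ D) (hB0 : 0 ≤ B) (hn : n ≤ q) (hF : F ≤ q) (hD : D ≤ q) (hB : B ≤ q)
    (hz0 : 0 ≤ z) (hz : z ≤ q ^ 7 * P₀) : F * (D * (n * (B * z))) ≤ q ^ 20 * P₀ := by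
  have hq0 : 0 < q := by linarith
  calc F * (D * (n * (B * z))) ≤ q * (q * (q * (q * (q ^ 7 * P₀)))) := by gcongr
    _ = q ^ 11 * P₀ := by ring
    _ ≤ q ^ 20 * P₀ := by
        refine mul_le_mul_of_nonneg_right (pow_le_pow_right₀ (by linarith) (by norm_num))
          (by linarith)

private lemma num_T {n K B V q T : ℝ} (hq : 2 ≤ q) (hT : 0 ≤ T) (hK0 : 0 ≤ K) (hn0 : 0 ≤ n)
    (hB0 : 0 ≤ B) (hn : n ≤ q) (hK : K ≤ q) (hB : B ≤ q) (hV0 : 0 ≤ V) (hV : V ≤ q ^ 4) :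
    n * (B * (K * V + n * (K * (K * (T + 1))))) < q ^ 20 * (1 + T) := by
  have hq0 : 0 < q := by linarith
  calc n * (B * (K * V + n * (K * (K * (T + 1))))) ≤
        q * (q * (q * (q ^ 4 * (T + 1)) + q * (q * (q * (T + 1))))) := by
        have h2 : V ≤ q ^ 4 * (T + 1) := hV.trans (le_mul_of_one_le_right (by positivity)
          (by linarith))
        gcongr
    _ = (q ^ 7 + q ^ 5) * (T + 1) := by ring
    _ < q ^ 20 * (T + 1) := by
        refine mul_lt_mul_of_pos_right ?_ (by linarith)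
        have h5 : q ^ 5 ≤ q ^ 7 := pow_le_pow_right₀ (by linarith) (by norm_num)
        have h6 : q ^ 8 < q ^ 20 := pow_lt_pow_right₀ (by linarith) (by norm_num)
        have h7 : q ^ 7 + q ^ 7 ≤ q ^ 8 := by
          have : q ^ 8 = q * q ^ 7 := by ring
          rw [this]
          nlinarith [pow_pos hq0 7]
        linarith
    _ = _ := by ring

variable {β : Type} [Fintype β] [DecidableEq β]

/-- **The pair condition.** -/
theorem pc (ρ : ℝ) (hρ : 0 < ρ) (K₁ B : ℕ) :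
    ∃ C : ℕ, 1 ≤ C ∧ ∀ (P₀ P T : ℝ), 1 ≤ P₀ → P₀ ≤ P → 0 ≤ T → ∀ θ θ' : β → ℝ,
      (∀ j, |θ j| ≤ P₀) → (∀ j, |θ' j| ≤ P₀) → (∀ j, |θ j| ≤ T) → NRq C (1 / P) θ →
      (∀ k : β → ℤ, k ≠ 0 → (∀ j, |(k j : ℝ)| ≤ C * P₀) → 1 / P ≤ nd (∑ j, (k j : ℝ) * θ' j)) →
      (∀ k : β → ℤ, k ≠ 0 → (∀ j, |k j| ≤ (C : ℤ)) → C * (1 + T) ≤ |∑ j, (k j : ℝ) * θ' j|) →
      ∀ M M' : β → β → ℤ, Alt M → Alt M' → (∀ j i, |M j i| ≤ (B : ℤ)) →
      (∀ j i, |M' j i| ≤ (B : ℤ)) → (M ≠ 0 ∨ M' ≠ 0) →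
      ∃ s : ℤ, |(s : ℝ)| ≤ C * P ^ 2 ∧ (∀ j, nd (s * θ j) ≤ ρ) ∧ (∀ j, nd (s * θ' j) ≤ ρ) ∧
        ∀ m : ℕ, 1 ≤ m → m ≤ K₁ → 1 / (C * P ^ 2) ≤
          nd (m * (bl M (fun j => sg (s * θ j)) θ + bl M' (fun j => sg (s * θ' j)) θ')) := by
  classical
  set n : ℕ := Fintype.card β with hn
  set F : ℕ := K₁.factorial with hF
  have hng := fun K₀ : ℕ => no_good (σ := β ⊕ β) ρ ((2 * n + 1) * K₀ + 2) hρ (by positivity) K₁
  choose KP hKP1 hKPV hKP using hng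
  set Kpp : ℕ → ℕ := fun K₀ => KP K₀ + F * K₀ * B * (1 + n) with hKpp
  set f : ℕ → ℕ := fun K₀ => K₀ * (1 + n * Kpp K₀) + K₀ * (Kpp K₀ + n * Kpp K₀) + 1 with hf
  obtain ⟨Kmax, hKmax⟩ := exists_basq (α := β) (α' := β) f
  set Q : ℕ := 2 + n + B + Kmax + ∑ i ∈ range (Kmax + 1), KP i + F with hQ
  have hQ2 : 2 ≤ Q := by omega
  set q : ℝ := (Q : ℝ) with hq
  have hq2 : (2 : ℝ) ≤ q := by rw [hq]; exact_mod_cast hQ2
  have hq0 : 0 < q := by linarith
  have hF1 : 1 ≤ F := Nat.factorial_pos _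
  have hCr : ((Q ^ 20 : ℕ) : ℝ) = q ^ 20 := by push_cast; rfl
  refine ⟨Q ^ 20, Nat.one_le_pow _ _ (by omega), fun P₀ P T hP₀ hPP hT θ θ' hθ hθ' hθT hNR h4 h3 M
    M' hM hM' hMB hMB' hMM => ?_⟩
  rw [hCr] at h4 h3 ⊢
  have hP1 : 1 ≤ P := hP₀.trans hPP
  have hP0 : 0 < P := by linarith
  set τ : ℝ := 1 / (q ^ 14 * P ^ 2) with hτ
  have hτ0 : 0 < τ := by positivity
  have hτ1 : τ ≤ 1 := by
    rw [hτ, div_le_one (by positivity)]
    exact one_le_mul_of_one_le_of_one_le (one_le_pow₀ (by linarith)) (one_le_pow₀ hP1)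
  have hKQ : Kmax ≤ Q ^ 20 := (by omega : Kmax ≤ Q).trans (Nat.le_self_pow (by norm_num) _)
  have hKmq : (Kmax : ℝ) ≤ q := by rw [hq]; exact_mod_cast (by omega : Kmax ≤ Q)
  obtain ⟨K₀, hK₀, J, D, a, a', w, hB, hJ⟩ := hKmax τ hτ0 θ θ' (hNR.mono hKQ (by
    rw [hτ, mul_one_div, div_le_div_iff₀ (by positivity) hP0, one_mul]
    calc (Kmax : ℝ) * P ≤ q * P := mul_le_mul_of_nonneg_right hKmq hP0.le
      _ ≤ q ^ 14 * P ^ 2 := by
          refine mul_le_mul (le_self_pow₀ (by linarith) (by norm_num)) (by nlinarith) hP0.le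
            (by positivity)))
  have hKPQ : KP K₀ ≤ Q := by
    have : KP K₀ ≤ ∑ i ∈ range (Kmax + 1), KP i :=
      single_le_sum (f := fun i => KP i) (fun _ _ => Nat.zero_le _)
        (mem_range.2 (Nat.lt_succ_of_le hK₀))
    omega
  have hKPq : (KP K₀ : ℝ) ≤ q := by rw [hq]; exact_mod_cast hKPQ
  have hKq : (K₀ : ℝ) ≤ q := by rw [hq]; exact_mod_cast (by omega : K₀ ≤ Q)
  have hnq : (n : ℝ) ≤ q := by rw [hq]; exact_mod_cast (by omega : n ≤ Q)
  have hnq' : 1 + (n : ℝ) ≤ q := by rw [hq]; exact_mod_cast (by omega : 1 + n ≤ Q)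
  have hBq : (B : ℝ) ≤ q := by rw [hq]; exact_mod_cast (by omega : B ≤ Q)
  have hFq : (F : ℝ) ≤ q := by rw [hq]; exact_mod_cast (by omega : F ≤ Q)
  have hKP1r : (1 : ℝ) ≤ KP K₀ := by exact_mod_cast hKP1 K₀
  have hVq := num_V hq2 (Nat.cast_nonneg K₀) hnq hKq
  have hKppq : ((Kpp K₀ : ℕ) : ℝ) ≤ q ^ 5 := by
    have := num_K hq2 (Nat.cast_nonneg n) (Nat.cast_nonneg B) (Nat.cast_nonneg K₀)
      hnq' hBq hKq hKPq hFq
    refine le_trans (le_of_eq ?_) this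
    simp only [hKpp]; push_cast; ring
  have hKppQ : Kpp K₀ ≤ Q ^ 5 := by
    have : ((Kpp K₀ : ℕ) : ℝ) ≤ ((Q ^ 5 : ℕ) : ℝ) := hKppq.trans (le_of_eq (by push_cast; rfl))
    exact_mod_cast this
  set V : ℝ := (2 * n + 1) * K₀ + 2 with hV
  have hKV : (K₀ : ℝ) ≤ V := by
    have h5 : 0 ≤ (n : ℝ) * K₀ := by positivity
    have h6 : (2 * (n : ℝ) + 1) * K₀ + 2 = 2 * (n * K₀) + K₀ + 2 := by ring
    rw [hV, h6]
    linarith
  set e : ℝ := 1 / (q ^ 18 * P ^ 2) with he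
  have hfK : K₀ * (1 + n * Kpp K₀) + K₀ * (Kpp K₀ + n * Kpp K₀) < f K₀ := by
    simp only [hf]; omega
  have hKPKpp : KP K₀ ≤ Kpp K₀ := Nat.le_add_right _ _
  have hfK' : K₀ * (1 + n * KP K₀) + K₀ * (KP K₀ + n * KP K₀) < f K₀ := by
    refine lt_of_le_of_lt ?_ hfK
    gcongr
  by_contra hcon
  have hno : ¬ ∃ s : ℤ, |(s : ℝ)| ≤ 2 * KP K₀ / τ ∧ (∀ j, nd (s * θ j) ≤ ρ) ∧
      (∀ j, nd (s * θ' j) ≤ ρ) ∧ ∀ m : ℕ, 1 ≤ m → m ≤ K₁ →
        e ≤ nd (m * (bl M (fun j => sg (s * θ j)) θ + bl M' (fun j => sg (s * θ' j)) θ')) := by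
    rintro ⟨s, h1, h2, h2', h3⟩
    refine hcon ⟨s, h1.trans (num_s hq2 hP1 (Nat.cast_nonneg _) hKPq hτ), h2, h2', fun m hm hmK => ?_⟩
    refine le_trans ?_ (h3 m hm hmK)
    rw [he]
    refine one_div_le_one_div_of_le (by positivity) ?_
    exact mul_le_mul_of_nonneg_right (pow_le_pow_right₀ (by linarith) (by norm_num))
      (by positivity)
  have hE := num_e hq2 hP1 (Nat.cast_nonneg F) hKPq hFq
  have hEτ := lt_of_le_of_lt hE (num_e' hq2 hP1)
  have hloop := loop_rel K₀ (KP K₀) K₁ V ρ hKV (hKP K₀) τ hτ0 hτ1 θ θ' J D a a' w hB (f K₀) hfK'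
    hJ M M' e hno
  have hBB := hB
  obtain ⟨hD1, hDK, ha, ha', haJ, hrel⟩ := hBB
  have hDr : (D : ℝ) ≤ K₀ := by exact_mod_cast hDK
  have hDr1 : (1 : ℝ) ≤ D := by exact_mod_cast hD1
  -- heights
  have hmuL : ∀ j i, |muL F D M j i| ≤ (Kpp K₀ : ℤ) := by
    intro j i
    unfold muL
    rw [abs_mul, abs_mul, abs_of_nonneg (Int.natCast_nonneg F),
      abs_of_nonneg (Int.natCast_nonneg D)]
    calc (F : ℤ) * (D * |M j i|) ≤ F * (K₀ * B) := by
          refine mul_le_mul_of_nonneg_left ?_ (Int.natCast_nonneg F)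
          exact mul_le_mul (by exact_mod_cast hDK) (hMB j i) (abs_nonneg _) (Int.natCast_nonneg _)
      _ ≤ Kpp K₀ := by
          have : F * (K₀ * B) ≤ Kpp K₀ := by
            simp only [hKpp]
            calc F * (K₀ * B) = F * K₀ * B * 1 := by ring
              _ ≤ F * K₀ * B * (1 + n) := Nat.mul_le_mul_left _ (by omega)
              _ ≤ _ := Nat.le_add_left _ _
          exact_mod_cast this
  have hmuR : ∀ j i, |muR F J a M' j i| ≤ (Kpp K₀ : ℤ) := by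
    intro j i
    unfold muR
    rw [abs_mul, abs_of_nonneg (Int.natCast_nonneg F)]
    have h5 : |∑ k ∈ univ \ J, a k j * M' k i| ≤ n * (K₀ * B : ℤ) := by
      calc _ ≤ ∑ k ∈ univ \ J, |a k j * M' k i| := abs_sum_le_sum_abs _ _
        _ ≤ ∑ _k ∈ univ \ J, (K₀ * B : ℤ) := by
            refine sum_le_sum fun k _ => ?_
            rw [abs_mul]
            exact mul_le_mul (ha k j) (hMB' k i) (abs_nonneg _) (Int.natCast_nonneg _)
        _ = ((univ \ J).card : ℤ) * (K₀ * B) := by rw [sum_const, nsmul_eq_mul]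
        _ ≤ _ := by
            refine mul_le_mul_of_nonneg_right ?_ (by positivity)
            have : (univ \ J).card ≤ n := by rw [hn, ← card_univ]; exact card_le_card sdiff_subset
            exact_mod_cast this
    calc (F : ℤ) * |∑ k ∈ univ \ J, a k j * M' k i| ≤ F * (n * (K₀ * B)) :=
          mul_le_mul_of_nonneg_left h5 (Int.natCast_nonneg F)
      _ ≤ Kpp K₀ := by
          have : F * (n * (K₀ * B)) ≤ Kpp K₀ := by
            simp only [hKpp]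
            calc F * (n * (K₀ * B)) = F * K₀ * B * n := by ring
              _ ≤ F * K₀ * B * (1 + n) := Nat.mul_le_mul_left _ (by omega)
              _ ≤ _ := Nat.le_add_left _ _
          exact_mod_cast this
  by_cases hM0 : M' = 0
  · have hMne : M ≠ 0 := by
      rcases hMM with h | h
      · exact h
      · exact absurd hM0 h
    obtain ⟨j, hj⟩ : ∃ j, M j ≠ 0 := by
      by_contra hall
      push Not at hall
      exact hMne (funext hall)
    have h5 := hloop j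
    have h6 : ∑ i, (muR K₁.factorial J a M' j i : ℝ) * θ' i = 0 := by
      refine sum_eq_zero fun i _ => ?_
      simp [muR, hM0]
    rw [h6, add_zero] at h5
    have h7 := hNR (muL F D M j) (by
      intro h0
      apply hj
      funext i
      have := congrFun h0 i
      simp only [muL, Pi.zero_apply] at this ⊢
      rcases mul_eq_zero.1 this with h8 | h8
      · exact absurd h8 (by exact_mod_cast (by omega : F ≠ 0))
      · rcases mul_eq_zero.1 h8 with h9 | h9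
        · exact absurd h9 (by exact_mod_cast (by omega : D ≠ 0))
        · exact h9) (fun i => (hmuL j i).trans (by
          exact_mod_cast hKppQ.trans (Nat.pow_le_pow_right (by omega) (by norm_num))))
    have h8 : 1 / (q ^ 16 * P ^ 2) < 1 / P := by
      refine one_div_lt_one_div_of_lt hP0 ?_
      have h9 : (1 : ℝ) < q ^ 16 := one_lt_pow₀ (by linarith) (by norm_num)
      nlinarith [mul_pos hP0 hP0]
    linarith [h7.trans (h5.trans hE)]
  -- the second case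
  set ε : β → ℝ := fun j => (D : ℝ) * θ' j -
    (∑ i, (a j i : ℝ) * θ i + ∑ i, (a' j i : ℝ) * θ' i + w j) with hε
  set y : β → ℝ := fun j => D * sg (θ j) with hy
  set y' : β → ℝ := fun j => if j ∈ J then D * sg (θ' j) else
    ∑ k, (a j k : ℝ) * sg (θ k) + ∑ k, (a' j k : ℝ) * sg (θ' k) + ε j with hy'
  set s : β → ℤ := fun j => D * round (θ j) with hs
  set s' : β → ℤ := fun j => if j ∈ J then D * round (θ' j) else
    ∑ k, a j k * round (θ k) + ∑ k, a' j k * round (θ' k) + w j with hs'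
  have hys : ∀ j, (D : ℝ) * θ j = y j + s j := by
    intro j
    have := round_add_sg (θ j)
    simp only [hy, hs]
    push_cast
    rw [← mul_add, add_comm, ← this]
  have hys' : ∀ j, (D : ℝ) * θ' j = y' j + s' j := by
    intro j
    by_cases h : j ∈ J
    · have := round_add_sg (θ' j)
      simp only [hy', hs', if_pos h]
      push_cast
      rw [← mul_add, add_comm, ← this]
    · simp only [hy', hs', if_neg h, hε]
      push_cast
      have e1 : ∀ c : β → ℤ, ∀ x : β → ℝ, ∑ k, (c k : ℝ) * x k =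
          ∑ k, (c k : ℝ) * sg (x k) + ∑ k, (c k : ℝ) * (round (x k) : ℝ) := by
        intro c x
        rw [← sum_add_distrib]
        refine sum_congr rfl fun k _ => ?_
        conv_lhs => rw [round_add_sg (x k)]
        ring
      rw [e1 (a j) θ, e1 (a' j) θ']
      ring
  have hnK : 0 ≤ (n : ℝ) * K₀ := by positivity
  have hK0r : 0 ≤ (K₀ : ℝ) := Nat.cast_nonneg _
  have hV0 : 0 ≤ V := by rw [hV]; positivity
  have hDsg : ∀ x : ℝ, |(D : ℝ) * sg x| ≤ K₀ := by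
    intro x
    rw [abs_mul, abs_of_nonneg (Nat.cast_nonneg D)]
    calc (D : ℝ) * |sg x| ≤ K₀ * 1 :=
          mul_le_mul hDr ((abs_sg_le x).trans (by norm_num)) (abs_nonneg _) (Nat.cast_nonneg _)
      _ = K₀ := mul_one _
  have hKτ : (K₀ : ℝ) * τ ≤ 1 := by
    rw [hτ, mul_one_div, div_le_one (by positivity)]
    calc (K₀ : ℝ) ≤ q ^ 14 * 1 := by rw [mul_one]; exact hKq.trans (le_self_pow₀ (by linarith)
          (by norm_num))
      _ ≤ _ := mul_le_mul_of_nonneg_left (one_le_pow₀ hP1) (by positivity)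
  have hcsg : ∀ (c : β → ℤ) (x : β → ℝ), (∀ k, |c k| ≤ (K₀ : ℤ)) →
      |∑ k, (c k : ℝ) * sg (x k)| ≤ n * (K₀ * (1 / 2)) := fun c x hc =>
    csum_le le_rfl (fun k => (c k : ℝ)) (fun k => sg (x k)) K₀ (1 / 2) (Nat.cast_nonneg _)
      (by norm_num) (fun k => by exact_mod_cast hc k) (fun k => abs_sg_le _)
  have hyV : ∀ j, |y j| ≤ V := fun j => (hDsg _).trans hKV
  have hyV' : ∀ j, |y' j| ≤ V := by
    intro j
    by_cases h : j ∈ J
    · simp only [hy', if_pos h]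
      exact (hDsg _).trans hKV
    · simp only [hy', if_neg h]
      have h5 := hcsg (a j) θ (ha j)
      have h6 := hcsg (a' j) θ' (ha' j)
      have h7 : |ε j| ≤ 1 := (hrel j h).trans hKτ
      refine (abs_add_le _ _).trans ?_
      have h8 := abs_add_le (∑ k, (a j k : ℝ) * sg (θ k)) (∑ k, (a' j k : ℝ) * sg (θ' k))
      have h9 : (2 * (n : ℝ) + 1) * K₀ + 2 = 2 * (n * K₀) + K₀ + 2 := by ring
      rw [hV, h9]
      linarith
  have hres : ∀ j, j ∉ J → |(D : ℝ) * y' j -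
      (∑ i, (a j i : ℝ) * y i + ∑ i, (a' j i : ℝ) * y' i)| ≤ K₀ ^ 2 * τ := by
    intro j hj
    have e1 : ∑ i, (a j i : ℝ) * y i = D * ∑ i, (a j i : ℝ) * sg (θ i) := by
      rw [mul_sum]
      exact sum_congr rfl fun i _ => by simp only [hy]; ring
    have e2 : ∑ i, (a' j i : ℝ) * y' i = D * ∑ i, (a' j i : ℝ) * sg (θ' i) := by
      rw [mul_sum]
      refine sum_congr rfl fun i _ => ?_
      by_cases h : i ∈ J
      · simp only [hy', if_pos h]; ring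
      · rw [haJ j i h]; simp
    rw [e1, e2]
    have e3 : (D : ℝ) * y' j - (D * ∑ i, (a j i : ℝ) * sg (θ i) +
        D * ∑ i, (a' j i : ℝ) * sg (θ' i)) = D * ε j := by
      simp only [hy', if_neg hj]
      ring
    rw [e3, abs_mul, abs_of_nonneg (Nat.cast_nonneg D)]
    calc (D : ℝ) * |ε j| ≤ K₀ * (K₀ * τ) :=
          mul_le_mul hDr (hrel j hj) (abs_nonneg _) (Nat.cast_nonneg _)
      _ = K₀ ^ 2 * τ := by ring
  have hr0 : 0 ≤ (K₀ : ℝ) ^ 2 * τ := by positivity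
  have hval := path_val K₀ (KP K₀) K₁ V ρ (hKP K₀) τ hτ0 hτ1 θ θ' J D a a' w hB (f K₀) hfK'
    hJ M M' e hno y y' hyV hyV' (K₀ ^ 2 * τ) hr0 hres
    (num_r hq2 hP1 hKP1r (Nat.cast_nonneg K₀) hnq hKPq hKq hτ)
    D (by
      have : V ≤ KP K₀ := hKPV K₀
      rw [Int.cast_natCast, abs_of_nonneg (Nat.cast_nonneg D)]
      linarith) (fun j => ⟨s j, by push_cast; linarith [hys j]⟩)
    (fun j => ⟨s' j, by push_cast; linarith [hys' j]⟩)
  have hmu : ∀ j, |∑ i, (muL F D M j i : ℝ) * y i + ∑ i, (muR F J a M' j i : ℝ) * y' i| ≤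
      n * (Kpp K₀ * (K₀ ^ 2 * τ)) := fun j =>
    ann K₀ (Kpp K₀) (f K₀) τ hτ0 θ θ' J D a a' w hB hfK hJ (muL F D M j) (muR F J a M' j)
      (hmuL j) (hmuR j) (lt_of_le_of_lt (hloop j) hEτ) y y' _ hr0 hres
  have hsA : ∀ j, |(s j : ℝ)| ≤ K₀ * (P₀ + 1) := by
    intro j
    simp only [hs]
    push_cast
    rw [abs_mul, abs_of_nonneg (Nat.cast_nonneg D)]
    exact mul_le_mul hDr ((abs_round_le _).trans (by linarith [hθ j])) (abs_nonneg _)
      (Nat.cast_nonneg _)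
  have hsT : ∀ j, |(s j : ℝ)| ≤ K₀ * (T + 1) := by
    intro j
    simp only [hs]
    push_cast
    rw [abs_mul, abs_of_nonneg (Nat.cast_nonneg D)]
    exact mul_le_mul hDr ((abs_round_le _).trans (by linarith [hθT j])) (abs_nonneg _)
      (Nat.cast_nonneg _)
  have hz := pc_alg F D J a M M' hM hM' θ θ' y y' s s' hys hys' _ (K₀ * (P₀ + 1)) (by positivity)
    hsA hmu
  have hsmall := lt_of_le_of_lt (hz.trans (add_le_add (mul_le_mul_of_nonneg_left hval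
    (by positivity)) le_rfl)) (num_f (D := D) hq2 hP₀ hPP (Nat.cast_nonneg n) (Nat.cast_nonneg K₀)
      (Nat.cast_nonneg (Kpp K₀)) hnq hKq hKppq (Nat.cast_nonneg D) (hDr.trans hKq) hE)
  have hDq : (D : ℝ) ≤ q := hDr.trans hKq
  have hvv : ∀ (A : ℝ), 0 ≤ A → (∀ j, |(s j : ℝ)| ≤ K₀ * A) →
      ∀ i, |(vv J a s i : ℝ)| ≤ n * (K₀ * (K₀ * A)) := by
    intro A hA hsA i
    unfold vv
    by_cases h : i ∈ J
    · rw [if_pos h]
      simp only [Int.cast_zero, abs_zero]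
      positivity
    · rw [if_neg h]
      push_cast
      exact csum_le le_rfl (fun k => (a i k : ℝ)) (fun k => (s k : ℝ)) K₀ (K₀ * A)
        (Nat.cast_nonneg _) (by positivity) (fun k => by exact_mod_cast ha i k) hsA
  have hzzb : ∀ i, |(zz D J a s s' i : ℝ)| ≤ K₀ * (K₀ * P₀ + V) + n * (K₀ * (K₀ * (P₀ + 1))) := by
    intro i
    unfold zz
    push_cast
    refine (abs_sub _ _).trans (add_le_add ?_ (hvv (P₀ + 1) (by linarith) hsA i))
    rw [abs_mul, abs_of_nonneg (Nat.cast_nonneg D)]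
    refine mul_le_mul hDr ?_ (abs_nonneg _) (Nat.cast_nonneg _)
    have h5 : (s' i : ℝ) = D * θ' i - y' i := by linarith [hys' i]
    rw [h5]
    refine (abs_sub _ _).trans (add_le_add ?_ (hyV' i))
    rw [abs_mul, abs_of_nonneg (Nat.cast_nonneg D)]
    exact mul_le_mul hDr (hθ' i) (abs_nonneg _) (Nat.cast_nonneg _)
  set zb : ℝ := K₀ * (K₀ * P₀ + V) + n * (K₀ * (K₀ * (P₀ + 1))) with hzb
  have hzb0 : 0 ≤ zb := by positivity
  set k : β → ℤ := fun l => F * (D * ∑ i, M' i l * zz D J a s s' i) with hk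
  have hkb : ∀ l, |(k l : ℝ)| ≤ q ^ 20 * P₀ := by
    intro l
    refine le_trans ?_ (num_k hq2 hP₀ (Nat.cast_nonneg n) (Nat.cast_nonneg D)
      (Nat.cast_nonneg B) hnq hFq hDq hBq hzb0
      (num_z hq2 hP₀ (Nat.cast_nonneg K₀) hV0 hnq hKq hVq))
    simp only [hk]
    push_cast
    rw [abs_mul, abs_mul, abs_of_nonneg (Nat.cast_nonneg F), abs_of_nonneg (Nat.cast_nonneg D)]
    refine mul_le_mul_of_nonneg_left (mul_le_mul_of_nonneg_left ?_ (Nat.cast_nonneg D))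
      (Nat.cast_nonneg F)
    exact csum_le le_rfl (fun i => (M' i l : ℝ)) (fun i => (zz D J a s s' i : ℝ)) B zb
      (Nat.cast_nonneg _) hzb0 (fun i => by exact_mod_cast hMB' i l) hzzb
  have hk0 : k = 0 := by
    by_contra hne
    exact absurd (h4 k hne hkb) (not_le.2 hsmall)
  have hz0 : ∀ l, ∑ i, M' i l * zz D J a s s' i = 0 := by
    intro l
    have h5 := congrFun hk0 l
    simp only [hk, Pi.zero_apply] at h5
    rcases mul_eq_zero.1 h5 with h8 | h8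
    · exact absurd h8 (by exact_mod_cast (by omega : F ≠ 0))
    · rcases mul_eq_zero.1 h8 with h9 | h9
      · exact absurd h9 (by exact_mod_cast (by omega : D ≠ 0))
      · exact h9
  obtain ⟨i₀, l, hil⟩ : ∃ i l, M' i l ≠ 0 := by
    by_contra hall
    push Not at hall
    exact hM0 (funext fun i => funext fun l => hall i l)
  have h5 := h3 (fun i => M' i l) (by
    intro h0
    exact hil (congrFun h0 i₀)) (fun i => (hMB' i l).trans (by
      have : B ≤ Q ^ 20 := (by omega : B ≤ Q).trans (Nat.le_self_pow (by norm_num) _)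
      exact_mod_cast this))
  have h6 : (D : ℝ) ^ 2 * ∑ i, (M' i l : ℝ) * θ' i =
      ∑ i, (M' i l : ℝ) * (D * y' i + (vv J a s i : ℝ)) := by
    have h7 : ∑ i, (M' i l : ℝ) * (zz D J a s s' i : ℝ) = 0 := by exact_mod_cast hz0 l
    rw [← add_zero (∑ i, (M' i l : ℝ) * (D * y' i + (vv J a s i : ℝ))), ← h7, ← sum_add_distrib,
      mul_sum]
    refine sum_congr rfl fun i _ => ?_
    have h8 : (zz D J a s s' i : ℝ) = D * s' i - vv J a s i := by unfold zz; push_cast; ring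
    rw [h8]
    have h9 := hys' i
    calc (D : ℝ) ^ 2 * ((M' i l : ℝ) * θ' i) = M' i l * (D * (D * θ' i)) := by ring
      _ = M' i l * (D * (y' i + s' i)) := by rw [h9]
      _ = _ := by ring
  have h7 : |∑ i, (M' i l : ℝ) * (D * y' i + (vv J a s i : ℝ))| ≤
      n * (B * (K₀ * V + n * (K₀ * (K₀ * (T + 1))))) := by
    refine csum_le le_rfl (fun i => (M' i l : ℝ)) _ B _ (Nat.cast_nonneg _) (by positivity)
      (fun i => by exact_mod_cast hMB' i l) fun i => ?_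
    refine (abs_add_le _ _).trans (add_le_add ?_ (hvv (T + 1) (by linarith) hsT i))
    rw [abs_mul, abs_of_nonneg (Nat.cast_nonneg D)]
    exact mul_le_mul hDr (hyV' i) (abs_nonneg _) (Nat.cast_nonneg _)
  rw [← h6, abs_mul, abs_of_nonneg (by positivity : (0 : ℝ) ≤ (D : ℝ) ^ 2)] at h7
  have h8 : |∑ i, (M' i l : ℝ) * θ' i| ≤ (D : ℝ) ^ 2 * |∑ i, (M' i l : ℝ) * θ' i| :=
    le_mul_of_one_le_left (abs_nonneg _) (one_le_pow₀ hDr1)
  have h9 := num_T hq2 hT (Nat.cast_nonneg K₀) (Nat.cast_nonneg n) (Nat.cast_nonneg B) hnq hKq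
    hBq hV0 hVq
  linarith

end Pool.Agent.Lib.MP_663568_nt.Q
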