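import Pool.Agent.Lib.MP_663568_q.Q06
import Pool.Agent.Lib.MP_663568_e.EDefs

/-!
# The condition on a return time, and its passage to the square
-/

set_option autoImplicit false
open Finset

namespace Pool.Agent.Lib.MP_663568_nt.Q

open Katai Nul H6 E

lemma dirich {κ : Type} [Fintype κ] (ρ : ℝ) (hρ : 0 < ρ) :
    ∃ N : ℕ, 1 ≤ N ∧ ∀ y : κ → ℝ, ∃ n : ℕ, 1 ≤ n ∧ n ≤ N ∧ ∀ k, nd (n * y k) ≤ ρ := by
  classical
  obtain ⟨q, hq⟩ := exists_nat_gt (1 / ρ)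
  have hq0r : (0 : ℝ) < q := (by positivity : (0 : ℝ) < 1 / ρ).trans hq
  have hq0 : 0 < q := by exact_mod_cast hq0r
  refine ⟨q ^ Fintype.card κ, Nat.one_le_pow _ _ hq0, fun y => ?_⟩
  have hfl : ∀ x : ℝ, ⌊(q : ℝ) * Int.fract x⌋₊ < q := by
    intro x
    rw [Nat.floor_lt (mul_nonneg hq0r.le (Int.fract_nonneg x))]
    exact mul_lt_of_lt_one_right hq0r (Int.fract_lt_one x)
  set f : ℕ → (κ → Fin q) := fun n k => ⟨⌊(q : ℝ) * Int.fract ((n : ℝ) * y k)⌋₊, hfl _⟩ with hf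
  obtain ⟨a, ha, b, hb, hab, hfab⟩ := Finset.exists_ne_map_eq_of_card_lt_of_maps_to
    (s := range (q ^ Fintype.card κ + 1)) (t := (univ : Finset (κ → Fin q))) (f := f)
    (by rw [card_range, card_univ, Fintype.card_fun, Fintype.card_fin]; omega)
    (fun _ _ => mem_univ _)
  have key : ∀ a b : ℕ, a < b → b < q ^ Fintype.card κ + 1 → f a = f b →
      ∃ n : ℕ, 1 ≤ n ∧ n ≤ q ^ Fintype.card κ ∧ ∀ k, nd (n * y k) ≤ ρ := by
    intro a b hab hb hfab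
    refine ⟨b - a, by omega, by omega, fun k => ?_⟩
    have h1 := congrFun hfab k
    simp only [hf, Fin.mk.injEq] at h1
    have h2 := Int.floor_add_fract ((a : ℝ) * y k)
    have h3 := Int.floor_add_fract ((b : ℝ) * y k)
    refine (nd_le _ (⌊(b : ℝ) * y k⌋ - ⌊(a : ℝ) * y k⌋)).trans ?_
    have h4 : ((b - a : ℕ) : ℝ) * y k - ((⌊(b : ℝ) * y k⌋ - ⌊(a : ℝ) * y k⌋ : ℤ) : ℝ) =
        Int.fract ((b : ℝ) * y k) - Int.fract ((a : ℝ) * y k) := by
      rw [Nat.cast_sub hab.le]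
      push_cast
      linarith
    rw [h4]
    have h5 : ∀ x : ℝ, ((⌊(q : ℝ) * Int.fract x⌋₊ : ℕ) : ℝ) ≤ q * Int.fract x ∧
        q * Int.fract x < ((⌊(q : ℝ) * Int.fract x⌋₊ : ℕ) : ℝ) + 1 := fun x =>
      ⟨Nat.floor_le (mul_nonneg hq0r.le (Int.fract_nonneg x)), Nat.lt_floor_add_one _⟩
    have h6 := h5 ((a : ℝ) * y k)
    have h7 := h5 ((b : ℝ) * y k)
    rw [h1] at h6
    have h8 : |(q : ℝ) * (Int.fract ((b : ℝ) * y k) - Int.fract ((a : ℝ) * y k))| ≤ 1 := by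
      rw [mul_sub, abs_le]
      constructor <;> linarith
    rw [abs_mul, abs_of_pos hq0r] at h8
    have h9 : 1 < ρ * q := by rwa [div_lt_iff₀ hρ, mul_comm] at hq
    by_contra hcon
    push Not at hcon
    nlinarith
  rcases lt_or_gt_of_ne hab with h | h
  · exact key a b h (mem_range.1 hb) hfab
  · exact key b a h (mem_range.1 ha) hfab.symm

variable {β β₂ : Type} [Fintype β] [Fintype β₂]

/-- the values at the time `r` of the bracket functions are far from the rational points of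
small height -/
def GoodR (b : β₂ → β → β → ℤ) (K : ℕ) (ρ P : ℝ) (θ : β → ℝ) (r : ℤ) : Prop :=
  (∀ j, nd (r * θ j) ≤ ρ) ∧ ∀ w : β₂ → ℤ, w ≠ 0 → (∀ k, |w k| ≤ (K : ℤ)) → ∀ m : ℕ, 1 ≤ m →
    m ≤ K → 1 / P ≤ nd (m * bl (Mw b w) (fun j => sg (r * θ j)) θ)

/-- there is such a return time at most `P` -/
def CondQ (b : β₂ → β → β → ℤ) (K : ℕ) (ρ P : ℝ) (θ : β → ℝ) : Prop :=
  ∃ r : ℕ, 1 ≤ r ∧ (r : ℝ) ≤ P ∧ GoodR b K ρ P θ r

lemma one_div_mono {P P' : ℝ} (hP : 0 < P) (h : P ≤ P') : 1 / P' ≤ 1 / P :=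
  one_div_le_one_div_of_le hP h

lemma GoodR.mono {b : β₂ → β → β → ℤ} {K K' : ℕ} {ρ ρ' P P' : ℝ} {θ : β → ℝ} {r : ℤ}
    (h : GoodR b K ρ P θ r) (hK : K' ≤ K) (hρ : ρ ≤ ρ') (hP : 0 < P) (hPP : P ≤ P') :
    GoodR b K' ρ' P' θ r := by
  refine ⟨fun j => (h.1 j).trans hρ, fun w hw hwK m hm hmK => ?_⟩
  exact (one_div_mono hP hPP).trans
    (h.2 w hw (fun k => (hwK k).trans (by exact_mod_cast hK)) m hm (hmK.trans hK))

lemma CondQ.mono {b : β₂ → β → β → ℤ} {K K' : ℕ} {ρ ρ' P P' : ℝ} {θ : β → ℝ}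
    (h : CondQ b K ρ P θ) (hK : K' ≤ K) (hρ : ρ ≤ ρ') (hP : 0 < P) (hPP : P ≤ P') :
    CondQ b K' ρ' P' θ := by
  obtain ⟨r, h1, h2, h3⟩ := h
  exact ⟨r, h1, h2.trans hPP, h3.mono hK hρ hP hPP⟩

lemma bl_neg_left (M : β → β → ℤ) (x y : β → ℝ) : bl M (fun j => -x j) y = -bl M x y := by
  have := bl_smul_left M (-1) x y
  simpa using this

lemma bl_zero_left (M : β → β → ℤ) (y : β → ℝ) : bl M (fun _ => 0) y = 0 := by
  unfold bl
  exact sum_eq_zero fun j _ => sum_eq_zero fun i _ => by ring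

lemma bl_mw (b : β₂ → β → β → ℤ) (w : β₂ → ℤ) (x y : β → ℝ) :
    bl (Mw b w) x y = ∑ k, (w k : ℝ) * bl (b k) x y := by
  unfold bl Mw
  push_cast
  simp only [mul_sum, sum_mul]
  symm
  rw [sum_comm]
  refine sum_congr rfl fun j _ => ?_
  rw [sum_comm]
  exact sum_congr rfl fun i _ => sum_congr rfl fun k _ => by ring

lemma alt_mw {b : β₂ → β → β → ℤ} (h : ∀ k, Alt (b k)) (w : β₂ → ℤ) : Alt (Mw b w) := by
  intro x
  rw [bl_mw]
  exact sum_eq_zero fun k _ => by rw [h k x, mul_zero]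

/-- a return time of either sign suffices -/
lemma condq_of_int {b : β₂ → β → β → ℤ} {K : ℕ} {ρ P : ℝ} {θ : β → ℝ} (hK : 1 ≤ K)
    (hρ : ρ < 1 / 2) (hP : 0 < P) (hne : Nonempty β₂) {s : ℤ} (hs : |(s : ℝ)| ≤ P)
    (h : GoodR b K ρ P θ s) : CondQ b K ρ P θ := by
  classical
  have hs0 : s ≠ 0 := by
    rintro rfl
    obtain ⟨k⟩ := hne
    have h1 := h.2 (Pi.single k 1) (by
      intro h0
      have := congrFun h0 k
      simp at this) (by
      intro k'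
      by_cases hk : k' = k
      · subst hk; simp only [Pi.single_eq_same, abs_one]; exact_mod_cast hK
      · rw [Pi.single_eq_of_ne hk, abs_zero]; exact Int.natCast_nonneg _) 1 le_rfl hK
    simp only [Int.cast_zero, zero_mul, sg_zero, bl_zero_left, mul_zero, nd_zero] at h1
    have : 0 < 1 / P := by positivity
    linarith
  refine ⟨s.natAbs, by omega, ?_, ?_⟩
  · rw [Nat.cast_natAbs]
    push_cast
    exact hs
  rcases le_or_gt 0 s with hs1 | hs1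
  · have : ((s.natAbs : ℕ) : ℤ) = s := by omega
    rw [this]
    exact h
  · have h2 : ((s.natAbs : ℕ) : ℤ) = -s := by omega
    rw [h2]
    have h3 : ∀ j, (((-s : ℤ) : ℝ)) * θ j = -(s * θ j) := fun j => by push_cast; ring
    refine ⟨fun j => ?_, fun w hw hwK m hm hmK => ?_⟩
    · rw [h3, nd_neg]; exact h.1 j
    · have h4 : (fun j => sg ((((-s : ℤ) : ℝ)) * θ j)) = fun j => -sg (s * θ j) := by
        funext j
        rw [h3, sg_neg _ (lt_of_le_of_lt (h.1 j) hρ)]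
      rw [h4, bl_neg_left, mul_neg, nd_neg]
      exact h.2 w hw hwK m hm hmK

/-- no near relation of the rows -/
def RowQ {β₃ : Type} [Fintype β₃] (c : β₃ → β₂ → β → ℝ) (K : ℕ) (P : ℝ) (θ : β → ℝ) : Prop :=
  ∀ w : β₃ → ℤ, w ≠ 0 → (∀ k, |w k| ≤ (K : ℤ)) → ∃ j : β₂, ∀ m : ℕ, 1 ≤ m → m ≤ K →
    1 / P ≤ nd (m * ∑ i, (∑ k, (w k : ℝ) * c k j i) * θ i)

/-- the second part of the frequencies of the square -/
noncomputable def phq (b : β₂ → β → β → ℤ) (θ : β → ℝ) (r : ℤ) (k : β₂) : ℝ :=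
  bl (b k) (fun j => (round (r * θ j) : ℝ)) θ

lemma phq_sum {b : β₂ → β → β → ℤ} (h : ∀ k, Alt (b k)) (θ : β → ℝ) (r : ℤ) (w : β₂ → ℤ) :
    ∑ k, (w k : ℝ) * phq b θ r k = -bl (Mw b w) (fun j => sg (r * θ j)) θ := by
  unfold phq
  rw [← bl_mw]
  have h1 : bl (Mw b w) (fun j => (r : ℝ) * θ j) θ = 0 := by
    rw [bl_smul_left, alt_mw h w θ, mul_zero]
  have h2 : (fun j => (r : ℝ) * θ j) = (fun j => (round (r * θ j) : ℝ)) +
      fun j => sg (r * θ j) := funext fun j => round_add_sg _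
  rw [h2, bl_add_left] at h1
  linarith

end Pool.Agent.Lib.MP_663568_nt.Q
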