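import Pool.Agent.Lib.MP_663568_q.Q10

/-!
# The passage of the condition to the square
-/

set_option autoImplicit false
open Finset

namespace Pool.Agent.Lib.MP_663568_nt.Q

open Katai Nul H6 E

section few

variable {β β₂ : Type} [Fintype β] [Fintype β₂]

lemma few_bad {b : β₂ → β → β → ℤ} (hb : ∀ k, Alt (b k)) {K M : ℕ} (hMK : M ≤ K) {ρ P τ : ℝ}
    (hτ : 2 * τ ≤ 1 / P) {θ : β → ℝ} {r : ℤ} (hG : GoodR b K ρ P θ r) (w : β₂ → ℤ) (hw : w ≠ 0)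
    (hwK : ∀ k, |w k| ≤ (K : ℤ)) (c : ℝ) (m m' : ℕ) (hm : m ∈ Icc 1 M) (hm' : m' ∈ Icc 1 M)
    (h : nd (c + m * ∑ k, (w k : ℝ) * phq b θ r k) < τ)
    (h' : nd (c + m' * ∑ k, (w k : ℝ) * phq b θ r k) < τ) : m = m' := by
  rw [mem_Icc] at hm hm'
  have key : ∀ m m' : ℕ, m < m' → m' ≤ M → nd (c + m * ∑ k, (w k : ℝ) * phq b θ r k) < τ →
      nd (c + m' * ∑ k, (w k : ℝ) * phq b θ r k) < τ → False := by
    intro m m' hlt hM h h'
    have h1 := hG.2 w hw hwK (m' - m) (by omega) (by omega)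
    have h2 : ((m' - m : ℕ) : ℝ) * bl (Mw b w) (fun j => sg (r * θ j)) θ =
        (c + m * ∑ k, (w k : ℝ) * phq b θ r k) - (c + m' * ∑ k, (w k : ℝ) * phq b θ r k) := by
      rw [phq_sum hb, Nat.cast_sub hlt.le]
      ring
    rw [h2] at h1
    have h3 := nd_sub_le (c + m * ∑ k, (w k : ℝ) * phq b θ r k)
      (c + m' * ∑ k, (w k : ℝ) * phq b θ r k)
    linarith
  rcases lt_trichotomy m m' with h1 | h1 | h1
  · exact absurd (key m m' h1 hm'.2 h h') not_false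
  · exact h1
  · exact absurd (key m' m h1 hm.2 h' h) not_false

open Classical in
lemma few_bad_card {S : Type} [Fintype S] {b : β₂ → β → β → ℤ} (hb : ∀ k, Alt (b k)) {K M : ℕ}
    (hMK : M ≤ K) {ρ P τ : ℝ}
    (hτ : 2 * τ ≤ 1 / P) {θ : β → ℝ} {r : ℤ} (hG : GoodR b K ρ P θ r) (w : S → β₂ → ℤ)
    (hw : ∀ s, w s ≠ 0) (hwK : ∀ s k, |w s k| ≤ (K : ℤ)) (c : S → ℝ) :
    ((Icc 1 M).filter fun m : ℕ => ∃ s, nd (c s + m * ∑ k, (w s k : ℝ) * phq b θ r k) < τ).card ≤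
      Fintype.card S := by
  have hsub : ((Icc 1 M).filter fun m : ℕ =>
      ∃ s, nd (c s + m * ∑ k, (w s k : ℝ) * phq b θ r k) < τ) ⊆
      (univ : Finset S).biUnion fun s => (Icc 1 M).filter fun m : ℕ =>
        nd (c s + m * ∑ k, (w s k : ℝ) * phq b θ r k) < τ := by
    intro m hm
    rw [mem_filter] at hm
    obtain ⟨h1, s, h2⟩ := hm
    exact mem_biUnion.2 ⟨s, mem_univ _, mem_filter.2 ⟨h1, h2⟩⟩
  refine (card_le_card hsub).trans (card_biUnion_le.trans ?_)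
  calc _ ≤ ∑ _s : S, 1 := by
        refine sum_le_sum fun s _ => ?_
        rw [card_le_one]
        intro m hm m' hm'
        rw [mem_filter] at hm hm'
        exact few_bad hb hMK hτ hG (w s) (hw s) (hwK s) (c s) m m' hm.1 hm'.1 hm.2 hm'.2
    _ = Fintype.card S := by simp

end few

section step

variable {β₁ β₂ β₃ : Type} [Fintype β₁] [Fintype β₂] [Fintype β₃]

/-- individual return times, forms of the first level -/
private lemma ind_first (b : β₂ → β₁ → β₁ → ℤ) (b' : β₂ ⊕ β₃ → β₁ ⊕ β₂ → β₁ ⊕ β₂ → ℤ)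
    (h1 : ∀ k j i, b' (Sum.inl k) (Sum.inl j) (Sum.inl i) = b k j i)
    (h2 : ∀ k j i, b' (Sum.inl k) (Sum.inl j) (Sum.inr i) = 0)
    (h3 : ∀ k j q, b' (Sum.inl k) (Sum.inr j) q = 0)
    (Mc N₀ K : ℕ) (ρ ρ' P : ℝ) (hρ' : ρ' ≤ 1 / 4) (hN₀ : (N₀ : ℝ) * ρ ≤ ρ')
    (hdir : ∀ y : β₂ → ℝ, ∃ n : ℕ, 1 ≤ n ∧ n ≤ N₀ ∧ ∀ k, nd (n * y k) ≤ ρ')
    (hK : Mc * N₀ ≤ K) (θ : β₁ → ℝ) (φ : β₂ → ℝ) (r : ℤ) (hr : |(r : ℝ)| ≤ P)
    (hG : GoodR b K ρ P θ r) (w : β₂ ⊕ β₃ → ℤ) (hw : w ≠ 0) (hwK : ∀ k, |w k| ≤ (K : ℤ))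
    (hwr : ∀ k, w (Sum.inr k) = 0) :
    ∃ s : ℤ, |(s : ℝ)| ≤ N₀ * P ∧ (∀ p, nd (s * (Sum.elim θ φ : β₁ ⊕ β₂ → ℝ) p) ≤ ρ') ∧
      ∀ m : ℕ, 1 ≤ m → m ≤ Mc → 1 / P ≤ nd (m * bl (Mw b' w)
        (fun p => sg (s * (Sum.elim θ φ : β₁ ⊕ β₂ → ℝ) p)) (Sum.elim θ φ)) := by
  obtain ⟨n, hn1, hnN, hn⟩ := hdir fun k => r * φ k
  have hnNr : (n : ℝ) ≤ N₀ := by exact_mod_cast hnN
  have hsθ : ∀ j, (n : ℝ) * nd (r * θ j) ≤ ρ' := fun j => by
    calc (n : ℝ) * nd (r * θ j) ≤ N₀ * ρ :=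
          mul_le_mul hnNr (hG.1 j) (nd_nonneg _) (Nat.cast_nonneg _)
      _ ≤ ρ' := hN₀
  refine ⟨n * r, ?_, ?_, fun m hm hmM => ?_⟩
  · push_cast
    rw [abs_mul, abs_of_nonneg (Nat.cast_nonneg n)]
    exact mul_le_mul hnNr hr (abs_nonneg _) (Nat.cast_nonneg _)
  · rintro (j | k)
    · simp only [Sum.elim_inl]
      push_cast
      rw [mul_assoc]
      exact (nd_nat_mul_le n _).trans (hsθ j)
    · simp only [Sum.elim_inr]
      push_cast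
      rw [mul_assoc]
      exact hn k
  · have hM1 : ∀ j i, Mw b' w (Sum.inl j) (Sum.inl i) = Mw b (fun k => w (Sum.inl k)) j i := by
      intro j i
      rw [Mw, Fintype.sum_sum_type, Mw]
      simp only [hwr, zero_mul, sum_const_zero, add_zero, h1]
    have hM2 : ∀ j i, Mw b' w (Sum.inl j) (Sum.inr i) = 0 := by
      intro j i
      rw [Mw, Fintype.sum_sum_type]
      simp only [hwr, zero_mul, sum_const_zero, add_zero, h2, mul_zero]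
    have hM3 : ∀ j q, Mw b' w (Sum.inr j) q = 0 := by
      intro j q
      rw [Mw, Fintype.sum_sum_type]
      simp only [hwr, zero_mul, sum_const_zero, add_zero, h3, mul_zero]
    have hval : bl (Mw b' w) (fun p => sg (((n * r : ℤ) : ℝ) *
        (Sum.elim θ φ : β₁ ⊕ β₂ → ℝ) p)) (Sum.elim θ φ) =
        n * bl (Mw b fun k => w (Sum.inl k)) (fun j => sg (r * θ j)) θ := by
      rw [← bl_smul_left]
      unfold bl
      rw [Fintype.sum_sum_type]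
      simp only [Fintype.sum_sum_type, hM1, hM2, hM3, Int.cast_zero, zero_mul, sum_const_zero,
        add_zero, Sum.elim_inl]
      refine sum_congr rfl fun j _ => sum_congr rfl fun i _ => ?_
      have h5 : sg (((n * r : ℤ) : ℝ) * θ j) = n * sg (r * θ j) := by
        have h6 := sg_int_mul (n : ℤ) (r * θ j) (by
          push_cast
          rw [abs_of_nonneg (Nat.cast_nonneg n)]
          exact lt_of_le_of_lt ((hsθ j).trans hρ') (by norm_num))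
        push_cast at h6 ⊢
        rw [mul_assoc, h6]
      rw [h5]
    rw [hval, ← mul_assoc, ← Nat.cast_mul]
    refine hG.2 (fun k => w (Sum.inl k)) ?_ (fun k => hwK _) (m * n)
      (Nat.mul_pos hm hn1) ((Nat.mul_le_mul hmM hnN).trans hK)
    intro h0
    apply hw
    funext k
    rcases k with k | k
    · exact congrFun h0 k
    · exact hwr k

/-- individual return times, forms of the second level -/
private lemma ind_second [DecidableEq β₁] [DecidableEq β₂] (b' : β₂ ⊕ β₃ → β₁ ⊕ β₂ → β₁ ⊕ β₂ → ℤ)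
    (h3 : ∀ k j q, b' (Sum.inl k) (Sum.inr j) q = 0)
    (h4 : ∀ k j i, b' (Sum.inr k) (Sum.inr j) (Sum.inr i) = 0)
    (Mc Kn K : ℕ) (hKn : 1 ≤ Kn) (ρ' P τ : ℝ) (hP : 1 ≤ P) (hτ0 : 0 < τ) (hτ1 : τ ≤ 1)
    (hng : ∀ τ : ℝ, 0 < τ → τ ≤ 1 → ∀ θ y : β₁ ⊕ β₂ → ℝ, (∀ s, |y s| ≤ 1) →
      Perp Kn τ θ y → ∀ D : ℤ, |(D : ℝ)| ≤ Kn → (∀ s, ∃ a : ℤ, D * θ s - y s = a) →
      ∀ (lam : β₁ ⊕ β₂ → ℝ) (e : ℝ),
      (¬ ∃ s : ℤ, |(s : ℝ)| ≤ 2 * Kn / τ ∧ (∀ j, nd (s * θ j) ≤ ρ') ∧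
        ∀ m : ℕ, 1 ≤ m → m ≤ Mc → e ≤ nd (m * ∑ j, lam j * sg (s * θ j))) →
      nd (Mc.factorial * ∑ j, lam j * y j) ≤ Kn * (Mc.factorial * e))
    (hK : Mc.factorial ≤ K) (θ : β₁ → ℝ) (φ : β₂ → ℝ)
    (hRow : RowQ (fun k j i => (b' (Sum.inr k) (Sum.inr j) (Sum.inl i) : ℝ)) K P θ)
    (hNR : ∀ κ : β₁ ⊕ β₂ → ℤ, (∀ p, |κ p| ≤ (Kn : ℤ)) → (fun k => κ (Sum.inr k)) ≠ 0 →
      τ ≤ nd (∑ p, (κ p : ℝ) * (Sum.elim θ φ : β₁ ⊕ β₂ → ℝ) p))
    (w : β₂ ⊕ β₃ → ℤ) (hwK : ∀ k, |w k| ≤ (K : ℤ)) (hwr : (fun k => w (Sum.inr k)) ≠ 0) :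
    ∃ s : ℤ, |(s : ℝ)| ≤ 2 * Kn / τ ∧ (∀ p, nd (s * (Sum.elim θ φ : β₁ ⊕ β₂ → ℝ) p) ≤ ρ') ∧
      ∀ m : ℕ, 1 ≤ m → m ≤ Mc → 1 / (2 * P * Kn * Mc.factorial) ≤ nd (m * bl (Mw b' w)
        (fun p => sg (s * (Sum.elim θ φ : β₁ ⊕ β₂ → ℝ) p)) (Sum.elim θ φ)) := by
  by_contra hcon
  set x : β₁ ⊕ β₂ → ℝ := Sum.elim θ φ with hx
  obtain ⟨j, hj⟩ := hRow (fun k => w (Sum.inr k)) hwr fun k => hwK _
  have hKn0 : (0 : ℝ) < Kn := by exact_mod_cast (by omega : 0 < Kn)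
  have hF0 : (0 : ℝ) < Mc.factorial := by exact_mod_cast Nat.factorial_pos _
  have h5 := hng τ hτ0 hτ1 x (Pi.single (Sum.inr j) 1) (by
    intro s
    by_cases hs : s = Sum.inr j
    · subst hs; simp
    · rw [Pi.single_eq_of_ne hs]; simp) (by
    intro κ hκ
    by_cases h0 : κ (Sum.inr j) = 0
    · right
      rw [sum_eq_single_of_mem (Sum.inr j) (mem_univ _) fun k _ hk => by
        rw [Pi.single_eq_of_ne hk, mul_zero]]
      rw [h0]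
      simp
    · left
      exact hNR κ hκ fun h => h0 (congrFun h j)) 0 (by simp) (by
    intro s
    by_cases hs : s = Sum.inr j
    · subst hs; exact ⟨-1, by simp⟩
    · exact ⟨0, by rw [Pi.single_eq_of_ne hs]; simp⟩)
    (fun p => ∑ q, (Mw b' w p q : ℝ) * x q) (1 / (2 * P * Kn * Mc.factorial)) (by
    rintro ⟨s, h1, h2, h6⟩
    refine hcon ⟨s, h1, h2, fun m hm hmM => ?_⟩
    have := h6 m hm hmM
    rwa [bl_lam] at this)
  have h6 : ∑ p, (∑ q, (Mw b' w p q : ℝ) * x q) * (Pi.single (Sum.inr j) (1 : ℝ) :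
      β₁ ⊕ β₂ → ℝ) p = ∑ i, (∑ k, (w (Sum.inr k) : ℝ) *
        (b' (Sum.inr k) (Sum.inr j) (Sum.inl i) : ℝ)) * θ i := by
    rw [sum_eq_single_of_mem (Sum.inr j) (mem_univ _) fun k _ hk => by
      rw [Pi.single_eq_of_ne hk, mul_zero]]
    rw [Pi.single_eq_same, mul_one, Fintype.sum_sum_type]
    have hMr : ∀ q, Mw b' w (Sum.inr j) (Sum.inr q) = 0 := by
      intro q
      rw [Mw, Fintype.sum_sum_type]
      simp only [h3, h4, mul_zero, sum_const_zero, add_zero]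
    have hMl : ∀ q, Mw b' w (Sum.inr j) (Sum.inl q) =
        ∑ k, w (Sum.inr k) * b' (Sum.inr k) (Sum.inr j) (Sum.inl q) := by
      intro q
      rw [Mw, Fintype.sum_sum_type]
      simp only [h3, mul_zero, sum_const_zero, zero_add]
    simp only [hMr, Int.cast_zero, zero_mul, sum_const_zero, add_zero]
    refine sum_congr rfl fun i _ => ?_
    rw [hMl, hx, Sum.elim_inl]
    push_cast
    rfl
  rw [h6] at h5
  have h7 := hj Mc.factorial (Nat.factorial_pos _) hK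
  have h8 : (Kn : ℝ) * (Mc.factorial * (1 / (2 * P * Kn * Mc.factorial))) = 1 / P / 2 := by
    field_simp
  rw [h8] at h5
  have h9 : 0 < 1 / P := by positivity
  have h10 := h7.trans h5
  linarith

open Classical in
/-- **The passage to the square**: for all but few multiples of a good return time the square
satisfies the condition. -/
theorem stepS [DecidableEq β₁] [DecidableEq β₂] (b : β₂ → β₁ → β₁ → ℤ) (hb : ∀ k, Alt (b k))
    (b' : β₂ ⊕ β₃ → β₁ ⊕ β₂ → β₁ ⊕ β₂ → ℤ)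
    (h1 : ∀ k j i, b' (Sum.inl k) (Sum.inl j) (Sum.inl i) = b k j i)
    (h2 : ∀ k j i, b' (Sum.inl k) (Sum.inl j) (Sum.inr i) = 0)
    (h3 : ∀ k j q, b' (Sum.inl k) (Sum.inr j) q = 0)
    (h4 : ∀ k j i, b' (Sum.inr k) (Sum.inr j) (Sum.inr i) = 0)
    (K₁ : ℕ) (ρ₁ : ℝ) (hρ₁ : 0 < ρ₁) :
    ∃ Bd : ℕ, ∀ M : ℕ, ∃ (K : ℕ) (ρ : ℝ) (C : ℕ), 0 < ρ ∧ 1 ≤ C ∧ ∀ P : ℝ, 1 ≤ P →
      ∀ θ : β₁ → ℝ, RowQ (fun k j i => (b' (Sum.inr k) (Sum.inr j) (Sum.inl i) : ℝ)) K P θ →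
      ∀ r : ℤ, |(r : ℝ)| ≤ P → GoodR b K ρ P θ r →
      ((Icc 1 M).filter fun m : ℕ => ¬ CondQ b' K₁ ρ₁ (C * P)
        (Sum.elim θ fun k => (m : ℝ) * phq b θ r k)).card ≤ Bd := by
  set ρ₂ : ℝ := min ρ₁ (1 / 4) with hρ₂
  have hρ₂0 : 0 < ρ₂ := lt_min hρ₁ (by norm_num)
  have hρ₂4 : ρ₂ ≤ 1 / 4 := min_le_right _ _
  set WS : Finset (β₂ ⊕ β₃ → ℤ) := (Fintype.piFinset fun _ => Icc (-(K₁ + 1 : ℤ)) (K₁ + 1)).filter
    (fun w => w ≠ 0) with hWS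
  have hWmem : ∀ w : β₂ ⊕ β₃ → ℤ, w ∈ WS ↔ (∀ k, |w k| ≤ (K₁ + 1 : ℤ)) ∧ w ≠ 0 := by
    intro w
    rw [hWS, mem_filter, Fintype.mem_piFinset]
    simp only [mem_Icc, abs_le]
  obtain ⟨Mc, hMc1, ρ', hρ'0, hρ'ρ, hcomb⟩ := comb (σ := β₁ ⊕ β₂) (W := {w // w ∈ WS}) (K₁ + 1)
    (by omega) ρ₂ hρ₂0
  have hρ'4 : ρ' ≤ 1 / 4 := hρ'ρ.trans hρ₂4
  obtain ⟨N₀, hN₀1, hdir⟩ := dirich (κ := β₂) ρ' hρ'0
  obtain ⟨N₁, hN₁1, hdir₁⟩ := dirich (κ := β₁ ⊕ β₂) ρ₂ hρ₂0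
  obtain ⟨Kn, hKn1, -, hng⟩ := no_good (σ := β₁ ⊕ β₂) ρ' 1 hρ'0 zero_le_one Mc
  set SS : Finset (β₁ ⊕ β₂ → ℤ) := (Fintype.piFinset fun _ => Icc (-(Kn : ℤ)) Kn).filter
    (fun κ => (fun k => κ (Sum.inr k)) ≠ 0) with hSS
  have hSmem : ∀ κ : β₁ ⊕ β₂ → ℤ, κ ∈ SS ↔ (∀ k, |κ k| ≤ (Kn : ℤ)) ∧
      (fun k => κ (Sum.inr k)) ≠ 0 := by
    intro w
    rw [hSS, mem_filter, Fintype.mem_piFinset]
    simp only [mem_Icc, abs_le]
  refine ⟨SS.card, fun M => ?_⟩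
  have hN₀0 : (0 : ℝ) < N₀ := by exact_mod_cast (by omega : 0 < N₀)
  set F : ℕ := Mc.factorial with hF
  have hF1 : 1 ≤ F := Nat.factorial_pos _
  set K : ℕ := (K₁ + 1) + M + Kn + Mc * N₀ + F with hK
  set C : ℕ := Mc * (N₀ + 8 * Kn) + 4 * Kn * F + N₁ with hC
  refine ⟨K, ρ' / N₀, C, by positivity, by omega, fun P hP θ hRow r hr hG => ?_⟩
  have hP0 : 0 < P := by linarith
  set τ : ℝ := 1 / (4 * P) with hτ
  have hτ0 : 0 < τ := by positivity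
  have hτ1 : τ ≤ 1 := by rw [hτ, div_le_one (by positivity)]; linarith
  have hτP : 2 * τ ≤ 1 / P := by
    rw [hτ, mul_one_div, div_le_div_iff₀ (by positivity) hP0]
    linarith
  have hfew := few_bad_card (S := {κ // κ ∈ SS}) (M := M) hb (by omega : M ≤ K) hτP hG
    (fun κ k => κ.1 (Sum.inr k)) (fun κ => ((hSmem κ.1).1 κ.2).2)
    (fun κ k => (((hSmem κ.1).1 κ.2).1 _).trans (by exact_mod_cast (by omega : Kn ≤ K)))
    (fun κ => ∑ j, (κ.1 (Sum.inl j) : ℝ) * θ j)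
  rw [Fintype.card_coe] at hfew
  refine le_trans (card_le_card ?_) hfew
  intro m hm
  rw [mem_filter] at hm ⊢
  refine ⟨hm.1, ?_⟩
  by_contra hcon
  push Not at hcon
  apply hm.2
  set φ : β₂ → ℝ := fun k => (m : ℝ) * phq b θ r k with hφ
  set x : β₁ ⊕ β₂ → ℝ := Sum.elim θ φ with hx
  have hKn0 : (0 : ℝ) < Kn := by exact_mod_cast (by omega : 0 < Kn)
  have hF0 : (0 : ℝ) < F := by exact_mod_cast (by omega : 0 < F)
  have hCr : (C : ℝ) = Mc * (N₀ + 8 * Kn) + 4 * Kn * F + N₁ := by rw [hC]; push_cast; ring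
  have hMc0 : (0 : ℝ) ≤ Mc := Nat.cast_nonneg _
  have hN₁0 : (0 : ℝ) ≤ N₁ := Nat.cast_nonneg _
  by_cases hne : Nonempty (β₂ ⊕ β₃)
  swap
  · -- no forms
    obtain ⟨n, hn1, hnN, hn⟩ := hdir₁ x
    refine ⟨n, hn1, ?_, fun p => ?_, fun w hw => ?_⟩
    · have h5 : (n : ℝ) ≤ C := by exact_mod_cast hnN.trans (by omega : N₁ ≤ C)
      exact h5.trans (le_mul_of_one_le_right (Nat.cast_nonneg _) hP)
    · push_cast
      exact (hn p).trans (min_le_left _ _)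
    · exact absurd (funext fun k => absurd ⟨k⟩ hne) hw
  have hNR : ∀ κ : β₁ ⊕ β₂ → ℤ, (∀ p, |κ p| ≤ (Kn : ℤ)) → (fun k => κ (Sum.inr k)) ≠ 0 →
      τ ≤ nd (∑ p, (κ p : ℝ) * x p) := by
    intro κ h5 h6
    have h7 := hcon ⟨κ, (hSmem κ).2 ⟨h5, h6⟩⟩
    refine h7.trans (le_of_eq ?_)
    congr 1
    rw [Fintype.sum_sum_type]
    simp only [hx, Sum.elim_inl, Sum.elim_inr, hφ]
    rw [mul_sum]
    congr 1
    exact sum_congr rfl fun k _ => by ring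
  set e : ℝ := 1 / (2 * P * Kn * F) with he
  have he0 : 0 < e := by positivity
  obtain ⟨s, hs1, hs2, hs3⟩ := hcomb x (fun w p => ∑ q, (Mw b' w.1 p q : ℝ) * x q) e
    ((N₀ + 8 * Kn) * P) he0 (by positivity) (by
    rintro ⟨w, hwS⟩
    obtain ⟨hwK, hw0⟩ := (hWmem w).1 hwS
    have hwK' : ∀ k, |w k| ≤ (K : ℤ) := fun k => (hwK k).trans (by
      exact_mod_cast (by omega : K₁ + 1 ≤ K))
    simp only [bl_lam]
    by_cases hwr : (fun k => w (Sum.inr k)) = 0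
    · obtain ⟨s, h5, h6, h7⟩ := ind_first b b' h1 h2 h3 Mc N₀ K (ρ' / N₀) ρ' P hρ'4
        (by field_simp; exact le_rfl) hdir (by omega) θ φ r hr hG w hw0 hwK' (congrFun hwr)
      refine ⟨s, h5.trans ?_, h6, fun m hm hmM => le_trans ?_ (h7 m hm hmM)⟩
      · refine mul_le_mul_of_nonneg_right ?_ hP0.le
        linarith
      · rw [he]
        refine one_div_le_one_div_of_le hP0 ?_
        have h8 : (1 : ℝ) ≤ Kn := by exact_mod_cast hKn1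
        have h9 : (1 : ℝ) ≤ F := by exact_mod_cast hF1
        calc P = P * 1 * 1 := by ring
          _ ≤ (2 * P) * Kn * F := by
            refine mul_le_mul (mul_le_mul (by linarith) h8 zero_le_one (by positivity)) h9
              zero_le_one (by positivity)
    · obtain ⟨s, h5, h6, h7⟩ := ind_second b' h3 h4 Mc Kn K hKn1 ρ' P τ hP hτ0 hτ1 hng (by omega)
        θ φ hRow hNR w hwK' hwr
      refine ⟨s, h5.trans ?_, h6, h7⟩
      have h8 : 2 * (Kn : ℝ) / τ = 8 * Kn * P := by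
        rw [hτ, div_div_eq_mul_div, div_one]; ring
      rw [h8]
      refine mul_le_mul_of_nonneg_right ?_ hP0.le
      linarith)
  have hCP : (0 : ℝ) < C * P := by
    have : (0 : ℝ) < C := by exact_mod_cast (by omega : 0 < C)
    positivity
  have hfin : GoodR b' (K₁ + 1) ρ₂ (C * P) x s := by
    refine ⟨hs2, fun w hw hwK m hm hmK => ?_⟩
    have h5 := hs3 ⟨w, (hWmem w).2 ⟨fun k => by exact_mod_cast hwK k, hw⟩⟩ m hm hmK
    rw [bl_lam] at h5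
    refine le_trans ?_ h5
    rw [he, div_div]
    refine one_div_le_one_div_of_le (by positivity) ?_
    have h6 : 4 * (Kn : ℝ) * F ≤ C := by
      rw [hCr]
      have : (0 : ℝ) ≤ Mc * (N₀ + 8 * Kn) := by positivity
      linarith
    calc 2 * P * Kn * F * 2 = (4 * Kn * F) * P := by ring
      _ ≤ C * P := mul_le_mul_of_nonneg_right h6 hP0.le
  have h5 : |(s : ℝ)| ≤ C * P := by
    refine hs1.trans ?_
    rw [← mul_assoc]
    refine mul_le_mul_of_nonneg_right ?_ hP0.le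
    rw [hCr]
    have : (0 : ℝ) ≤ 4 * Kn * F := by positivity
    linarith
  exact (condq_of_int (by omega) (by linarith) hCP hne h5 hfin).mono (by omega)
    (min_le_left _ _) hCP le_rfl

end step

end Pool.Agent.Lib.MP_663568_nt.Q
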