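import Pool.Agent.Lib.MP_663568_q.Q10
import Pool.Agent.Lib.MP_663568_q.Q12
import Pool.Agent.Lib.MP_663568_e.E09

/-!
# One van der Corput step along the multiples of a return time
-/

set_option autoImplicit false
open Finset

namespace Pool.Agent.Lib.MP_663568_nt.Q

open Katai Tw Fib Nul T3 E H6

variable {G : Type} [Group G] [TopologicalSpace G] [IsTopologicalGroup G] {A : ℕ → Subgroup G}
  {Γ : Subgroup G}
  {β : ℕ → Type} [∀ s, Fintype (β s)] [∀ s, DecidableEq (β s)]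
  {π : (s : ℕ) → G → β s → ℝ} {e : (s : ℕ) → β s → ℝ → G}

/-- One van der Corput step. -/
theorem step_ap (s : ℕ) (hs : 1 ≤ s) (hN : NS A Γ π e) (b : β 2 → β 1 → β 1 → ℤ) (hb : CF π b)
    (F : G → ℂ) (hF : LevN A Γ e (s + 1) F) (hG : GoodN e (s + 1) F) (hF1 : ∀ x, ‖F x‖ ≤ 1)
    (ε : ℝ) (hε : 0 < ε) (hε1 : ε ≤ 1) :
    ∃ (I : Type) (_ : Fintype I) (Ψ : I → SqG A hN.anti hN.comm hN.A0 → ℂ) (ε₁ : ℝ), 0 < ε₁ ∧
      (∀ i, LevN (sqA A hN.anti hN.comm hN.A0) (sqΓ A hN.anti hN.comm hN.A0 Γ)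
          (sqe A hN.anti hN.comm hN.A0 e) s (Ψ i) ∧
        GoodN (sqe A hN.anti hN.comm hN.A0 e) s (Ψ i) ∧
        ∀ j m, Freq (e (s + 1) j) m F →
          Freq (sqe A hN.anti hN.comm hN.A0 e s (Sum.inr j)) m (Ψ i)) ∧
      ∀ M : ℕ, 32 ≤ ε ^ 2 * M → ∀ (g : G) (r L : ℕ) (S : Finset ℕ), (0 : ℝ) < L →
        128 * ((r : ℝ) * M) ≤ ε ^ 2 * L → 64 * (S.card : ℝ) ≤ ε ^ 2 * M →
        (∀ j, (M : ℝ) * nd (r * π 1 g j) ≤ 2) →
        (∀ m ∈ Icc 1 M, m ∉ S → ∀ i, ∀ p : SqG A hN.anti hN.comm hN.A0,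
          sqπ A hN.anti hN.comm hN.A0 π 1 p =
            (Sum.elim (π 1 g) fun k => (m : ℝ) * phq b (π 1 g) r k : sqβ β 1 → ℝ) →
          ‖∑ l ∈ Icc 1 L, Ψ i (p ^ l)‖ ≤ ε₁ * L) →
        ∀ (x : G) (α : ℝ), ‖∑ l ∈ Icc 1 L, ee (α * l) * F (g ^ l * x)‖ ≤ ε * L := by
  classical
  obtain ⟨X, hX, X₀, hX₀, hX₀X, hdec, htr⟩ := exists_trans hN
  obtain ⟨N, hNf, ι, hιf, Ψ, hΨ, hnet⟩ := net_decomp_freq hN s hs F hF hG X hX (ε ^ 2 / 128)
    (by positivity)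
  set cd : ℝ := 1 + ∑ ν : N, (Fintype.card (ι ν) : ℝ) with hcd
  have hcd0 : 0 < cd := by positivity
  set ε₁ : ℝ := ε ^ 2 / (128 * cd) with hε₁
  have hε₁0 : 0 < ε₁ := by positivity
  refine ⟨(Σ ν, ι ν), inferInstance, fun i => Ψ i.1 i.2, ε₁, hε₁0, fun i => hΨ i.1 i.2,
    fun M hM g r L S hL0 hL hS hnd hp x α => ?_⟩
  refine vdcA (fun l => ee (α * l) * F (g ^ l * x)) (fun l => ?_) ε hε hε1 r M L S hM hL hL0 hS ?_
  · rw [norm_mul, norm_ee, one_mul]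
    exact hF1 _
  -- one shift
  intro m hm hmS
  obtain ⟨x₀, hx₀, γ₀, hγ₀, hx⟩ := hdec x
  set g' : G := x₀⁻¹ * g * x₀ with hg'
  have hπg' : π 1 g' = π 1 g := pi_one_conj hN x₀ g
  set z : β 1 → ℤ := fun j => m * round ((r : ℝ) * π 1 g j) with hz
  obtain ⟨c, γ, hγ, hcγ, hπγ, hyc⟩ := htr x₀ hx₀ (g' ^ (r * m)) z (by
    intro j
    rw [pi_pow hN, hπg']
    have h1 : ((r * m : ℕ) : ℝ) * π 1 g j - z j =
        m * ((r : ℝ) * π 1 g j - round ((r : ℝ) * π 1 g j)) := by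
      rw [hz]; push_cast; ring
    rw [h1, abs_mul, abs_of_nonneg (Nat.cast_nonneg m)]
    have h2 : (m : ℝ) ≤ M := by exact_mod_cast (mem_Icc.1 hm).2
    exact (mul_le_mul_of_nonneg_right h2 (abs_nonneg _)).trans (hnd j))
  obtain ⟨ν, hν⟩ := hnet (x₀ * c) hyc x₀ (hX₀X hx₀)
  -- the element of the square
  have hmem : ((γ * g' * γ⁻¹, g') : G × G) ∈ sq A hN.anti hN.comm hN.A0 1 := by
    rw [mem_sq A hN.anti hN.comm hN.A0 hN.A1]
    refine ⟨by rw [hN.A1]; trivial, by rw [hN.A1]; trivial, ?_⟩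
    have := hN.comm 1 1 (Subgroup.commutator_mem_commutator (g₁ := γ) (g₂ := g')
      (by rw [hN.A1]; trivial) (by rw [hN.A1]; trivial))
    simpa [commutatorElement_def] using this
  set p : SqG A hN.anti hN.comm hN.A0 := ⟨(γ * g' * γ⁻¹, g'), hmem⟩ with hpd
  have hpπ : sqπ A hN.anti hN.comm hN.A0 π 1 p =
      (Sum.elim (π 1 g) fun k => (m : ℝ) * phq b (π 1 g) r k : sqβ β 1 → ℝ) := by
    funext q
    rcases q with j | k
    · change π 1 g' j = π 1 g j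
      rw [hπg']
    · change π 2 (γ * g' * γ⁻¹ * g'⁻¹) k = (m : ℝ) * phq b (π 1 g) r k
      rw [hb, hπγ, hπg']
      unfold phq bl
      rw [mul_sum]
      refine sum_congr rfl fun j _ => ?_
      rw [mul_sum]
      refine sum_congr rfl fun i _ => ?_
      rw [hz]
      push_cast
      ring
  -- the terms
  have hterm : ∀ l, F (g ^ (l + r * m) * x) * (starRingEnd ℂ) (F (g ^ l * x)) =
      F (x₀ * c * (p ^ l).1.1) * (starRingEnd ℂ) (F (x₀ * (p ^ l).1.2)) := by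
    intro l
    have e0 : ∀ n : ℕ, g ^ n * x₀ = x₀ * g' ^ n := by
      intro n
      rw [hg']
      have := conj_pow (a := x₀⁻¹) (b := g) (i := n)
      rw [inv_inv] at this
      rw [this]
      group
    have e1 : (p ^ l).1.1 = (γ * g' * γ⁻¹) ^ l := by
      rw [hpd]; simp
    have e2 : (p ^ l).1.2 = g' ^ l := by
      rw [hpd]; simp
    rw [e1, e2]
    congr 1
    · have e3 : g ^ (l + r * m) * x = x₀ * c * (γ * g' * γ⁻¹) ^ l * (γ * γ₀) := by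
        rw [hx, ← mul_assoc, e0, add_comm, pow_add, hcγ, conj_pow]
        group
      rw [e3]
      exact hF.1.2 _ _ (Γ.mul_mem hγ hγ₀)
    · rw [hx, ← mul_assoc, e0]
      rw [hF.1.2 _ _ hγ₀]
  have hsum1 : ‖∑ l ∈ Icc 1 L, ∑ i, Ψ ν i (p ^ l)‖ ≤ ε ^ 2 / 128 * L := by
    rw [sum_comm]
    calc _ ≤ ∑ i, ‖∑ l ∈ Icc 1 L, Ψ ν i (p ^ l)‖ := norm_sum_le _ _
      _ ≤ ∑ i : ι ν, ε₁ * L := sum_le_sum fun i _ => hp m hm hmS ⟨ν, i⟩ p hpπ
      _ = (Fintype.card (ι ν) : ℝ) * (ε₁ * L) := by simp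
      _ ≤ cd * (ε₁ * L) := by
          refine mul_le_mul_of_nonneg_right ?_ (by positivity)
          have : (Fintype.card (ι ν) : ℝ) ≤ ∑ ν : N, (Fintype.card (ι ν) : ℝ) :=
            single_le_sum (f := fun ν => (Fintype.card (ι ν) : ℝ)) (fun _ _ => Nat.cast_nonneg _)
              (mem_univ ν)
          rw [hcd]; linarith
      _ = _ := by rw [hε₁]; field_simp
  have hsum2 : ‖∑ l ∈ Icc 1 L, (F (x₀ * c * (p ^ l).1.1) * (starRingEnd ℂ)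
      (F (x₀ * (p ^ l).1.2)) - ∑ i, Ψ ν i (p ^ l))‖ ≤ ε ^ 2 / 128 * L := by
    calc _ ≤ ∑ l ∈ Icc 1 L, ε ^ 2 / 128 :=
          (norm_sum_le _ _).trans (sum_le_sum fun l _ => hν (p ^ l))
      _ = _ := by simp; ring
  have hgoal : ∑ l ∈ Icc 1 L, (ee (α * ((l + r * m : ℕ) : ℝ)) * F (g ^ (l + r * m) * x)) *
      (starRingEnd ℂ) (ee (α * (l : ℝ)) * F (g ^ l * x)) =
      ee (α * ((r * m : ℕ) : ℝ)) * (∑ l ∈ Icc 1 L, (F (x₀ * c * (p ^ l).1.1) * (starRingEnd ℂ)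
      (F (x₀ * (p ^ l).1.2)) - ∑ i, Ψ ν i (p ^ l)) + ∑ l ∈ Icc 1 L, ∑ i, Ψ ν i (p ^ l)) := by
    rw [← sum_add_distrib, mul_sum]
    refine sum_congr rfl fun l _ => ?_
    rw [sub_add_cancel, ← hterm l, map_mul, Katai.conj_ee]
    have h1 : ee (α * ((l + r * m : ℕ) : ℝ)) * ee (-(α * (l : ℝ))) = ee (α * ((r * m : ℕ) : ℝ)) := by
      rw [← ee_add]
      congr 1
      push_cast
      ring
    rw [← h1]
    ring
  change ‖∑ l ∈ Icc 1 L, (ee (α * ((l + r * m : ℕ) : ℝ)) * F (g ^ (l + r * m) * x)) *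
      (starRingEnd ℂ) (ee (α * (l : ℝ)) * F (g ^ l * x))‖ ≤ ε ^ 2 / 64 * L
  rw [hgoal, norm_mul, norm_ee, one_mul]
  calc _ ≤ ε ^ 2 / 128 * L + ε ^ 2 / 128 * L := (norm_add_le _ _).trans (add_le_add hsum2 hsum1)
    _ = _ := by ring

end Pool.Agent.Lib.MP_663568_nt.Q
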