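import Pool.Agent.Lib.MP_663568_q.Q11
import Pool.Agent.Lib.MP_663568_q.Q13
import Pool.Agent.Lib.MP_663568_e.E07
import Pool.Agent.Lib.MP_663568_e.E10

/-!
# The rows for the square, and functions of level one
-/

set_option autoImplicit false
set_option linter.unusedSectionVars false
open Finset

namespace Pool.Agent.Lib.MP_663568_nt.Q

open Katai Tw Fib Nul T3 E H6

section defs

variable {G : Type} [Group G] {β : ℕ → Type} [∀ s, Fintype (β s)]

/-- no near relation of the rows of the forms in the levels `3, …, n` -/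
def TTq (π : (s : ℕ) → G → β s → ℝ) (e : (s : ℕ) → β s → ℝ → G) (n K : ℕ) (P : ℝ)
    (θ : β 1 → ℝ) : Prop :=
  ∀ t : ℕ, 2 ≤ t → t + 1 ≤ n → RowQ (fun k j i => comc π e t j i k) K P θ

end defs

lemma RowQ.mono {β β₂ β₃ : Type} [Fintype β] [Fintype β₃] {c : β₃ → β₂ → β → ℝ} {K K' : ℕ}
    {P P' : ℝ} {θ : β → ℝ} (h : RowQ c K P θ) (hK : K' ≤ K) (hP : 0 < P) (hPP : P ≤ P') :
    RowQ c K' P' θ := by
  intro w hw hwK
  obtain ⟨j, hj⟩ := h w hw fun k => (hwK k).trans (by exact_mod_cast hK)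
  exact ⟨j, fun m hm hmK => (one_div_mono hP hPP).trans (hj m hm (hmK.trans hK))⟩

section

variable {G : Type} [Group G] [TopologicalSpace G] [IsTopologicalGroup G] {A : ℕ → Subgroup G}
  {Γ : Subgroup G}
  {β : ℕ → Type} [∀ s, Fintype (β s)] [∀ s, DecidableEq (β s)]
  {π : (s : ℕ) → G → β s → ℝ} {e : (s : ℕ) → β s → ℝ → G}

lemma TTq.mono {n K K' : ℕ} {P P' : ℝ} {θ : β 1 → ℝ} (h : TTq π e n K P θ) (hK : K' ≤ K)
    (hP : 0 < P) (hPP : P ≤ P') : TTq π e n K' P' θ := fun t h1 h2 =>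
  (h t h1 h2).mono hK hP hPP

private theorem sqsum {s : ℕ} (f : sqβ β s → ℝ) :
    ∑ x, f x = ∑ a : β s, f (Sum.inl a) + ∑ b : β (s + 1), f (Sum.inr b) :=
  Fintype.sum_sum_type f

/-- the rows of the square -/
theorem ttq_sq (hN : NS A Γ π e) (n K : ℕ) (P : ℝ) (θ : β 1 → ℝ) (h : TTq π e (n + 1) K P θ)
    (φ : β 2 → ℝ) :
    TTq (sqπ A hN.anti hN.comm hN.A0 π) (sqe A hN.anti hN.comm hN.A0 e) n K P
      (Sum.elim θ φ : sqβ β 1 → ℝ) := by
  intro t ht htn w hw0 hwK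
  obtain ⟨c1, c2, c3, c4, c5⟩ := sq_comc hN t (by omega)
  by_cases hr : (fun k : β (t + 2) => w (Sum.inr k)) = 0
  · have hl : (fun k : β (t + 1) => w (Sum.inl k)) ≠ 0 := by
      intro hl
      apply hw0
      funext k
      rcases k with k | k
      · exact congrFun hl k
      · exact congrFun hr k
    obtain ⟨j, hj⟩ := h t ht (by omega) (fun k : β (t + 1) => w (Sum.inl k)) hl
      (fun k => hwK (Sum.inl k))
    refine ⟨Sum.inl j, fun m hm1 hmK => ?_⟩
    have e1 : ∑ i : sqβ β 1, (∑ k : sqβ β (t + 1), (w k : ℝ) *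
        comc (sqπ A hN.anti hN.comm hN.A0 π) (sqe A hN.anti hN.comm hN.A0 e) t (Sum.inl j) i k) *
          (Sum.elim θ φ : sqβ β 1 → ℝ) i =
        ∑ i : β 1, (∑ k : β (t + 1), ((w (Sum.inl k) : ℤ) : ℝ) * comc π e t j i k) * θ i := by
      rw [sqsum]
      have h2 : ∑ b : β 2, (∑ k : sqβ β (t + 1), (w k : ℝ) *
          comc (sqπ A hN.anti hN.comm hN.A0 π) (sqe A hN.anti hN.comm hN.A0 e) t (Sum.inl j)
            (Sum.inr b) k) * (Sum.elim θ φ : sqβ β 1 → ℝ) (Sum.inr b) = 0 := by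
        refine sum_eq_zero fun b _ => ?_
        rw [sqsum]
        have h3 : ∀ k : β (t + 1), (w (Sum.inl k) : ℝ) *
            comc (sqπ A hN.anti hN.comm hN.A0 π) (sqe A hN.anti hN.comm hN.A0 e) t (Sum.inl j)
              (Sum.inr b) (Sum.inl k) = 0 := fun k => by rw [c5, mul_zero]
        have h4 : ∀ k : β (t + 1 + 1), (w (Sum.inr k) : ℝ) *
            comc (sqπ A hN.anti hN.comm hN.A0 π) (sqe A hN.anti hN.comm hN.A0 e) t (Sum.inl j)
              (Sum.inr b) (Sum.inr k) = 0 := fun k => by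
          have h5 : w (Sum.inr k) = 0 := congrFun hr k
          rw [h5, Int.cast_zero, zero_mul]
        rw [sum_congr rfl fun k _ => h3 k, sum_congr rfl fun k _ => h4 k]
        simp
      rw [h2, add_zero]
      refine sum_congr rfl fun i _ => ?_
      rw [sqsum]
      have h4 : ∀ k : β (t + 1 + 1), (w (Sum.inr k) : ℝ) *
          comc (sqπ A hN.anti hN.comm hN.A0 π) (sqe A hN.anti hN.comm hN.A0 e) t (Sum.inl j)
            (Sum.inl i) (Sum.inr k) = 0 := fun k => by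
        have h5 : w (Sum.inr k) = 0 := congrFun hr k
        rw [h5, Int.cast_zero, zero_mul]
      have h3 : ∀ k : β (t + 1), (w (Sum.inl k) : ℝ) *
          comc (sqπ A hN.anti hN.comm hN.A0 π) (sqe A hN.anti hN.comm hN.A0 e) t (Sum.inl j)
            (Sum.inl i) (Sum.inl k) = (w (Sum.inl k) : ℝ) * comc π e t j i k :=
        fun k => by rw [c4]
      rw [sum_congr rfl fun k _ => h3 k, sum_congr rfl fun k _ => h4 k]
      simp
    rw [e1]
    exact hj m hm1 hmK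
  · obtain ⟨j, hj⟩ := h (t + 1) (by omega) (by omega) (fun k : β (t + 2) => w (Sum.inr k)) hr
      (fun k => hwK (Sum.inr k))
    refine ⟨Sum.inr j, fun m hm1 hmK => ?_⟩
    have e1 : ∑ i : sqβ β 1, (∑ k : sqβ β (t + 1), (w k : ℝ) *
        comc (sqπ A hN.anti hN.comm hN.A0 π) (sqe A hN.anti hN.comm hN.A0 e) t (Sum.inr j) i k) *
          (Sum.elim θ φ : sqβ β 1 → ℝ) i =
        ∑ i : β 1, (∑ k : β (t + 2), ((w (Sum.inr k) : ℤ) : ℝ) * comc π e (t + 1) j i k) * θ i := by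
      rw [sqsum]
      have h3 : ∀ (b : sqβ β 1) (k : β (t + 1)), (w (Sum.inl k) : ℝ) *
          comc (sqπ A hN.anti hN.comm hN.A0 π) (sqe A hN.anti hN.comm hN.A0 e) t (Sum.inr j)
            b (Sum.inl k) = 0 := fun b k => by rw [c3, mul_zero]
      have h2 : ∑ b : β 2, (∑ k : sqβ β (t + 1), (w k : ℝ) *
          comc (sqπ A hN.anti hN.comm hN.A0 π) (sqe A hN.anti hN.comm hN.A0 e) t (Sum.inr j)
            (Sum.inr b) k) * (Sum.elim θ φ : sqβ β 1 → ℝ) (Sum.inr b) = 0 := by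
        refine sum_eq_zero fun b _ => ?_
        rw [sqsum]
        have h4 : ∀ k : β (t + 1 + 1), (w (Sum.inr k) : ℝ) *
            comc (sqπ A hN.anti hN.comm hN.A0 π) (sqe A hN.anti hN.comm hN.A0 e) t (Sum.inr j)
              (Sum.inr b) (Sum.inr k) = 0 := fun k => by rw [c2, mul_zero]
        rw [sum_congr rfl fun k _ => h3 (Sum.inr b) k, sum_congr rfl fun k _ => h4 k]
        simp
      rw [h2, add_zero]
      refine sum_congr rfl fun i _ => ?_
      rw [sqsum]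
      have h4 : ∀ k : β (t + 1 + 1), (w (Sum.inr k) : ℝ) *
          comc (sqπ A hN.anti hN.comm hN.A0 π) (sqe A hN.anti hN.comm hN.A0 e) t (Sum.inr j)
            (Sum.inl i) (Sum.inr k) = (w (Sum.inr k) : ℝ) * comc π e (t + 1) j i k :=
        fun k => by rw [c1]
      rw [sum_congr rfl fun k _ => h3 (Sum.inl i) k, sum_congr rfl fun k _ => h4 k]
      simp
    rw [e1]
    exact hj m hm1 hmK

/-- the commutator form is alternating -/
lemma alt_of_cf (hN : NS A Γ π e) {b : β 2 → β 1 → β 1 → ℤ} (hb : CF π b) (k : β 2) :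
    Alt (b k) := by
  intro x
  have h1 := hb (up (e 1) x) (up (e 1) x) k
  rw [up_pi hN le_rfl, show up (e 1) x * up (e 1) x * (up (e 1) x)⁻¹ * (up (e 1) x)⁻¹ = 1 by group,
    pi_one hN (by norm_num)] at h1
  unfold bl
  rw [← h1]
  rfl

/-- Functions of level one. -/
theorem one_sum (hN : NS A Γ π e) (F : G → ℂ) (hF : LevN A Γ e 1 F) (m : β 1 → ℤ)
    (hm : ∀ j, Freq (e 1 j) (m j) F) (B : ℝ) (hB : ∀ x, ‖F x‖ ≤ B) (g x : G) (L : ℕ) (τ : ℝ)
    (hτ : 0 < τ) (h : τ ≤ nd (∑ j, (m j : ℝ) * π 1 g j)) :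
    ‖∑ l ∈ Icc 1 L, F (g ^ l * x)‖ ≤ 1 / τ * B := by
  obtain ⟨hreg, hinv, hfreq⟩ := hF
  set t : ℝ := ∑ j, (m j : ℝ) * π 1 g j with ht
  have hF1 : ∀ l : ℕ, F (g ^ l * x) = ee (t * l + 0) * F x := by
    intro l
    have hgl : g ^ l ∈ A 1 := by rw [hN.A1]; exact Subgroup.mem_top _
    rw [lev_act hN le_rfl hinv m hm hgl x, pi_pow hN]
    congr 2
    rw [ht, add_zero, Finset.sum_mul]
    exact Finset.sum_congr rfl fun j _ => by ring
  have hsum : ∑ l ∈ Icc 1 L, F (g ^ l * x) = (∑ l ∈ Icc 1 L, ee (t * l + 0)) * F x := by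
    rw [Finset.sum_mul]
    exact Finset.sum_congr rfl fun l _ => hF1 l
  have hgeo := geom_bound t 0 L
  have h4 := nd_le_norm_one_sub_ee t
  have h6 : τ * ‖∑ l ∈ Icc 1 L, ee (t * l + 0)‖ ≤ 1 := by
    have h5 : 2 * τ ≤ ‖1 - ee t‖ := by linarith
    have h6 : 2 * τ * ‖∑ l ∈ Icc 1 L, ee (t * l + 0)‖ ≤ 2 := by
      refine (mul_le_mul_of_nonneg_right ?_ (norm_nonneg _)).trans hgeo
      linarith
    linarith
  rw [hsum, norm_mul]
  have h9 : ‖∑ l ∈ Icc 1 L, ee (t * l + 0)‖ ≤ 1 / τ := by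
    rw [le_div_iff₀ hτ]
    linarith
  exact mul_le_mul h9 (hB x) (norm_nonneg _) (by positivity)

end

end Pool.Agent.Lib.MP_663568_nt.Q
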