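import Pool.Agent.Lib.MP_663568_e.E15
import Pool.Agent.Lib.MP_663568_h6.ConstQ

/-!
# Blocks of primes which are far from each other, with a polynomial bound
-/

set_option autoImplicit false
open Finset

namespace Pool.Agent.Lib.MP_663568_nt.Q

open Katai Nul T3 E H6 EqA

private lemma ww_union {P Q : Finset ℕ} (h : Disjoint P Q) : WW (P ∪ Q) = WW P + WW Q := by
  unfold WW
  exact sum_union h

private lemma near_union {B : ℕ} {P Q : Finset ℕ} (h : Disjoint P Q)
    (hPQ : ∀ p ∈ P, ∀ q ∈ Q, B * p ≤ q) :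
    nearSum B (P ∪ Q) = nearSum B P + nearSum B Q := by
  unfold nearSum
  rw [sum_union h]
  congr 1
  · refine sum_congr rfl fun p hp => ?_
    rw [sum_union h]
    rw [sum_eq_zero (s := Q) fun q hq => if_pos (Or.inr (hPQ p hp q hq)), add_zero]
  · refine sum_congr rfl fun p hp => ?_
    rw [sum_union h]
    rw [sum_eq_zero (s := P) fun q hq => if_pos (Or.inl (hPQ q hq p hp)), zero_add]

private lemma near_le (B : ℕ) (P : Finset ℕ) : nearSum B P ≤ WW P ^ 2 := by
  unfold nearSum WW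
  rw [sq, sum_mul_sum]
  refine sum_le_sum fun p _ => sum_le_sum fun q _ => ?_
  split_ifs
  · positivity
  · exact le_rfl

private lemma sub_block (Q₀ : Finset ℕ) (hQ₀ : ∀ q ∈ Q₀, q.Prime) (h1 : 1 ≤ WW Q₀) :
    ∃ Q : Finset ℕ, Q ⊆ Q₀ ∧ 1 ≤ WW Q ∧ WW Q ≤ 2 := by
  classical
  obtain ⟨Q, hQ, hmin⟩ := exists_min_image (Q₀.powerset.filter fun Q => 1 ≤ WW Q) card
    ⟨Q₀, mem_filter.2 ⟨mem_powerset_self Q₀, h1⟩⟩
  rw [mem_filter, mem_powerset] at hQ
  refine ⟨Q, hQ.1, hQ.2, ?_⟩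
  have hne : Q.Nonempty := by
    rw [nonempty_iff_ne_empty]
    rintro rfl
    have := hQ.2
    simp only [WW, sum_empty] at this
    linarith
  obtain ⟨a, ha⟩ := hne
  have h2 : WW (Q.erase a) < 1 := by
    by_contra hcon
    push Not at hcon
    have h3 := hmin (Q.erase a)
      (mem_filter.2 ⟨mem_powerset.2 ((erase_subset _ _).trans hQ.1), hcon⟩)
    rw [card_erase_of_mem ha] at h3
    have h4 : 0 < Q.card := card_pos.2 ⟨a, ha⟩
    omega
  have h3 : WW Q = 1 / (a : ℝ) + WW (Q.erase a) := by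
    unfold WW
    rw [← add_sum_erase Q (fun p : ℕ => (1 : ℝ) / p) ha]
  have h4 : 1 / (a : ℝ) ≤ 1 := by
    have h5 : (1 : ℝ) ≤ a := by exact_mod_cast (hQ₀ a (hQ.1 ha)).one_lt.le
    rw [div_le_one (by linarith)]
    exact h5
  linarith

/-- Blocks of primes far from each other, with a polynomial bound. -/
theorem blocksQ (x : ℝ) :
    ∃ C : ℕ, 1 ≤ C ∧ ∀ B : ℕ, 1 ≤ B → ∃ P : Finset ℕ, (∀ p ∈ P, p.Prime ∧ p ≤ C * B ^ C) ∧
      x ≤ WW P ∧ nearSum B P ≤ 2 * WW P := by
  obtain ⟨E, hE1, hE⟩ : ∃ E : ℕ, 1 ≤ E ∧ 8 * (1 : ℝ) ≤ Real.log E := by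
    obtain ⟨E, hE⟩ := exists_nat_ge (Real.exp 8)
    have h0 : 0 < Real.exp 8 := Real.exp_pos 8
    have h1 : (0 : ℝ) < E := h0.trans_le hE
    refine ⟨E, by exact_mod_cast h1, ?_⟩
    rw [mul_one, Real.le_log_iff_exp_le h1]
    exact hE
  have key : ∀ n : ℕ, ∃ C : ℕ, 1 ≤ C ∧ ∀ B : ℕ, 1 ≤ B → ∃ P : Finset ℕ,
      (∀ p ∈ P, p.Prime ∧ p ≤ C * B ^ C) ∧ (n : ℝ) ≤ WW P ∧ nearSum B P ≤ 2 * WW P := by
    intro n
    induction n with
    | zero => exact ⟨1, le_rfl, fun B _ => ⟨∅, by simp, by simp [WW], by simp [nearSum, WW]⟩⟩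
    | succ n ih =>
      obtain ⟨C, hC, ih⟩ := ih
      refine ⟨C + (4 ^ 9 * (2 * C + 2)) ^ E + (C + 1) * E, by omega, fun B hB => ?_⟩
      set C' : ℕ := C + (4 ^ 9 * (2 * C + 2)) ^ E + (C + 1) * E with hC'
      obtain ⟨P, hP, h1, h2⟩ := ih B hB
      set N : ℕ := (B + 1) * (C * B ^ C) with hN
      obtain ⟨a, b, ha, hab, hW, hx, hb⟩ := block_of (N : ℝ) (Nat.cast_nonneg N) 0 E hE1 1 hE
      have hCC : C ≤ C' := by omega
      have hbC : 4 ^ b ≤ C' * B ^ C' := by
        have h3 : ((4 ^ b : ℕ) : ℝ) ≤ ((C' * B ^ C' : ℕ) : ℝ) := by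
          push_cast
          refine hb.trans ?_
          rw [ZbF, add_zero]
          have hB1 : (1 : ℝ) ≤ B := by exact_mod_cast hB
          have hC1 : (1 : ℝ) ≤ C := by exact_mod_cast hC
          have h4 : (N : ℝ) + 1 ≤ (2 * C + 2) * (B : ℝ) ^ (C + 1) := by
            rw [hN]
            push_cast
            have h5 : (1 : ℝ) ≤ (B : ℝ) ^ (C + 1) := one_le_pow₀ hB1
            have h6 : ((B : ℝ) + 1) * (C * B ^ C) ≤ 2 * C * B ^ (C + 1) := by
              rw [pow_succ]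
              have h7 : (B : ℝ) + 1 ≤ 2 * B := by linarith
              calc ((B : ℝ) + 1) * (C * B ^ C) ≤ (2 * B) * (C * B ^ C) := by gcongr
                _ = _ := by ring
            linarith
          calc ((4 : ℝ) ^ 9 * ((N : ℝ) + 1)) ^ E ≤ (4 ^ 9 * ((2 * C + 2) * (B : ℝ) ^ (C + 1))) ^ E := by
                gcongr
            _ = (4 ^ 9 * (2 * C + 2)) ^ E * (B : ℝ) ^ ((C + 1) * E) := by
                rw [← mul_assoc, mul_pow _ ((B : ℝ) ^ (C + 1)), ← pow_mul]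
            _ ≤ C' * (B : ℝ) ^ C' := by
                have h5 : ((4 : ℝ) ^ 9 * (2 * C + 2)) ^ E ≤ C' := by
                  have : (4 ^ 9 * (2 * C + 2)) ^ E ≤ C' := by omega
                  exact_mod_cast this
                have h6 : (B : ℝ) ^ ((C + 1) * E) ≤ (B : ℝ) ^ C' :=
                  pow_le_pow_right₀ hB1 (by omega)
                exact mul_le_mul h5 h6 (by positivity) (Nat.cast_nonneg _)
        exact_mod_cast h3
      obtain ⟨Q, hQ, h3, h4⟩ := sub_block (blk a b) (fun q hq => (mem_blk.1 hq).2) hW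
      have hPB : ∀ p ∈ P, p ≤ C * B ^ C := fun p hp => (hP p hp).2
      have hPQ : ∀ p ∈ P, ∀ q ∈ Q, (B + 1) * p < q := by
        intro p hp q hq
        have h5 := (mem_blk.1 (hQ hq)).1.1
        have h6 : N ≤ 4 ^ a := by exact_mod_cast hx
        have h7 : (B + 1) * p ≤ N := Nat.mul_le_mul_left _ (hPB p hp)
        omega
      have hd : Disjoint P Q := by
        rw [disjoint_left]
        intro p hp hq
        have h5 := hPQ p hp p hq
        have h6 : p ≤ (B + 1) * p := Nat.le_mul_of_pos_left p (Nat.succ_pos B)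
        omega
      refine ⟨P ∪ Q, ?_, ?_, ?_⟩
      · intro p hp
        rcases mem_union.1 hp with h | h
        · refine ⟨(hP p h).1, (hPB p h).trans ?_⟩
          exact Nat.mul_le_mul hCC (Nat.pow_le_pow_right hB hCC)
        · have h5 := mem_blk.1 (hQ h)
          exact ⟨h5.2, h5.1.2.trans hbC⟩
      · rw [ww_union hd]
        push_cast
        linarith
      · rw [ww_union hd, near_union hd]
        · have h5 := near_le B Q
          have h6 : WW Q ^ 2 ≤ 2 * WW Q := by nlinarith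
          linarith
        · intro p hp q hq
          have h5 := hPQ p hp q hq
          have h6 : B * p ≤ (B + 1) * p := Nat.mul_le_mul_right p (Nat.le_succ B)
          omega
  obtain ⟨n, hn⟩ := exists_nat_ge x
  obtain ⟨C, hC, hP⟩ := key n
  refine ⟨C, hC, fun B hB => ?_⟩
  obtain ⟨P, h1, h2, h3⟩ := hP B hB
  exact ⟨P, h1, hn.trans h2, h3⟩

end Pool.Agent.Lib.MP_663568_nt.Q
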