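import Pool.Agent.Lib.MP_663568_q.Q16
import Pool.Agent.Lib.MP_663568_e.E16

/-!
# The logarithmic criterion of Katai with distant pairs, with explicit constants
-/

set_option autoImplicit false
open Finset

namespace Pool.Agent.Lib.MP_663568_nt.Q

open Katai Nul T3 E

/-- Turan-Kubilius in a window, `L¹` version -/
private lemma tk_win (P : Finset ℕ) (hP : ∀ p ∈ P, p.Prime) (n H : ℕ) (Z : ℝ)
    (hZ : ∀ p ∈ P, (p : ℝ) ≤ Z) (hH : (1 + 2 * (P.card : ℝ)) * Z ≤ H) :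
    ∑ m ∈ Ioc n (n + H), |om P m - WW P| ≤ H * √(2 * WW P) := by
  have h1 := tk_coeff P hP n H Z hZ hH (fun _ => 1)
  have e1 : ∀ m, ‖∑ p ∈ P, (1 : ℂ) * (((if p ∣ m then (1 : ℝ) else 0) - 1 / p : ℝ) : ℂ)‖ ^ 2
      = |om P m - WW P| ^ 2 := by
    intro m
    have : ∑ p ∈ P, (1 : ℂ) * (((if p ∣ m then (1 : ℝ) else 0) - 1 / p : ℝ) : ℂ)
        = ((om P m - WW P : ℝ) : ℂ) := by
      simp only [one_mul]
      rw [← Complex.ofReal_sum, sum_sub_distrib]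
      rfl
    rw [this, Complex.norm_real, Real.norm_eq_abs]
  simp only [e1, norm_one, one_pow] at h1
  have h2 : (∑ m ∈ Ioc n (n + H), |om P m - WW P|) ^ 2
      ≤ ((Ioc n (n + H)).card : ℝ) * ∑ m ∈ Ioc n (n + H), |om P m - WW P| ^ 2 :=
    sq_sum_le_card_mul_sum_sq
  rw [Nat.card_Ioc, Nat.add_sub_cancel_left] at h2
  have hW := WW_nonneg P
  have h3 : (∑ m ∈ Ioc n (n + H), |om P m - WW P|) ^ 2 ≤ (H * √(2 * WW P)) ^ 2 := by
    calc _ ≤ _ := h2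
      _ ≤ (H : ℝ) * (2 * H * ∑ p ∈ P, (1 : ℝ) / p) := by gcongr
      _ = (H : ℝ) ^ 2 * (2 * WW P) := by rw [WW]; ring
      _ = _ := by rw [mul_pow, Real.sq_sqrt (by positivity)]
  exact (pow_le_pow_iff_left₀ (sum_nonneg fun _ _ => abs_nonneg _) (by positivity)
    two_ne_zero).mp h3

/-- multiples of `p ^ 2` in a window -/
private lemma sq_win (p : ℕ) (hp : p.Prime) (n H : ℕ) :
    ∑ m ∈ Ioc (n / p) ((n + H) / p), (if p ∣ m then (2 : ℝ) else 0)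
      ≤ 2 * ((H : ℝ) * (1 / (p : ℝ) ^ 2) + 1) := by
  have e : ∀ m, (if p ∣ m then (2 : ℝ) else 0) = 2 * (if p ∣ m then (1 : ℝ) else 0) := by
    intro m; split_ifs <;> norm_num
  simp only [e, ← mul_sum]
  apply mul_le_mul_of_nonneg_left _ (by norm_num)
  have e2 := dilate (fun m => if p ∣ m / p then (1 : ℝ) else 0) p hp.pos n H
  have e3 : ∀ m ∈ Ioc (n / p) ((n + H) / p), (if p ∣ p * m / p then (1 : ℝ) else 0)
      = if p ∣ m then (1 : ℝ) else 0 := by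
    intro m _
    rw [Nat.mul_div_cancel_left m hp.pos]
  rw [sum_congr rfl e3] at e2
  rw [← e2]
  have e4 : ∀ m ∈ Ioc n (n + H), (if p ∣ m then (if p ∣ m / p then (1 : ℝ) else 0) else 0)
      = if p * p ∣ m then (1 : ℝ) else 0 := by
    intro m _
    by_cases h : p ∣ m
    · rw [if_pos h]
      obtain ⟨k, rfl⟩ := h
      rw [Nat.mul_div_cancel_left k hp.pos]
      have : p * p ∣ p * k ↔ p ∣ k := Nat.mul_dvd_mul_iff_left hp.pos
      simp only [this]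
    · rw [if_neg h, if_neg]
      intro h2; exact h ((dvd_mul_right p p).trans h2)
  rw [sum_congr rfl e4]
  have h5 := (abs_le.mp (card_mult (p * p) (Nat.mul_pos hp.pos hp.pos) n H)).2
  push_cast at h5
  have e5 : (H : ℝ) * (1 / (p : ℝ) ^ 2) = (H : ℝ) / ((p : ℝ) * p) := by
    rw [sq, mul_one_div]
  rw [e5]
  linarith

/-- the bound for one window -/
private lemma one_win {ι : Type} (P : Finset ℕ) (hP : ∀ p ∈ P, p.Prime) (F : ι → ℕ → ℂ)
    (a : ℕ → ℂ) (hF : ∀ i n, ‖F i n‖ ≤ 1) (ha : ∀ n, ‖a n‖ ≤ 1)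
    (hmul : ∀ p ∈ P, ∀ m, ¬ p ∣ m → a (p * m) = a p * a m) (L : ℕ) (hL : 0 < L) (H n : ℕ) (Z : ℝ)
    (hZ : ∀ p ∈ P, (p : ℝ) ≤ Z) (hH : (1 + 2 * (P.card : ℝ)) * Z ≤ H) :
    WW P * GG F a H n ≤ (H * √(2 * WW P) + 2 * L * (P.card : ℝ) + 2 * (H + (P.card : ℝ)))
      + (1 / (L : ℝ)) * ∑ p ∈ P, ∑ m ∈ Ioc (n / p) ((n + H) / p), BB F a L p (m - 1) := by
  have h1 := sup_ineq P hP F a hF ha hmul L hL H n
  have h2 := tk_win P hP n H Z hZ hH
  have h3 : ∑ p ∈ P, ∑ m ∈ Ioc (n / p) ((n + H) / p), (if p ∣ m then (2 : ℝ) else 0)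
      ≤ 2 * (H + (P.card : ℝ)) := by
    calc _ ≤ ∑ p ∈ P, 2 * ((H : ℝ) * (1 / (p : ℝ) ^ 2) + 1) :=
          sum_le_sum fun p hp => sq_win p (hP p hp) n H
      _ = 2 * (H * (∑ p ∈ P, 1 / (p : ℝ) ^ 2) + (P.card : ℝ)) := by
          rw [← mul_sum, sum_add_distrib, ← mul_sum]; simp
      _ ≤ 2 * (H * 1 + (P.card : ℝ)) := by
          gcongr; exact sum_inv_sq_primes P hP
      _ = _ := by ring
  have h4 : ∑ p ∈ P, (((1 / (L : ℝ)) * ∑ m ∈ Ioc (n / p) ((n + H) / p), BB F a L p (m - 1)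
        + 2 * L) + ∑ m ∈ Ioc (n / p) ((n + H) / p), if p ∣ m then (2 : ℝ) else 0)
      = (1 / (L : ℝ)) * ∑ p ∈ P, ∑ m ∈ Ioc (n / p) ((n + H) / p), BB F a L p (m - 1)
        + 2 * L * (P.card : ℝ)
        + ∑ p ∈ P, ∑ m ∈ Ioc (n / p) ((n + H) / p), if p ∣ m then (2 : ℝ) else 0 := by
    rw [sum_add_distrib, sum_add_distrib, ← mul_sum]
    simp; ring
  rw [h4] at h1
  linarith

/-- the logarithmic average of the windows for one prime -/
private lemma log_win (p : ℕ) (hp : 0 < p) (b : ℕ → ℝ) (hb : ∀ m, 0 ≤ b m) (H N : ℕ) :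
    ∑ n ∈ Ioc H N, (1 / (n : ℝ)) * ∑ m ∈ Ioc (n / p) ((n + H) / p), b m
      ≤ H * ∑ m ∈ Icc 1 (N + 1 + H), (2 / ((m : ℝ) * p)) * b m := by
  have hpr : (0 : ℝ) < p := by exact_mod_cast hp
  have h1 : ∀ n ∈ Ioc H N, (1 / (n : ℝ)) * ∑ m ∈ Ioc (n / p) ((n + H) / p), b m
      ≤ ∑ m ∈ Ioc (n / p) ((n + H) / p), (2 / ((m : ℝ) * p)) * b m := by
    intro n hn
    rw [mem_Ioc] at hn
    rw [mul_sum]
    apply sum_le_sum
    intro m hm
    rw [mem_Ioc, Nat.le_div_iff_mul_le hp] at hm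
    apply mul_le_mul_of_nonneg_right _ (hb m)
    have hm0 : 0 < m := lt_of_le_of_lt (Nat.zero_le _) hm.1
    have hmr : (0 : ℝ) < m := by exact_mod_cast hm0
    have hnr : (0 : ℝ) < n := by exact_mod_cast (by omega : 0 < n)
    rw [div_le_div_iff₀ hnr (by positivity), one_mul]
    have h3 : m * p ≤ 2 * n := by omega
    exact_mod_cast h3
  have hb' : ∀ m : ℕ, 0 ≤ (2 / ((m : ℝ) * p)) * b m := fun m =>
    mul_nonneg (by positivity) (hb m)
  calc _ ≤ ∑ n ∈ Ioc H N, ∑ m ∈ Ioc (n / p) ((n + H) / p), (2 / ((m : ℝ) * p)) * b m :=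
        sum_le_sum h1
    _ ≤ ∑ n ∈ range (N + 1), ∑ m ∈ Ioc (n / p) ((n + H) / p), (2 / ((m : ℝ) * p)) * b m := by
        apply sum_le_sum_of_subset_of_nonneg
        · intro x; simp only [mem_Ioc, mem_range]; omega
        · intro n _ _; exact sum_nonneg fun m _ => hb' m
    _ ≤ H * ∑ m ∈ Icc 1 ((N + 1 + H) / p), (2 / ((m : ℝ) * p)) * b m :=
        sum_windows_le p hp H (N + 1) _ hb'
    _ ≤ _ := by
        apply mul_le_mul_of_nonneg_left _ (Nat.cast_nonneg _)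
        apply sum_le_sum_of_subset_of_nonneg
        · exact Icc_subset_Icc le_rfl (Nat.div_le_self _ _)
        · intro m _ _; exact hb' m

/-- the sum over the primes -/
private lemma sum_win {ι : Type} (P : Finset ℕ) (hP : ∀ p ∈ P, p.Prime) (F : ι → ℕ → ℂ)
    (a : ℕ → ℂ) (hF : ∀ i n, ‖F i n‖ ≤ 1) (ha : ∀ n, ‖a n‖ ≤ 1) (B L : ℕ) (hL : 0 < L) (η : ℝ)
    (hη : 0 ≤ η) (hnear : nearSum B P ≤ 2 * WW P)
    (horth : ∀ p ∈ P, ∀ q ∈ P, B * q ≤ p → ∀ i i' j,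
        ‖∑ l ∈ Icc 1 L, F i (p * (j + l)) * (starRingEnd ℂ) (F i' (q * (j + l)))‖ ≤ η * L)
    (H N : ℕ) :
    ∑ n ∈ Ioc H N, (1 / (n : ℝ)) * ((1 / (L : ℝ)) * ∑ p ∈ P,
        ∑ m ∈ Ioc (n / p) ((n + H) / p), BB F a L p (m - 1))
      ≤ 2 * H * (√(2 * WW P) + √η * WW P) * (1 + Real.log (N + 1 + H : ℕ)) := by
  have hLr : (0 : ℝ) < L := by exact_mod_cast hL
  have hW := WW_nonneg P
  have h1 : ∀ m : ℕ, ∑ p ∈ P, (1 / (p : ℝ)) * BB F a L p (m - 1)
      ≤ L * (√(2 * WW P) + √η * WW P) := by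
    intro m
    have h2 := duality_w P L η hη (fun l => a (m - 1 + l)) (fun _ => ha _)
      (fun i p l => F i (p * (m - 1 + l))) (fun _ _ _ => hF _ _) B
      (fun p hp q hq hpq i i' => horth p hp q hq hpq i i' (m - 1))
    refine h2.trans (mul_le_mul_of_nonneg_left ?_ hLr.le)
    have h3 : (∑ p ∈ P, ∑ q ∈ P, if B * q ≤ p ∨ B * p ≤ q then 0 else
        (1 / (p : ℝ)) * (1 / (q : ℝ))) + η * WW P ^ 2 ≤ 2 * WW P + η * WW P ^ 2 :=
      add_le_add hnear le_rfl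
    refine (Real.sqrt_le_sqrt h3).trans ?_
    rw [Real.sqrt_le_left (by positivity)]
    have a1 := Real.sq_sqrt (show (0:ℝ) ≤ 2 * WW P by positivity)
    have a2 := Real.sq_sqrt hη
    have a3 : 0 ≤ √(2 * WW P) * (√η * WW P) := by positivity
    nlinarith
  have h4 : ∑ n ∈ Ioc H N, (1 / (n : ℝ)) * ((1 / (L : ℝ)) * ∑ p ∈ P,
        ∑ m ∈ Ioc (n / p) ((n + H) / p), BB F a L p (m - 1))
      = (1 / (L : ℝ)) * ∑ p ∈ P, ∑ n ∈ Ioc H N, (1 / (n : ℝ)) *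
        ∑ m ∈ Ioc (n / p) ((n + H) / p), BB F a L p (m - 1) := by
    rw [sum_comm, mul_sum]
    apply sum_congr rfl; intro n _
    rw [← mul_sum]; ring
  rw [h4]
  have h5 : ∑ p ∈ P, ∑ n ∈ Ioc H N, (1 / (n : ℝ)) *
        ∑ m ∈ Ioc (n / p) ((n + H) / p), BB F a L p (m - 1)
      ≤ ∑ p ∈ P, H * ∑ m ∈ Icc 1 (N + 1 + H), (2 / ((m : ℝ) * p)) * BB F a L p (m - 1) :=
    sum_le_sum fun p hp => log_win p (hP p hp).pos (fun m => BB F a L p (m - 1))
      (fun m => BB_nonneg _ _ _ _ _) H N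
  have h6 : ∑ p ∈ P, H * ∑ m ∈ Icc 1 (N + 1 + H), (2 / ((m : ℝ) * p)) * BB F a L p (m - 1)
      = 2 * H * ∑ m ∈ Icc 1 (N + 1 + H), (1 / (m : ℝ)) *
        ∑ p ∈ P, (1 / (p : ℝ)) * BB F a L p (m - 1) := by
    rw [← mul_sum, sum_comm, mul_comm (2 : ℝ) (H : ℝ), mul_assoc, mul_sum (Icc 1 (N + 1 + H)) _ (2 : ℝ)]
    congr 1
    apply sum_congr rfl; intro m _
    rw [mul_sum, mul_sum]
    apply sum_congr rfl; intro p _
    rw [← mul_assoc, ← mul_assoc]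
    congr 1
    rw [mul_one_div, mul_one_div, div_div]
  have h7 : ∑ m ∈ Icc 1 (N + 1 + H), (1 / (m : ℝ)) *
        ∑ p ∈ P, (1 / (p : ℝ)) * BB F a L p (m - 1)
      ≤ (L * (√(2 * WW P) + √η * WW P)) * (1 + Real.log (N + 1 + H : ℕ)) := by
    calc _ ≤ ∑ m ∈ Icc 1 (N + 1 + H), (1 / (m : ℝ)) * (L * (√(2 * WW P) + √η * WW P)) :=
          sum_le_sum fun m _ => mul_le_mul_of_nonneg_left (h1 m) (by positivity)
      _ = (L * (√(2 * WW P) + √η * WW P)) * ∑ m ∈ Icc 1 (N + 1 + H), (1 / (m : ℝ)) := by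
          rw [← sum_mul, mul_comm]
      _ ≤ _ := by
          apply mul_le_mul_of_nonneg_left (sum_inv_le_log _) (by positivity)
  calc _ ≤ (1 / (L : ℝ)) * (2 * H * ((L * (√(2 * WW P) + √η * WW P)) *
          (1 + Real.log (N + 1 + H : ℕ)))) := by
        apply mul_le_mul_of_nonneg_left _ (by positivity)
        rw [h6] at h5
        exact h5.trans (mul_le_mul_of_nonneg_left h7 (by positivity))
    _ = _ := by field_simp


/-- **The criterion of Katai with distant pairs of primes, polynomial constants.** -/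
theorem klogq (ε : ℝ) (hε : 0 < ε) :
    ∃ η : ℝ, 0 < η ∧ ∃ C : ℕ, 1 ≤ C ∧ ∀ B : ℕ, 1 ≤ B → ∃ P : Finset ℕ,
      (∀ p ∈ P, p.Prime ∧ p ≤ C * B ^ C) ∧
      ∀ a : ℕ → ℂ, (∀ n, ‖a n‖ ≤ 1) → Mult a →
      ∀ L : ℕ, 0 < L → ∀ (ι : Type) (F : ι → ℕ → ℂ), (∀ i n, ‖F i n‖ ≤ 1) →
      (∀ p ∈ P, ∀ q ∈ P, B * q ≤ p → ∀ i i' j,
        ‖∑ l ∈ Icc 1 L, F i (p * (j + l)) * (starRingEnd ℂ) (F i' (q * (j + l)))‖ ≤ η * L) →
      ∀ H N : ℕ, C * B ^ C * L ≤ H → H ^ C ≤ N →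
        ∑ n ∈ Icc 1 N, (1 / (n : ℝ)) * GG F a H n ≤ ε * H * Real.log N := by
  obtain ⟨C₀, hC₀, hblocks⟩ := blocksQ (2048 / ε ^ 2 + 128 / ε + 1)
  obtain ⟨E, hE⟩ := exists_nat_ge (16 / ε)
  refine ⟨(ε / 32) ^ 2, by positivity, 7 * C₀ ^ 2 + 2 * C₀ + E + 3, by omega, fun B hB1 => ?_⟩
  set C : ℕ := 7 * C₀ ^ 2 + 2 * C₀ + E + 3 with hC
  obtain ⟨P, hPP, hW, hnear⟩ := hblocks B hB1
  have hP : ∀ p ∈ P, p.Prime := fun p hp => (hPP p hp).1
  refine ⟨P, fun p hp => ⟨hP p hp, (hPP p hp).2.trans ?_⟩,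
    fun a ha hmul L hL ι F hF horth H N hHL hHN => ?_⟩
  · exact Nat.mul_le_mul (by omega) (Nat.pow_le_pow_right hB1 (by omega))
  set W := WW P with hWdef
  set K : ℝ := (P.card : ℝ) with hK
  have hK0 : 0 ≤ K := Nat.cast_nonneg _
  have hW1 : 1 ≤ W := by
    have : (0 : ℝ) < 2048 / ε ^ 2 + 128 / ε := by positivity
    linarith
  have hWa : 2048 / ε ^ 2 ≤ W := by
    have : (0 : ℝ) < 128 / ε := by positivity
    linarith
  have hWb : 128 / ε ≤ W := by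
    have : (0 : ℝ) < 2048 / ε ^ 2 := by positivity
    linarith
  have hs : √(2 * W) ≤ ε / 32 * W := by
    rw [Real.sqrt_le_left (by positivity)]
    rw [div_le_iff₀ (by positivity)] at hWa
    have : 2 * W ≤ 2 * W * (W * ε ^ 2 / 2048) := by
      have h1 : 1 ≤ W * ε ^ 2 / 2048 := by linarith
      nlinarith
    nlinarith
  have h4 : 4 ≤ ε / 32 * W := by
    rw [div_le_iff₀ hε] at hWb; linarith
  have hsη : √((ε / 32) ^ 2) = ε / 32 := Real.sqrt_sq (by positivity)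
  set Z : ℕ := C₀ * B ^ C₀ with hZ
  have hZ1 : 1 ≤ Z := Nat.mul_pos hC₀ (Nat.pow_pos hB1)
  have hZp : ∀ p ∈ P, (p : ℝ) ≤ (Z : ℝ) := fun p hp => by exact_mod_cast (hPP p hp).2
  have hcard : P.card ≤ Z := by
    have h1 : P ⊆ Icc 1 Z := fun p hp => mem_Icc.2 ⟨(hP p hp).pos, (hPP p hp).2⟩
    have h2 := card_le_card h1
    rwa [Nat.card_Icc, Nat.add_sub_cancel] at h2
  have hH7 : 7 * (Z * Z) * L ≤ H := by
    refine le_trans (Nat.mul_le_mul_right L ?_) hHL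
    have h1 : 7 * (Z * Z) = 7 * C₀ ^ 2 * B ^ (2 * C₀) := by
      rw [hZ, two_mul, pow_add]; ring
    rw [h1]
    exact Nat.mul_le_mul (by omega) (Nat.pow_le_pow_right hB1 (by omega))
  have hH7' : 7 ≤ H := by
    refine le_trans ?_ hH7
    calc 7 = 7 * (1 * 1) * 1 := by norm_num
      _ ≤ 7 * (Z * Z) * L := Nat.mul_le_mul (Nat.mul_le_mul_left _ (Nat.mul_le_mul hZ1 hZ1)) hL
  have hHpos : 0 < H := by omega
  have hH1n : (1 + 2 * P.card) * Z ≤ H := by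
    refine le_trans ?_ hH7
    calc (1 + 2 * P.card) * Z ≤ (Z + 2 * Z) * Z := Nat.mul_le_mul_right _ (by omega)
      _ = 3 * (Z * Z) * 1 := by ring
      _ ≤ 7 * (Z * Z) * L := Nat.mul_le_mul (Nat.mul_le_mul_right _ (by norm_num)) hL
  have hH2n : 2 * P.card * (L + 1) ≤ H := by
    refine le_trans ?_ hH7
    calc 2 * P.card * (L + 1) ≤ 2 * Z * (L + L) := by gcongr; exact hL
      _ = 4 * (Z * 1) * L := by ring
      _ ≤ 7 * (Z * Z) * L := by gcongr; norm_num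
  have hH1 : (1 + 2 * K) * (Z : ℝ) ≤ H := by rw [hK]; exact_mod_cast hH1n
  have hH2 : 2 * K * ((L : ℝ) + 1) ≤ H := by rw [hK]; exact_mod_cast hH2n
  have hHr : (0 : ℝ) < H := by exact_mod_cast hHpos
  have hNH : H ≤ N := (Nat.le_self_pow (by omega) H).trans hHN
  have hlH1 : 1 ≤ Real.log H := by
    rw [Real.le_log_iff_exp_le hHr]
    have h1 := Real.exp_one_lt_d9
    have h2 : (7 : ℝ) ≤ H := by exact_mod_cast hH7'
    linarith
  have hlNH : (C : ℝ) * Real.log H ≤ Real.log N := by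
    rw [← Real.log_pow]
    apply Real.log_le_log (by positivity)
    exact_mod_cast hHN
  have hl2 : 3 ≤ Real.log N := by
    have h1 : (3 : ℝ) ≤ C := by exact_mod_cast (by omega : 3 ≤ C)
    nlinarith
  have hl1 : (1 + Real.log H) * (8 / ε) ≤ Real.log N := by
    refine le_trans ?_ hlNH
    have h1 : (E : ℝ) ≤ C := by exact_mod_cast (by omega : E ≤ C)
    have h2 : 16 / ε ≤ C := hE.trans h1
    calc (1 + Real.log H) * (8 / ε) ≤ (Real.log H + Real.log H) * (8 / ε) := by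
          refine mul_le_mul_of_nonneg_right (by linarith) (by positivity)
      _ = 16 / ε * Real.log H := by ring
      _ ≤ C * Real.log H := mul_le_mul_of_nonneg_right h2 (by linarith)
  have hlogH : 1 + Real.log H ≤ ε / 8 * Real.log N := by
    have e : (1 + Real.log H) = ε / 8 * ((1 + Real.log H) * (8 / ε)) := by field_simp
    rw [e]
    exact mul_le_mul_of_nonneg_left hl1 (by positivity)
  have hN0 : (0 : ℝ) < N := by exact_mod_cast (by omega : 0 < N)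
  have hlogM : 1 + Real.log (N + 1 + H : ℕ) ≤ 2 * Real.log N := by
    have h1 : ((N + 1 + H : ℕ) : ℝ) ≤ 3 * N := by
      exact_mod_cast (by omega : N + 1 + H ≤ 3 * N)
    have h2 : Real.log (N + 1 + H : ℕ) ≤ Real.log (3 * N) :=
      Real.log_le_log (by positivity) h1
    rw [Real.log_mul (by norm_num) hN0.ne'] at h2
    have h3 : Real.log 3 ≤ 2 := by
      have := Real.log_le_sub_one_of_pos (show (0 : ℝ) < 3 by norm_num)
      linarith
    linarith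
  -- splitting the sum
  have hsplit : ∑ n ∈ Icc 1 N, (1 / (n : ℝ)) * GG F a H n
      = ∑ n ∈ Icc 1 H, (1 / (n : ℝ)) * GG F a H n + ∑ n ∈ Ioc H N, (1 / (n : ℝ)) * GG F a H n := by
    rw [← sum_union]
    · apply sum_congr _ fun _ _ => rfl
      ext x; simp only [mem_Icc, mem_union, mem_Ioc]; omega
    · rw [disjoint_left]; intro x; simp only [mem_Icc, mem_Ioc]; omega
  have hA : ∑ n ∈ Icc 1 H, (1 / (n : ℝ)) * GG F a H n ≤ H * (1 + Real.log H) := by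
    calc _ ≤ ∑ n ∈ Icc 1 H, (1 / (n : ℝ)) * (H : ℝ) :=
          sum_le_sum fun n _ => mul_le_mul_of_nonneg_left (GG_le F a hF ha H n) (by positivity)
      _ = H * ∑ n ∈ Icc 1 H, (1 / (n : ℝ)) := by rw [← sum_mul, mul_comm]
      _ ≤ _ := mul_le_mul_of_nonneg_left (sum_inv_le_log H) hHr.le
  set Cr : ℝ := H * √(2 * W) + 2 * L * K + 2 * (H + K) with hCr
  have hCr0 : 0 ≤ Cr := by positivity
  have hB : W * ∑ n ∈ Ioc H N, (1 / (n : ℝ)) * GG F a H n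
      ≤ Cr * (1 + Real.log N)
        + 2 * H * (√(2 * W) + √((ε / 32) ^ 2) * W) * (1 + Real.log (N + 1 + H : ℕ)) := by
    have hpt : ∀ n ∈ Ioc H N, W * ((1 / (n : ℝ)) * GG F a H n)
        ≤ (1 / (n : ℝ)) * Cr + (1 / (n : ℝ)) * ((1 / (L : ℝ)) * ∑ p ∈ P,
        ∑ m ∈ Ioc (n / p) ((n + H) / p), BB F a L p (m - 1)) := by
      intro n _
      have h1 := one_win P hP F a hF ha (fun p hp m hm => hmul p (hP p hp) m hm) L hL H n Z hZp hH1
      have h2 := mul_le_mul_of_nonneg_left h1 (show (0 : ℝ) ≤ 1 / n by positivity)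
      rw [mul_add] at h2
      rw [mul_left_comm]
      exact h2
    rw [mul_sum]
    refine (sum_le_sum hpt).trans ?_
    rw [sum_add_distrib]
    apply add_le_add
    · rw [← sum_mul, mul_comm]
      apply mul_le_mul_of_nonneg_left _ hCr0
      refine le_trans ?_ (sum_inv_le_log N)
      apply sum_le_sum_of_subset_of_nonneg
      · intro x; simp only [mem_Ioc, mem_Icc]; omega
      · intro _ _ _; positivity
    · exact sum_win P hP F a hF ha B L hL _ (by positivity) hnear horth H N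
  have hCr1 : Cr ≤ ε / 16 * H * W := by
    have h5 : (H : ℝ) * √(2 * W) ≤ H * (ε / 32 * W) := mul_le_mul_of_nonneg_left hs hHr.le
    have h6 : (H : ℝ) * 4 ≤ H * (ε / 32 * W) := mul_le_mul_of_nonneg_left h4 hHr.le
    rw [hCr]
    linarith
  have hlN0 : 0 ≤ Real.log N := by linarith
  have hlM0 : 0 ≤ 1 + Real.log (N + 1 + H : ℕ) := by
    have : 0 ≤ Real.log (N + 1 + H : ℕ) := Real.log_natCast_nonneg _
    linarith
  have hB1 : Cr * (1 + Real.log N) ≤ (ε / 16 * H * W) * (2 * Real.log N) := by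
    apply mul_le_mul hCr1 (by linarith) (by linarith) (by positivity)
  have hB2 : 2 * H * (√(2 * W) + √((ε / 32) ^ 2) * W) * (1 + Real.log (N + 1 + H : ℕ))
      ≤ 2 * H * (ε / 32 * W + ε / 32 * W) * (2 * Real.log N) := by
    rw [hsη]
    apply mul_le_mul _ hlogM hlM0 (by positivity)
    apply mul_le_mul_of_nonneg_left _ (by positivity)
    linarith
  have hA1 : W * ∑ n ∈ Icc 1 H, (1 / (n : ℝ)) * GG F a H n
      ≤ W * (H * (ε / 8 * Real.log N)) := by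
    apply mul_le_mul_of_nonneg_left _ (by linarith)
    exact hA.trans (mul_le_mul_of_nonneg_left hlogH hHr.le)
  have hfin : W * ∑ n ∈ Icc 1 N, (1 / (n : ℝ)) * GG F a H n ≤ W * (ε * H * Real.log N) := by
    rw [hsplit, mul_add]
    have hpos : 0 ≤ ε * H * W * Real.log N := by positivity
    nlinarith
  exact le_of_mul_le_mul_left hfin (by linarith)

end Pool.Agent.Lib.MP_663568_nt.Q
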