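import Pool.Agent.Lib.MP_663568_q.Q09
import Pool.Agent.Lib.MP_663568_q.Q15
import Pool.Agent.Lib.MP_663568_e.E13

/-!
# The product group: the forms and the rows
-/

set_option autoImplicit false
set_option linter.unusedSectionVars false
open Finset

namespace Pool.Agent.Lib.MP_663568_nt.Q

open Katai Tw Fib Nul T3 E H6

/-- no relation with coefficients at most `h` closer than `δ` to an integer -/
def Far {β : Type} [Fintype β] (h δ : ℝ) (θ : β → ℝ) : Prop :=
  ∀ k : β → ℤ, k ≠ 0 → (∀ j, |(k j : ℝ)| ≤ h) → δ ≤ nd (∑ j, (k j : ℝ) * θ j)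

lemma Far.scale {β : Type} [Fintype β] {h δ : ℝ} {θ : β → ℝ} (hf : Far h δ θ) (p : ℕ) (hp : 0 < p)
    (k : β → ℤ) (hk : k ≠ 0) (hkh : ∀ j, (p : ℝ) * |(k j : ℝ)| ≤ h) :
    δ ≤ nd (∑ j, (k j : ℝ) * ((p : ℝ) * θ j)) := by
  have h1 := hf (fun j => (p : ℤ) * k j) (by
    intro h0
    apply hk
    funext j
    have h1 := congrFun h0 j
    simp only [Pi.zero_apply] at h1 ⊢
    rcases mul_eq_zero.1 h1 with h2 | h2
    · exact absurd h2 (by exact_mod_cast hp.ne')
    · exact h2) (by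
    intro j
    push_cast
    rw [abs_mul, abs_of_nonneg (Nat.cast_nonneg p)]
    exact hkh j)
  refine h1.trans (le_of_eq ?_)
  congr 1
  refine sum_congr rfl fun j _ => ?_
  push_cast
  ring

variable {G : Type} [Group G] [TopologicalSpace G] [IsTopologicalGroup G] {A : ℕ → Subgroup G}
  {Γ : Subgroup G}
  {β : ℕ → Type} [∀ s, Fintype (β s)] [∀ s, DecidableEq (β s)]
  {π : (s : ℕ) → G → β s → ℝ} {e : (s : ℕ) → β s → ℝ → G}

private lemma pi_one' (hN : NS A Γ π e) {s : ℕ} (hs : 1 ≤ s) :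
    π s (1 : G) = 0 :=
  (hN.pi_ker s hs 1 (A s).one_mem).2 (A (s + 1)).one_mem

private lemma comc_ll (_hN : NS A Γ π e) (t : ℕ) (j : β t) (i : β 1) (k : β (t + 1)) :
    comc (prπ π) (pre e) t (Sum.inl j) (Sum.inl i) (Sum.inl k) = comc π e t j i k := rfl

private lemma comc_rr (_hN : NS A Γ π e) (t : ℕ) (j : β t) (i : β 1) (k : β (t + 1)) :
    comc (prπ π) (pre e) t (Sum.inr j) (Sum.inr i) (Sum.inr k) = comc π e t j i k := rfl

private lemma comc_llr (hN : NS A Γ π e) (t : ℕ) (j : β t) (i : β 1) (k : β (t + 1)) :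
    comc (prπ π) (pre e) t (Sum.inl j) (Sum.inl i) (Sum.inr k) = 0 := by
  change π (t + 1) ((1 : G) * 1 * 1⁻¹ * 1⁻¹) k = 0
  rw [inv_one, mul_one, mul_one, mul_one, pi_one' hN (by omega)]
  rfl

private lemma comc_rrl (hN : NS A Γ π e) (t : ℕ) (j : β t) (i : β 1) (k : β (t + 1)) :
    comc (prπ π) (pre e) t (Sum.inr j) (Sum.inr i) (Sum.inl k) = 0 := by
  change π (t + 1) ((1 : G) * 1 * 1⁻¹ * 1⁻¹) k = 0
  rw [inv_one, mul_one, mul_one, mul_one, pi_one' hN (by omega)]
  rfl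

private lemma comc_lr (hN : NS A Γ π e) (t : ℕ) (j : β t) (i : β 1) (k : prβ β (t + 1)) :
    comc (prπ π) (pre e) t (Sum.inl j) (Sum.inr i) k = 0 := by
  rcases k with k | k
  · change π (t + 1) (e t j 1 * 1 * (e t j 1)⁻¹ * (1 : G)⁻¹) k = 0
    rw [inv_one, mul_one, mul_one, mul_inv_cancel, pi_one' hN (by omega)]
    rfl
  · change π (t + 1) ((1 : G) * e 1 i 1 * (1 : G)⁻¹ * (e 1 i 1)⁻¹) k = 0
    rw [inv_one, mul_one, one_mul, mul_inv_cancel, pi_one' hN (by omega)]
    rfl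

private lemma comc_rl (hN : NS A Γ π e) (t : ℕ) (j : β t) (i : β 1) (k : prβ β (t + 1)) :
    comc (prπ π) (pre e) t (Sum.inr j) (Sum.inl i) k = 0 := by
  rcases k with k | k
  · change π (t + 1) ((1 : G) * e 1 i 1 * (1 : G)⁻¹ * (e 1 i 1)⁻¹) k = 0
    rw [inv_one, mul_one, one_mul, mul_inv_cancel, pi_one' hN (by omega)]
    rfl
  · change π (t + 1) (e t j 1 * 1 * (e t j 1)⁻¹ * (1 : G)⁻¹) k = 0
    rw [inv_one, mul_one, mul_one, mul_inv_cancel, pi_one' hN (by omega)]
    rfl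

private lemma cf_coeff (hN : NS A Γ π e) (b : β 2 → β 1 → β 1 → ℤ) (hb : CF π b) (k : β 2)
    (j i : β 1) : (b k j i : ℝ) = comc π e 1 j i k := by
  have h := hb (e 1 j 1) (e 1 i 1) k
  rw [hN.e_pi 1 le_rfl, hN.e_pi 1 le_rfl] at h
  rw [Finset.sum_eq_single j, Finset.sum_eq_single i] at h
  · rw [Pi.single_eq_same, Pi.single_eq_same, mul_one, mul_one] at h
    exact h.symm
  · intro i' _ hi'
    rw [Pi.single_eq_of_ne hi', mul_zero]
  · intro h'
    exact absurd (mem_univ i) h'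
  · intro j' _ hj'
    refine Finset.sum_eq_zero fun i' _ => ?_
    rw [Pi.single_eq_of_ne hj', mul_zero, zero_mul]
  · intro h'
    exact absurd (mem_univ j) h'

private lemma bl_add4 {γ : Type} [Fintype γ] (M : (γ ⊕ γ) → (γ ⊕ γ) → ℤ) (M₁ M₂ : γ → γ → ℤ)
    (h1 : ∀ j i, M (Sum.inl j) (Sum.inl i) = M₁ j i) (h2 : ∀ j i, M (Sum.inl j) (Sum.inr i) = 0)
    (h3 : ∀ j i, M (Sum.inr j) (Sum.inl i) = 0) (h4 : ∀ j i, M (Sum.inr j) (Sum.inr i) = M₂ j i)
    (u v x y : γ → ℝ) :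
    bl M (Sum.elim u v) (Sum.elim x y) = bl M₁ u x + bl M₂ v y := by
  unfold bl
  rw [Fintype.sum_sum_type]
  congr 1
  · refine Finset.sum_congr rfl fun j _ => ?_
    rw [Fintype.sum_sum_type]
    simp only [h1, h2, Int.cast_zero, zero_mul, Finset.sum_const_zero, add_zero, Sum.elim_inl]
  · refine Finset.sum_congr rfl fun j _ => ?_
    rw [Fintype.sum_sum_type]
    simp only [h3, h4, Int.cast_zero, zero_mul, Finset.sum_const_zero, zero_add, Sum.elim_inr]

/-- the forms of the product -/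
theorem bl_pair (hN : NS A Γ π e) (b : β 2 → β 1 → β 1 → ℤ) (hb : CF π b)
    (b' : prβ β 2 → prβ β 1 → prβ β 1 → ℤ) (hb' : CF (prπ π) b') (w : prβ β 2 → ℤ)
    (u v x y : β 1 → ℝ) :
    bl (Mw b' w) (Sum.elim u v : prβ β 1 → ℝ) (Sum.elim x y) =
      bl (Mw b fun k => w (Sum.inl k)) u x + bl (Mw b fun k => w (Sum.inr k)) v y := by
  have hco' : ∀ k j i, (b' k j i : ℝ) = comc (prπ π) (pre e) 1 j i k :=
    fun k j i => cf_coeff (ns_prod hN) b' hb' k j i
  have hco : ∀ k j i, (b k j i : ℝ) = comc π e 1 j i k := fun k j i => cf_coeff hN b hb k j i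
  have hlll : ∀ k j i, b' (Sum.inl k) (Sum.inl j) (Sum.inl i) = b k j i := by
    intro k j i
    have h := hco' (Sum.inl k) (Sum.inl j) (Sum.inl i)
    rw [comc_ll hN, ← hco] at h
    exact_mod_cast h
  have hrrr : ∀ k j i, b' (Sum.inr k) (Sum.inr j) (Sum.inr i) = b k j i := by
    intro k j i
    have h := hco' (Sum.inr k) (Sum.inr j) (Sum.inr i)
    rw [comc_rr hN, ← hco] at h
    exact_mod_cast h
  have hrll : ∀ k j i, b' (Sum.inr k) (Sum.inl j) (Sum.inl i) = 0 := by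
    intro k j i
    have h := hco' (Sum.inr k) (Sum.inl j) (Sum.inl i)
    rw [comc_llr hN] at h
    exact_mod_cast h
  have hlrr : ∀ k j i, b' (Sum.inl k) (Sum.inr j) (Sum.inr i) = 0 := by
    intro k j i
    have h := hco' (Sum.inl k) (Sum.inr j) (Sum.inr i)
    rw [comc_rrl hN] at h
    exact_mod_cast h
  have hlr : ∀ k j i, b' k (Sum.inl j) (Sum.inr i) = 0 := by
    intro k j i
    have h := hco' k (Sum.inl j) (Sum.inr i)
    rw [comc_lr hN] at h
    exact_mod_cast h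
  have hrl : ∀ k j i, b' k (Sum.inr j) (Sum.inl i) = 0 := by
    intro k j i
    have h := hco' k (Sum.inr j) (Sum.inl i)
    rw [comc_rl hN] at h
    exact_mod_cast h
  refine bl_add4 (Mw b' w) _ _ ?_ ?_ ?_ ?_ u v x y
  · intro j i
    simp only [Mw, Fintype.sum_sum_type, hlll, hrll, mul_zero, Finset.sum_const_zero, add_zero]
  · intro j i
    simp only [Mw, hlr, mul_zero, Finset.sum_const_zero]
  · intro j i
    simp only [Mw, hrl, mul_zero, Finset.sum_const_zero]
  · intro j i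
    simp only [Mw, Fintype.sum_sum_type, hrrr, hlrr, mul_zero, Finset.sum_const_zero, zero_add]

/-- a bound for the entries of the commutators in the levels at most `n` -/
lemma comc_bound (hN : NS A Γ π e) (n : ℕ) : ∃ Cc : ℕ, ∀ t, 1 ≤ t → t ≤ n → ∀ (j : β t) (i : β 1)
    (k : β (t + 1)), ∃ c : ℤ, comc π e t j i k = c ∧ |c| ≤ (Cc : ℤ) := by
  choose c hc using fun (t : ℕ) (ht : 1 ≤ t) (j : β t) (i : β 1) (k : β (t + 1)) =>
    comc_int hN t ht j i k
  refine ⟨∑ t ∈ range (n + 1), ∑ j, ∑ i, ∑ k, (if h : 1 ≤ t then (c t h j i k).natAbs else 0),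
    fun t ht htn j i k => ⟨c t ht j i k, hc t ht j i k, ?_⟩⟩
  have h1 : (c t ht j i k).natAbs ≤ ∑ t ∈ range (n + 1), ∑ j, ∑ i, ∑ k,
      (if h : 1 ≤ t then (c t h j i k).natAbs else 0) := by
    calc (c t ht j i k).natAbs = (if h : 1 ≤ t then (c t h j i k).natAbs else 0) := by
          rw [dif_pos ht]
      _ ≤ ∑ k, (if h : 1 ≤ t then (c t h j i k).natAbs else 0) :=
          single_le_sum (f := fun k => (if h : 1 ≤ t then (c t h j i k).natAbs else 0))
            (fun _ _ => Nat.zero_le _) (mem_univ k)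
      _ ≤ ∑ i, ∑ k, (if h : 1 ≤ t then (c t h j i k).natAbs else 0) :=
          single_le_sum (f := fun i => ∑ k, (if h : 1 ≤ t then (c t h j i k).natAbs else 0))
            (fun _ _ => Nat.zero_le _) (mem_univ i)
      _ ≤ ∑ j, ∑ i, ∑ k, (if h : 1 ≤ t then (c t h j i k).natAbs else 0) :=
          single_le_sum (f := fun j => ∑ i, ∑ k, (if h : 1 ≤ t then (c t h j i k).natAbs else 0))
            (fun _ _ => Nat.zero_le _) (mem_univ j)
      _ ≤ _ := single_le_sum (f := fun t => ∑ j, ∑ i, ∑ k,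
            (if h : 1 ≤ t then (c t h j i k).natAbs else 0))
            (fun _ _ => Nat.zero_le _) (mem_range.2 (by omega))
  rw [Int.abs_eq_natAbs]
  exact_mod_cast h1

/-- the rows for the product -/
theorem ttq_pair (hN : NS A Γ π e) (n K : ℕ) : ∃ C : ℕ, 1 ≤ C ∧ ∀ (P h δ : ℝ), 0 < P →
    1 / P ≤ δ → ∀ p q : ℕ, 0 < p → 0 < q → (C : ℝ) * p ≤ h → (C : ℝ) * q ≤ h →
    ∀ α α' : β 1 → ℝ, Far h δ α → Far h δ α' →
    TTq (prπ π) (pre e) n K P
      (Sum.elim (fun j => (p : ℝ) * α j) (fun j => (q : ℝ) * α' j) : prβ β 1 → ℝ) := by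
  obtain ⟨Cc, hCc⟩ := comc_bound hN n
  set nb : ℕ := ∑ t ∈ range (n + 1), Fintype.card (β (t + 1)) with hnb
  refine ⟨K * (nb * (K * Cc)) + 1, by omega, fun P h δ hP hPδ p q hp hq hph hqh α α' hα hα' => ?_⟩
  intro t ht htn w hw hwK
  have ht1 : 1 ≤ t := by omega
  have hcard : (Fintype.card (β (t + 1)) : ℤ) ≤ nb := by
    have : Fintype.card (β (t + 1)) ≤ nb :=
      single_le_sum (f := fun t => Fintype.card (β (t + 1))) (fun _ _ => Nat.zero_le _)
        (mem_range.2 (by omega))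
    exact_mod_cast this
  -- the main computation for one factor
  have key : ∀ (u : β (t + 1) → ℤ), u ≠ 0 → (∀ k, |u k| ≤ (K : ℤ)) → ∃ j : β t, ∀ (p : ℕ), 0 < p →
      ((K * (nb * (K * Cc)) + 1 : ℕ) : ℝ) * p ≤ h → ∀ (α : β 1 → ℝ), Far h δ α →
      ∀ m : ℕ, 1 ≤ m → m ≤ K →
      δ ≤ nd ((m : ℝ) * ∑ i, (∑ k, (u k : ℝ) * comc π e t j i k) * ((p : ℝ) * α i)) := by
    intro u hu huK
    obtain ⟨j, i₀, hji⟩ := comc_nondeg hN t ht1 u hu
    refine ⟨j, fun p hp hph α hα m hm hmK => ?_⟩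
    choose c hc hcb using fun (i : β 1) (k : β (t + 1)) => hCc t ht1 (by omega) j i k
    have h1 : ∀ i, ∑ k, (u k : ℝ) * comc π e t j i k = ((∑ k, u k * c i k : ℤ) : ℝ) := by
      intro i
      push_cast
      exact Finset.sum_congr rfl fun k _ => by rw [hc i k]
    have h2 : ∀ i, |∑ k, u k * c i k| ≤ (nb * (K * Cc) : ℤ) := by
      intro i
      calc |∑ k, u k * c i k| ≤ ∑ k, |u k * c i k| := abs_sum_le_sum_abs _ _
        _ ≤ ∑ _k : β (t + 1), (K * Cc : ℤ) := by
            refine sum_le_sum fun k _ => ?_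
            rw [abs_mul]
            exact mul_le_mul (huK k) (hcb i k) (abs_nonneg _) (Int.natCast_nonneg _)
        _ = (Fintype.card (β (t + 1)) : ℤ) * (K * Cc) := by
            rw [sum_const, card_univ, nsmul_eq_mul]
        _ ≤ _ := mul_le_mul_of_nonneg_right hcard (by positivity)
    have h3 := hα.scale (m * p) (Nat.mul_pos hm hp) (fun i => ∑ k, u k * c i k) (by
      intro h0
      apply hji
      rw [h1, show (∑ k, u k * c i₀ k) = 0 from congrFun h0 i₀]
      simp) (by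
      intro i
      refine le_trans ?_ hph
      have h4 : |((∑ k, u k * c i k : ℤ) : ℝ)| ≤ nb * (K * Cc) := by exact_mod_cast h2 i
      have h5 : (m : ℝ) ≤ K := by exact_mod_cast hmK
      push_cast at h4 ⊢
      calc (m : ℝ) * p * |∑ k, (u k : ℝ) * (c i k : ℝ)| ≤ K * p * (nb * (K * Cc)) := by gcongr
        _ = (K * (nb * (K * Cc))) * p := by ring
        _ ≤ (K * (nb * (K * Cc)) + 1) * p := by gcongr; linarith)
    refine h3.trans (le_of_eq ?_)
    congr 1
    rw [mul_sum]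
    refine sum_congr rfl fun i _ => ?_
    rw [h1]
    push_cast
    ring
  by_cases hl : (fun k => w (Sum.inl k)) = 0
  · have hr : (fun k => w (Sum.inr k)) ≠ 0 := by
      intro hr
      apply hw
      funext k
      rcases k with k | k
      · exact congrFun hl k
      · exact congrFun hr k
    obtain ⟨j, hj⟩ := key _ hr (fun k => hwK (Sum.inr k))
    refine ⟨Sum.inr j, fun m hm hmK => hPδ.trans ((hj q hq hqh α' hα' m hm hmK).trans
      (le_of_eq ?_))⟩
    rw [Fintype.sum_sum_type]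
    congr 2
    rw [Finset.sum_eq_zero (s := (univ : Finset (β 1)))
      (f := fun i => (∑ k, (w k : ℝ) * comc (prπ π) (pre e) t (Sum.inr j) (Sum.inl i) k) *
        (Sum.elim (fun j => (p : ℝ) * α j) (fun j => (q : ℝ) * α' j) : prβ β 1 → ℝ) (Sum.inl i)),
      zero_add]
    · refine Finset.sum_congr rfl fun i _ => ?_
      rw [Fintype.sum_sum_type]
      simp only [comc_rrl hN, comc_rr hN, mul_zero, Finset.sum_const_zero, zero_add,
        Sum.elim_inr]
    · intro i _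
      simp only [comc_rl hN, mul_zero, Finset.sum_const_zero, zero_mul]
  · obtain ⟨j, hj⟩ := key _ hl (fun k => hwK (Sum.inl k))
    refine ⟨Sum.inl j, fun m hm hmK => hPδ.trans ((hj p hp hph α hα m hm hmK).trans
      (le_of_eq ?_))⟩
    rw [Fintype.sum_sum_type]
    congr 2
    rw [Finset.sum_eq_zero (s := (univ : Finset (β 1)))
      (f := fun i => (∑ k, (w k : ℝ) * comc (prπ π) (pre e) t (Sum.inl j) (Sum.inr i) k) *
        (Sum.elim (fun j => (p : ℝ) * α j) (fun j => (q : ℝ) * α' j) : prβ β 1 → ℝ) (Sum.inr i)),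
      add_zero]
    · refine Finset.sum_congr rfl fun i _ => ?_
      rw [Fintype.sum_sum_type]
      simp only [comc_llr hN, comc_ll hN, mul_zero, Finset.sum_const_zero, add_zero,
        Sum.elim_inl]
    · intro i _
      simp only [comc_lr hN, mul_zero, Finset.sum_const_zero, zero_mul]

end Pool.Agent.Lib.MP_663568_nt.Q
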