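import Pool.Agent.Lib.MP_663568_q.Q18

/-!
# The condition for pairs of dilates
-/

set_option autoImplicit false
set_option linter.unusedSectionVars false
open Finset

namespace Pool.Agent.Lib.MP_663568_nt.Q

open Katai Tw Fib Nul T3 E H6

variable {G : Type} [Group G] [TopologicalSpace G] [IsTopologicalGroup G] {A : ℕ → Subgroup G}
  {Γ : Subgroup G}
  {β : ℕ → Type} [∀ s, Fintype (β s)] [∀ s, DecidableEq (β s)]
  {π : (s : ℕ) → G → β s → ℝ} {e : (s : ℕ) → β s → ℝ → G}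

private lemma mw_bound {β₁ β₂ : Type} [Fintype β₁] [Fintype β₂] (b : β₂ → β₁ → β₁ → ℤ) (K : ℕ)
    (w : β₂ → ℤ) (hw : ∀ k, |w k| ≤ (K : ℤ)) (j i : β₁) :
    |Mw b w j i| ≤ ((K * ∑ k, ∑ j, ∑ i, (b k j i).natAbs : ℕ) : ℤ) := by
  have h1 : (Mw b w j i).natAbs ≤ K * ∑ k, ∑ j, ∑ i, (b k j i).natAbs := by
    unfold Mw
    refine (Int.natAbs_sum_le _ _).trans ?_
    rw [mul_sum]
    refine sum_le_sum fun k _ => ?_
    rw [Int.natAbs_mul]
    refine Nat.mul_le_mul ?_ ?_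
    · have := hw k
      rw [Int.abs_eq_natAbs] at this
      exact_mod_cast this
    · calc (b k j i).natAbs ≤ ∑ i, (b k j i).natAbs :=
            single_le_sum (f := fun i => (b k j i).natAbs) (fun _ _ => Nat.zero_le _) (mem_univ i)
        _ ≤ _ := single_le_sum (f := fun j => ∑ i, (b k j i).natAbs) (fun _ _ => Nat.zero_le _)
            (mem_univ j)
  rw [Int.abs_eq_natAbs]
  exact_mod_cast h1

/-- **The condition for pairs.** -/
theorem condq_pair (hN : NS A Γ π e) (b' : prβ β 2 → prβ β 1 → prβ β 1 → ℤ) (hb' : CF (prπ π) b')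
    (K : ℕ) (ρ : ℝ) (hρ : 0 < ρ) :
    ∃ C : ℕ, 1 ≤ C ∧ ∀ (P₀ P T : ℝ), 1 ≤ P₀ → P₀ ≤ P → 0 ≤ T → ∀ θ θ' : β 1 → ℝ,
      (∀ j, |θ j| ≤ P₀) → (∀ j, |θ' j| ≤ P₀) → (∀ j, |θ' j| ≤ T) → NRq C (1 / P) θ' →
      (∀ k : β 1 → ℤ, k ≠ 0 → (∀ j, |(k j : ℝ)| ≤ C * P₀) → 1 / P ≤ nd (∑ j, (k j : ℝ) * θ j)) →
      (∀ k : β 1 → ℤ, k ≠ 0 → (∀ j, |k j| ≤ (C : ℤ)) → C * (1 + T) ≤ |∑ j, (k j : ℝ) * θ j|) →
      CondQ b' K ρ (C * P ^ 2) (Sum.elim θ θ' : prβ β 1 → ℝ) := by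
  classical
  obtain ⟨b, hbf, hbn⟩ := comm_form hN
  have hb : CF π b := hbf
  set ρ₂ : ℝ := min ρ (1 / 4) with hρ₂
  have hρ₂0 : 0 < ρ₂ := lt_min hρ (by norm_num)
  have hρ₂4 : ρ₂ ≤ 1 / 4 := min_le_right _ _
  set WS : Finset (prβ β 2 → ℤ) := (Fintype.piFinset fun _ => Icc (-(K + 1 : ℤ)) (K + 1)).filter
    (fun w => w ≠ 0) with hWS
  have hWmem : ∀ w : prβ β 2 → ℤ, w ∈ WS ↔ (∀ k, |w k| ≤ (K + 1 : ℤ)) ∧ w ≠ 0 := by
    intro w
    rw [hWS, mem_filter, Fintype.mem_piFinset]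
    simp only [mem_Icc, abs_le]
  obtain ⟨Mc, hMc1, ρ', hρ'0, hρ'ρ, hcomb⟩ := comb (σ := β 1 ⊕ β 1) (W := {w // w ∈ WS}) (K + 1)
    (by omega) ρ₂ hρ₂0
  obtain ⟨N₁, hN₁1, hdir₁⟩ := dirich (κ := β 1 ⊕ β 1) ρ₂ hρ₂0
  obtain ⟨Cp, hCp1, hpc⟩ := pc (β := β 1) ρ' hρ'0 Mc ((K + 1) * ∑ k, ∑ j, ∑ i, (b k j i).natAbs)
  set C : ℕ := 2 * Mc * Cp + N₁ with hC
  have hMcCp : Cp ≤ Mc * Cp := Nat.le_mul_of_pos_left _ hMc1
  have hCpC : Cp ≤ C := by
    rw [hC]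
    calc Cp ≤ 2 * (Mc * Cp) + N₁ := by omega
      _ = _ := by ring
  have hCpCr : (Cp : ℝ) ≤ C := by exact_mod_cast hCpC
  refine ⟨C, by omega, fun P₀ P T hP₀ hPP hT θ θ' hθ hθ' hθT hNR h4 h3 => ?_⟩
  have hP1 : 1 ≤ P := hP₀.trans hPP
  have hP21 : 1 ≤ P ^ 2 := one_le_pow₀ hP1
  have hP20 : 0 < P ^ 2 := by positivity
  have hCp0 : (0 : ℝ) < Cp := by exact_mod_cast (by omega : 0 < Cp)
  have hC0 : (0 : ℝ) < C := by exact_mod_cast (by omega : 0 < C)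
  have hCP : 0 < (C : ℝ) * P ^ 2 := by positivity
  set x : β 1 ⊕ β 1 → ℝ := Sum.elim θ θ' with hx
  by_cases hne : Nonempty (prβ β 2)
  swap
  · -- no forms
    obtain ⟨n, hn1, hnN, hn⟩ := hdir₁ x
    refine ⟨n, hn1, ?_, fun p => ?_, fun w hw => ?_⟩
    · have h5 : (n : ℝ) ≤ C := by exact_mod_cast hnN.trans (by omega : N₁ ≤ C)
      exact h5.trans (le_mul_of_one_le_right (Nat.cast_nonneg _) hP21)
    · push_cast
      exact (hn p).trans (min_le_left _ _)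
    · exact absurd (funext fun k => absurd ⟨k⟩ hne) hw
  obtain ⟨s, hs1, hs2, hs3⟩ := hcomb x (fun w p => ∑ q, (Mw b' w.1 p q : ℝ) * x q)
    (1 / (Cp * P ^ 2)) (Cp * P ^ 2) (by positivity) (by positivity) (by
    rintro ⟨w, hwS⟩
    obtain ⟨hwK, hw0⟩ := (hWmem w).1 hwS
    simp only [bl_lam]
    have hne0 : ∀ v : β 2 → ℤ, v ≠ 0 → Mw b v ≠ 0 := by
      intro v hv h0
      obtain ⟨j, i, hji⟩ := hbn v hv
      exact hji (congrFun (congrFun h0 j) i)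
    obtain ⟨s, h5, h6, h7, h8⟩ := hpc P₀ P T hP₀ hPP hT θ' θ hθ' hθ hθT (hNR.mono hCpC le_rfl)
      (fun k hk hkC => h4 k hk fun j => (hkC j).trans
        (mul_le_mul_of_nonneg_right hCpCr (by linarith)))
      (fun k hk hkC => (mul_le_mul_of_nonneg_right hCpCr (by linarith)).trans
        (h3 k hk fun j => (hkC j).trans (by exact_mod_cast hCpC)))
      (Mw b fun k => w (Sum.inr k)) (Mw b fun k => w (Sum.inl k))
      (alt_mw (alt_of_cf hN hb) _) (alt_mw (alt_of_cf hN hb) _)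
      (fun j i => mw_bound b (K + 1) _ (fun k => by push_cast; exact hwK _) j i)
      (fun j i => mw_bound b (K + 1) _ (fun k => by push_cast; exact hwK _) j i) (by
        by_contra hcon
        push Not at hcon
        apply hw0
        funext k
        rcases k with k | k
        · by_contra h9
          exact hne0 (fun k => w (Sum.inl k)) (fun h0 => h9 (congrFun h0 k)) hcon.2
        · by_contra h9
          exact hne0 (fun k => w (Sum.inr k)) (fun h0 => h9 (congrFun h0 k)) hcon.1)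
    refine ⟨s, h5, ?_, fun m hm hmM => (h8 m hm hmM).trans (le_of_eq ?_)⟩
    · rintro (j | j)
      · exact h7 j
      · exact h6 j
    · congr 2
      have h9 : (fun p => sg (s * x p)) = (Sum.elim (fun j => sg (s * θ j))
          (fun j => sg (s * θ' j)) : β 1 ⊕ β 1 → ℝ) := by
        funext p
        rcases p with j | j <;> rfl
      rw [h9, hx]
      have h10 := bl_pair hN b hb b' hb' w (fun j => sg (s * θ j)) (fun j => sg (s * θ' j)) θ θ'
      rw [h10]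
      ring)
  have hfin : GoodR b' (K + 1) ρ₂ (C * P ^ 2) x s := by
    refine ⟨hs2, fun w hw hwK m hm hmK => ?_⟩
    have h5 := hs3 ⟨w, (hWmem w).2 ⟨fun k => by exact_mod_cast hwK k, hw⟩⟩ m hm hmK
    rw [bl_lam] at h5
    refine le_trans ?_ h5
    rw [div_div]
    refine one_div_le_one_div_of_le (by positivity) ?_
    have h6 : 2 * (Cp : ℝ) ≤ C := by
      have : 2 * Cp ≤ C := by
        rw [hC]
        calc 2 * Cp ≤ 2 * (Mc * Cp) + N₁ := by omega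
          _ = _ := by ring
      exact_mod_cast this
    calc (Cp : ℝ) * P ^ 2 * 2 = (2 * Cp) * P ^ 2 := by ring
      _ ≤ C * P ^ 2 := mul_le_mul_of_nonneg_right h6 hP20.le
  have h5 : |(s : ℝ)| ≤ C * P ^ 2 := by
    refine hs1.trans ?_
    rw [← mul_assoc]
    refine mul_le_mul_of_nonneg_right ?_ hP20.le
    have : Mc * Cp ≤ C := by
      rw [hC]
      calc Mc * Cp ≤ 2 * (Mc * Cp) + N₁ := by omega
        _ = _ := by ring
    exact_mod_cast this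
  exact (condq_of_int (by omega) (by linarith) hCP hne h5 hfin).mono (by omega)
    (min_le_left _ _) hCP le_rfl

end Pool.Agent.Lib.MP_663568_nt.Q
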