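import Pool.Agent.Lib.MP_663568_q.Q18

/-!
# The elements outside the major arcs
-/

set_option autoImplicit false
open Finset

namespace Pool.Agent.Lib.MP_663568_nt.Q

/-- the elements whose horizontal coordinates are at most `R`, `d`-far from the relations of bounded
height and `δ`-far from the relations of height at most a power of `R / d` -/
def GoodEl {G : Type} {β₁ : Type} [Fintype β₁] (p : G → β₁ → ℝ) (C : ℕ) (R d δ : ℝ) (g : G) :
    Prop :=
  (∀ j, |p g j| ≤ R) ∧ Far (C : ℝ) d (p g) ∧ Far (C * (R / d) ^ C) δ (p g)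

lemma Far.mono {β : Type} [Fintype β] {h h' δ : ℝ} {θ : β → ℝ} (hf : Far h δ θ) (hh : h' ≤ h) :
    Far h' δ θ := fun k hk hkh => hf k hk fun j => (hkh j).trans hh

lemma GoodEl.mono {G : Type} {β₁ : Type} [Fintype β₁] {p : G → β₁ → ℝ} {C C' : ℕ} {R d δ : ℝ}
    {g : G} (h : GoodEl p C R d δ g) (hC : C' ≤ C) (hX : 1 ≤ R / d) : GoodEl p C' R d δ g := by
  refine ⟨h.1, h.2.1.mono (by exact_mod_cast hC), h.2.2.mono ?_⟩
  have h1 : (C' : ℝ) ≤ C := by exact_mod_cast hC
  exact mul_le_mul h1 (pow_le_pow_right₀ hX hC) (by positivity) (Nat.cast_nonneg _)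

end Pool.Agent.Lib.MP_663568_nt.Q
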