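import Pool.Agent.Lib.MP_663568_q.Q13
import Pool.Agent.Lib.MP_663568_tw.VDefs

/-!
# One van der Corput step along the multiples of a return time, with tame twists
-/

set_option autoImplicit false
open Finset

namespace Pool.Agent.Lib.MP_663568_nt.Q

open Katai Tw Fib Nul T3 E H6

variable {G : Type} [Group G] [TopologicalSpace G] [IsTopologicalGroup G] {A : ℕ → Subgroup G}
  {Γ : Subgroup G}
  {β : ℕ → Type} [∀ s, Fintype (β s)] [∀ s, DecidableEq (β s)]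
  {π : (s : ℕ) → G → β s → ℝ} {e : (s : ℕ) → β s → ℝ → G}

/-- One van der Corput step, with tame twists. -/
theorem step_apT (s : ℕ) (hs : 1 ≤ s) (d : ℕ) (T : Set (ℕ → ℂ)) (hT : Tame (d + 1) T)
    (B : ℝ) (hB : 0 < B) (hTB : ∀ t ∈ T, ∀ l, ‖t l‖ ≤ B)
    (hN : NS A Γ π e) (b : β 2 → β 1 → β 1 → ℤ) (hb : CF π b)
    (F : G → ℂ) (hF : LevN A Γ e (s + 1) F) (hG : GoodN e (s + 1) F) (hF1 : ∀ x, ‖F x‖ * B ≤ 1)
    (ε : ℝ) (hε : 0 < ε) (hε1 : ε ≤ 1) :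
    ∃ (S : Set (ℕ → ℂ)) (I : Type) (_ : Fintype I) (Ψ : I → SqG A hN.anti hN.comm hN.A0 → ℂ)
      (ε₁ : ℝ), Tame d S ∧ 0 < ε₁ ∧
      (∀ i, LevN (sqA A hN.anti hN.comm hN.A0) (sqΓ A hN.anti hN.comm hN.A0 Γ)
          (sqe A hN.anti hN.comm hN.A0 e) s (Ψ i) ∧
        GoodN (sqe A hN.anti hN.comm hN.A0 e) s (Ψ i) ∧
        ∀ j m, Freq (e (s + 1) j) m F →
          Freq (sqe A hN.anti hN.comm hN.A0 e s (Sum.inr j)) m (Ψ i)) ∧
      ∀ M : ℕ, 32 ≤ ε ^ 2 * M → ∀ (g : G) (r L : ℕ) (Bad : Finset ℕ), (0 : ℝ) < L →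
        128 * ((r : ℝ) * M) ≤ ε ^ 2 * L → 64 * (Bad.card : ℝ) ≤ ε ^ 2 * M →
        (∀ j, (M : ℝ) * nd (r * π 1 g j) ≤ 2) →
        (∀ m ∈ Icc 1 M, m ∉ Bad → ∀ i, ∀ p : SqG A hN.anti hN.comm hN.A0,
          sqπ A hN.anti hN.comm hN.A0 π 1 p =
            (Sum.elim (π 1 g) fun k => (m : ℝ) * phq b (π 1 g) r k : sqβ β 1 → ℝ) →
          ∀ c ∈ S, ‖∑ l ∈ Icc 1 L, Ψ i (p ^ l) * c l‖ ≤ ε₁ * L) →
        ∀ (x : G), ∀ t ∈ T, ‖∑ l ∈ Icc 1 L, F (g ^ l * x) * t l‖ ≤ ε * L := by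
  classical
  obtain ⟨X, hX, X₀, hX₀, hX₀X, hdec, htr⟩ := exists_trans hN
  -- the derivatives of the twists
  obtain ⟨S, hS, J, hJf, hder⟩ := hT.2 (B ^ 2 * (ε ^ 2 / 192)) (by positivity)
  obtain ⟨BS, hBS, hSB⟩ := hS.bdd
  set nJ : ℝ := (Fintype.card J : ℝ) + 1 with hnJ
  have hnJ0 : 0 < nJ := by positivity
  have hnJ1 : (Fintype.card J : ℝ) ≤ nJ := by rw [hnJ]; linarith
  obtain ⟨N, hNf, ι, hιf, Ψ, hΨ, hnet⟩ := net_decomp_freq hN s hs F hF hG X hX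
    (ε ^ 2 / (192 * (nJ * BS))) (by positivity)
  set cd : ℝ := 1 + ∑ ν : N, (Fintype.card (ι ν) : ℝ) with hcd
  have hcd0 : 0 < cd := by positivity
  set ε₁ : ℝ := ε ^ 2 / (192 * (cd * nJ)) with hε₁
  have hε₁0 : 0 < ε₁ := by positivity
  refine ⟨S, (Σ ν, ι ν), inferInstance, fun i => Ψ i.1 i.2, ε₁, hS, hε₁0,
    fun i => hΨ i.1 i.2, fun M hM g r L Bad hL0 hL hBad hnd hp x t ht => ?_⟩
  refine vdcA (fun l => F (g ^ l * x) * t l) (fun l => by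
      rw [norm_mul]
      exact (mul_le_mul_of_nonneg_left (hTB t ht l) (norm_nonneg _)).trans (hF1 _))
    ε hε hε1 r M L Bad hM hL hL0 hBad ?_
  -- one shift
  intro m hm hmS
  obtain ⟨x₀, hx₀, γ₀, hγ₀, hx⟩ := hdec x
  set g' : G := x₀⁻¹ * g * x₀ with hg'
  have hπg' : π 1 g' = π 1 g := pi_one_conj hN x₀ g
  set z : β 1 → ℤ := fun j => m * round ((r : ℝ) * π 1 g j) with hz
  obtain ⟨c, γ, hγ, hcγ, hπγ, hyc⟩ := htr x₀ hx₀ (g' ^ (r * m)) z (by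
    intro j
    rw [pi_pow hN, hπg']
    have h1 : ((r * m : ℕ) : ℝ) * π 1 g j - z j =
        m * ((r : ℝ) * π 1 g j - round ((r : ℝ) * π 1 g j)) := by
      rw [hz]; push_cast; ring
    rw [h1, abs_mul, abs_of_nonneg (Nat.cast_nonneg m)]
    have h2 : (m : ℝ) ≤ M := by exact_mod_cast (mem_Icc.1 hm).2
    exact (mul_le_mul_of_nonneg_right h2 (abs_nonneg _)).trans (hnd j))
  obtain ⟨ν, hν⟩ := hnet (x₀ * c) hyc x₀ (hX₀X hx₀)
  -- the element of the square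
  have hmem : ((γ * g' * γ⁻¹, g') : G × G) ∈ sq A hN.anti hN.comm hN.A0 1 := by
    rw [mem_sq A hN.anti hN.comm hN.A0 hN.A1]
    refine ⟨by rw [hN.A1]; trivial, by rw [hN.A1]; trivial, ?_⟩
    have := hN.comm 1 1 (Subgroup.commutator_mem_commutator (g₁ := γ) (g₂ := g')
      (by rw [hN.A1]; trivial) (by rw [hN.A1]; trivial))
    simpa [commutatorElement_def] using this
  set p : SqG A hN.anti hN.comm hN.A0 := ⟨(γ * g' * γ⁻¹, g'), hmem⟩ with hpd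
  have hpπ : sqπ A hN.anti hN.comm hN.A0 π 1 p =
      (Sum.elim (π 1 g) fun k => (m : ℝ) * phq b (π 1 g) r k : sqβ β 1 → ℝ) := by
    funext q
    rcases q with j | k
    · change π 1 g' j = π 1 g j
      rw [hπg']
    · change π 2 (γ * g' * γ⁻¹ * g'⁻¹) k = (m : ℝ) * phq b (π 1 g) r k
      rw [hb, hπγ, hπg']
      unfold phq bl
      rw [mul_sum]
      refine sum_congr rfl fun j _ => ?_
      rw [mul_sum]
      refine sum_congr rfl fun i _ => ?_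
      rw [hz]
      push_cast
      ring
  -- the terms
  have hterm : ∀ l, F (g ^ (l + r * m) * x) * (starRingEnd ℂ) (F (g ^ l * x)) =
      F (x₀ * c * (p ^ l).1.1) * (starRingEnd ℂ) (F (x₀ * (p ^ l).1.2)) := by
    intro l
    have e0 : ∀ n : ℕ, g ^ n * x₀ = x₀ * g' ^ n := by
      intro n
      rw [hg']
      have := conj_pow (a := x₀⁻¹) (b := g) (i := n)
      rw [inv_inv] at this
      rw [this]
      group
    have e1 : (p ^ l).1.1 = (γ * g' * γ⁻¹) ^ l := by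
      rw [hpd]; simp
    have e2 : (p ^ l).1.2 = g' ^ l := by
      rw [hpd]; simp
    rw [e1, e2]
    congr 1
    · have e3 : g ^ (l + r * m) * x = x₀ * c * (γ * g' * γ⁻¹) ^ l * (γ * γ₀) := by
        rw [hx, ← mul_assoc, e0, add_comm, pow_add, hcγ, conj_pow]
        group
      rw [e3]
      exact hF.1.2 _ _ (Γ.mul_mem hγ hγ₀)
    · rw [hx, ← mul_assoc, e0]
      rw [hF.1.2 _ _ hγ₀]
  obtain ⟨cc, hcc, hcl⟩ := hder (r * m) t ht
  have hcb : ∀ j l, ‖cc j l‖ ≤ BS := by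
    intro j l
    rcases hcc j with h1 | h1
    · exact hSB _ h1 l
    · rw [h1, Pi.zero_apply, norm_zero]
      exact hBS.le
  have hsb : ∀ l, ‖∑ j, cc j l‖ ≤ nJ * BS := by
    intro l
    refine (norm_sum_le _ _).trans ?_
    calc ∑ j, ‖cc j l‖ ≤ ∑ _j : J, BS := sum_le_sum fun j _ => hcb j l
      _ = (Fintype.card J : ℝ) * BS := by simp
      _ ≤ nJ * BS := mul_le_mul_of_nonneg_right hnJ1 hBS.le
  have hLn : (0 : ℝ) ≤ L := hL0.le
  -- the main part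
  have hsum1 : ‖∑ l ∈ Icc 1 L, (∑ i, Ψ ν i (p ^ l)) * ∑ j, cc j l‖ ≤ ε ^ 2 / 192 * L := by
    have e1 : ∑ l ∈ Icc 1 L, (∑ i, Ψ ν i (p ^ l)) * ∑ j, cc j l =
        ∑ i, ∑ j, ∑ l ∈ Icc 1 L, Ψ ν i (p ^ l) * cc j l := by
      simp only [sum_mul_sum]
      rw [sum_comm]
      exact sum_congr rfl fun i _ => sum_comm
    rw [e1]
    have h1 : ∀ i j, ‖∑ l ∈ Icc 1 L, Ψ ν i (p ^ l) * cc j l‖ ≤ ε₁ * L := by
      intro i j
      rcases hcc j with h1 | h1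
      · exact hp m hm hmS ⟨ν, i⟩ p hpπ _ h1
      · rw [h1]
        simp only [Pi.zero_apply, mul_zero, sum_const_zero, norm_zero]
        positivity
    calc _ ≤ ∑ i, ‖∑ j, ∑ l ∈ Icc 1 L, Ψ ν i (p ^ l) * cc j l‖ := norm_sum_le _ _
      _ ≤ ∑ _i : ι ν, nJ * (ε₁ * L) := by
          refine sum_le_sum fun i _ => (norm_sum_le _ _).trans ?_
          calc _ ≤ ∑ _j : J, ε₁ * (L : ℝ) := sum_le_sum fun j _ => h1 i j
            _ = (Fintype.card J : ℝ) * (ε₁ * L) := by simp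
            _ ≤ nJ * (ε₁ * L) := mul_le_mul_of_nonneg_right hnJ1 (by positivity)
      _ = (Fintype.card (ι ν) : ℝ) * (nJ * (ε₁ * L)) := by simp
      _ ≤ cd * (nJ * (ε₁ * L)) := by
          refine mul_le_mul_of_nonneg_right ?_ (by positivity)
          have : (Fintype.card (ι ν) : ℝ) ≤ ∑ ν : N, (Fintype.card (ι ν) : ℝ) :=
            single_le_sum (f := fun ν => (Fintype.card (ι ν) : ℝ)) (fun _ _ => Nat.cast_nonneg _)
              (mem_univ ν)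
          rw [hcd]; linarith
      _ = _ := by rw [hε₁]; field_simp
  have hsum2 : ‖∑ l ∈ Icc 1 L, (F (x₀ * c * (p ^ l).1.1) * (starRingEnd ℂ)
      (F (x₀ * (p ^ l).1.2)) - ∑ i, Ψ ν i (p ^ l)) * ∑ j, cc j l‖ ≤ ε ^ 2 / 192 * L := by
    calc _ ≤ ∑ l ∈ Icc 1 L, ε ^ 2 / 192 :=
          (norm_sum_le _ _).trans (sum_le_sum fun l _ => by
            rw [norm_mul]
            calc _ ≤ ε ^ 2 / (192 * (nJ * BS)) * (nJ * BS) :=
                  mul_le_mul (hν (p ^ l)) (hsb l) (norm_nonneg _) (by positivity)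
              _ = ε ^ 2 / 192 := by field_simp)
      _ = _ := by simp; ring
  have hsum3 : ‖∑ l ∈ Icc 1 L, (F (g ^ (l + r * m) * x) * (starRingEnd ℂ) (F (g ^ l * x))) *
      (t (l + r * m) * (starRingEnd ℂ) (t l) - ∑ j, cc j l)‖ ≤ ε ^ 2 / 192 * L := by
    calc _ ≤ ∑ l ∈ Icc 1 L, ε ^ 2 / 192 :=
          (norm_sum_le _ _).trans (sum_le_sum fun l _ => by
            rw [norm_mul, norm_mul, RCLike.norm_conj]
            have h1 := hF1 (g ^ (l + r * m) * x)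
            have h2 := hF1 (g ^ l * x)
            have h3 : ‖F (g ^ (l + r * m) * x)‖ * ‖F (g ^ l * x)‖ * B ^ 2 ≤ 1 := by
              calc _ = (‖F (g ^ (l + r * m) * x)‖ * B) * (‖F (g ^ l * x)‖ * B) := by ring
                _ ≤ 1 * 1 := mul_le_mul h1 h2 (by positivity) zero_le_one
                _ = 1 := one_mul 1
            calc _ ≤ ‖F (g ^ (l + r * m) * x)‖ * ‖F (g ^ l * x)‖ * (B ^ 2 * (ε ^ 2 / 192)) :=
                  mul_le_mul_of_nonneg_left (hcl l) (by positivity)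
              _ = (‖F (g ^ (l + r * m) * x)‖ * ‖F (g ^ l * x)‖ * B ^ 2) * (ε ^ 2 / 192) := by ring
              _ ≤ 1 * (ε ^ 2 / 192) := mul_le_mul_of_nonneg_right h3 (by positivity)
              _ = _ := one_mul _)
      _ = _ := by simp; ring
  have hgoal : ∑ l ∈ Icc 1 L, (F (g ^ (l + r * m) * x) * t (l + r * m)) * (starRingEnd ℂ)
      (F (g ^ l * x) * t l) =
      ∑ l ∈ Icc 1 L, (F (g ^ (l + r * m) * x) * (starRingEnd ℂ) (F (g ^ l * x))) *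
      (t (l + r * m) * (starRingEnd ℂ) (t l) - ∑ j, cc j l) +
      (∑ l ∈ Icc 1 L, (F (x₀ * c * (p ^ l).1.1) * (starRingEnd ℂ)
      (F (x₀ * (p ^ l).1.2)) - ∑ i, Ψ ν i (p ^ l)) * ∑ j, cc j l +
      ∑ l ∈ Icc 1 L, (∑ i, Ψ ν i (p ^ l)) * ∑ j, cc j l) := by
    rw [← sum_add_distrib, ← sum_add_distrib]
    refine sum_congr rfl fun l _ => ?_
    rw [← hterm, map_mul]
    ring
  change ‖∑ l ∈ Icc 1 L, (F (g ^ (l + r * m) * x) * t (l + r * m)) * (starRingEnd ℂ)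
      (F (g ^ l * x) * t l)‖ ≤ ε ^ 2 / 64 * L
  rw [hgoal]
  calc _ ≤ ε ^ 2 / 192 * L + (ε ^ 2 / 192 * L + ε ^ 2 / 192 * L) :=
        (norm_add_le _ _).trans (add_le_add hsum3 ((norm_add_le _ _).trans
          (add_le_add hsum2 hsum1)))
    _ = _ := by ring

end Pool.Agent.Lib.MP_663568_nt.Q
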