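import Pool.Agent.Lib.MP_663568_q.Q14
import Pool.Agent.Lib.MP_663568_q.R01

/-!
# The induction on the level, with tame twists
-/

set_option autoImplicit false
set_option linter.unusedSectionVars false
open Finset

namespace Pool.Agent.Lib.MP_663568_nt.Q

open Katai Tw Fib Nul T3 E H6

/-- **The statement of the induction on the level, with tame twists.** -/
def EHT (k : ℕ) : Prop :=
  ∀ (G : Type) [Group G] [TopologicalSpace G] [IsTopologicalGroup G]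
    (A : ℕ → Subgroup G) (Γ : Subgroup G)
    (β : ℕ → Type) [∀ s, Fintype (β s)] [∀ s, DecidableEq (β s)]
    (π : (s : ℕ) → G → β s → ℝ) (e : (s : ℕ) → β s → ℝ → G), NS A Γ π e →
    ∀ b : β 2 → β 1 → β 1 → ℤ, CF π b → ∀ T : Set (ℕ → ℂ), Tame (k + 1) T →
    ∀ F : G → ℂ, LevN A Γ e (k + 2) F → GoodN e (k + 2) F → ∀ ε : ℝ, 0 < ε →
    ∃ (K : ℕ) (ρ : ℝ) (C : ℕ), 0 < ρ ∧ 1 ≤ C ∧ ∀ P : ℝ, 1 ≤ P → ∀ g : G,
      TTq π e (k + 2) K P (π 1 g) → CondQ b K ρ P (π 1 g) → ∀ L : ℕ, C * P ≤ L →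
      ∀ x : G, ∀ t ∈ T, ‖∑ l ∈ Icc 1 L, F (g ^ l * x) * t l‖ ≤ ε * L

section

variable {G : Type} [Group G] [TopologicalSpace G] [IsTopologicalGroup G] {A : ℕ → Subgroup G}
  {Γ : Subgroup G}
  {β : ℕ → Type} [∀ s, Fintype (β s)] [∀ s, DecidableEq (β s)]
  {π : (s : ℕ) → G → β s → ℝ} {e : (s : ℕ) → β s → ℝ → G}

/-- The reduction to functions bounded by one. -/
theorem eht_reduce (hN : NS A Γ π e) (s : ℕ) (T : Set (ℕ → ℂ)) (b : β 2 → β 1 → β 1 → ℤ)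
    (B : ℝ) (hB : 0 < B)
    (H : ∀ F : G → ℂ, LevN A Γ e s F → GoodN e s F → (∀ x, ‖F x‖ * B ≤ 1) → ∀ ε : ℝ, 0 < ε →
      ε ≤ 1 → ∃ (K : ℕ) (ρ : ℝ) (C : ℕ), 0 < ρ ∧ 1 ≤ C ∧ ∀ P : ℝ, 1 ≤ P → ∀ g : G,
      TTq π e s K P (π 1 g) → CondQ b K ρ P (π 1 g) → ∀ L : ℕ, C * P ≤ L →
      ∀ x : G, ∀ t ∈ T, ‖∑ l ∈ Icc 1 L, F (g ^ l * x) * t l‖ ≤ ε * L)
    (F : G → ℂ) (hF : LevN A Γ e s F) (hG : GoodN e s F) (ε : ℝ) (hε : 0 < ε) :
    ∃ (K : ℕ) (ρ : ℝ) (C : ℕ), 0 < ρ ∧ 1 ≤ C ∧ ∀ P : ℝ, 1 ≤ P → ∀ g : G,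
      TTq π e s K P (π 1 g) → CondQ b K ρ P (π 1 g) → ∀ L : ℕ, C * P ≤ L →
      ∀ x : G, ∀ t ∈ T, ‖∑ l ∈ Icc 1 L, F (g ^ l * x) * t l‖ ≤ ε * L := by
  have hCo : Cocompact' Γ := by
    obtain ⟨C, hC1, _, hC3⟩ := hN.coc 0
    exact ⟨C, hC1, fun x => hC3 x (by rw [hN.A0]; trivial)⟩
  obtain ⟨B₁, hB₁, hB₁F⟩ := reg_bdd hCo hF.1
  set Bt : ℝ := B₁ * B with hBt
  have hBt0 : 0 < Bt := by positivity
  set F' : G → ℂ := fun x => (Bt : ℂ)⁻¹ * F x with hF'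
  have hF'L : LevN A Γ e s F' := by
    refine ⟨reg_const_mul hF.1 _, fun z hz x => ?_, fun j => ?_⟩
    · simp only [hF']; rw [hF.2.1 z hz x]
    · obtain ⟨m, hm⟩ := hF.2.2 j
      exact ⟨m, hm.mul_const _⟩
  have hF'1 : ∀ x, ‖F' x‖ * B ≤ 1 := by
    intro x
    simp only [hF']
    rw [norm_mul, norm_inv, Complex.norm_real, Real.norm_eq_abs, abs_of_pos hBt0]
    calc Bt⁻¹ * ‖F x‖ * B ≤ Bt⁻¹ * B₁ * B := by
          have := hB₁F x
          gcongr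
      _ = 1 := by rw [hBt]; field_simp
  have hF'G : GoodN e s F' := by
    obtain ⟨j, m, hm, h⟩ := hG
    exact ⟨j, m, hm, h.mul_const _⟩
  obtain ⟨K, ρ, C, hρ, hC, hK⟩ := H F' hF'L hF'G hF'1 (min 1 (ε / Bt))
    (lt_min one_pos (by positivity)) (min_le_left _ _)
  refine ⟨K, ρ, C, hρ, hC, fun P hP g hTT hCo L hL x t ht => ?_⟩
  have h1 := hK P hP g hTT hCo L hL x t ht
  have hLn : (0 : ℝ) ≤ L := Nat.cast_nonneg _
  have e1 : ∑ l ∈ Icc 1 L, F (g ^ l * x) * t l =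
      (Bt : ℂ) * ∑ l ∈ Icc 1 L, F' (g ^ l * x) * t l := by
    rw [mul_sum]
    refine sum_congr rfl fun l _ => ?_
    simp only [hF']
    have : (Bt : ℂ) ≠ 0 := by exact_mod_cast hBt0.ne'
    field_simp
  rw [e1, norm_mul, Complex.norm_real, Real.norm_eq_abs, abs_of_pos hBt0]
  calc Bt * ‖∑ l ∈ Icc 1 L, F' (g ^ l * x) * t l‖ ≤ Bt * (min 1 (ε / Bt) * L) :=
        mul_le_mul_of_nonneg_left h1 hBt0.le
    _ ≤ Bt * (ε / Bt * L) := by
        refine mul_le_mul_of_nonneg_left ?_ hBt0.le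
        exact mul_le_mul_of_nonneg_right (min_le_right _ _) hLn
    _ = ε * L := by field_simp

/-- the choice of the number of shifts -/
lemma exists_MT (ε : ℝ) (hε : 0 < ε) (n : ℕ) : ∃ M : ℕ, 1 ≤ M ∧ 32 ≤ ε ^ 2 * M ∧
    64 * (n : ℝ) ≤ ε ^ 2 * M := by
  refine ⟨⌈(32 + 64 * (n : ℝ)) / ε ^ 2⌉₊ + 1, by omega, ?_, ?_⟩
  all_goals
    have h1 := Nat.le_ceil ((32 + 64 * (n : ℝ)) / ε ^ 2)
    rw [div_le_iff₀ (by positivity)] at h1
    push_cast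
    have h2 : (0 : ℝ) < ε ^ 2 := by positivity
    have h3 : (0 : ℝ) ≤ n := Nat.cast_nonneg _
    nlinarith

end

/-- Functions of level two. -/
theorem eht_zero : EHT 0 := by
  intro G _ _ _ A Γ β _ _ π e hN b hb T hT F hF hG ε hε
  obtain ⟨Bt, hBt, hTB⟩ := hT.bdd
  refine eht_reduce hN 2 T b Bt hBt ?_ F hF hG ε hε
  clear hε ε hG hF F
  intro F hF hG hF1 ε hε hε1
  classical
  obtain ⟨w, hw0, hw⟩ := exists_freq hF hG
  obtain ⟨S', I, hI, Ψ, ε₁, hS', hε₁, hΨ, hstep⟩ := step_apT 1 le_rfl 0 T hT Bt hBt hTB hN b hb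
    F hF hG hF1 ε hε hε1
  obtain ⟨BS, hBS, hSB⟩ := hS'.bdd
  have hfr : ∀ i, ∃ m' : sqβ β 1 → ℤ, (∀ j, m' (Sum.inr j) = w j) ∧
      ∀ p, Freq (sqe A hN.anti hN.comm hN.A0 e 1 p) (m' p) (Ψ i) := by
    intro i
    choose m₁ hm₁ using (hΨ i).1.2.2
    refine ⟨Sum.elim (fun j => m₁ (Sum.inl j)) w, fun j => rfl, ?_⟩
    rintro (j | j)
    · exact hm₁ (Sum.inl j)
    · exact (hΨ i).2.2 j (w j) (hw j)
  choose m' hm'1 hm'2 using hfr
  have hSq := ns_sq hN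
  have hCo : Cocompact' (sqΓ A hN.anti hN.comm hN.A0 Γ) := by
    obtain ⟨C, hC1, _, hC3⟩ := hSq.coc 0
    exact ⟨C, hC1, fun x => hC3 x (by rw [hSq.A0]; trivial)⟩
  have hbd : ∀ i, ∃ B : ℝ, 0 < B ∧ ∀ x, ‖Ψ i x‖ ≤ B := fun i => reg_bdd hCo (hΨ i).1.1
  choose B hB0 hB using hbd
  obtain ⟨M, hM1, hM32, hM64⟩ := exists_MT ε hε (Fintype.card I)
  set Kw : ℕ := ∑ j, (w j).natAbs with hKw
  have hwK : ∀ j, |w j| ≤ (Kw : ℤ) := by
    intro j
    rw [Int.abs_eq_natAbs]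
    exact_mod_cast Finset.single_le_sum (f := fun j => (w j).natAbs) (fun _ _ => Nat.zero_le _)
      (mem_univ j)
  have hM0 : (0 : ℝ) < M := by exact_mod_cast (by omega : 0 < M)
  set BB : ℝ := ∑ i, B i with hBB
  have hBB0 : 0 ≤ BB := sum_nonneg fun i _ => (hB0 i).le
  have hBle : ∀ i, B i ≤ BB := fun i =>
    single_le_sum (f := fun i => B i) (fun i _ => (hB0 i).le) (mem_univ i)
  set C : ℕ := ⌈4 * BB * BS / ε₁⌉₊ + ⌈128 * (M : ℝ) / ε ^ 2⌉₊ + 1 with hC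
  have hC1 : 4 * BB * BS ≤ ε₁ * C := by
    have h1 := Nat.le_ceil (4 * BB * BS / ε₁)
    rw [div_le_iff₀ hε₁] at h1
    have h2 : ((⌈4 * BB * BS / ε₁⌉₊ : ℕ) : ℝ) ≤ C := Nat.cast_le.2 (by omega)
    nlinarith
  have hC2 : 128 * (M : ℝ) ≤ ε ^ 2 * C := by
    have h1 := Nat.le_ceil (128 * (M : ℝ) / ε ^ 2)
    rw [div_le_iff₀ (by positivity)] at h1
    have h2 : ((⌈128 * (M : ℝ) / ε ^ 2⌉₊ : ℕ) : ℝ) ≤ C := Nat.cast_le.2 (by omega)
    have h3 : (0 : ℝ) < ε ^ 2 := by positivity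
    nlinarith
  refine ⟨M + Kw, 1 / M, C, by positivity, by omega, fun P hP g hTT hCd L hL x t ht => ?_⟩
  have hP0 : 0 < P := by linarith
  obtain ⟨r, hr1, hrP, hG'⟩ := hCd
  have hCr1 : (1 : ℝ) ≤ C := by exact_mod_cast (by omega : 1 ≤ C)
  have hL0 : (0 : ℝ) < L := by nlinarith
  set τ : ℝ := 1 / (4 * P) with hτ
  have hτ0 : 0 < τ := by positivity
  have hτP : 2 * τ ≤ 1 / P := by
    rw [hτ, mul_one_div, div_le_div_iff₀ (by positivity) hP0]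
    linarith
  have hfew := few_bad_card (S := I) (M := M) (alt_of_cf hN hb) (Nat.le_add_right M Kw) hτP hG'
    (fun _ => w) (fun _ => hw0) (fun _ k => (hwK k).trans (by exact_mod_cast Nat.le_add_left _ _))
    (fun i => ∑ j, (m' i (Sum.inl j) : ℝ) * π 1 g j)
  set S : Finset ℕ := (Icc 1 M).filter fun m : ℕ => ∃ i : I,
    nd (∑ j, (m' i (Sum.inl j) : ℝ) * π 1 g j + m * ∑ k, (w k : ℝ) * phq b (π 1 g) r k) < τ
    with hS
  refine hstep M hM32 g r L S hL0 ?_ ?_ ?_ ?_ x t ht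
  · calc 128 * ((r : ℝ) * M) ≤ 128 * (P * M) := by gcongr
      _ = P * (128 * M) := by ring
      _ ≤ P * (ε ^ 2 * C) := mul_le_mul_of_nonneg_left hC2 hP0.le
      _ = ε ^ 2 * (C * P) := by ring
      _ ≤ ε ^ 2 * L := mul_le_mul_of_nonneg_left hL (by positivity)
  · refine le_trans ?_ hM64
    have : (S.card : ℝ) ≤ Fintype.card I := by exact_mod_cast hfew
    linarith
  · intro j
    have h1 := hG'.1 j
    rw [Int.cast_natCast] at h1
    calc (M : ℝ) * nd (r * π 1 g j) ≤ M * (1 / M) := mul_le_mul_of_nonneg_left h1 hM0.le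
      _ = 1 := by field_simp
      _ ≤ 2 := by norm_num
  · intro m hm hmS i p hp c hc
    have h1 : τ ≤ nd (∑ j, (m' i j : ℝ) * sqπ A hN.anti hN.comm hN.A0 π 1 p j) := by
      by_contra hcon
      push Not at hcon
      apply hmS
      rw [hS, mem_filter]
      refine ⟨hm, i, ?_⟩
      refine lt_of_eq_of_lt ?_ hcon
      rw [hp]
      congr 1
      have e1 : ∑ q : sqβ β 1, (m' i q : ℝ) *
          (Sum.elim (π 1 g) fun k => (m : ℝ) * phq b (π 1 g) r k : sqβ β 1 → ℝ) q =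
          ∑ j : β 1, (m' i (Sum.inl j) : ℝ) * π 1 g j +
            ∑ k : β 2, (m' i (Sum.inr k) : ℝ) * ((m : ℝ) * phq b (π 1 g) r k) :=
        Fintype.sum_sum_type _
      rw [e1, mul_sum]
      congr 1
      refine sum_congr rfl fun k _ => ?_
      rw [hm'1]
      ring
    have h2 := one_sum hSq (Ψ i) (hΨ i).1 (m' i) (hm'2 i) (B i) (hB i) p 1 L τ hτ0 h1
    simp only [mul_one] at h2
    have h3 : 1 / τ = 4 * P := by rw [hτ, one_div_one_div]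
    rw [h3] at h2
    have e2 : ∑ l ∈ Icc 1 L, Ψ i (p ^ l) * c l = (∑ l ∈ Icc 1 L, Ψ i (p ^ l)) * c 0 := by
      rw [sum_mul]
      exact sum_congr rfl fun l _ => by rw [hS'.2 c hc l]
    rw [e2, norm_mul]
    calc _ ≤ 4 * P * B i * BS := mul_le_mul h2 (hSB c hc 0) (norm_nonneg _)
          (mul_nonneg (by positivity) (hB0 i).le)
      _ ≤ 4 * P * BB * BS := by
          refine mul_le_mul_of_nonneg_right ?_ hBS.le
          exact mul_le_mul_of_nonneg_left (hBle i) (by positivity)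
      _ = P * (4 * BB * BS) := by ring
      _ ≤ P * (ε₁ * C) := mul_le_mul_of_nonneg_left hC1 hP0.le
      _ = ε₁ * (C * P) := by ring
      _ ≤ ε₁ * L := mul_le_mul_of_nonneg_left hL hε₁.le

/-- The induction step. -/
theorem eht_step (k : ℕ) (ih : EHT k) : EHT (k + 1) := by
  intro G _ _ _ A Γ β _ _ π e hN b hb T hT F hF hG ε hε
  obtain ⟨Bt, hBt, hTB⟩ := hT.bdd
  refine eht_reduce hN (k + 1 + 2) T b Bt hBt ?_ F hF hG ε hε
  clear hε ε hG hF F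
  intro F hF hG hF1 ε hε hε1
  classical
  obtain ⟨S', I, hI, Ψ, ε₁, hS', hε₁, hΨ, hstep⟩ := step_apT (k + 2) (by omega) (k + 1) T hT Bt hBt
    hTB hN b hb F hF hG hF1 ε hε hε1
  have hSq := ns_sq hN
  obtain ⟨b', hb', _⟩ := comm_form hSq
  choose Ki ρi Ci hρi hCi hmain using fun i => ih (SqG A hN.anti hN.comm hN.A0)
    (sqA A hN.anti hN.comm hN.A0) (sqΓ A hN.anti hN.comm hN.A0 Γ) (sqβ β)
    (sqπ A hN.anti hN.comm hN.A0 π) (sqe A hN.anti hN.comm hN.A0 e) hSq b' hb' S' hS' (Ψ i)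
    (hΨ i).1 (hΨ i).2.1 ε₁ hε₁
  set K₁ : ℕ := ∑ i, Ki i with hK₁
  have hKle : ∀ i, Ki i ≤ K₁ := fun i =>
    single_le_sum (f := fun i => Ki i) (fun _ _ => Nat.zero_le _) (mem_univ i)
  set C₁ : ℕ := ∑ i, Ci i with hC₁
  have hCle : ∀ i, Ci i ≤ C₁ := fun i =>
    single_le_sum (f := fun i => Ci i) (fun _ _ => Nat.zero_le _) (mem_univ i)
  set ρ₁ : ℝ := 1 / (1 + ∑ i, 1 / ρi i) with hρ₁
  have hsum0 : 0 ≤ ∑ i, 1 / ρi i := sum_nonneg fun i _ => (one_div_pos.2 (hρi i)).le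
  have hρ₁0 : 0 < ρ₁ := by positivity
  have hρle : ∀ i, ρ₁ ≤ ρi i := by
    intro i
    have h1 : 1 / ρi i ≤ ∑ i, 1 / ρi i :=
      single_le_sum (f := fun i => 1 / ρi i) (fun i _ => (one_div_pos.2 (hρi i)).le) (mem_univ i)
    rw [hρ₁, one_div_le (by positivity) (hρi i)]
    linarith
  obtain ⟨f1, f2, f3, f4, f5⟩ := sq_form hN b hb b' hb'
  obtain ⟨Bd, hBd⟩ := stepS (β₁ := β 1) (β₂ := β 2) (β₃ := β 3) b (alt_of_cf hN hb) b' f1 f2 f3 f4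
    K₁ ρ₁ hρ₁0
  obtain ⟨M, hM1, hM32, hM64⟩ := exists_MT ε hε Bd
  obtain ⟨K, ρ, C, hρ, hC1, hK⟩ := hBd M
  have hM0 : (0 : ℝ) < M := by exact_mod_cast (by omega : 0 < M)
  set C' : ℕ := C * C₁ + ⌈128 * (M : ℝ) / ε ^ 2⌉₊ + 1 with hC'
  have hC2 : 128 * (M : ℝ) ≤ ε ^ 2 * C' := by
    have h1 := Nat.le_ceil (128 * (M : ℝ) / ε ^ 2)
    rw [div_le_iff₀ (by positivity)] at h1
    have h2 : ((⌈128 * (M : ℝ) / ε ^ 2⌉₊ : ℕ) : ℝ) ≤ C' := Nat.cast_le.2 (by omega)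
    have h3 : (0 : ℝ) < ε ^ 2 := by positivity
    nlinarith
  refine ⟨max K K₁, min ρ (1 / M), C', lt_min hρ (by positivity), by omega,
    fun P hP g hTT hCd L hL x t ht => ?_⟩
  have hP0 : 0 < P := by linarith
  obtain ⟨r, hr1, hrP, hG'⟩ := hCd
  have hCr1 : (1 : ℝ) ≤ C' := by exact_mod_cast (by omega : 1 ≤ C')
  have hL0 : (0 : ℝ) < L := by nlinarith
  have hrow : RowQ (fun k j i => (b' (Sum.inr k) (Sum.inr j) (Sum.inl i) : ℝ)) K P (π 1 g) := by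
    have h1 := (hTT 2 le_rfl (by omega)).mono (le_max_left K K₁) hP0 le_rfl
    have h2 : (fun (k : β 3) (j : β 2) (i : β 1) => comc π e 2 j i k) =
        fun k j i => (b' (Sum.inr k) (Sum.inr j) (Sum.inl i) : ℝ) := by
      funext k j i
      exact (f5 k j i).symm
    rw [← h2]
    exact h1
  have hfew := hK P hP (π 1 g) hrow r (by
    rw [Int.cast_natCast, abs_of_nonneg (Nat.cast_nonneg r)]; exact hrP)
    (hG'.mono (le_max_left _ _) (min_le_left _ _) hP0 le_rfl)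
  set S : Finset ℕ := (Icc 1 M).filter fun m : ℕ => ¬ CondQ b' K₁ ρ₁ (C * P)
    (Sum.elim (π 1 g) fun k => (m : ℝ) * phq b (π 1 g) r k) with hS
  refine hstep M hM32 g r L S hL0 ?_ ?_ ?_ ?_ x t ht
  · calc 128 * ((r : ℝ) * M) ≤ 128 * (P * M) := by gcongr
      _ = P * (128 * M) := by ring
      _ ≤ P * (ε ^ 2 * C') := mul_le_mul_of_nonneg_left hC2 hP0.le
      _ = ε ^ 2 * (C' * P) := by ring
      _ ≤ ε ^ 2 * L := mul_le_mul_of_nonneg_left hL (by positivity)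
  · refine le_trans ?_ hM64
    have : (S.card : ℝ) ≤ Bd := by exact_mod_cast hfew
    linarith
  · intro j
    have h1 := hG'.1 j
    rw [Int.cast_natCast] at h1
    calc (M : ℝ) * nd (r * π 1 g j) ≤ M * (1 / M) :=
          mul_le_mul_of_nonneg_left (h1.trans (min_le_right _ _)) hM0.le
      _ = 1 := by field_simp
      _ ≤ 2 := by norm_num
  · intro m hm hmS i p hp c hc
    have h1 : CondQ b' K₁ ρ₁ (C * P) (Sum.elim (π 1 g) fun k => (m : ℝ) * phq b (π 1 g) r k) := by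
      by_contra hcon
      apply hmS
      rw [hS, mem_filter]
      exact ⟨hm, hcon⟩
    have hCr : (1 : ℝ) ≤ C := by exact_mod_cast hC1
    have hCP : (1 : ℝ) ≤ C * P := one_le_mul_of_one_le_of_one_le hCr hP
    have hCP0 : (0 : ℝ) < C * P := by linarith
    have h2 := hmain i (C * P) hCP p (by
      rw [hp]
      refine ttq_sq hN (k + 2) (Ki i) (C * P) (π 1 g) ?_ _
      exact hTT.mono ((hKle i).trans (le_max_right _ _)) hP0 (le_mul_of_one_le_left hP0.le hCr)) (by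
      rw [hp]
      exact h1.mono (hKle i) (hρle i) hCP0 le_rfl) L (by
      refine le_trans ?_ hL
      rw [← mul_assoc]
      refine mul_le_mul_of_nonneg_right ?_ hP0.le
      have h3 : Ci i * C ≤ C' := by
        calc Ci i * C ≤ C₁ * C := Nat.mul_le_mul_right _ (hCle i)
          _ = C * C₁ := by ring
          _ ≤ C' := by omega
      exact_mod_cast h3) 1 c hc
    simpa only [mul_one] using h2

theorem eht_all (k : ℕ) : EHT k := by
  induction k with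
  | zero => exact eht_zero
  | succ k ih => exact eht_step k ih

end Pool.Agent.Lib.MP_663568_nt.Q
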