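import Pool.Agent.Lib.MP_663568_q.Q18

/-!
# The condition for vectors without near relations
-/

set_option autoImplicit false
set_option linter.unusedSectionVars false
open Finset

namespace Pool.Agent.Lib.MP_663568_nt.Q

open Katai Tw Fib Nul T3 E H6

private lemma mw_bd {β₁ β₂ : Type} [Fintype β₁] [Fintype β₂] (b : β₂ → β₁ → β₁ → ℤ) (K : ℕ)
    (w : β₂ → ℤ) (hw : ∀ k, |w k| ≤ (K : ℤ)) (j i : β₁) :
    |Mw b w j i| ≤ ((K * ∑ k, ∑ j, ∑ i, (b k j i).natAbs : ℕ) : ℤ) := by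
  have h1 : (Mw b w j i).natAbs ≤ K * ∑ k, ∑ j, ∑ i, (b k j i).natAbs := by
    unfold Mw
    refine (Int.natAbs_sum_le _ _).trans ?_
    rw [mul_sum]
    refine sum_le_sum fun k _ => ?_
    rw [Int.natAbs_mul]
    refine Nat.mul_le_mul ?_ ?_
    · have := hw k
      rw [Int.abs_eq_natAbs] at this
      exact_mod_cast this
    · calc (b k j i).natAbs ≤ ∑ i, (b k j i).natAbs :=
            single_le_sum (f := fun i => (b k j i).natAbs) (fun _ _ => Nat.zero_le _) (mem_univ i)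
        _ ≤ _ := single_le_sum (f := fun j => ∑ i, (b k j i).natAbs) (fun _ _ => Nat.zero_le _)
            (mem_univ j)
  rw [Int.abs_eq_natAbs]
  exact_mod_cast h1

/-- **The condition for vectors without near relations.** -/
theorem condq_free {β₁ β₂ : Type} [Fintype β₁] [Fintype β₂] [DecidableEq β₁] [DecidableEq β₂]
    (b : β₂ → β₁ → β₁ → ℤ) (hbn : ∀ v : β₂ → ℤ, v ≠ 0 → Mw b v ≠ 0) (K : ℕ) (ρ : ℝ)
    (hρ : 0 < ρ) :
    ∃ C : ℕ, 1 ≤ C ∧ ∀ P : ℝ, 1 ≤ P → ∀ θ : β₁ → ℝ, NRq C (1 / P) θ →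
      CondQ b K ρ (C * P) θ := by
  classical
  set ρ₂ : ℝ := min ρ (1 / 4) with hρ₂
  have hρ₂0 : 0 < ρ₂ := lt_min hρ (by norm_num)
  have hρ₂4 : ρ₂ ≤ 1 / 4 := min_le_right _ _
  set WS : Finset (β₂ → ℤ) := (Fintype.piFinset fun _ => Icc (-(K + 1 : ℤ)) (K + 1)).filter
    (fun w => w ≠ 0) with hWS
  have hWmem : ∀ w : β₂ → ℤ, w ∈ WS ↔ (∀ k, |w k| ≤ (K + 1 : ℤ)) ∧ w ≠ 0 := by
    intro w
    rw [hWS, mem_filter, Fintype.mem_piFinset]
    simp only [mem_Icc, abs_le]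
  obtain ⟨Mc, hMc1, ρ', hρ'0, hρ'ρ, hcomb⟩ := comb (σ := β₁) (W := {w // w ∈ WS}) (K + 1)
    (by omega) ρ₂ hρ₂0
  obtain ⟨N₁, hN₁1, hdir₁⟩ := dirich (κ := β₁) ρ₂ hρ₂0
  obtain ⟨Cp, hCp1, hpc⟩ := ind_free (σ := β₁) ρ' hρ'0 Mc
    ((K + 1) * ∑ k, ∑ j, ∑ i, (b k j i).natAbs)
  set C : ℕ := 2 * Mc * Cp + N₁ with hC
  have hMcCp : Cp ≤ Mc * Cp := Nat.le_mul_of_pos_left _ hMc1
  have hCpC : Cp ≤ C := by
    rw [hC]
    calc Cp ≤ 2 * (Mc * Cp) + N₁ := by omega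
      _ = _ := by ring
  refine ⟨C, by omega, fun P hP θ hNR => ?_⟩
  have hP0 : 0 < P := by linarith
  have hCp0 : (0 : ℝ) < Cp := by exact_mod_cast (by omega : 0 < Cp)
  have hC0 : (0 : ℝ) < C := by exact_mod_cast (by omega : 0 < C)
  have hCP : 0 < (C : ℝ) * P := by positivity
  have hP11 : 1 / P ≤ 1 := by rw [div_le_one hP0]; exact hP
  by_cases hne : Nonempty β₂
  swap
  · -- no forms
    obtain ⟨n, hn1, hnN, hn⟩ := hdir₁ θ
    refine ⟨n, hn1, ?_, fun p => ?_, fun w hw => ?_⟩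
    · have h5 : (n : ℝ) ≤ C := by exact_mod_cast hnN.trans (by omega : N₁ ≤ C)
      exact h5.trans (le_mul_of_one_le_right (Nat.cast_nonneg _) hP)
    · push_cast
      exact (hn p).trans (min_le_left _ _)
    · exact absurd (funext fun k => absurd ⟨k⟩ hne) hw
  obtain ⟨s, hs1, hs2, hs3⟩ := hcomb θ (fun w p => ∑ q, (Mw b w.1 p q : ℝ) * θ q)
    (1 / P / Cp) (Cp * P) (by positivity) (by positivity) (by
    rintro ⟨w, hwS⟩
    obtain ⟨hwK, hw0⟩ := (hWmem w).1 hwS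
    obtain ⟨s, h5, h6, h7⟩ := hpc (1 / P) (by positivity) hP11 θ (hNR.mono hCpC le_rfl) (Mw b w)
      (fun j i => mw_bd b (K + 1) w (fun k => by push_cast; exact hwK k) j i) (hbn w hw0)
    refine ⟨s, h5.trans (le_of_eq ?_), h6, h7⟩
    rw [div_div_eq_mul_div, div_one])
  have hfin : GoodR b (K + 1) ρ₂ (C * P) θ s := by
    refine ⟨hs2, fun w hw hwK m hm hmK => ?_⟩
    have h5 := hs3 ⟨w, (hWmem w).2 ⟨fun k => by exact_mod_cast hwK k, hw⟩⟩ m hm hmK
    rw [bl_lam] at h5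
    refine le_trans ?_ h5
    rw [div_div, div_div]
    refine one_div_le_one_div_of_le (by positivity) ?_
    have h6 : 2 * (Cp : ℝ) ≤ C := by
      have : 2 * Cp ≤ C := by
        rw [hC]
        calc 2 * Cp ≤ 2 * (Mc * Cp) + N₁ := by omega
          _ = _ := by ring
      exact_mod_cast this
    calc P * (Cp * 2) = (2 * Cp) * P := by ring
      _ ≤ C * P := mul_le_mul_of_nonneg_right h6 hP0.le
  have h5 : |(s : ℝ)| ≤ C * P := by
    refine hs1.trans ?_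
    rw [← mul_assoc]
    refine mul_le_mul_of_nonneg_right ?_ hP0.le
    have : Mc * Cp ≤ C := by
      rw [hC]
      calc Mc * Cp ≤ 2 * (Mc * Cp) + N₁ := by omega
        _ = _ := by ring
    exact_mod_cast this
  exact (condq_of_int (by omega) (by linarith) hCP hne h5 hfin).mono (by omega)
    (min_le_left _ _) hCP le_rfl

/-- two multiples of one vector by different large primes have no near relations -/
lemma nrq_same {β : Type} [Fintype β] (K : ℕ) (h δ : ℝ) (α : β → ℝ) (hα : Far h δ α) (p q : ℕ)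
    (hp : p.Prime) (hq : q.Prime) (hpq : p ≠ q) (hKq : K < q)
    (hh : (K : ℝ) * (p + q) ≤ h) :
    NRq K δ (Sum.elim (fun j => (p : ℝ) * α j) (fun j => (q : ℝ) * α j) : β ⊕ β → ℝ) := by
  intro κ hκ hκK
  set k : β → ℤ := fun j => κ (Sum.inl j) * p + κ (Sum.inr j) * q with hk
  have e1 : ∑ s, (κ s : ℝ) * (Sum.elim (fun j => (p : ℝ) * α j) (fun j => (q : ℝ) * α j) :
      β ⊕ β → ℝ) s = ∑ j, (k j : ℝ) * α j := by
    rw [Fintype.sum_sum_type, ← sum_add_distrib]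
    refine sum_congr rfl fun j _ => ?_
    simp only [Sum.elim_inl, Sum.elim_inr, hk]
    push_cast
    ring
  have e1' : ∑ s, (κ s : ℝ) * (Sum.elim (fun j => (p : ℝ) * α j) (fun j => (q : ℝ) * α j) :
      β ⊕ β → ℝ) s = ∑ j, (k j : ℝ) * α j := e1
  rw [e1']
  refine hα k ?_ fun j => ?_
  · intro h0
    apply hκ
    have h1 : ∀ j, κ (Sum.inl j) = 0 ∧ κ (Sum.inr j) = 0 := by
      intro j
      have h2 : κ (Sum.inl j) * p + κ (Sum.inr j) * q = 0 := congrFun h0 j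
      have hcop : IsCoprime (p : ℤ) (q : ℤ) := by
        rw [Nat.isCoprime_iff_coprime]
        exact (Nat.coprime_primes hp hq).2 hpq
      have h3 : (q : ℤ) ∣ κ (Sum.inl j) := by
        have h4 : (q : ℤ) ∣ κ (Sum.inl j) * p := ⟨-κ (Sum.inr j), by linarith⟩
        exact hcop.symm.dvd_of_dvd_mul_right h4
      have h5 : κ (Sum.inl j) = 0 := by
        refine Int.eq_zero_of_abs_lt_dvd h3 ?_
        exact (hκK _).trans_lt (by exact_mod_cast hKq)
      refine ⟨h5, ?_⟩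
      rw [h5, zero_mul, zero_add] at h2
      rcases mul_eq_zero.1 h2 with h6 | h6
      · exact h6
      · exact absurd h6 (by exact_mod_cast hq.ne_zero)
    funext s
    rcases s with j | j
    · exact (h1 j).1
    · exact (h1 j).2
  · have h1 : |(κ (Sum.inl j) : ℝ)| ≤ K := by exact_mod_cast hκK (Sum.inl j)
    have h2 : |(κ (Sum.inr j) : ℝ)| ≤ K := by exact_mod_cast hκK (Sum.inr j)
    refine le_trans ?_ hh
    rw [hk]
    push_cast
    calc |(κ (Sum.inl j) : ℝ) * p + κ (Sum.inr j) * q| ≤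
          |(κ (Sum.inl j) : ℝ) * p| + |(κ (Sum.inr j) : ℝ) * q| := abs_add_le _ _
      _ = |(κ (Sum.inl j) : ℝ)| * p + |(κ (Sum.inr j) : ℝ)| * q := by
          rw [abs_mul, abs_mul, abs_of_nonneg (Nat.cast_nonneg p : (0 : ℝ) ≤ p),
            abs_of_nonneg (Nat.cast_nonneg q : (0 : ℝ) ≤ q)]
      _ ≤ K * p + K * q := by gcongr
      _ = K * (p + q) := by ring

end Pool.Agent.Lib.MP_663568_nt.Q
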