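import Pool.Agent.Lib.MP_663568_q.Q19
import Pool.Agent.Lib.MP_663568_q.R00
import Pool.Agent.Lib.MP_663568_q.R02
import Pool.Agent.Lib.MP_663568_q.R03

/-!
# Twisted correlations of dilates of two orbits
-/

set_option autoImplicit false
set_option linter.unusedSectionVars false
open Finset

namespace Pool.Agent.Lib.MP_663568_nt.Q

open Katai Tw Fib Nul T3 E H6

variable {G : Type} [Group G] [TopologicalSpace G] [IsTopologicalGroup G] {A : ℕ → Subgroup G}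
  {Γ : Subgroup G}
  {β : ℕ → Type} [∀ s, Fintype (β s)] [∀ s, DecidableEq (β s)]
  {π : (s : ℕ) → G → β s → ℝ} {e : (s : ℕ) → β s → ℝ → G}

/-- the products of the dilated twists -/
def pairR (T : Set (ℕ → ℂ)) : Set (ℕ → ℂ) :=
  {s | ∃ t ∈ {s | ∃ t ∈ T, ∃ p j : ℕ, s = fun l => t (p * (j + l))},
    ∃ t' ∈ {s | ∃ t ∈ {s | ∃ t ∈ T, ∃ p j : ℕ, s = fun l => t (p * (j + l))},
      s = fun l => (starRingEnd ℂ) (t l)}, s = fun l => t l * t' l}

lemma pairR_tame {d : ℕ} {T : Set (ℕ → ℂ)} (hT : Tame d T) : Tame d (pairR T) :=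
  hT.dil.mul hT.dil.conj

lemma mem_pairR {T : Set (ℕ → ℂ)} {t t' : ℕ → ℂ} (ht : t ∈ T) (ht' : t' ∈ T) (p q j : ℕ) :
    (fun l => t (p * (j + l)) * (starRingEnd ℂ) (t' (q * (j + l)))) ∈ pairR T :=
  ⟨_, ⟨t, ht, p, j, rfl⟩, _, ⟨_, ⟨t', ht', q, j, rfl⟩, rfl⟩, rfl⟩

/-- a twisted correlation is a twisted average on the product -/
lemma corr_orb {G : Type} [Group G] (T : Set (ℕ → ℂ)) (F : G → ℂ) (p q : ℕ) (η : ℝ) (L : ℕ)
    (g g' : G)
    (hL : ∀ x : G × G, ∀ τ ∈ pairR T,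
      ‖∑ l ∈ Icc 1 L, (fun y : G × G => F y.1 * (starRingEnd ℂ) (F y.2))
        ((g ^ p, g' ^ q) ^ l * x) * τ l‖ ≤ η * L)
    (x x' : G) (j : ℕ) (t t' : ℕ → ℂ) (ht : t ∈ T) (ht' : t' ∈ T) :
    ‖∑ l ∈ Icc 1 L, (F (g ^ (p * (j + l)) * x) * t (p * (j + l))) *
      (starRingEnd ℂ) (F (g' ^ (q * (j + l)) * x') * t' (q * (j + l)))‖ ≤ η * L := by
  have h1 := hL (g ^ (p * j) * x, g' ^ (q * j) * x') _ (mem_pairR ht ht' p q j)
  refine le_trans (le_of_eq ?_) h1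
  congr 1
  refine sum_congr rfl fun l _ => ?_
  have e1 : g ^ (p * (j + l)) * x = ((g ^ p, g' ^ q) ^ l * (g ^ (p * j) * x, g' ^ (q * j) * x')).1 := by
    change g ^ (p * (j + l)) * x = (g ^ p) ^ l * (g ^ (p * j) * x)
    rw [← mul_assoc, ← pow_mul, ← pow_add]
    congr 2
    ring
  have e2 : g' ^ (q * (j + l)) * x' =
      ((g ^ p, g' ^ q) ^ l * (g ^ (p * j) * x, g' ^ (q * j) * x')).2 := by
    change g' ^ (q * (j + l)) * x' = (g' ^ q) ^ l * (g' ^ (q * j) * x')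
    rw [← mul_assoc, ← pow_mul, ← pow_add]
    congr 2
    ring
  rw [e1, e2, map_mul]
  ring

private lemma pow_bd {C n D : ℕ} {X : ℝ} (hX : 1 ≤ X) (hD : D ≤ C) (hn : n ≤ C) :
    (D : ℝ) * X ^ n ≤ C * X ^ C := by
  have h1 : (D : ℝ) ≤ C := by exact_mod_cast hD
  exact mul_le_mul h1 (pow_le_pow_right₀ hX hn) (by positivity) (Nat.cast_nonneg _)

/-- Twisted correlations with distant factors. -/
theorem corr_farR (hN : NS A Γ π e) (k : ℕ) (T : Set (ℕ → ℂ)) (hT : Tame (k + 1) T) (F : G → ℂ)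
    (hF : LevN A Γ e (k + 2) F) (hG : GoodN e (k + 2) F) (η : ℝ) (hη : 0 < η) :
    ∃ C₁ : ℕ, 1 ≤ C₁ ∧ ∀ C₀ : ℕ, 1 ≤ C₀ → ∃ C : ℕ, 1 ≤ C ∧
      ∀ R d δ : ℝ, 1 ≤ R → 0 < δ → δ ≤ d → d ≤ 1 → ∀ B : ℕ, C₁ * (R / d) ≤ B →
      (B : ℝ) ≤ 2 * C₁ * (R / d) → ∀ g g' : G, GoodEl (π 1) C R d δ g →
      GoodEl (π 1) C R d δ g' → ∀ p q : ℕ, 0 < q → B * q ≤ p → p ≤ C₀ * B ^ C₀ →
      ∀ L : ℕ, C * (R / δ) ^ C ≤ L → ∀ (x x' : G) (j : ℕ), ∀ t ∈ T, ∀ t' ∈ T,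
      ‖∑ l ∈ Icc 1 L, (F (g ^ (p * (j + l)) * x) * t (p * (j + l))) *
        (starRingEnd ℂ) (F (g' ^ (q * (j + l)) * x') * t' (q * (j + l)))‖ ≤ η * L := by
  classical
  obtain ⟨hF2, hG2⟩ := lev_pr (k + 2) F hF hG
  have hNp := ns_prod hN
  obtain ⟨b', hb', _⟩ := comm_form hNp
  have hb'' : CF (prπ π) b' := hb'
  obtain ⟨K, ρ, CE, hρ, hCE, hEH⟩ := eht_all k (G × G) (prA A) (Γ.prod Γ) (prβ β) (prπ π) (pre e)
    hNp b' hb'' (pairR T) (pairR_tame hT) (fun x : G × G => F x.1 * (starRingEnd ℂ) (F x.2)) hF2 hG2 η hη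
  obtain ⟨Cc, hCc, hcond⟩ := condq_pair hN b' hb'' K ρ hρ
  obtain ⟨Ct, hCt, hrow⟩ := ttq_pair hN (k + 2) K
  refine ⟨2 * Cc, by omega, fun C₀ hC₀ => ?_⟩
  set D : ℕ := C₀ * (2 * (2 * Cc)) ^ C₀ with hD
  have hD1 : 1 ≤ D := Nat.mul_pos hC₀ (Nat.pow_pos (by omega))
  set C : ℕ := CE * Cc * D ^ 2 + D * Cc + Ct * D + 2 * C₀ + 2 with hC
  have hCcD2 : Cc * D ^ 2 ≤ C := by
    have : Cc * D ^ 2 ≤ CE * Cc * D ^ 2 := by
      rw [mul_assoc]; exact Nat.le_mul_of_pos_left _ hCE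
    omega
  have hCcC : Cc ≤ C := by
    have : Cc ≤ D * Cc := Nat.le_mul_of_pos_left _ hD1
    omega
  refine ⟨C, by omega, fun R d δ hR hδ hδd hd1 B hB1 hB2 g g' hg hg' p q hq hpq hp L hL x x' j t ht t' ht' => ?_⟩
  have hd0 : 0 < d := hδ.trans_le hδd
  set X : ℝ := R / d with hX
  set Y : ℝ := R / δ with hY
  have hRX : R ≤ X := by rw [hX, le_div_iff₀ hd0]; nlinarith
  have hX1 : 1 ≤ X := hR.trans hRX
  have hXY : X ≤ Y := by
    rw [hX, hY]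
    exact div_le_div_of_nonneg_left (by linarith) hδ hδd
  have hY1 : 1 ≤ Y := hX1.trans hXY
  have hYδ : 1 / δ ≤ Y := by rw [hY]; exact div_le_div_of_nonneg_right hR hδ.le
  have hCcr1 : (1 : ℝ) ≤ Cc := by exact_mod_cast hCc
  have hBr1 : (1 : ℝ) ≤ B := by
    refine le_trans ?_ hB1
    push_cast
    nlinarith
  have hB1n : 1 ≤ B := by exact_mod_cast hBr1
  have hqp : q ≤ p := (Nat.le_mul_of_pos_left q hB1n).trans hpq
  have hp0 : 0 < p := hq.trans_le hqp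
  have hpr : (p : ℝ) ≤ D * X ^ C₀ := by
    calc (p : ℝ) ≤ C₀ * (B : ℝ) ^ C₀ := by exact_mod_cast hp
      _ ≤ C₀ * (2 * (2 * Cc : ℕ) * X) ^ C₀ := by gcongr
      _ = D * X ^ C₀ := by rw [hD]; push_cast; rw [mul_pow]; ring
  have hqpr : (q : ℝ) ≤ p := by exact_mod_cast hqp
  have hqr1 : (1 : ℝ) ≤ q := by exact_mod_cast hq
  have hpr1 : (1 : ℝ) ≤ p := hqr1.trans hqpr
  have hD1r : (1 : ℝ) ≤ D := by exact_mod_cast hD1
  set P : ℝ := D * Y ^ (C₀ + 1) with hP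
  have hYP : Y ≤ P := by
    rw [hP]
    calc Y = 1 * Y ^ 1 := by ring
      _ ≤ D * Y ^ (C₀ + 1) := mul_le_mul hD1r (pow_le_pow_right₀ hY1 (by omega))
          (by positivity) (by positivity)
  have hP1 : 1 ≤ P := hY1.trans hYP
  have hP0 : 0 < P := by linarith
  have hPδ : 1 / P ≤ δ := by
    rw [div_le_iff₀ hP0]
    have h1 : 1 / δ ≤ P := hYδ.trans hYP
    rw [div_le_iff₀ hδ] at h1
    linarith
  have hpR : (p : ℝ) * R ≤ P := by
    calc (p : ℝ) * R ≤ (D * X ^ C₀) * X := by gcongr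
      _ ≤ (D * Y ^ C₀) * Y := by gcongr
      _ = P := by rw [hP, pow_succ]; ring
  obtain ⟨hgR, hgd, hgδ⟩ := hg
  obtain ⟨hgR', _, hgδ'⟩ := hg'
  set h : ℝ := C * X ^ C with hh
  -- the condition
  have hcd := hcond (p * R) P (q * R) (one_le_mul_of_one_le_of_one_le hpr1 hR) hpR
    (by positivity) (fun j => (p : ℝ) * π 1 g j) (fun j => (q : ℝ) * π 1 g' j) (by
      intro j
      rw [abs_mul, abs_of_nonneg (Nat.cast_nonneg p)]
      exact mul_le_mul_of_nonneg_left (hgR j) (Nat.cast_nonneg p)) (by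
      intro j
      rw [abs_mul, abs_of_nonneg (Nat.cast_nonneg q)]
      exact mul_le_mul hqpr (hgR' j) (abs_nonneg _) (Nat.cast_nonneg p)) (by
      intro j
      rw [abs_mul, abs_of_nonneg (Nat.cast_nonneg q)]
      exact mul_le_mul_of_nonneg_left (hgR' j) (Nat.cast_nonneg q)) (by
      intro k hk hkC
      refine hPδ.trans (hgδ'.scale q hq k hk fun j => ?_)
      have h1 : |(k j : ℝ)| ≤ Cc := by exact_mod_cast hkC j
      calc (q : ℝ) * |(k j : ℝ)| ≤ (D * X ^ C₀) * Cc :=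
            mul_le_mul (hqpr.trans hpr) h1 (abs_nonneg _) (by positivity)
        _ = ((D * Cc : ℕ) : ℝ) * X ^ C₀ := by push_cast; ring
        _ ≤ C * X ^ C := pow_bd hX1 (by omega) (by omega)) (by
      intro k hk hkC
      refine hPδ.trans (hgδ.scale p hp0 k hk fun j => ?_)
      calc (p : ℝ) * |(k j : ℝ)| ≤ (D * X ^ C₀) * (Cc * ((D * X ^ C₀) * X)) := by
            refine mul_le_mul hpr ((hkC j).trans ?_) (abs_nonneg _) (by positivity)
            gcongr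
        _ = ((Cc * D ^ 2 : ℕ) : ℝ) * X ^ (2 * C₀ + 1) := by push_cast; ring
        _ ≤ C * X ^ C := pow_bd hX1 hCcD2 (by omega)) (by
      intro k hk hkC
      have h1 := hgd k hk (fun j => by
        have h2 : |(k j : ℝ)| ≤ Cc := by exact_mod_cast hkC j
        exact h2.trans (by exact_mod_cast hCcC))
      have h2 := h1.trans (nd_le_abs _)
      have h3 : ∑ j, (k j : ℝ) * ((p : ℝ) * π 1 g j) = p * ∑ j, (k j : ℝ) * π 1 g j := by
        rw [mul_sum]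
        exact sum_congr rfl fun j _ => by ring
      rw [h3, abs_mul, abs_of_nonneg (Nat.cast_nonneg p)]
      have h4 : (B : ℝ) * q ≤ p := by exact_mod_cast hpq
      have h5 : (2 * Cc : ℝ) * R ≤ B * d := by
        have h6 : ((2 * Cc : ℕ) : ℝ) * X * d ≤ B * d := mul_le_mul_of_nonneg_right hB1 hd0.le
        have h7 : X * d = R := by rw [hX]; field_simp
        rw [mul_assoc, h7] at h6
        push_cast at h6
        exact h6
      calc (Cc : ℝ) * (1 + q * R) ≤ Cc * (q * R + q * R) := by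
            refine mul_le_mul_of_nonneg_left ?_ (by positivity)
            have := one_le_mul_of_one_le_of_one_le hqr1 hR
            linarith
        _ = (2 * Cc * R) * q := by ring
        _ ≤ (B * d) * q := mul_le_mul_of_nonneg_right h5 (by positivity)
        _ = (B * q) * d := by ring
        _ ≤ p * d := mul_le_mul_of_nonneg_right h4 hd0.le
        _ ≤ p * |∑ j, (k j : ℝ) * π 1 g j| := mul_le_mul_of_nonneg_left h2 (by positivity))
  have hP2 : P ≤ Cc * P ^ 2 := by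
    calc P = 1 * (P * 1) := by ring
      _ ≤ Cc * (P * P) := by gcongr
      _ = _ := by ring
  have hP'0 : 0 < (Cc : ℝ) * P ^ 2 := by linarith
  have hP'1 : 1 ≤ (Cc : ℝ) * P ^ 2 := hP1.trans hP2
  have hCtb : ∀ r : ℕ, (r : ℝ) ≤ p → (Ct : ℝ) * r ≤ h := by
    intro r hr
    calc (Ct : ℝ) * r ≤ Ct * (D * X ^ C₀) := mul_le_mul_of_nonneg_left (hr.trans hpr) (by positivity)
      _ = ((Ct * D : ℕ) : ℝ) * X ^ C₀ := by push_cast; ring
      _ ≤ C * X ^ C := pow_bd hX1 (by omega) (by omega)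
  have htt := hrow (Cc * P ^ 2) h δ hP'0 ((one_div_mono hP0 hP2).trans hPδ) p q hp0 hq
    (hCtb p le_rfl) (hCtb q hqpr) (π 1 g) (π 1 g') hgδ hgδ'
  have hπ : prπ π 1 ((g ^ p, g' ^ q) : G × G) =
      (Sum.elim (fun j => (p : ℝ) * π 1 g j) (fun j => (q : ℝ) * π 1 g' j) : prβ β 1 → ℝ) := by
    funext j
    rcases j with j | j
    · change π 1 (g ^ p) j = _
      rw [pi_pow hN]
      rfl
    · change π 1 (g' ^ q) j = _
      rw [pi_pow hN]
      rfl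
  have hmain := hEH (Cc * P ^ 2) hP'1 ((g ^ p, g' ^ q) : G × G) (by rw [hπ]; exact htt)
    (by rw [hπ]; exact hcd) L (by
      refine le_trans ?_ hL
      calc (CE : ℝ) * (Cc * P ^ 2) = ((CE * Cc * D ^ 2 : ℕ) : ℝ) * Y ^ (2 * C₀ + 2) := by
            rw [hP]; push_cast; ring
        _ ≤ C * Y ^ C := pow_bd hY1 (by omega) (by omega))
  exact corr_orb T F p q η L g g' hmain x x' j t t' ht ht'

/-- Twisted correlations of one orbit. -/
theorem corr_sameR (hN : NS A Γ π e) (k : ℕ) (T : Set (ℕ → ℂ)) (hT : Tame (k + 1) T) (F : G → ℂ)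
    (hF : LevN A Γ e (k + 2) F) (hG : GoodN e (k + 2) F) (η : ℝ) (hη : 0 < η) :
    ∃ K₀ : ℕ, ∀ K₁ : ℕ, ∃ C : ℕ, 1 ≤ C ∧
      ∀ h δ : ℝ, 0 < δ → δ ≤ 1 → (C : ℝ) ≤ h → ∀ g : G, Far h δ (π 1 g) →
      ∀ p q : ℕ, p.Prime → q.Prime → p ≠ q → K₀ < q → p ≤ K₁ → q ≤ K₁ →
      ∀ L : ℕ, C * (1 / δ) ≤ L → ∀ (x x' : G) (j : ℕ), ∀ t ∈ T, ∀ t' ∈ T,
      ‖∑ l ∈ Icc 1 L, (F (g ^ (p * (j + l)) * x) * t (p * (j + l))) *
        (starRingEnd ℂ) (F (g ^ (q * (j + l)) * x') * t' (q * (j + l)))‖ ≤ η * L := by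
  classical
  obtain ⟨hF2, hG2⟩ := lev_pr (k + 2) F hF hG
  have hNp := ns_prod hN
  obtain ⟨b', hb', hbn'⟩ := comm_form hNp
  have hb'' : CF (prπ π) b' := hb'
  obtain ⟨K, ρ, CE, hρ, hCE, hEH⟩ := eht_all k (G × G) (prA A) (Γ.prod Γ) (prβ β) (prπ π) (pre e)
    hNp b' hb'' (pairR T) (pairR_tame hT) (fun x : G × G => F x.1 * (starRingEnd ℂ) (F x.2))
    hF2 hG2 η hη
  obtain ⟨Cc, hCc, hcond⟩ := condq_free b' (fun v hv h0 => by
    obtain ⟨j, i, hji⟩ := hbn' v hv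
    exact hji (congrFun (congrFun h0 j) i)) K ρ hρ
  obtain ⟨Ct, hCt, hrow⟩ := ttq_pair hN (k + 2) K
  refine ⟨Cc, fun K₁ => ?_⟩
  set C : ℕ := 2 * Cc * K₁ + Ct * K₁ + CE * Cc with hC
  have hC1 : 1 ≤ C := by
    have : 1 ≤ CE * Cc := Nat.mul_pos hCE hCc
    omega
  refine ⟨C, hC1, fun h δ hδ hδ1 hCh g hg p q hp hq hpq hKq hpK hqK L hL x x' j t ht t' ht' => ?_⟩
  have hP1 : 1 ≤ 1 / δ := by rw [le_div_iff₀ hδ]; linarith
  have hPδ : 1 / (1 / δ) = δ := one_div_one_div δ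
  have hCcr : (1 : ℝ) ≤ Cc := by exact_mod_cast hCc
  have hpr : (p : ℝ) ≤ K₁ := by exact_mod_cast hpK
  have hqr : (q : ℝ) ≤ K₁ := by exact_mod_cast hqK
  have hCh1 : (2 * Cc * K₁ : ℝ) ≤ h := by
    refine le_trans ?_ hCh
    exact_mod_cast (by omega : 2 * Cc * K₁ ≤ C)
  have hCh2 : (Ct * K₁ : ℝ) ≤ h := by
    refine le_trans ?_ hCh
    exact_mod_cast (by omega : Ct * K₁ ≤ C)
  have hnr := nrq_same Cc h δ (π 1 g) hg p q hp hq hpq hKq (by
    refine le_trans ?_ hCh1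
    calc (Cc : ℝ) * (p + q) ≤ Cc * (K₁ + K₁) := by gcongr
      _ = _ := by ring)
  have hcd := hcond (1 / δ) hP1 _ (by rw [hPδ]; exact hnr)
  set P : ℝ := Cc * (1 / δ) with hP
  have hP0 : 0 < P := by positivity
  have hP1' : 1 ≤ P := one_le_mul_of_one_le_of_one_le hCcr hP1
  have htt := hrow P h δ hP0 (by
    have h1 : δ * P = Cc := by rw [hP]; field_simp
    rw [div_le_iff₀ hP0, h1]
    exact hCcr) p q hp.pos hq.pos
    ((mul_le_mul_of_nonneg_left hpr (Nat.cast_nonneg _)).trans hCh2)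
    ((mul_le_mul_of_nonneg_left hqr (Nat.cast_nonneg _)).trans hCh2) (π 1 g) (π 1 g) hg hg
  have hπ : prπ π 1 ((g ^ p, g ^ q) : G × G) =
      (Sum.elim (fun j => (p : ℝ) * π 1 g j) (fun j => (q : ℝ) * π 1 g j) : prβ β 1 → ℝ) := by
    funext j
    rcases j with j | j
    · change π 1 (g ^ p) j = _
      rw [pi_pow hN]
      rfl
    · change π 1 (g ^ q) j = _
      rw [pi_pow hN]
      rfl
  have hmain := hEH P hP1' ((g ^ p, g ^ q) : G × G) (by rw [hπ]; exact htt)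
    (by rw [hπ]; exact hcd) L (by
      refine le_trans ?_ hL
      rw [hP, ← mul_assoc]
      refine mul_le_mul_of_nonneg_right ?_ (by positivity)
      exact_mod_cast (by omega : CE * Cc ≤ C))
  exact corr_orb T F p q η L g g hmain x x' j t t' ht ht'

end Pool.Agent.Lib.MP_663568_nt.Q
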