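import Pool.Agent.Lib.MP_663568_q.R04
import Pool.Agent.Lib.MP_663568_tw.W05

/-!
# One window, and longer windows
-/

set_option autoImplicit false
set_option linter.unusedSectionVars false
open Finset

namespace Pool.Agent.Lib.MP_663568_nt.Q

open Katai Tw Fib Nul T3 E

/-- The criterion of Kátai for one function; the window is a bounded multiple of the length. -/
theorem natural_q (ε : ℝ) (hε : 0 < ε) :
    ∃ η : ℝ, 0 < η ∧ ∀ K₀ : ℕ, ∃ (P : Finset ℕ) (D : ℕ), 1 ≤ D ∧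
      (∀ p ∈ P, p.Prime ∧ K₀ < p) ∧
      ∀ a : ℕ → ℂ, (∀ n, ‖a n‖ ≤ 1) → Mult a → ∀ L : ℕ, 0 < L →
      ∀ f : ℕ → ℂ, (∀ n, ‖f n‖ ≤ 1) →
      (∀ p ∈ P, ∀ q ∈ P, p ≠ q → ∀ j,
        ‖∑ l ∈ Icc 1 L, f (p * (j + l)) * (starRingEnd ℂ) (f (q * (j + l)))‖ ≤ η * L) →
      ∀ X : ℕ, D * L ≤ X → ∑ n ∈ range X, ws f a n (D * L) ≤ ε * (D * L : ℕ) * X := by
  refine ⟨(ε / 16) ^ 2, by positivity, fun K₀ => ?_⟩
  obtain ⟨P₀, hPsub, hW₀⟩ := exists_finset_WW {p : ℕ | p.Prime} not_summable_one_div_on_primes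
    (2048 / ε ^ 2 + 160 / ε + 1 + (K₀ + 1))
  set P : Finset ℕ := P₀.filter fun p => K₀ < p with hPdef
  have hP : ∀ p ∈ P, p.Prime ∧ K₀ < p := fun p hp => by
    rw [hPdef, mem_filter] at hp
    exact ⟨hPsub hp.1, hp.2⟩
  have hW : 2048 / ε ^ 2 + 160 / ε + 1 ≤ WW P := by
    have h1 : WW P₀ = WW P + ∑ p ∈ P₀.filter (fun p => ¬ K₀ < p), 1 / (p : ℝ) := by
      rw [WW, WW, hPdef]
      exact (sum_filter_add_sum_filter_not P₀ (fun p => K₀ < p) _).symm
    have h2 : ∑ p ∈ P₀.filter (fun p => ¬ K₀ < p), 1 / (p : ℝ) ≤ K₀ + 1 := by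
      have h3 : ∀ p ∈ P₀.filter (fun p => ¬ K₀ < p), 1 / (p : ℝ) ≤ 1 := by
        intro p hp
        rw [mem_filter] at hp
        have h4 : (1 : ℝ) ≤ p := by exact_mod_cast (hPsub hp.1 : p.Prime).one_le
        rw [div_le_one (by linarith)]
        exact h4
      refine (sum_le_card_nsmul _ _ _ h3).trans ?_
      rw [nsmul_eq_mul, mul_one]
      have h5 : (P₀.filter (fun p => ¬ K₀ < p)).card ≤ (range (K₀ + 1)).card := by
        apply card_le_card
        intro p hp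
        rw [mem_filter] at hp
        rw [mem_range]
        omega
      rw [card_range] at h5
      exact_mod_cast h5
    linarith
  have hP' : ∀ p ∈ P, p.Prime := fun p hp => (hP p hp).1
  set K : ℝ := (P.card : ℝ) with hK
  have hK0 : 0 ≤ K := Nat.cast_nonneg _
  set D : ℕ := ⌈4 * K / ε⌉₊ + P.card + 1 with hD
  refine ⟨P, D, by omega, hP, fun a ha hmul L hL0 f hf hL X hHX => ?_⟩
  set H : ℕ := D * L with hH
  have hDH : D ≤ H := Nat.le_mul_of_pos_right D hL0
  have hmain := main_estimate_w (ι := Unit) P hP' (fun _ => f) a (fun _ => hf) ha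
    (fun p hp m hm => hmul p (hP' p hp) m hm) L hL0 ((ε / 16) ^ 2) (by positivity)
    (fun p hp q hq hpq _ _ j => hL p hp q hq hpq j) H X (by omega)
  have hGG : ∀ n, GG (fun _ : Unit => f) a H n = ws f a n H := by
    intro n
    rw [GG, ws, ciSup_const]
  simp only [hGG] at hmain
  have hsη : √((ε / 16) ^ 2) = ε / 16 := Real.sqrt_sq (by positivity)
  rw [hsη] at hmain
  set W := WW P with hWdef
  have hW1 : 1 ≤ W := by
    have : (0 : ℝ) < 2048 / ε ^ 2 + 160 / ε := by positivity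
    linarith
  have hWa : 2048 / ε ^ 2 ≤ W := by
    have : (0 : ℝ) < 160 / ε := by positivity
    linarith
  have hWb : 160 / ε ≤ W := by
    have : (0 : ℝ) < 2048 / ε ^ 2 := by positivity
    linarith
  have hs : √(2 * W) ≤ ε / 16 * W := by
    rw [Real.sqrt_le_left (by positivity)]
    rw [div_le_iff₀ (by positivity)] at hWa
    have : 2 * W ≤ 2 * W * (W * ε ^ 2 / 2048) := by
      have h1 : 1 ≤ W * ε ^ 2 / 2048 := by linarith
      nlinarith
    nlinarith
  have h5 : 4 ≤ ε / 16 * W := by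
    rw [div_le_iff₀ hε] at hWb; linarith
  have hHr : 4 * (L : ℝ) * K / ε ≤ H := by
    have h1 := Nat.le_ceil (4 * K / ε)
    have h2 : ((⌈4 * K / ε⌉₊ : ℕ) : ℝ) ≤ D := Nat.cast_le.mpr (by omega)
    have h3 : 4 * K / ε ≤ D := h1.trans h2
    rw [hH]
    push_cast
    calc 4 * (L : ℝ) * K / ε = 4 * K / ε * L := by ring
      _ ≤ D * L := mul_le_mul_of_nonneg_right h3 (Nat.cast_nonneg _)
  have hHX' : ((X + H : ℕ) : ℝ) ≤ 2 * X := by
    have : (H : ℝ) ≤ X := by exact_mod_cast hHX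
    push_cast; linarith
  have hX0 : (0 : ℝ) ≤ X := by positivity
  have hH0 : (0 : ℝ) ≤ H := by positivity
  have h6 : 2 * L * K * X ≤ ε / 2 * W * H * X := by
    rw [div_le_iff₀ hε] at hHr
    have : 2 * L * K ≤ ε / 2 * W * H := by
      have h1 : 2 * (L : ℝ) * K ≤ ε / 2 * H := by linarith
      have h2 : ε / 2 * H ≤ ε / 2 * H * W := le_mul_of_one_le_right (by positivity) hW1
      linarith
    exact mul_le_mul_of_nonneg_right this hX0
  have h7 : H * ((X + H : ℕ) : ℝ) * (√(2 * W) + 4 + ε / 16 * W) ≤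
      H * (2 * X) * (ε / 16 * W + ε / 16 * W + ε / 16 * W) := by
    have h8 : √(2 * W) + 4 + ε / 16 * W ≤ ε / 16 * W + ε / 16 * W + ε / 16 * W := by linarith
    gcongr
  have h9 : W * ∑ n ∈ range X, ws f a n H ≤ W * (ε * H * X) := by
    calc _ ≤ _ := hmain
      _ ≤ H * (2 * X) * (ε / 16 * W + ε / 16 * W + ε / 16 * W) + ε / 2 * W * H * X :=
        add_le_add h7 h6
      _ = 7 / 8 * (W * (ε * H * X)) := by ring
      _ ≤ _ := by
        have : 0 ≤ W * (ε * H * X) := by positivity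
        linarith
  exact le_of_mul_le_mul_left h9 (by linarith)

section

variable {ι : Type}

lemma ws_blocks' (F a : ℕ → ℂ) (n L k : ℕ) :
    ws F a n (k * L) ≤ ∑ j ∈ range k, ws F a (n + j * L) L := by
  induction k with
  | zero => simp [ws]
  | succ k ih =>
    rw [sum_range_succ]
    have h1 : ws F a n ((k + 1) * L) ≤ ws F a n (k * L) + ws F a (n + k * L) L := by
      unfold ws
      rw [icc_ioc (fun m => F m * a m), icc_ioc (fun m => F m * a m),
        icc_ioc (fun m => F m * a m),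
        ← sum_Ioc_consecutive (fun m => F m * a m) (m := n) (n := n + k * L)
          (k := n + (k + 1) * L) (by omega) (by nlinarith),
        show n + (k + 1) * L = n + k * L + L by ring]
      exact norm_add_le _ _
    linarith

lemma ws_split' (F a : ℕ → ℂ) (hF : ∀ n, ‖F n‖ ≤ 1) (ha : ∀ n, ‖a n‖ ≤ 1) (n H L : ℕ)
    (hL : 0 < L) : ws F a n H ≤ ∑ j ∈ range (H / L), ws F a (n + j * L) L + L := by
  have h0 := ws_blocks' F a n L (H / L)
  have h1 : ws F a n H ≤ ws F a n (H / L * L) + L := by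
    unfold ws
    have hle : H / L * L ≤ H := Nat.div_mul_le_self H L
    rw [icc_ioc (fun m => F m * a m), icc_ioc (fun m => F m * a m),
      ← sum_Ioc_consecutive (fun m => F m * a m) (m := n) (n := n + H / L * L)
        (k := n + H) (by omega) (by omega)]
    refine (norm_add_le _ _).trans (add_le_add le_rfl ?_)
    refine (norm_sum_le _ _).trans ?_
    calc ∑ m ∈ Ioc (n + H / L * L) (n + H), ‖F m * a m‖
        ≤ ∑ m ∈ Ioc (n + H / L * L) (n + H), (1 : ℝ) := by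
          refine sum_le_sum fun m _ => ?_
          rw [norm_mul]
          exact mul_le_one₀ (hF m) (norm_nonneg _) (ha m)
      _ = ((n + H - (n + H / L * L) : ℕ) : ℝ) := by simp
      _ ≤ L := by
          have h2 : H < H / L * L + L := Nat.lt_div_mul_add hL
          have : n + H - (n + H / L * L) ≤ L := by omega
          exact_mod_cast this
  linarith

/-- the supremum over long windows -/
lemma GG_up (F : ι → ℕ → ℂ) (a : ℕ → ℂ) (hF : ∀ i n, ‖F i n‖ ≤ 1) (ha : ∀ n, ‖a n‖ ≤ 1)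
    (n H L : ℕ) (hL : 0 < L) :
    GG F a H n ≤ ∑ j ∈ range (H / L), GG F a L (n + j * L) + L := by
  refine Real.iSup_le (fun i => ?_) ?_
  · refine (ws_split' (F i) a (hF i) ha n H L hL).trans (add_le_add ?_ le_rfl)
    refine sum_le_sum fun j _ => ?_
    exact le_GG F a hF ha L (n + j * L) i
  · have : 0 ≤ ∑ j ∈ range (H / L), GG F a L (n + j * L) :=
      sum_nonneg fun j _ => GG_nonneg _ _ _ _
    positivity

lemma shift_sum' (f : ℕ → ℝ) (hf : ∀ n, 0 ≤ f n) (A N c T : ℕ) (hT : N + c ≤ T) (hA : 1 ≤ A) :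
    ∑ n ∈ Icc A N, f (n + c) ≤ ∑ m ∈ Icc 1 T, f m := by
  have e : ∑ n ∈ Icc A N, f (n + c) = ∑ m ∈ (Icc A N).image (fun n => n + c), f m := by
    rw [sum_image]
    intro x _ y _ h
    simpa using h
  rw [e]
  apply sum_le_sum_of_subset_of_nonneg
  · intro m hm
    rw [mem_image] at hm
    obtain ⟨n, hn, rfl⟩ := hm
    rw [mem_Icc] at hn ⊢
    omega
  · intro m _ _; exact hf m

/-- **From windows of length `L` to windows of length `H`.** -/
theorem up_GG (F : ι → ℕ → ℂ) (a : ℕ → ℂ) (hF : ∀ i n, ‖F i n‖ ≤ 1) (ha : ∀ n, ‖a n‖ ≤ 1)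
    (H L N : ℕ) (hL : 0 < L) (hLH : L ≤ H) (hHN : H ≤ N) :
    ∑ n ∈ Icc H N, (1 / (n : ℝ)) * GG F a H n ≤
      (H / L : ℝ) * (2 * (∑ m ∈ Icc 1 N, (1 / (m : ℝ)) * GG F a L m + L)) +
        L * (1 + Real.log N) := by
  have hH0 : 0 < H := by omega
  have hLr : (0 : ℝ) < L := by exact_mod_cast hL
  have hN0 : (0 : ℝ) < N := by
    have : 0 < N := by omega
    exact_mod_cast this
  obtain ⟨g, hg⟩ : ∃ g : ℕ → ℝ, g = fun m : ℕ => (1 / (m : ℝ)) * GG F a L m := ⟨_, rfl⟩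
  have hg0 : ∀ m, 0 ≤ g m := fun m => by
    rw [hg]; exact mul_nonneg (by positivity) (GG_nonneg _ _ _ _)
  have h1 : ∀ n ∈ Icc H N, (1 / (n : ℝ)) * GG F a H n ≤
      ∑ j ∈ range (H / L), 2 * g (n + j * L) + (1 / (n : ℝ)) * L := by
    intro n hn
    rw [mem_Icc] at hn
    have hn0 : (0 : ℝ) < n := by
      have : 0 < n := by omega
      exact_mod_cast this
    have hjL : ∀ j, j < H / L → j * L ≤ H := by
      intro j hj
      have h2 : H / L * L ≤ H := Nat.div_mul_le_self H L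
      have h3 : j * L ≤ H / L * L := Nat.mul_le_mul_right L hj.le
      omega
    have h2 := GG_up F a hF ha n H L hL
    have h3 : (1 / (n : ℝ)) * GG F a H n ≤ (1 / (n : ℝ)) *
        (∑ j ∈ range (H / L), GG F a L (n + j * L) + L) :=
      mul_le_mul_of_nonneg_left h2 (by positivity)
    refine h3.trans ?_
    rw [mul_add, mul_sum]
    refine add_le_add (sum_le_sum fun j hj => ?_) le_rfl
    rw [mem_range] at hj
    rw [hg]; beta_reduce
    have h4 : 1 / (n : ℝ) ≤ 2 * (1 / ((n + j * L : ℕ) : ℝ)) := by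
      have h5 : ((n + j * L : ℕ) : ℝ) ≤ 2 * n := by
        have : n + j * L ≤ 2 * n := by
          have := hjL j hj
          omega
        exact_mod_cast this
      have h6 : (0 : ℝ) < ((n + j * L : ℕ) : ℝ) := by
        have : 0 < n + j * L := by omega
        exact_mod_cast this
      rw [mul_one_div, div_le_div_iff₀ hn0 h6]
      linarith
    calc (1 / (n : ℝ)) * GG F a L (n + j * L) ≤
        (2 * (1 / ((n + j * L : ℕ) : ℝ))) * GG F a L (n + j * L) :=
          mul_le_mul_of_nonneg_right h4 (GG_nonneg _ _ _ _)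
      _ = _ := by ring
  have h2 : ∑ m ∈ Icc 1 (N + H), g m ≤ ∑ m ∈ Icc 1 N, g m + L := by
    have e : ∑ m ∈ Icc 1 (N + H), g m = ∑ m ∈ Icc 1 N, g m + ∑ m ∈ Ioc N (N + H), g m := by
      have h := sum_Ioc_consecutive g (m := 0) (n := N) (k := N + H) (by omega) (by omega)
      have e1 : ∀ T : ℕ, Icc 1 T = Ioc 0 T := by
        intro T; ext x; rw [mem_Icc, mem_Ioc]; omega
      rw [e1, e1, h]
    rw [e]
    refine add_le_add le_rfl ?_
    calc ∑ m ∈ Ioc N (N + H), g m ≤ ∑ m ∈ Ioc N (N + H), (1 / (N : ℝ)) * L := by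
          refine sum_le_sum fun m hm => ?_
          rw [mem_Ioc] at hm
          rw [hg]; beta_reduce
          refine mul_le_mul ?_ (GG_le F a hF ha _ _) (GG_nonneg _ _ _ _) (by positivity)
          apply one_div_le_one_div_of_le hN0
          exact_mod_cast hm.1.le
      _ = (H / N) * L := by
          rw [sum_const, Nat.card_Ioc, nsmul_eq_mul, Nat.add_sub_cancel_left]; ring
      _ ≤ 1 * L := by
          apply mul_le_mul_of_nonneg_right _ hLr.le
          rw [div_le_one hN0]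
          exact_mod_cast hHN
      _ = L := one_mul _
  have h3 : ∑ n ∈ Icc H N, ∑ j ∈ range (H / L), 2 * g (n + j * L) ≤
      (H / L : ℝ) * (2 * (∑ m ∈ Icc 1 N, g m + L)) := by
    rw [sum_comm]
    calc ∑ j ∈ range (H / L), ∑ n ∈ Icc H N, 2 * g (n + j * L)
        ≤ ∑ j ∈ range (H / L), 2 * (∑ m ∈ Icc 1 N, g m + L) := by
          refine sum_le_sum fun j hj => ?_
          rw [mem_range] at hj
          rw [← mul_sum]
          have h4 : j * L ≤ H := by
            have h2 : H / L * L ≤ H := Nat.div_mul_le_self H L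
            have h3 : j * L ≤ H / L * L := Nat.mul_le_mul_right L hj.le
            omega
          have h5 := shift_sum' g hg0 H N (j * L) (N + H) (by omega) (by omega)
          linarith
      _ = ((H / L : ℕ) : ℝ) * (2 * (∑ m ∈ Icc 1 N, g m + L)) := by
          rw [sum_const, card_range, nsmul_eq_mul]
      _ ≤ _ := by
          have h6 : 0 ≤ ∑ m ∈ Icc 1 N, g m := sum_nonneg fun m _ => hg0 m
          have h7 : ((H / L : ℕ) : ℝ) ≤ (H : ℝ) / L := Nat.cast_div_le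
          gcongr
  have h4 : ∑ n ∈ Icc H N, (1 / (n : ℝ)) * L ≤ L * (1 + Real.log N) := by
    rw [← sum_mul, mul_comm]
    apply mul_le_mul_of_nonneg_left _ hLr.le
    refine le_trans ?_ (sum_inv_le_log N)
    apply sum_le_sum_of_subset_of_nonneg
    · intro n hn; rw [mem_Icc] at hn ⊢; omega
    · intro n _ _; positivity
  calc _ ≤ ∑ n ∈ Icc H N, (∑ j ∈ range (H / L), 2 * g (n + j * L) + (1 / (n : ℝ)) * L) :=
        sum_le_sum h1
    _ = ∑ n ∈ Icc H N, ∑ j ∈ range (H / L), 2 * g (n + j * L) +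
        ∑ n ∈ Icc H N, (1 / (n : ℝ)) * L := sum_add_distrib
    _ ≤ _ := by
        have e5 : ∑ m ∈ Icc 1 N, (1 / (m : ℝ)) * GG F a L m = ∑ m ∈ Icc 1 N, g m := by rw [hg]
        rw [e5]
        exact add_le_add h3 h4

end

variable {G : Type} [Group G] [TopologicalSpace G] [IsTopologicalGroup G] {A : ℕ → Subgroup G}
  {Γ : Subgroup G}
  {β : ℕ → Type} [∀ s, Fintype (β s)] [∀ s, DecidableEq (β s)]
  {π : (s : ℕ) → G → β s → ℝ} {e : (s : ℕ) → β s → ℝ → G}

/-- Windows near the origin. -/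
theorem single_R (hN : NS A Γ π e) (k : ℕ) (T : Set (ℕ → ℂ)) (hT : Tame (k + 1) T)
    (hT1 : ∀ t ∈ T, ∀ l, ‖t l‖ ≤ 1) (F : G → ℂ) (hF : LevN A Γ e (k + 2) F)
    (hG : GoodN e (k + 2) F) (hF1 : ∀ x, ‖F x‖ ≤ 1) (ε : ℝ) (hε : 0 < ε) :
    ∃ C : ℕ, 1 ≤ C ∧ ∀ a : ℕ → ℂ, (∀ n, ‖a n‖ ≤ 1) → Mult a →
      ∀ h δ : ℝ, 0 < δ → δ ≤ 1 → (C : ℝ) ≤ h → ∀ g : G, Far h δ (π 1 g) →
      ∀ x : G, ∀ t ∈ T, ∀ H n : ℕ, C * (1 / δ) ≤ H → n ≤ H →
      ws (fun m => F (g ^ m * x) * t m) a n H ≤ ε * H := by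
  classical
  obtain ⟨η, hη, hnat⟩ := natural_q (ε / 4) (by positivity)
  obtain ⟨K₀, hK₀⟩ := corr_sameR hN k T hT F hF hG η hη
  obtain ⟨P, D, hD, hP, hnatP⟩ := hnat K₀
  obtain ⟨Cc, hCc, hcorr⟩ := hK₀ (P.sup id)
  have hle : ∀ p ∈ P, p ≤ P.sup id := fun p hp => Finset.le_sup (f := id) hp
  set E : ℕ := ⌈4 / ε⌉₊ with hE
  set C : ℕ := (1 + E) * D * (2 * Cc) with hC
  have hCcC : Cc ≤ C := by
    rw [hC]
    calc Cc ≤ 2 * Cc := by omega
      _ ≤ (1 + E) * D * (2 * Cc) := Nat.le_mul_of_pos_left _ (Nat.mul_pos (by omega) hD)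
  refine ⟨C, by omega, fun a ha hmul h δ hδ hδ1 hCh g hg x t ht H n hH hn => ?_⟩
  have hδ1' : 1 ≤ 1 / δ := by rw [le_div_iff₀ hδ]; linarith
  have hCcr : (1 : ℝ) ≤ Cc := by exact_mod_cast hCc
  set L : ℕ := ⌈Cc * (1 / δ)⌉₊ with hL
  have hL1 : Cc * (1 / δ) ≤ L := Nat.le_ceil _
  have h1 : 1 ≤ Cc * (1 / δ) := one_le_mul_of_one_le_of_one_le hCcr hδ1'
  have hL2 : (L : ℝ) ≤ 2 * Cc * (1 / δ) := by
    have h2 := (Nat.ceil_lt_add_one (by positivity : 0 ≤ Cc * (1 / δ))).le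
    rw [← hL] at h2
    linarith
  have hL0 : 0 < L := by
    have : (1 : ℝ) ≤ L := h1.trans hL1
    exact_mod_cast this
  have hb : ∀ m, ‖F (g ^ m * x) * t m‖ ≤ 1 := fun m => by
    rw [norm_mul]
    exact mul_le_one₀ (hF1 _) (norm_nonneg _) (hT1 t ht m)
  refine window_small _ a hb ha ε hε (D * L) (Nat.mul_pos hD hL0) (fun X hX => ?_) H n ?_ hn
  · refine hnatP a ha hmul L hL0 (fun m => F (g ^ m * x) * t m) hb
      (fun p hp q hq hpq j => ?_) X hX
    exact hcorr h δ hδ hδ1 (le_trans (by exact_mod_cast hCcC) hCh) g hg p q (hP p hp).1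
      (hP q hq).1 hpq (hP q hq).2 (hle p hp) (hle q hq) L hL1 x x j t ht t ht
  · have h2 : ⌈4 * ((D * L : ℕ) : ℝ) / ε⌉₊ ≤ E * (D * L) := by
      refine Nat.ceil_le.2 ?_
      have h3 := Nat.le_ceil (4 / ε)
      rw [← hE] at h3
      push_cast
      calc 4 * ((D : ℝ) * L) / ε = 4 / ε * (D * L) := by ring
        _ ≤ E * (D * L) := mul_le_mul_of_nonneg_right h3 (by positivity)
    have h3 : D * L + ⌈4 * ((D * L : ℕ) : ℝ) / ε⌉₊ ≤ (1 + E) * D * L := by
      calc _ ≤ D * L + E * (D * L) := by omega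
        _ = _ := by ring
    refine h3.trans ?_
    have h4 : (((1 + E) * D * L : ℕ) : ℝ) ≤ H := by
      refine le_trans ?_ hH
      rw [hC]
      push_cast
      calc (1 + (E : ℝ)) * D * L ≤ (1 + E) * D * (2 * Cc * (1 / δ)) := by gcongr
        _ = _ := by ring
    exact_mod_cast h4

end Pool.Agent.Lib.MP_663568_nt.Q
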