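import Pool.Agent.Lib.MP_663568_q.Q17
import Pool.Agent.Lib.MP_663568_q.R00
import Pool.Agent.Lib.MP_663568_q.R05

/-!
# The uniform estimate outside the major arcs for functions of level at least two, with twists
-/

set_option autoImplicit false
set_option linter.unusedSectionVars false
open Finset

namespace Pool.Agent.Lib.MP_663568_nt.Q

open Katai Tw Fib Nul T3 E H6

/-- the index set of the family -/
abbrev IdR {G : Type} {β₁ : Type} [Fintype β₁] (p : G → β₁ → ℝ) (C : ℕ) (R d δ : ℝ)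
    (T : Set (ℕ → ℂ)) : Type :=
  {g : G // GoodEl p C R d δ g} × G × {t : ℕ → ℂ // t ∈ T}

/-- the family of the sequences `F (g ^ n x) t n` -/
noncomputable def famR {G : Type} [Group G] {β₁ : Type} [Fintype β₁] (p : G → β₁ → ℝ) (C : ℕ)
    (R d δ : ℝ) (T : Set (ℕ → ℂ)) (F : G → ℂ) (i : IdR p C R d δ T) (n : ℕ) : ℂ :=
  F ((i.1 : G) ^ n * i.2.1) * i.2.2.1 n

/-- The uniform estimate with constant `ε` outside the major arcs, with twists. -/
def MEpsR {G : Type} [Group G] {β₁ : Type} [Fintype β₁] (T : Set (ℕ → ℂ)) (p : G → β₁ → ℝ)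
    (F : G → ℂ) (ε : ℝ) : Prop :=
  ∃ C₀ : ℕ, 1 ≤ C₀ ∧ ∀ C : ℕ, C₀ ≤ C → ∀ a : ℕ → ℂ, (∀ n, ‖a n‖ ≤ 1) → Mult a →
    ∀ R d δ : ℝ, 1 ≤ R → 0 < δ → δ ≤ d → d ≤ 1 → ∀ H N : ℕ, C * (R / δ) ^ C ≤ H → H ≤ N →
    ∑ n ∈ Icc 1 N, (1 / (n : ℝ)) * GG (famR p C R d δ T F) a H n ≤ ε * H * Real.log N

variable {G : Type} [Group G] [TopologicalSpace G] [IsTopologicalGroup G] {A : ℕ → Subgroup G}
  {Γ : Subgroup G}
  {β : ℕ → Type} [∀ s, Fintype (β s)] [∀ s, DecidableEq (β s)]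
  {π : (s : ℕ) → G → β s → ℝ} {e : (s : ℕ) → β s → ℝ → G}

/-- long averages -/
theorem long_R (hN : NS A Γ π e) (k : ℕ) (T : Set (ℕ → ℂ)) (hT : Tame (k + 1) T)
    (hT1 : ∀ t ∈ T, ∀ l, ‖t l‖ ≤ 1) (F : G → ℂ) (hF : LevN A Γ e (k + 2) F)
    (hG : GoodN e (k + 2) F) (hF1 : ∀ x, ‖F x‖ ≤ 1) (ε : ℝ) (hε : 0 < ε) :
    ∃ C' : ℕ, 1 ≤ C' ∧ ∀ CC : ℕ, C' ≤ CC → ∀ a : ℕ → ℂ, (∀ n, ‖a n‖ ≤ 1) → Mult a →
      ∀ R d δ : ℝ, 1 ≤ R → 0 < δ → δ ≤ d → d ≤ 1 → ∀ H N : ℕ, C' * (R / δ) ^ C' ≤ H →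
      H ^ C' ≤ N →
      ∑ n ∈ Icc 1 N, (1 / (n : ℝ)) * GG (famR (π 1) CC R d δ T F) a H n ≤
        ε * H * Real.log N := by
  classical
  obtain ⟨η, hη, Ck, hCk, hk⟩ := klogq ε hε
  obtain ⟨C₁, hC₁, hcf⟩ := corr_farR hN k T hT F hF hG η hη
  obtain ⟨C, hC, hcorr⟩ := hcf Ck hCk
  set C' : ℕ := Ck * (2 * C₁) ^ Ck * (2 * C) + Ck + C with hC'
  refine ⟨C', by omega, fun CC hCC a ha hmul R d δ hR hδ hδd hd1 H N hH hHN => ?_⟩
  have hd0 : 0 < d := hδ.trans_le hδd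
  set X : ℝ := R / d with hX
  set Y : ℝ := R / δ with hY
  have hRX : R ≤ X := by rw [hX, le_div_iff₀ hd0]; nlinarith
  have hX1 : 1 ≤ X := hR.trans hRX
  have hXY : X ≤ Y := by
    rw [hX, hY]
    exact div_le_div_of_nonneg_left (by linarith) hδ hδd
  have hY1 : 1 ≤ Y := hX1.trans hXY
  have hC₁r : (1 : ℝ) ≤ C₁ := by exact_mod_cast hC₁
  have hCr : (1 : ℝ) ≤ C := by exact_mod_cast hC
  have hCX : 1 ≤ C₁ * X := one_le_mul_of_one_le_of_one_le hC₁r hX1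
  set B : ℕ := ⌈C₁ * X⌉₊ with hB
  have hB1 : C₁ * X ≤ B := Nat.le_ceil _
  have hB2 : (B : ℝ) ≤ 2 * C₁ * X := by
    have h1 := (Nat.ceil_lt_add_one (by positivity : 0 ≤ C₁ * X)).le
    rw [← hB] at h1
    linarith
  have hB1n : 1 ≤ B := by
    have : (1 : ℝ) ≤ B := hCX.trans hB1
    exact_mod_cast this
  obtain ⟨P, hP, hkP⟩ := hk B hB1n
  have hCY : 1 ≤ C * Y ^ C := one_le_mul_of_one_le_of_one_le hCr (one_le_pow₀ hY1)
  set L : ℕ := ⌈C * Y ^ C⌉₊ with hL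
  have hL1 : C * Y ^ C ≤ L := Nat.le_ceil _
  have hL2 : (L : ℝ) ≤ 2 * C * Y ^ C := by
    have h1 := (Nat.ceil_lt_add_one (by positivity : 0 ≤ C * Y ^ C)).le
    rw [← hL] at h1
    linarith
  have hL0 : 0 < L := by
    have : (1 : ℝ) ≤ L := hCY.trans hL1
    exact_mod_cast this
  have hHN' : H ^ Ck ≤ N := by
    refine le_trans (Nat.pow_le_pow_right ?_ (by omega)) hHN
    have h1 : (1 : ℝ) ≤ H := by
      refine le_trans ?_ hH
      refine one_le_mul_of_one_le_of_one_le ?_ (one_le_pow₀ hY1)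
      exact_mod_cast (by omega : 1 ≤ C')
    exact_mod_cast h1
  refine hkP a ha hmul L hL0 (IdR (π 1) CC R d δ T) (famR (π 1) CC R d δ T F) ?_ ?_ H N ?_ hHN'
  · intro i n
    rw [famR, norm_mul]
    exact mul_le_one₀ (hF1 _) (norm_nonneg _) (hT1 _ i.2.2.2 n)
  · rintro p hp q hq hpq ⟨⟨g, hg⟩, x, ⟨t, ht⟩⟩ ⟨⟨g', hg'⟩, x', ⟨t', ht'⟩⟩ j
    exact hcorr R d δ hR hδ hδd hd1 B hB1 hB2 g g' (hg.mono (by omega) hX1)
      (hg'.mono (by omega) hX1) p q (hP q hq).1.pos hpq (hP p hp).2 L hL1 x x' j t ht t' ht'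
  · have h1 : ((Ck * B ^ Ck * L : ℕ) : ℝ) ≤ H := by
      refine le_trans ?_ hH
      push_cast
      calc (Ck : ℝ) * (B : ℝ) ^ Ck * L ≤ Ck * (2 * C₁ * Y) ^ Ck * (2 * C * Y ^ C) := by
            have : (B : ℝ) ≤ 2 * C₁ * Y := hB2.trans (by gcongr)
            gcongr
        _ = (Ck * (2 * C₁) ^ Ck * (2 * C)) * Y ^ (Ck + C) := by
            rw [mul_pow (2 * (C₁ : ℝ)) Y, pow_add]; ring
        _ ≤ C' * Y ^ C' := by
            refine mul_le_mul ?_ (pow_le_pow_right₀ hY1 (by omega)) (by positivity)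
              (Nat.cast_nonneg _)
            exact_mod_cast (by omega : Ck * (2 * C₁) ^ Ck * (2 * C) ≤ C')
    exact_mod_cast h1

/-- The estimate for all `N ≥ H`. -/
theorem char_normR (hN : NS A Γ π e) (k : ℕ) (T : Set (ℕ → ℂ)) (hT : Tame (k + 1) T)
    (hT1 : ∀ t ∈ T, ∀ l, ‖t l‖ ≤ 1) (F : G → ℂ) (hF : LevN A Γ e (k + 2) F)
    (hG : GoodN e (k + 2) F) (hF1 : ∀ x, ‖F x‖ ≤ 1) (ε : ℝ) (hε : 0 < ε) :
    MEpsR T (π 1) F ε := by
  classical
  obtain ⟨C₁, hC₁, hlong⟩ := long_R hN k T hT hT1 F hF hG hF1 (ε / 8) (by positivity)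
  obtain ⟨C₂, hC₂, hsing⟩ := single_R hN k T hT hT1 F hF hG hF1 (ε / 8) (by positivity)
  set E : ℕ := ⌈16 / ε⌉₊ + 1 with hE
  set C₀ : ℕ := (2 * C₁) ^ C₁ + C₁ ^ 2 + E * (2 * C₁) + C₁ + C₂ + ⌈Real.exp (16 / ε + 1)⌉₊
    with hC₀
  refine ⟨C₀, by omega, fun C hC a ha hmul R d δ hR hδ hδd hd1 H N hH hHN => ?_⟩
  have hd0 : 0 < d := hδ.trans_le hδd
  have hδ1 : δ ≤ 1 := hδd.trans hd1
  set Y : ℝ := R / δ with hY
  have hYδ : 1 / δ ≤ Y := by rw [hY]; exact div_le_div_of_nonneg_right hR hδ.le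
  have hδ1' : 1 ≤ 1 / δ := by rw [le_div_iff₀ hδ]; linarith
  have hY1 : 1 ≤ Y := hδ1'.trans hYδ
  have hX1 : 1 ≤ R / d := by rw [le_div_iff₀ hd0]; linarith
  have hbd : ∀ n m : ℕ, n ≤ C → m ≤ C → (n : ℝ) * Y ^ m ≤ H := by
    intro n m hn hm
    refine le_trans ?_ hH
    have h1 : (n : ℝ) ≤ C := by exact_mod_cast hn
    exact mul_le_mul h1 (pow_le_pow_right₀ hY1 hm) (by positivity) (Nat.cast_nonneg _)
  have hC₁r : (1 : ℝ) ≤ C₁ := by exact_mod_cast hC₁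
  have hE1 : 16 / ε ≤ E := by
    have h1 := Nat.le_ceil (16 / ε)
    have h2 : ((⌈16 / ε⌉₊ : ℕ) : ℝ) ≤ E := Nat.cast_le.2 (by omega)
    exact h1.trans h2
  have hC1' : 1 ≤ C := by omega
  -- the short window
  set L : ℕ := ⌈C₁ * Y ^ C₁⌉₊ with hL
  have hL1 : C₁ * Y ^ C₁ ≤ L := Nat.le_ceil _
  have hCY : 1 ≤ C₁ * Y ^ C₁ := one_le_mul_of_one_le_of_one_le hC₁r (one_le_pow₀ hY1)
  have hL2 : (L : ℝ) ≤ 2 * C₁ * Y ^ C₁ := by
    have h1 := (Nat.ceil_lt_add_one (by positivity : 0 ≤ C₁ * Y ^ C₁)).le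
    rw [← hL] at h1
    linarith
  have hL0 : 0 < L := by
    have : (1 : ℝ) ≤ L := hCY.trans hL1
    exact_mod_cast this
  have hLr : (0 : ℝ) < L := by exact_mod_cast hL0
  have hLC : L ^ C₁ ≤ H := by
    have h1 : ((L ^ C₁ : ℕ) : ℝ) ≤ H := by
      refine le_trans ?_ (hbd ((2 * C₁) ^ C₁) (C₁ ^ 2) (by omega) (by omega))
      push_cast
      calc (L : ℝ) ^ C₁ ≤ (2 * C₁ * Y ^ C₁) ^ C₁ := by gcongr
        _ = _ := by rw [mul_pow, ← pow_mul, pow_two C₁]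
    exact_mod_cast h1
  have hEL : (E : ℝ) * L ≤ H := by
    refine le_trans ?_ (hbd (E * (2 * C₁)) C₁ (by omega) (by omega))
    push_cast
    calc (E : ℝ) * L ≤ E * (2 * C₁ * Y ^ C₁) := mul_le_mul_of_nonneg_left hL2 (Nat.cast_nonneg _)
      _ = _ := by ring
  have hLH' : (L : ℝ) ≤ ε / 16 * H := by
    have h1 : 16 / ε * L ≤ H := (mul_le_mul_of_nonneg_right hE1 hLr.le).trans hEL
    have h2 : ε / 16 * (16 / ε * L) ≤ ε / 16 * H := mul_le_mul_of_nonneg_left h1 (by positivity)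
    have h3 : ε / 16 * (16 / ε * L) = L := by field_simp
    linarith
  have hLH : L ≤ H := by
    have h1 : (1 : ℝ) ≤ E := by exact_mod_cast (by omega : 1 ≤ E)
    have h2 : (L : ℝ) ≤ H := (le_mul_of_one_le_left hLr.le h1).trans hEL
    exact_mod_cast h2
  have hH0 : 0 < H := hL0.trans_le hLH
  have hHr : (0 : ℝ) < H := by exact_mod_cast hH0
  -- the logarithm
  have hlog : 16 / ε + 1 ≤ Real.log N := by
    have h1 : Real.exp (16 / ε + 1) ≤ H := by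
      refine (Nat.le_ceil _).trans ?_
      have h2 := hbd ⌈Real.exp (16 / ε + 1)⌉₊ 0 (by omega) (Nat.zero_le _)
      rwa [pow_zero, mul_one] at h2
    have h2 : Real.exp (16 / ε + 1) ≤ N := h1.trans (by exact_mod_cast hHN)
    have h3 : (0 : ℝ) < N := (Real.exp_pos _).trans_le h2
    rwa [Real.le_log_iff_exp_le h3]
  have hε16 : 0 < 16 / ε := by positivity
  have hlog1 : 1 ≤ Real.log N := by linarith
  have hlog2 : 2 ≤ ε / 8 * Real.log N := by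
    have h1 : ε / 8 * (16 / ε) ≤ ε / 8 * Real.log N :=
      mul_le_mul_of_nonneg_left (by linarith) (by positivity)
    have h2 : ε / 8 * (16 / ε) = 2 := by field_simp; norm_num
    linarith
  have hFb : ∀ (i : IdR (π 1) C R d δ T) n, ‖famR (π 1) C R d δ T F i n‖ ≤ 1 := by
    intro i n
    rw [famR, norm_mul]
    exact mul_le_one₀ (hF1 _) (norm_nonneg _) (hT1 _ i.2.2.2 n)
  -- the windows near the origin
  have hnear : ∀ n, n ≤ H → GG (famR (π 1) C R d δ T F) a H n ≤ ε / 8 * H := by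
    intro n hn
    refine Real.iSup_le ?_ (by positivity)
    rintro ⟨⟨g, hg⟩, x, ⟨t, ht⟩⟩
    refine hsing a ha hmul (C * (R / d) ^ C) δ hδ hδ1 ?_ g hg.2.2 x t ht H n ?_ hn
    · have h1 : (C₂ : ℝ) ≤ C := by exact_mod_cast (by omega : C₂ ≤ C)
      exact h1.trans (le_mul_of_one_le_right (Nat.cast_nonneg _) (one_le_pow₀ hX1))
    · refine le_trans ?_ (hbd C₂ 1 (by omega) hC1')
      rw [pow_one]
      exact mul_le_mul_of_nonneg_left hYδ (Nat.cast_nonneg _)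
  have hA : ∑ n ∈ Icc 1 H, (1 / (n : ℝ)) * GG (famR (π 1) C R d δ T F) a H n ≤
      ε / 8 * H * (2 * Real.log N) := by
    calc _ ≤ ∑ n ∈ Icc 1 H, (1 / (n : ℝ)) * (ε / 8 * H) :=
          sum_le_sum fun n hn => mul_le_mul_of_nonneg_left (hnear n (mem_Icc.1 hn).2)
            (by positivity)
      _ = ε / 8 * H * ∑ n ∈ Icc 1 H, 1 / (n : ℝ) := by rw [← sum_mul]; ring
      _ ≤ ε / 8 * H * (2 * Real.log N) := by
          refine mul_le_mul_of_nonneg_left ?_ (by positivity)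
          refine (sum_inv_le_log H).trans ?_
          have h1 : Real.log H ≤ Real.log N := Real.log_le_log hHr (by exact_mod_cast hHN)
          linarith
  -- the long part
  have hB := hlong C (by omega) a ha hmul R d δ hR hδ hδd hd1 L N hL1 (hLC.trans hHN)
  have hup := up_GG (famR (π 1) C R d δ T F) a hFb ha H L N hL0 hLH hHN
  have hB2 : ∑ n ∈ Icc H N, (1 / (n : ℝ)) * GG (famR (π 1) C R d δ T F) a H n ≤
      ε / 4 * H * Real.log N + 2 * H + L * (1 + Real.log N) := by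
    refine hup.trans (add_le_add ?_ le_rfl)
    calc _ ≤ (H / L : ℝ) * (2 * (ε / 8 * L * Real.log N + L)) := by gcongr
      _ = _ := by field_simp; ring
  have hsplit : ∑ n ∈ Icc 1 N, (1 / (n : ℝ)) * GG (famR (π 1) C R d δ T F) a H n ≤
      ∑ n ∈ Icc 1 H, (1 / (n : ℝ)) * GG (famR (π 1) C R d δ T F) a H n +
        ∑ n ∈ Icc H N, (1 / (n : ℝ)) * GG (famR (π 1) C R d δ T F) a H n := by
    have h1 : Icc 1 N ⊆ Icc 1 H ∪ Icc H N := by
      intro n hn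
      rw [mem_Icc] at hn
      rw [mem_union, mem_Icc, mem_Icc]
      omega
    have h0 : ∀ n ∈ Icc 1 H ∪ Icc H N, 0 ≤
        (1 / (n : ℝ)) * GG (famR (π 1) C R d δ T F) a H n := fun n _ =>
      mul_nonneg (by positivity) (GG_nonneg _ _ _ _)
    refine (sum_le_sum_of_subset_of_nonneg h1 fun n hn _ => h0 n hn).trans ?_
    rw [← sum_union_inter]
    exact le_add_of_nonneg_right (sum_nonneg fun n hn =>
      mul_nonneg (by positivity) (GG_nonneg _ _ _ _))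
  have e1 : (2 : ℝ) * H ≤ ε / 8 * H * Real.log N := by
    calc (2 : ℝ) * H ≤ (ε / 8 * Real.log N) * H := mul_le_mul_of_nonneg_right hlog2 hHr.le
      _ = _ := by ring
  have e2 : (L : ℝ) * (1 + Real.log N) ≤ ε / 8 * H * Real.log N := by
    calc (L : ℝ) * (1 + Real.log N) ≤ (ε / 16 * H) * (2 * Real.log N) :=
          mul_le_mul hLH' (by linarith) (by linarith) (by positivity)
      _ = _ := by ring
  have e3 : 0 ≤ ε * H * Real.log N := by positivity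
  calc _ ≤ ε / 8 * H * (2 * Real.log N) +
        (ε / 4 * H * Real.log N + ε / 8 * H * Real.log N + ε / 8 * H * Real.log N) := by
        refine hsplit.trans (add_le_add hA (hB2.trans ?_))
        exact add_le_add (add_le_add le_rfl e1) e2
    _ = 3 / 4 * (ε * H * Real.log N) := by ring
    _ ≤ ε * H * Real.log N := by linarith

end Pool.Agent.Lib.MP_663568_nt.Q
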