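import Pool.Agent.Lib.MP_663568_q.R07
import Pool.Agent.Lib.MP_663568_tw.W09
import Pool.Agent.Lib.MP_663568_e.E19
import Pool.Agent.Lib.MP_663568_tw.V11

/-!
# The estimate outside the major arcs, with twists by nilsequences of lower step
-/

set_option autoImplicit false
set_option linter.unusedSectionVars false
open Finset MeasureTheory

namespace Pool.Agent.Lib.MP_663568_nt.Q

open Katai Tw Fib Nul T3 E H6

section

variable {G : Type} [Group G] [TopologicalSpace G] [IsTopologicalGroup G] {A : ℕ → Subgroup G}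
  {Γ : Subgroup G}
  {β : ℕ → Type} [∀ s, Fintype (β s)] [∀ s, DecidableEq (β s)]
  {π : (s : ℕ) → G → β s → ℝ} {e : (s : ℕ) → β s → ℝ → G}

/-- The estimate with tame twists. -/
theorem mean_tameR (hN : NS A Γ π e) (t : ℕ) (ht : A (t + 1) = ⊥)
    [MeasurableSpace (G ⧸ Γ)] [BorelSpace (G ⧸ Γ)] (m : Measure (G ⧸ Γ)) [IsProbabilityMeasure m]
    (hm : ∀ g : G, m.map (fun x => g • x) = m) (s : ℕ) (hs : 2 ≤ s) (T : Set (ℕ → ℂ))
    (hT : Tame (s - 1) T)
    (f : G ⧸ Γ → ℂ) (hf : Continuous f)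
    (hf0 : ∀ φ : G ⧸ Γ → ℂ, Continuous φ → (∀ z ∈ A s, ∀ x : G ⧸ Γ, φ (z • x) = φ x) →
      ∫ x, f x * (starRingEnd ℂ) (φ x) ∂m = 0) (ε : ℝ) (hε : 0 < ε) :
    MEpsR T (π 1) (fun x : G => f (x : G ⧸ Γ)) ε := by
  classical
  obtain ⟨B₁, hB₁, hTB⟩ := hT.bdd
  have hCo := coc_prime hN
  set F0 : G → ℂ := fun x : G => f (x : G ⧸ Γ) with hF0
  have hF0r : Reg Γ F0 := ⟨hf.comp QuotientGroup.continuous_mk, fun x γ hγ => by
    simp only [hF0]
    rw [QuotientGroup.mk_mul_of_mem x hγ]⟩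
  have hnorm : (A s).Normal := by
    refine ⟨fun z hz g => ?_⟩
    have h1 : g * z * g⁻¹ * z⁻¹ ∈ A s := by
      have h2 := hN.comm 0 s (Subgroup.commutator_mem_commutator (g₁ := g) (g₂ := z)
        (by rw [hN.A0]; trivial) hz)
      rw [zero_add] at h2
      simpa [commutatorElement_def] using h2
    have h3 := (A s).mul_mem h1 hz
    rwa [inv_mul_cancel_right] at h3
  have hQ0 : Ort m (A s) F0 := by
    intro F' φ hF' hφ hinv
    have e1 : F' = f := by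
      funext x
      obtain ⟨y, rfl⟩ := QuotientGroup.mk_surjective x
      exact hF' y
    rw [e1]
    exact hf0 φ hφ hinv
  obtain ⟨ι, hι, lev, F, c, hF1, hF2⟩ := level_decomp_Q A hN.anti hN.comm hN.A1 Γ hCo (esL e)
    (esL_onep hN) (esL_gen hN) (Ort m (A s))
    (fun φ hφ hQ s' hs' e' he' n => ort_pop m hN hm (A s) hnorm φ hφ hQ e'
      (esL_onep hN s' hs' e' he').1 n)
    (fun φ hφ hQ c => ort_mul m (A s) φ hφ hQ c)
    (fun ι t F h => ort_sum m hN (A s) ι t F h)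
    t F0 hF0r
    (by
      rw [ht]
      intro z hz x
      rw [Subgroup.mem_bot.mp hz, one_mul]) hQ0 (ε / (8 * B₁)) (by positivity)
  -- the constant
  have hc : ‖c‖ ≤ ε / (8 * B₁) := by
    have hd : ∀ i, ∃ F' : G ⧸ Γ → ℂ, Continuous F' ∧ ∀ x : G, F' (x : G ⧸ Γ) = F i x := fun i =>
      exists_descend (hF1 i).2.1.1
    choose F' hF'c hF' using hd
    have hone : ∀ z ∈ A s, ∀ x : G ⧸ Γ, (fun _ : G ⧸ Γ => (1 : ℂ)) (z • x) =
        (fun _ : G ⧸ Γ => (1 : ℂ)) x := fun _ _ _ => rfl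
    have hz : ∀ i, ∫ x, F' i x ∂m = 0 := by
      intro i
      have := (hF1 i).2.2.2 (F' i) (fun _ => 1) (hF' i) continuous_const hone
      simpa using this
    have hz0 : ∫ x, f x ∂m = 0 := by
      have := hf0 (fun _ => 1) continuous_const hone
      simpa using this
    have hcpt : CompactSpace (G ⧸ Γ) := by
      obtain ⟨C, hC1, hC2⟩ := hCo
      refine ⟨?_⟩
      have : (Set.univ : Set (G ⧸ Γ)) = (fun g : G => (g : G ⧸ Γ)) '' C := by
        ext x
        simp only [Set.mem_univ, true_iff]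
        obtain ⟨g, rfl⟩ := QuotientGroup.mk_surjective x
        obtain ⟨c, hc, γ, hγ, e⟩ := hC2 g
        exact ⟨c, hc, (coe_eq_of_mul Γ _ _ _ hγ e).symm⟩
      rw [this]
      exact hC1.image QuotientGroup.continuous_mk
    have hint : ∀ {φ : G ⧸ Γ → ℂ}, Continuous φ → Integrable φ m := fun {φ} hφ => by
      obtain ⟨B, hB⟩ : ∃ B : ℝ, ∀ x, ‖φ x‖ ≤ B := by
        have h1 : IsCompact (Set.range fun x => ‖φ x‖) := isCompact_range (by fun_prop)
        obtain ⟨B, hB⟩ := h1.bddAbove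
        exact ⟨B, fun x => hB ⟨x, rfl⟩⟩
      exact Integrable.of_bound hφ.aestronglyMeasurable B (Filter.Eventually.of_forall hB)
    have e1 : ∫ x, (f x - ∑ i, F' i x - c) ∂m = -c := by
      have i1 : Integrable (fun x => ∑ i, F' i x) m :=
        integrable_finsetSum _ fun i _ => hint (hF'c i)
      have i2 : Integrable (fun x => f x - ∑ i, F' i x) m := (hint hf).sub i1
      rw [integral_sub i2 (integrable_const _), integral_sub (hint hf) i1,
        hz0, integral_finsetSum _ (fun i _ => hint (hF'c i))]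
      simp [hz]
    have e2 : ‖∫ x, (f x - ∑ i, F' i x - c) ∂m‖ ≤ ε / (8 * B₁) := by
      have := norm_integral_le_of_norm_le_const (μ := m) (f := fun x => f x - ∑ i, F' i x - c)
        (C := ε / (8 * B₁)) (Filter.Eventually.of_forall fun x => by
          obtain ⟨y, rfl⟩ := QuotientGroup.mk_surjective x
          have := hF2 y
          simpa only [hF'] using this)
      simpa using this
    rw [e1, norm_neg] at e2
    exact e2
  refine mepsR_approx T hT.bdd B₁ hB₁ hTB (π 1) F0 ε hε ι F (fun i => ?_) (fun i => ?_)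
    (fun x => ?_)
  · obtain ⟨B, _, hB⟩ := reg_bdd hCo (hF1 i).2.1.1
    exact ⟨B, hB⟩
  · have hL := (lev_iff (lev i) (F i)).1 (hF1 i).2.1
    have hGd := (good_iff (lev i) (F i)).1 (hF1 i).2.2.1
    by_cases h2 : s ≤ lev i
    · obtain ⟨k, hk⟩ : ∃ k, lev i = k + 2 := ⟨lev i - 2, by omega⟩
      rw [hk] at hL hGd
      exact char_R hN k T (hT.mono (by omega)) (F i) hL hGd _ (by positivity)
    · refine mepsR_zero _ _ _ (fun x => ?_) _ (by positivity)
      refine ort_zero m hN hm (A s) (F i) (hF1 i).2.1.1 ?_ (hF1 i).2.2.2 x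
      intro z hz y
      exact (hF1 i).2.1.2.1 z (hN.anti (by omega : lev i + 1 ≤ s) hz) y
  · calc _ = ‖(F0 x - ∑ i, F i x - c) + c‖ := by congr 1; ring
      _ ≤ ε / (8 * B₁) + ε / (8 * B₁) := (norm_add_le _ _).trans (add_le_add (hF2 x) hc)
      _ = ε / (4 * B₁) := by field_simp; ring

end

/-- nilsequences of the function `ψ` times polynomial phases of degree at most `d` -/
def NilR {K : Type} [Group K] (d : ℕ) (ψ : K → ℂ) : Set (ℕ → ℂ) :=
  {t | ∃ (h y : K) (q : ℕ → ℝ), PP d q ∧ t = fun l => ψ (h ^ l * y) * ee (q l)}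

/-- Products of nilsequences of step at most `d` and polynomial phases of degree at most `d`. -/
theorem nilR_qtm {K : Type} [Group K] [TopologicalSpace K] [IsTopologicalGroup K]
    {B : ℕ → Subgroup K} {Λ : Subgroup K} {β : ℕ → Type} [∀ s, Fintype (β s)]
    [∀ s, DecidableEq (β s)] {π : (s : ℕ) → K → β s → ℝ} {e : (s : ℕ) → β s → ℝ → K}
    (hN : NS B Λ π e) (d : ℕ) (hd : 1 ≤ d) (ψ : K → ℂ) (hr : Reg Λ ψ)
    (hinv : Inv (B (d + 1)) ψ) : QTm d (NilR d ψ) := by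
  intro ε hε
  obtain ⟨ι, hι, Ψ, hΨ, happ⟩ := dec_lev hN d hd ψ hr hinv ε hε
  have h1 : Tame d (⋃ i, NilT (Ψ i)) :=
    Tame.iUnion fun i => nil_tame d hd K B Λ β π e hN (Ψ i) (hΨ i)
  refine ⟨_, h1.mul (tame_pp d), ι, hι, ?_⟩
  rintro t ⟨h, y, q, hq, rfl⟩
  refine ⟨fun i l => Ψ i (h ^ l * y) * ee (q l), fun i => Or.inl
    ⟨fun l => Ψ i (h ^ l * y), Set.mem_iUnion.2 ⟨i, h, y, rfl⟩, fun l => ee (q l),
      ⟨q, hq, rfl⟩, rfl⟩, fun l => ?_⟩
  have e1 : ψ (h ^ l * y) * ee (q l) - ∑ i, Ψ i (h ^ l * y) * ee (q l) =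
      (ψ (h ^ l * y) - ∑ i, Ψ i (h ^ l * y)) * ee (q l) := by
    rw [sub_mul, sum_mul]
  simp only
  rw [e1, norm_mul, norm_ee, mul_one]
  exact happ _

/-- The estimate with twists by nilsequences of lower step and polynomial phases. -/
theorem mean_nilR {G : Type} [Group G] [TopologicalSpace G] [IsTopologicalGroup G]
    {A : ℕ → Subgroup G} {Γ : Subgroup G}
    {β : ℕ → Type} [∀ s, Fintype (β s)] [∀ s, DecidableEq (β s)]
    {π : (s : ℕ) → G → β s → ℝ} {e : (s : ℕ) → β s → ℝ → G}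
    (hN : NS A Γ π e) (t : ℕ) (ht : A (t + 1) = ⊥)
    [MeasurableSpace (G ⧸ Γ)] [BorelSpace (G ⧸ Γ)] (m : Measure (G ⧸ Γ)) [IsProbabilityMeasure m]
    (hm : ∀ g : G, m.map (fun x => g • x) = m) (d : ℕ) (hd : 1 ≤ d)
    (f : G ⧸ Γ → ℂ) (hf : Continuous f)
    (hf0 : ∀ φ : G ⧸ Γ → ℂ, Continuous φ → (∀ z ∈ A (d + 1), ∀ x : G ⧸ Γ, φ (z • x) = φ x) →
      ∫ x, f x * (starRingEnd ℂ) (φ x) ∂m = 0)
    {K : Type} [Group K] [TopologicalSpace K] [IsTopologicalGroup K]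
    {B : ℕ → Subgroup K} {Λ : Subgroup K} {β' : ℕ → Type} [∀ s, Fintype (β' s)]
    [∀ s, DecidableEq (β' s)] {π' : (s : ℕ) → K → β' s → ℝ} {e' : (s : ℕ) → β' s → ℝ → K}
    (hN' : NS B Λ π' e') (ψ : K → ℂ) (hr : Reg Λ ψ) (hinv : Inv (B (d + 1)) ψ)
    (ε : ℝ) (hε : 0 < ε) :
    MEpsR (NilR d ψ) (π 1) (fun x : G => f (x : G ⧸ Γ)) ε := by
  have hCo := coc_prime hN
  have hF0r : Reg Γ (fun x : G => f (x : G ⧸ Γ)) :=
    ⟨hf.comp QuotientGroup.continuous_mk, fun x γ hγ => by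
      simp only
      rw [QuotientGroup.mk_mul_of_mem x hγ]⟩
  obtain ⟨B₀, hB₀, hB⟩ := reg_bdd hCo hF0r
  exact mepsR_qtm d (π 1) _ B₀ hB hB₀ (fun S hS ε' hε' => mean_tameR hN t ht m hm (d + 1)
    (by omega) S hS f hf hf0 ε' hε') _ (nilR_qtm hN' d hd ψ hr hinv) ε hε

/-- bounded families -/
lemma nilR_bdd {K : Type} [Group K] [TopologicalSpace K] {Λ : Subgroup K} (hC : Cocompact' Λ)
    (d : ℕ) (ψ : K → ℂ) (hr : Reg Λ ψ) : BddF (NilR d ψ) := by
  obtain ⟨B₀, hB₀, hB⟩ := reg_bdd hC hr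
  refine ⟨B₀, hB₀, ?_⟩
  rintro t ⟨h, y, q, hq, rfl⟩ l
  rw [norm_mul, norm_ee, mul_one]
  exact hB _

end Pool.Agent.Lib.MP_663568_nt.Q
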