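import Pool.Agent.Lib.MP_663568_q.R09
import Pool.Agent.Lib.MP_663568_h6.AbsQ
import Pool.Agent.Lib.MP_663568_e.E20

/-!
# Functions of mean zero: the spectrum
-/

set_option autoImplicit false
set_option linter.unusedSectionVars false
open Finset MeasureTheory

namespace Pool.Agent.Lib.MP_663568_nt.Q

open Katai Tw Fib Nul T3 E H6

/-- the linear phases -/
noncomputable def phF (y : ℝ) (n : ℕ) : ℂ := ee (n * y)

private lemma icc_range (g : ℕ → ℂ) (L : ℕ) : ∑ l ∈ Icc 1 L, g l = ∑ l ∈ range L, g (l + 1) := by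
  induction L with
  | zero => simp
  | succ L ih => rw [sum_Icc_succ_top (by omega), ih, sum_range_succ]

/-- small sets of linear phases -/
theorem phases_small (ε : ℝ) (hε : 0 < ε) :
    ∃ v : ℝ, 0 < v ∧ ∃ K : ℕ, 1 ≤ K ∧ ∀ al : ℕ → ℂ, (∀ n, ‖al n‖ ≤ 1) → Mult al →
      ∀ u δ : ℝ, 0 < u → u ≤ 1 / 2 → 0 < δ → δ ≤ 1 →
      ∀ H N : ℕ, (K : ℝ) * (1 / (u * δ)) ^ K ≤ H → H ≤ N → ∀ 𝒜 : ℕ → Set ℝ,
      (∀ j, volume {y : ℝ | y ∈ Set.Icc (0 : ℝ) 1 ∧ ∃ α ∈ 𝒜 j, nd (α - y) ≤ 2 * u} ≤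
        ENNReal.ofReal v) →
      ∑ n ∈ Icc 1 N, (1 / (n : ℝ)) * GS phF al (S0 id 𝒜 (K * (1 / u) ^ K) δ n) H n ≤
        ε * H * Real.log N := by
  refine small_sets phF id 1 le_rfl (fun i n => by rw [phF, norm_ee]) ?_ ?_ ε hε
  · intro i d hd
    refine ⟨d * i, fun n => ?_, 0, ?_⟩
    · simp only [phF]
      congr 1
      push_cast
      ring
    · simp
  · intro ε hε
    refine ⟨1, le_rfl, 1 + 1 / (2 * ε), by
      have : 0 < 1 / (2 * ε) := by positivity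
      linarith, ?_⟩
    intro κ hκ hκ1 L hL i i' j hs
    have h1 := hs 1 le_rfl (by norm_num)
    rw [Nat.cast_one, one_mul, id, id] at h1
    have h2 := geom_far L (i - i') κ hκ h1
    have e1 : ∑ l ∈ Icc 1 L, phF i (j + l) * (starRingEnd ℂ) (phF i' (j + l)) =
        ee ((j + 1) * (i - i')) * ∑ l ∈ range L, ee ((l : ℝ) * (i - i')) := by
      rw [mul_sum, icc_range]
      refine sum_congr rfl fun l _ => ?_
      rw [phF, phF, Katai.conj_ee, ← ee_add, ← ee_add]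
      congr 1
      push_cast
      ring
    rw [e1, norm_mul, norm_ee, one_mul]
    have h3 : ‖∑ l ∈ range L, ee ((l : ℝ) * (i - i'))‖ ≤ 1 / (2 * κ) := by
      refine abs_le_of_sq_le_sq' ?_ (by positivity) |>.2
      refine h2.trans (le_of_eq ?_)
      field_simp
      norm_num
    refine h3.trans ?_
    have h4 : (1 + 1 / (2 * ε)) ≤ L * κ := by rwa [div_le_iff₀ hκ] at hL
    rw [div_le_iff₀ (by positivity)]
    have h5 : ε * (1 / (2 * ε)) = 1 / 2 := by field_simp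
    have h6 : ε * (1 + 1 / (2 * ε)) ≤ ε * (L * κ) := mul_le_mul_of_nonneg_left h4 hε.le
    rw [mul_add, h5] at h6
    nlinarith

end Pool.Agent.Lib.MP_663568_nt.Q
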