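import Pool.Agent.Lib.MP_663568_q.S01

/-!
# The pieces of a function of mean zero
-/

set_option autoImplicit false
set_option linter.unusedSectionVars false
open Finset MeasureTheory

namespace Pool.Agent.Lib.MP_663568_nt.Q

open Katai Tw Fib Nul T3 E H6

/-- the sequences `F (g ^ n x)` -/
noncomputable def orbF {G : Type} [Group G] (F : G → ℂ) (i : G × G) (n : ℕ) : ℂ :=
  F (i.1 ^ n * i.2)

/-- the average of the suprema over the families `𝒢` -/
noncomputable def AvF {G : Type} [Group G] (F : G → ℂ) (a : ℕ → ℂ) (𝒢 : ℕ → Set G)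
    (H N : ℕ) : ℝ :=
  ∑ n ∈ Icc 1 N, (1 / (n : ℝ)) * GS (orbF F) a {i | i.1 ∈ 𝒢 (Nat.log 4 n)} H n

variable {G : Type} [Group G] [TopologicalSpace G] [IsTopologicalGroup G] {A : ℕ → Subgroup G}
  {Γ : Subgroup G}
  {β : ℕ → Type} [∀ s, Fintype (β s)] [∀ s, DecidableEq (β s)]
  {π : (s : ℕ) → G → β s → ℝ} {e : (s : ℕ) → β s → ℝ → G}

/-- the `d / R` neighbourhood of the image of `𝒢 j` under the character `k` has measure at most
`v` -/
def SmallK (π : (s : ℕ) → G → β s → ℝ) (k : β 1 → ℤ) (v R d : ℝ) (𝒢 : ℕ → Set G) : Prop :=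
  ∀ j, volume {y : ℝ | y ∈ Set.Icc (0 : ℝ) 1 ∧ ∃ g ∈ 𝒢 j, nd (hf π k g - y) ≤ d / R} ≤
    ENNReal.ofReal v

/-- the estimate for the linear phases of the character `k` -/
def EstK (π : (s : ℕ) → G → β s → ℝ) (k : β 1 → ℤ) (a : ℕ → ℂ) (𝒢 : ℕ → Set G) (v : ℝ)
    (H N : ℕ) : Prop :=
  ∑ n ∈ Icc 1 N, (1 / (n : ℝ)) *
    GS phF a {y | ∃ g ∈ 𝒢 (Nat.log 4 n), y = hf π k g} H n ≤ v * H * Real.log N

/-- the estimate for `F` with constant `ε` follows from those for the characters in `S` with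
constant `v` -/
def SpOK (π : (s : ℕ) → G → β s → ℝ) (F : G → ℂ) (S : Finset (β 1 → ℤ)) (v : ℝ) (C₀ : ℕ)
    (ε : ℝ) : Prop :=
  ∀ C : ℕ, C₀ ≤ C → ∀ a : ℕ → ℂ, (∀ n, ‖a n‖ ≤ 1) → Mult a →
    ∀ R d δ : ℝ, 1 ≤ R → 0 < δ → δ ≤ d → d ≤ 1 → ∀ H N : ℕ, C * (R / δ) ^ C ≤ H → H ≤ N →
    ∀ 𝒢 : ℕ → Set G, (∀ j, ∀ g ∈ 𝒢 j, GoodEl (π 1) C R d δ g) →
    (∀ k ∈ S, SmallK π k v R d 𝒢 ∨ EstK π k a 𝒢 v H N) → AvF F a 𝒢 H N ≤ ε * H * Real.log N

/-- functions of level at least two -/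
theorem spOK_two (hN : NS A Γ π e) (k : ℕ) (F : G → ℂ) (hF : LevN A Γ e (k + 2) F)
    (hG : GoodN e (k + 2) F) (ε : ℝ) (hε : 0 < ε) :
    ∃ C₀ : ℕ, 1 ≤ C₀ ∧ SpOK π F ∅ 1 C₀ ε := by
  have hCo : Cocompact' Γ := by
    obtain ⟨C, hC1, _, hC3⟩ := hN.coc 0
    exact ⟨C, hC1, fun x => hC3 x (by rw [hN.A0]; trivial)⟩
  obtain ⟨B, _, hB⟩ := reg_bdd hCo hF.1
  set T : Set (ℕ → ℂ) := {fun _ => 1} with hT
  have hT0 : Tame 0 T := by
    refine ⟨⟨1, one_pos, ?_⟩, ?_⟩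
    · rintro t rfl l
      simp
    · rintro t rfl l
      rfl
  obtain ⟨C₀, hC₀, h⟩ := char_R hN k T (hT0.mono (Nat.zero_le _)) F hF hG ε hε
  refine ⟨C₀, hC₀, fun C hC a ha hmul R d δ hR hδ hδd hd1 H N hH hHN 𝒢 h𝒢 _ => ?_⟩
  refine le_trans (sum_le_sum fun n _ => ?_) (h C hC a ha hmul R d δ hR hδ hδd hd1 H N hH hHN)
  refine mul_le_mul_of_nonneg_left ?_ (by positivity)
  refine Real.iSup_le ?_ (GG_nonneg _ _ _ _)
  rintro ⟨⟨g, x⟩, hg⟩
  refine le_trans (le_of_eq ?_) (le_GGR (T := T) (F := F) ⟨B, hB⟩ hT0.bdd ha H n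
    (⟨g, h𝒢 _ g hg⟩, x, ⟨fun _ => 1, rfl⟩))
  congr 1
  refine sum_congr rfl fun h _ => ?_
  simp only [famR, orbF, mul_one]

lemma spOK_zero (F : G → ℂ) (hF : ∀ x, F x = 0) (ε : ℝ) (hε : 0 < ε) :
    SpOK π F ∅ 1 1 ε := by
  intro C hC a ha hmul R d δ hR hδ hδd hd1 H N hH hHN 𝒢 h𝒢 _
  have hGG : ∀ n, GS (orbF F) a {i | i.1 ∈ 𝒢 (Nat.log 4 n)} H n = 0 := by
    intro n
    refine le_antisymm (Real.iSup_le (fun i => ?_) le_rfl) (GG_nonneg _ _ _ _)
    have : ∑ h ∈ Icc 1 H, orbF F i.1 (n + h) * a (n + h) = 0 :=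
      sum_eq_zero fun h _ => by simp only [orbF]; rw [hF, zero_mul]
    rw [this, norm_zero]
  unfold AvF
  simp only [hGG, mul_zero, sum_const_zero]
  have h5 : 0 ≤ (H : ℝ) * Real.log N := mul_nonneg (by positivity) (Real.log_natCast_nonneg N)
  calc (0 : ℝ) ≤ ε * (H * Real.log N) := mul_nonneg hε.le h5
    _ = _ := by ring

/-- characters -/
theorem spOK_one (hN : NS A Γ π e) (F : G → ℂ) (hF : LevN A Γ e 1 F) (k : β 1 → ℤ) (hk0 : k ≠ 0)
    (hk : ∀ j, Freq (e 1 j) (k j) F) (ε : ℝ) (hε : 0 < ε) :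
    ∃ (v : ℝ) (C₀ : ℕ), 0 < v ∧ 1 ≤ C₀ ∧ SpOK π F {k} v C₀ ε := by
  classical
  have hCo : Cocompact' Γ := by
    obtain ⟨C, hC1, _, hC3⟩ := hN.coc 0
    exact ⟨C, hC1, fun x => hC3 x (by rw [hN.A0]; trivial)⟩
  obtain ⟨B, hB0, hB⟩ := reg_bdd hCo hF.1
  obtain ⟨v₁, hv₁, K, hK, hsm⟩ := phases_small (ε / B) (by positivity)
  set km : ℕ := ∑ j, (k j).natAbs with hkm
  have hkle : ∀ j, |(k j : ℝ)| ≤ km := by
    intro j
    have h1 : (k j).natAbs ≤ km := single_le_sum (f := fun j => (k j).natAbs)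
      (fun _ _ => Nat.zero_le _) (mem_univ j)
    have h2 : |(k j : ℝ)| = ((k j).natAbs : ℝ) := by
      rw [Nat.cast_natAbs]; push_cast; rfl
    rw [h2]
    exact_mod_cast h1
  set C₀ : ℕ := K * 2 ^ K * km + K * 2 ^ K + 2 * K with hC₀
  refine ⟨min v₁ (ε / B), C₀, lt_min hv₁ (by positivity), by
    have : 1 ≤ 2 * K := by omega
    omega, ?_⟩
  intro C hC a ha hmul R d δ hR hδ hδd hd1 H N hH hHN 𝒢 h𝒢 hyp
  have hd0 : 0 < d := hδ.trans_le hδd
  have hδ1 : δ ≤ 1 := hδd.trans hd1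
  have hR0 : 0 < R := by linarith
  have hX1 : 1 ≤ R / d := by rw [le_div_iff₀ hd0]; linarith
  have hY1 : 1 ≤ R / δ := by rw [le_div_iff₀ hδ]; linarith
  have hHr : (0 : ℝ) ≤ H := Nat.cast_nonneg _
  have hlog : 0 ≤ Real.log N := Real.log_natCast_nonneg N
  -- comparison with the phases
  have hcmp : ∀ n, GS (orbF F) a {i | i.1 ∈ 𝒢 (Nat.log 4 n)} H n ≤
      B * GS phF a {y | ∃ g ∈ 𝒢 (Nat.log 4 n), y = hf π k g} H n := by
    intro n
    refine Real.iSup_le ?_ (mul_nonneg hB0.le (GG_nonneg _ _ _ _))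
    rintro ⟨⟨g, x⟩, hg⟩
    have e1 : ∑ h ∈ Icc 1 H, orbF F (g, x) (n + h) * a (n + h) =
        F x * ∑ h ∈ Icc 1 H, phF (hf π k g) (n + h) * a (n + h) := by
      rw [mul_sum]
      refine sum_congr rfl fun h _ => ?_
      have e2 : F (g ^ (n + h) * x) = ee (hf π k (g ^ (n + h))) * F x :=
        lev_act hN le_rfl hF.2.1 k hk (by rw [hN.A1]; trivial) x
      simp only [orbF, phF]
      rw [e2, hf_pow hN]
      ring
    rw [e1, norm_mul]
    refine mul_le_mul (hB x) ?_ (norm_nonneg _) hB0.le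
    exact le_GG (fun i : {y // y ∈ {y | ∃ g ∈ 𝒢 (Nat.log 4 n), y = hf π k g}} => phF i.1) a
      (fun i m => by rw [phF, norm_ee]) ha H n ⟨hf π k g, g, hg, rfl⟩
  have hsum : AvF F a 𝒢 H N ≤ B * ∑ n ∈ Icc 1 N, (1 / (n : ℝ)) *
      GS phF a {y | ∃ g ∈ 𝒢 (Nat.log 4 n), y = hf π k g} H n := by
    rw [mul_sum]
    refine sum_le_sum fun n _ => ?_
    calc _ ≤ (1 / (n : ℝ)) * (B * GS phF a {y | ∃ g ∈ 𝒢 (Nat.log 4 n), y = hf π k g} H n) :=
          mul_le_mul_of_nonneg_left (hcmp n) (by positivity)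
      _ = _ := by ring
  refine hsum.trans ?_
  have hfin : ∑ n ∈ Icc 1 N, (1 / (n : ℝ)) *
      GS phF a {y | ∃ g ∈ 𝒢 (Nat.log 4 n), y = hf π k g} H n ≤ ε / B * H * Real.log N := by
    rcases hyp k (mem_singleton_self k) with h1 | h1
    · -- small sets
      set u : ℝ := d / (2 * R) with hu
      have hu0 : 0 < u := by positivity
      have h2u : 2 * u = d / R := by rw [hu]; field_simp
      have hu2 : u ≤ 1 / 2 := by
        rw [hu, div_le_div_iff₀ (by positivity) (by norm_num)]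
        linarith
      have hiu : 1 / u = 2 * (R / d) := by rw [hu]; field_simp
      have hK0 : (0 : ℝ) ≤ K := Nat.cast_nonneg _
      have hcast : ((K * 2 ^ K : ℕ) : ℝ) = K * 2 ^ K := by push_cast; ring
      have hlev : (K : ℝ) * (1 / u) ^ K * (1 + km) ≤ C * (R / d) ^ C := by
        rw [hiu, mul_pow]
        calc (K : ℝ) * (2 ^ K * (R / d) ^ K) * (1 + km) =
              ((K * 2 ^ K * km + K * 2 ^ K : ℕ) : ℝ) * (R / d) ^ K := by push_cast; ring
          _ ≤ C * (R / d) ^ C := by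
              refine mul_le_mul ?_ (pow_le_pow_right₀ hX1 (by omega)) (by positivity)
                (Nat.cast_nonneg _)
              exact_mod_cast (by omega : K * 2 ^ K * km + K * 2 ^ K ≤ C)
      have hH' : (K : ℝ) * (1 / (u * δ)) ^ K ≤ H := by
        refine le_trans ?_ hH
        have h2 : 1 / (u * δ) ≤ 2 * (R / δ) ^ 2 := by
          have e1 : 1 / (u * δ) = 2 * (R / δ) * (1 / d) := by rw [hu]; field_simp
          rw [e1]
          have h3 : 1 / d ≤ R / δ := by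
            rw [div_le_div_iff₀ hd0 hδ]
            nlinarith
          calc 2 * (R / δ) * (1 / d) ≤ 2 * (R / δ) * (R / δ) :=
                mul_le_mul_of_nonneg_left h3 (by positivity)
            _ = _ := by ring
        calc (K : ℝ) * (1 / (u * δ)) ^ K ≤ K * (2 * (R / δ) ^ 2) ^ K := by gcongr
          _ = ((K * 2 ^ K : ℕ) : ℝ) * (R / δ) ^ (2 * K) := by
              rw [mul_pow, ← pow_mul, hcast]; ring
          _ ≤ C * (R / δ) ^ C := by
              refine mul_le_mul ?_ (pow_le_pow_right₀ hY1 (by omega)) (by positivity)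
                (Nat.cast_nonneg _)
              exact_mod_cast (by omega : K * 2 ^ K ≤ C)
      set 𝒜 : ℕ → Set ℝ := fun j => {y | ∃ g ∈ 𝒢 j, y = hf π k g} with h𝒜
      have h2 := hsm a ha hmul u δ hu0 hu2 hδ hδ1 H N hH' hHN 𝒜 (by
        intro j
        refine le_trans (measure_mono ?_) ((h1 j).trans
          (ENNReal.ofReal_le_ofReal (min_le_left _ _)))
        rintro y ⟨hy, α, ⟨g, hg, rfl⟩, hα⟩
        exact ⟨hy, g, hg, by rw [← h2u]; exact hα⟩)
      refine le_trans (sum_le_sum fun n _ => ?_) h2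
      refine mul_le_mul_of_nonneg_left ?_ (by positivity)
      refine Real.iSup_le ?_ (GG_nonneg _ _ _ _)
      rintro ⟨y, g, hg, rfl⟩
      have hmem : hf π k g ∈ S0 id 𝒜 (K * (1 / u) ^ K) δ n := by
        refine ⟨fun q hq1 hqQ => ?_, hf π k g, ⟨g, hg, rfl⟩, 0, by simp⟩
        have h3 := (h𝒢 _ g hg).2.2 (fun j => (q : ℤ) * k j) (by
          intro h0
          apply hk0
          funext j
          have := congrFun h0 j
          simp only [Pi.zero_apply, mul_eq_zero] at this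
          rcases this with h4 | h4
          · omega
          · exact h4) (by
          intro j
          refine le_trans ?_ hlev
          push_cast
          rw [abs_mul, abs_of_nonneg (Nat.cast_nonneg q : (0 : ℝ) ≤ q)]
          calc (q : ℝ) * |(k j : ℝ)| ≤ (K * (1 / u) ^ K) * (1 + km) := by
                refine mul_le_mul hqQ ((hkle j).trans (by linarith)) (abs_nonneg _)
                  (by positivity))
        refine h3.trans (le_of_eq ?_)
        congr 1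
        rw [id, hf, mul_sum]
        refine sum_congr rfl fun j _ => ?_
        push_cast
        ring
      exact le_GG (fun i : {y // y ∈ S0 id 𝒜 (K * (1 / u) ^ K) δ n} => phF i.1) a
        (fun i m => by rw [phF, norm_ee]) ha H n ⟨hf π k g, hmem⟩
    · refine le_trans h1 ?_
      refine mul_le_mul_of_nonneg_right (mul_le_mul_of_nonneg_right (min_le_right _ _) hHr) hlog
  calc B * _ ≤ B * (ε / B * H * Real.log N) := mul_le_mul_of_nonneg_left hfin hB0.le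
    _ = ε * H * Real.log N := by field_simp

end Pool.Agent.Lib.MP_663568_nt.Q
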